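import Pool.Agent.N4.Abg.Stmt

/-! Alternative algebras: basic identities. -/

namespace Pool.Agent.N4.Abg

section
variable {A : Type*} [NonUnitalNonAssocRing A]

/-- The associator `(pq)r - p(qr)`. -/
def as (p q r : A) : A := (p * q) * r - p * (q * r)

/-- The commutator `pq - qp`. -/
def cm (p q : A) : A := p * q - q * p

variable [AltRing A]

theorem altL (x y z : A) : as x y z + as y x z = 0 := by
  have h := AltRing.left_alt (x + y) z
  have h1 := AltRing.left_alt x z
  have h2 := AltRing.left_alt y z
  simp only [as]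
  simp only [add_mul, mul_add] at h
  rw [h1, h2] at h
  rw [← sub_eq_zero.mpr h]; abel

theorem altR (x y z : A) : as x y z + as x z y = 0 := by
  have h := AltRing.right_alt (y + z) x
  have h1 := AltRing.right_alt y x
  have h2 := AltRing.right_alt z x
  simp only [as]
  simp only [add_mul, mul_add] at h
  rw [h1, h2] at h
  rw [← sub_eq_zero.mpr h]; abel

theorem as_swap12 (x y z : A) : as y x z = - as x y z := by
  have := altL x y z; rw [add_comm] at this; exact eq_neg_of_add_eq_zero_left this

theorem as_swap23 (x y z : A) : as x z y = - as x y z := by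
  have := altR x y z; rw [add_comm] at this; exact eq_neg_of_add_eq_zero_left this

theorem as_cyc (x y z : A) : as y z x = as x y z := by
  rw [as_swap23 y x z, as_swap12 x y z, neg_neg]

/-- `[(p,q,r), s] = (pq,r,s) + (qr,p,s) + (rp,q,s)`. -/
theorem as_comm (p q r s : A) :
    as (p * q) r s + as (q * r) p s + as (r * p) q s = cm (as p q r) s := by
  have e1 := altR (r*p) q s
  have e2 := altR (q*r) p s
  have e3 := altL (q*r) s p
  have e4 := altL (s*q) p r
  have e5 := altR (s*q) p r
  have e6 := altL (r*s) p q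
  have e7 := altR p (q*r) s
  have e8 := altR r (s*q) p
  have e9 := altR p (r*s) q
  have e10 := congrArg (· * r) (altL p s q)
  have e11 := altR (s*p) q r
  have e12 := altL (s*p) r q
  have e13 := altR s (q*r) p
  have e14 := congrArg (· * q) (altR r p s)
  have e15 := altL (p*s) r q
  have e16 := altL r s (p*q)
  have e17 := altR s (p*q) r
  have e18 := altL (s*q) r p
  have e19 := altR (p*s) q r
  have e20 := congrArg (r * ·) (altL p s q)
  have e21 := congrArg (p * ·) (altL q s r)
  have e22 := congrArg (p * ·) (altR q r s)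
  rw [← sub_eq_zero]
  have key : as (p * q) r s + as (q * r) p s + as (r * p) q s - cm (as p q r) s =
    (as (r*p) q s + as (r*p) s q) + (as (q*r) p s + as (q*r) s p) - (as (q*r) s p + as s (q*r) p)
    - (as (s*q) p r + as p (s*q) r) + (as (s*q) p r + as (s*q) r p) + (as (r*s) p q + as p (r*s) q)
    + (as p (q*r) s + as p s (q*r)) + (as r (s*q) p + as r p (s*q)) - (as p (r*s) q + as p q (r*s))
    - (as p s q + as s p q) * r + (as (s*p) q r + as (s*p) r q) - (as (s*p) r q + as r (s*p) q)
    + (as s (q*r) p + as s p (q*r)) - (as r p s + as r s p) * q - (as (p*s) r q + as r (p*s) q)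
    + (as r s (p*q) + as s r (p*q)) - (as s (p*q) r + as s r (p*q)) - (as (s*q) r p + as r (s*q) p)
    + (as (p*s) q r + as (p*s) r q) - r * (as p s q + as s p q) - p * (as q s r + as s q r)
    + p * (as q r s + as q s r) := by
    simp only [as, cm, mul_sub, sub_mul, mul_add, add_mul]
    abel
  rw [key]
  simp only [altL, altR, mul_zero, zero_mul, add_zero, sub_zero]

/-- `D_{p,q}(r)` written with commutators and associators. -/
def dd (p q r : A) : A := cm (cm p q) r - (3 : ℤ) • as p q r

/-- `D_{p,q} = [L_p,L_q] + [R_p,R_q] + [L_p,R_q]` evaluated at `r`. -/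
theorem dd_eq (p q r : A) :
    (p * (q * r) - q * (p * r)) + ((r * q) * p - (r * p) * q) + (p * (r * q) - (p * r) * q)
      = dd p q r := by
  have key : (p * (q * r) - q * (p * r)) + ((r * q) * p - (r * p) * q)
      + (p * (r * q) - (p * r) * q) - dd p q r =
      (as p q r + as q p r) + (as p q r + as p r q) - (2:ℤ) • (as r p q + as p r q)
      + (as r p q + as r q p) := by
    simp only [as, dd, cm, mul_sub, sub_mul, smul_sub]
    abel
  rw [← sub_eq_zero, key]
  simp only [altL, altR, add_zero, sub_zero, smul_zero]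

/-- `D_{p,q}` is a derivation. -/
theorem dd_mul (p q r s : A) : dd p q (r * s) = dd p q r * s + r * dd p q s := by
  rw [← sub_eq_zero]
  have key : dd p q (r * s) - (dd p q r * s + r * dd p q s) =
    (2 : ℤ) • (as (p * q) r s + as r (p * q) s)
    + (-2 : ℤ) • (as (q * p) r s + as r (q * p) s)
    + (1 : ℤ) • (as r (q * p) s + as r s (q * p))
    + (-1 : ℤ) • (as r (p * q) s + as r s (p * q))
    + (3 : ℤ) • (as p r (q * s) + as r p (q * s))
    + (-3 : ℤ) • (as r (q * s) p + as r p (q * s))
    + (3 : ℤ) • (as (r * q) p s + as (r * q) s p)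
    + (-3 : ℤ) • (as q (r * s) p + as q p (r * s))
    + (-3 : ℤ) • (as (r * q) p s + as p (r * q) s)
    + (-3 : ℤ) • (r * (as q s p + as s q p))
    + (-3 : ℤ) • (r * (as p s q + as s p q))
    + (3 : ℤ) • (r * (as p q s + as p s q))
    + (3 : ℤ) • (as q r (s * p) + as r q (s * p))
    + (-3 : ℤ) • (as (q * r) p s + as p (q * r) s)
    + (3 : ℤ) • ((as r p q + as r q p) * s)
    + (-3 : ℤ) • ((as q r p + as r q p) * s)
    + (3 : ℤ) • (as (p * r) q s + as q (p * r) s)
    + (3 : ℤ) • ((as q p r + as q r p) * s)
    + (-3 : ℤ) • ((as q r s + as r q s) * p)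
    + (3 : ℤ) • (as (q * r) p s + as (q * r) s p)
    + (-3 : ℤ) • ((as p r q + as r p q) * s)
    + (3 : ℤ) • (r * (as s p q + as s q p))
    + (3 : ℤ) • (q * (as s p r + as s r p))
    + (-3 : ℤ) • (q * (as r s p + as s r p))
    + (-3 : ℤ) • (q * (as p s r + as s p r))
    + (3 : ℤ) • (q * (as p r s + as p s r))
    + (-3 : ℤ) • (p * (as q r s + as r q s)) := by
    simp only [as, dd, cm, mul_sub, sub_mul, mul_add, add_mul, smul_sub, smul_add,
      smul_mul_assoc, mul_smul_comm]
    abel
  rw [key]
  simp only [altL, altR, mul_zero, zero_mul, add_zero, smul_zero]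

theorem cm_cyc (p q r : A) : cm (p * q) r + cm (q * r) p + cm (r * p) q = (3 : ℤ) • as p q r := by
  have e1 := as_cyc p q r
  have e2 := as_cyc q r p
  have : cm (p * q) r + cm (q * r) p + cm (r * p) q = as p q r + as q r p + as r p q := by
    simp only [as, cm]; abel
  rw [this, e2, e1]; abel

/-- `D_{pq,r} + D_{qr,p} + D_{rp,q} = 0`. -/
theorem dd_cyc (p q r s : A) : dd (p * q) r s + dd (q * r) p s + dd (r * p) q s = 0 := by
  have h : dd (p * q) r s + dd (q * r) p s + dd (r * p) q s =
      cm (cm (p * q) r + cm (q * r) p + cm (r * p) q) s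
      - (3 : ℤ) • (as (p * q) r s + as (q * r) p s + as (r * p) q s) := by
    simp only [dd, cm, mul_sub, sub_mul, mul_add, add_mul, smul_sub, smul_add]
    abel
  rw [h, as_comm, cm_cyc]
  simp only [cm, smul_mul_assoc, mul_smul_comm]
  abel

omit [AltRing A] in
theorem cm_self (p : A) : cm p p = 0 := sub_self _

theorem as_self (p q : A) : as p p q = 0 := by
  simp only [as]; rw [AltRing.left_alt, sub_self]

theorem dd_self (p q : A) : dd p p q = 0 := by
  simp only [dd, as_self, cm_self]; simp [cm]

omit [AltRing A] in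
/-- Derivations commute with the formation of `D_{p,q}`. -/
theorem deriv_dd (δ : A →+ A) (hδ : ∀ x y, δ (x * y) = δ x * y + x * δ y) (p q r : A) :
    δ (dd p q r) = dd (δ p) q r + dd p (δ q) r + dd p q (δ r) := by
  simp only [dd, cm, as, map_sub, map_zsmul, hδ, mul_sub, sub_mul, mul_add, add_mul, smul_sub,
    smul_add]
  abel

end
end Pool.Agent.N4.Abg
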