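import Pool.Agent.N4.Abg.Hom

/-! Identification of a Lie algebra satisfying `IsABG` with `ABG K A`. -/

set_option linter.unusedSectionVars false

open scoped TensorProduct

namespace Pool.Agent.N4.Abg

open Pool.Agent.N4.CE

attribute [local instance 100] LieRing.ofAssociativeRing

section kap
variable (K : Type*) [Field K]

/-- The two models of `𝔰𝔩₃`. -/
def kap : S3 K ≃ₗ[K] sl3 K where
  toFun X := ⟨X.1, X.2⟩
  invFun X := ⟨X.1, X.2⟩
  map_add' _ _ := rfl
  map_smul' _ _ := rfl
  left_inv _ := rfl
  right_inv _ := rfl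

theorem kap_val (X : S3 K) : (kap K X).val = X.1 := rfl

theorem kap_br (X Y : S3 K) : kap K (brS3 X Y) = ⁅kap K X, kap K Y⁆ := by
  ext1
  rw [LieAlgebra.SpecialLinear.sl_bracket]; rfl

theorem kap_an [CharZero K] (X Y : S3 K) : kap K (anS3 X Y) = anti K (kap K X) (kap K Y) := by
  ext1
  rw [anti_val, kap_val, kap_val, kap_val]
  simp only [anS3, one_div, smul_smul]

end kap

section mm
variable (K : Type*) [Field K] (A : Type*) [NonUnitalNonAssocRing A] [Module K A]

/-- The two models of `𝓑(A)`. -/
def baE : BA K A ≃ₗ[K] BB K A where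
  toFun x := x
  invFun x := x
  map_add' _ _ := rfl
  map_smul' _ _ := rfl
  left_inv _ := rfl
  right_inv _ := rfl

variable {K A} in
/-- Every element of `𝔰𝔩₃ ⊗ A ⊕ 𝓑(A)` is a sum of generators. -/
theorem MM.induction {P : MM K A → Prop} (hS : ∀ X p, P (tS X p)) (hW : ∀ p q, P (wS K p q))
    (h0 : P 0) (ha : ∀ x y, P x → P y → P (x + y)) (x : MM K A) : P x := by
  obtain ⟨a, β⟩ := x
  have h1 : ∀ a : S3 K ⊗[K] A, P (a, 0) := by
    intro a
    induction a using TensorProduct.induction_on with
    | zero => exact h0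
    | tmul X p => exact hS X p
    | add x y hx hy =>
      have h := ha _ _ hx hy
      have e : ((x, 0) : MM K A) + ((y, 0) : MM K A) = (x + y, 0) := Prod.ext rfl (add_zero _)
      exact (congrArg P e).mp h
  have h2 : ∀ t : A ⊗[K] A, P (0, (relB K A).mkQ t) := by
    intro t
    induction t using TensorProduct.induction_on with
    | zero => exact h0
    | tmul p q => exact hW p q
    | add x y hx hy =>
      have h := ha _ _ hx hy
      have e : ((0, (relB K A).mkQ x) : MM K A) + ((0, (relB K A).mkQ y) : MM K A) =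
          (0, (relB K A).mkQ (x + y)) := Prod.ext (add_zero _) (map_add (relB K A).mkQ x y).symm
      exact (congrArg P e).mp h
  obtain ⟨t, rfl⟩ := Submodule.mkQ_surjective (relB K A) β
  have h3 := ha _ _ (h1 a) (h2 t)
  have e : ((a, 0) : MM K A) + ((0, (relB K A).mkQ t) : MM K A) = (a, (relB K A).mkQ t) :=
    Prod.ext (add_zero _) (zero_add _)
  exact (congrArg P e).mp h3

theorem actM_tS (X Y : S3 K) (p : A) : actM X (tS Y p) = tS (brS3 X Y) p := by
  refine Prod.ext ?_ rfl
  exact LinearMap.rTensor_tmul _ _ _ _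

theorem actM_wS (X : S3 K) (p q : A) : actM X (wS K p q) = 0 := by
  refine Prod.ext ?_ rfl
  exact map_zero (LinearMap.rTensor A (adS3 X))

variable [CharZero K] [IsScalarTower K A A] [SMulCommClass K A A] [AltRing A]

/-- The two models of the underlying space. -/
noncomputable def mE : MM K A ≃ₗ[K] ABG K A where
  toFun x := (TensorProduct.congr (kap K) (LinearEquiv.refl K A) x.1, baE K A x.2)
  invFun y := ((TensorProduct.congr (kap K) (LinearEquiv.refl K A)).symm y.1, (baE K A).symm y.2)
  map_add' x y := by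
    apply ABG.ext
    · exact map_add (TensorProduct.congr (kap K) (LinearEquiv.refl K A)) x.1 y.1
    · exact map_add (baE K A) x.2 y.2
  map_smul' c x := by
    apply ABG.ext
    · exact map_smul (TensorProduct.congr (kap K) (LinearEquiv.refl K A)) c x.1
    · exact map_smul (baE K A) c x.2
  left_inv x := by
    refine Prod.ext ?_ ?_
    · exact LinearEquiv.symm_apply_apply _ _
    · rfl
  right_inv y := by
    apply ABG.ext
    · exact LinearEquiv.apply_symm_apply _ _
    · rfl

theorem mE_tS (X : S3 K) (p : A) : mE K A (tS X p) = sEl K A (kap K X) p := by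
  apply ABG.ext
  · exact TensorProduct.congr_tmul (kap K) (LinearEquiv.refl K A) X p
  · exact map_zero (baE K A)

theorem mE_wS (p q : A) : mE K A (wS K p q) = bEl K A (wedge K A p q) := by
  apply ABG.ext
  · exact map_zero (TensorProduct.congr (kap K) (LinearEquiv.refl K A))
  · rfl

end mm

section
variable {K A L : Type*} [Field K] [CharZero K] [NonUnitalNonAssocRing A] [Module K A]
  [IsScalarTower K A A] [SMulCommClass K A A] [AltRing A] [LieRing L] [LieAlgebra K L]
  {e : MM K A →ₗ[K] L} (hL : IsABG e)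

/-- The identification of the underlying spaces. -/
noncomputable def phi : L ≃ₗ[K] ABG K A :=
  (LinearEquiv.ofBijective e hL.bij).symm ≪≫ₗ mE K A

theorem phi_e (x : MM K A) : phi hL (e x) = mE K A x := by
  show mE K A ((LinearEquiv.ofBijective e hL.bij).symm ((LinearEquiv.ofBijective e hL.bij) x)) = _
  rw [LinearEquiv.symm_apply_apply]

omit [CharZero K] [LieRing L] [LieAlgebra K L] in
theorem DD_eq (p q r : A) : DD K p q r = Dbar K A (wedge K A p q) r := by
  rw [Dbar_wedge]
  rfl

/-- The identification is an isomorphism of Lie algebras. -/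
theorem phi_lie (x y : L) : phi hL ⁅x, y⁆ = ⁅phi hL x, phi hL y⁆ := by
  obtain ⟨x, rfl⟩ := hL.bij.2 x
  obtain ⟨y, rfl⟩ := hL.bij.2 y
  have hSW : ∀ (X : S3 K) (p q r : A), phi hL ⁅e (wS K p q), e (tS X r)⁆ =
      ⁅phi hL (e (wS K p q)), phi hL (e (tS X r))⁆ := by
    intro X p q r
    rw [hL.b_sl, phi_e, phi_e, phi_e, mE_tS, mE_tS, mE_wS]
    apply ABG.ext
    · rw [lie_fst, sEl_fst, sEl_fst, sEl_snd, bEl_fst, bEl_snd]
      simp only [map_zero, LinearMap.zero_apply, zero_add, sub_zero, DD_eq, actS_tmul]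
    · rw [lie_snd, sEl_fst, sEl_snd, sEl_snd, bEl_fst, bEl_snd]
      simp only [map_zero, LinearMap.zero_apply, add_zero]
  induction x using MM.induction with
  | h0 => simp
  | ha x x' hx hx' => rw [map_add, add_lie, map_add, map_add, add_lie, hx, hx']
  | hS X p =>
    induction y using MM.induction with
    | h0 => simp
    | ha x x' hx hx' => rw [map_add, lie_add, map_add, map_add, lie_add, hx, hx']
    | hS Y q =>
      rw [hL.sl_sl, phi_e, phi_e, phi_e, map_add, map_add, map_smul, mE_tS, mE_tS, mE_tS, mE_tS,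
        mE_wS]
      apply ABG.ext
      · rw [lie_fst, ABG.add_fst, ABG.add_fst, ABG.smul_fst]
        simp only [sEl_fst, sEl_snd, bEl_fst, ssS_tmul, map_zero, LinearMap.zero_apply, add_zero,
          sub_zero, smul_zero, kap_br, kap_an, one_div]
      · rw [lie_snd, ABG.add_snd, ABG.add_snd, ABG.smul_snd]
        simp only [sEl_fst, sEl_snd, bEl_snd, ssB_tmul, map_zero, add_zero, zero_add, kap_val,
          one_div, smul_smul]
    | hW r s => rw [← lie_skew, map_neg, hSW, lie_skew]
  | hW p q =>
    induction y using MM.induction with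
    | h0 => simp
    | ha x x' hx hx' => rw [map_add, lie_add, map_add, map_add, lie_add, hx, hx']
    | hS Y q => exact hSW _ _ _ _
    | hW r s =>
      rw [hL.b_b, phi_e, phi_e, phi_e, map_add, mE_wS, mE_wS, mE_wS, mE_wS]
      apply ABG.ext
      · rw [lie_fst, ABG.add_fst]
        simp only [bEl_fst, bEl_snd, map_zero, add_zero, sub_zero]
      · rw [lie_snd, ABG.add_snd]
        simp only [bEl_fst, bEl_snd, map_zero, LinearMap.zero_apply, zero_add, DD_eq, actB_wedge]

theorem act_eq (X : S3 K) (x : L) : phi hL (actL hL X x) = slDer K A (kap K X) (phi hL x) := by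
  obtain ⟨x, rfl⟩ := hL.bij.2 x
  have h : actL hL X (e x) = e (actM X x) := by
    show e (actM X ((LinearEquiv.ofBijective e hL.bij).symm
      ((LinearEquiv.ofBijective e hL.bij) x))) = _
    rw [LinearEquiv.symm_apply_apply]
  rw [h, phi_e, phi_e]
  clear h
  induction x using MM.induction with
  | h0 => simp
  | ha x x' hx hx' => simp only [map_add, hx, hx']
  | hS Y p =>
    rw [actM_tS, mE_tS, mE_tS]
    apply ABG.ext
    · rw [slDer_fst, sEl_fst, sEl_fst, aS_tmul, kap_br]
    · rw [slDer_snd, sEl_snd]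
  | hW p q =>
    rw [actM_wS, mE_wS, map_zero]
    apply ABG.ext
    · rw [slDer_fst, bEl_fst, map_zero, ABG.zero_fst]
    · rw [slDer_snd, ABG.zero_snd]

/-- `𝔰𝔩₃` acts by derivations. -/
theorem act_der' (X : S3 K) (x y : L) :
    actL hL X ⁅x, y⁆ = ⁅actL hL X x, y⁆ + ⁅x, actL hL X y⁆ := by
  apply (phi hL).injective
  rw [act_eq, phi_lie hL, LieDerivation.apply_lie_eq_add, map_add, phi_lie hL, phi_lie hL, act_eq,
    act_eq, add_comm]

end

end Pool.Agent.N4.Abg
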