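import Mathlib

/-! The Chevalley–Eilenberg complex of a Lie algebra with trivial coefficients. -/

namespace Pool.Agent.N4.CE

open ExteriorAlgebra

section
variable {K : Type*} [Field K] {L : Type*} [AddCommGroup L] [Module K L]

/-- Auxiliary map: `m ↦ ((x, y) ↦ (D m) ∧ x + m ∧ y)`. -/
def thetaF (D : L →ₗ[K] L) :
    L →ₗ[K] ExteriorAlgebra K L × ExteriorAlgebra K L →ₗ[K] ExteriorAlgebra K L :=
  LinearMap.mk₂ K (fun m xy => ι K (D m) * xy.1 + ι K m * xy.2)
    (by intro m m' xy; simp [add_mul]; abel)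
    (by intro c m xy; simp)
    (by intro m xy xy'; simp [mul_add]; abel)
    (by intro c m xy; simp)

/-- The derivation `θ_D` of the exterior algebra which extends the linear map `D`:
`θ_D(1) = 0` and `θ_D(x ∧ ω) = D(x) ∧ ω + x ∧ θ_D(ω)`. -/
def theta (D : L →ₗ[K] L) : Module.End K (ExteriorAlgebra K L) :=
  CliffordAlgebra.foldr' (0 : QuadraticForm K L) (thetaF D)
    (by
      intro m x y
      show ι K (D m) * (ι K m * x) + ι K m *
        (ι K (D m) * x + ι K m * y) = _
      rw [mul_add, ← mul_assoc, ← mul_assoc, ← mul_assoc, ι_sq_zero, ← add_assoc,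
        ← add_mul, ι_add_mul_swap]
      simp)
    0

theorem theta_algebraMap (D : L →ₗ[K] L) (r : K) : theta D (algebraMap K _ r) = 0 := by
  rw [theta, CliffordAlgebra.foldr'_algebraMap]; simp

theorem theta_one (D : L →ₗ[K] L) : theta D 1 = 0 := by
  rw [← map_one (algebraMap K _), theta_algebraMap]

theorem theta_ι_mul (D : L →ₗ[K] L) (m : L) (x : ExteriorAlgebra K L) :
    theta D (ι K m * x) = ι K (D m) * x + ι K m * theta D x :=
  CliffordAlgebra.foldr'_ι_mul _ _ _ _ _ _

/-- Induction principle. -/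
theorem ext_induction {P : ExteriorAlgebra K L → Prop}
    (h0 : ∀ r : K, P (algebraMap K _ r)) (ha : ∀ x y, P x → P y → P (x + y))
    (hm : ∀ (m : L) (x : ExteriorAlgebra K L), P x → P (ι K m * x)) (x : ExteriorAlgebra K L) :
    P x :=
  CliffordAlgebra.left_induction (Q := (0 : QuadraticForm K L)) h0 ha (fun x m hx => hm m x hx) x

theorem theta_add (D D' : L →ₗ[K] L) : theta (D + D') = theta D + theta D' := by
  refine LinearMap.ext fun x => ?_
  rw [LinearMap.add_apply]
  induction x using ext_induction with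
  | h0 r => simp [theta_algebraMap]
  | ha x y hx hy => simp only [map_add, hx, hy]; abel
  | hm m x hx =>
    rw [theta_ι_mul, theta_ι_mul, theta_ι_mul, hx, LinearMap.add_apply, map_add, add_mul, mul_add]
    abel

theorem theta_smul (c : K) (D : L →ₗ[K] L) : theta (c • D) = c • theta D := by
  refine LinearMap.ext fun x => ?_
  rw [LinearMap.smul_apply]
  induction x using ext_induction with
  | h0 r => simp [theta_algebraMap]
  | ha x y hx hy => simp only [map_add, hx, hy, smul_add]
  | hm m x hx =>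
    rw [theta_ι_mul, theta_ι_mul, hx, LinearMap.smul_apply, map_smul, smul_add, mul_smul_comm,
      smul_mul_assoc]

theorem theta_comm (D D' : L →ₗ[K] L) (x : ExteriorAlgebra K L) :
    theta (D ∘ₗ D' - D' ∘ₗ D) x = theta D (theta D' x) - theta D' (theta D x) := by
  induction x using ext_induction with
  | h0 r => simp [theta_algebraMap]
  | ha x y hx hy => simp only [map_add, hx, hy]; abel
  | hm m x hx =>
    simp only [theta_ι_mul, hx, LinearMap.sub_apply, LinearMap.comp_apply, map_sub, map_add,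
      sub_mul, mul_sub]
    abel

variable (K L) in
theorem ext_zero : ⋀[K]^0 L = 1 := pow_zero _

variable (K L) in
theorem ext_succ (k : ℕ) : ⋀[K]^(k + 1) L = LinearMap.range (ι K) * ⋀[K]^k L := pow_succ' _ _

variable (K L) in
theorem ext_pow_one : ⋀[K]^1 L = LinearMap.range (ι K) := pow_one _

/-- `θ` maps `⋀^k` to `⋀^k`. -/
theorem theta_mem (D : L →ₗ[K] L) (k : ℕ) {x : ExteriorAlgebra K L} (hx : x ∈ ⋀[K]^k L) :
    theta D x ∈ ⋀[K]^k L := by
  induction k generalizing x with
  | zero =>
    rw [ext_zero, Submodule.mem_one] at hx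
    obtain ⟨r, rfl⟩ := hx
    rw [theta_algebraMap]; exact zero_mem _
  | succ k ih =>
    rw [ext_succ] at hx ⊢
    induction hx using Submodule.mul_induction_on' with
    | mem_mul_mem a ha b hb =>
      obtain ⟨m, rfl⟩ := ha
      rw [theta_ι_mul]
      exact add_mem (Submodule.mul_mem_mul ⟨_, rfl⟩ hb) (Submodule.mul_mem_mul ⟨_, rfl⟩ (ih hb))
    | add a ha b hb h1 h2 => rw [map_add]; exact add_mem h1 h2

end

section
variable {K : Type*} [Field K] {L : Type*} [LieRing L] [LieAlgebra K L]

/-- The adjoint action as a linear map. -/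
def adL (x : L) : L →ₗ[K] L where
  toFun y := ⁅x, y⁆
  map_add' := lie_add x
  map_smul' c y := lie_smul c x y

theorem adL_apply (x y : L) : adL (K := K) x y = ⁅x, y⁆ := rfl

/-- Auxiliary map: `m ↦ ((x, y) ↦ - m ∧ y - θ_{ad m}(x))`. -/
def delF : L →ₗ[K] ExteriorAlgebra K L × ExteriorAlgebra K L →ₗ[K] ExteriorAlgebra K L :=
  LinearMap.mk₂ K (fun m xy => - (ι K m * xy.2) - theta (adL m) xy.1)
    (by
      intro m m' xy
      have : adL (K := K) (m + m') = adL m + adL m' := by ext; simp [adL]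
      rw [this, theta_add]
      simp [add_mul]; abel)
    (by
      intro c m xy
      have : adL (K := K) (c • m) = c • adL m := by ext; simp [adL]
      rw [this, theta_smul]
      simp [smul_sub])
    (by intro m xy xy'; simp [mul_add]; abel)
    (by intro c m xy; simp [smul_sub])

variable (K L) in
/-- The Chevalley–Eilenberg differential `∂` on `⋀ L`:
`∂(1) = 0` and `∂(x ∧ ω) = - x ∧ ∂ω - θ_{ad x}(ω)`, that is
`∂(x₁ ∧ ⋯ ∧ x_k) = ∑_{i<j} (-1)^(i+j) [x_i, x_j] ∧ x₁ ∧ ⋯ (omit x_i, x_j) ⋯ ∧ x_k`. -/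
def del : Module.End K (ExteriorAlgebra K L) :=
  CliffordAlgebra.foldr' (0 : QuadraticForm K L) delF
    (by
      intro m x y
      show - (ι K m * (- (ι K m * y) - theta (adL m) x)) - theta (adL m) (ι K m * x) = _
      rw [theta_ι_mul, adL_apply, lie_self, map_zero, zero_mul, zero_add, mul_sub, mul_neg,
        ← mul_assoc, ι_sq_zero]
      simp)
    0

theorem del_algebraMap (r : K) : del K L (algebraMap K _ r) = 0 := by
  rw [del, CliffordAlgebra.foldr'_algebraMap]; simp

theorem del_one : del K L 1 = 0 := by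
  rw [← map_one (algebraMap K _), del_algebraMap]

theorem del_ι_mul (m : L) (x : ExteriorAlgebra K L) :
    del K L (ι K m * x) = - (ι K m * del K L x) - theta (adL m) x :=
  CliffordAlgebra.foldr'_ι_mul _ _ _ _ _ _

/-- Derivations of `L` act on the complex by chain maps. -/
theorem theta_del' (D : L →ₗ[K] L) (hD : ∀ x y : L, D ⁅x, y⁆ = ⁅D x, y⁆ + ⁅x, D y⁆)
    (x : ExteriorAlgebra K L) : theta D (del K L x) = del K L (theta D x) := by
  induction x using ext_induction with
  | h0 r => simp [theta_algebraMap, del_algebraMap]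
  | ha x y hx hy => simp only [map_add, hx, hy]
  | hm m x hx =>
    have h := theta_comm D (adL m) x
    have h2 : D ∘ₗ adL m - adL m ∘ₗ D = adL (D m) := by
      ext y
      simp only [LinearMap.sub_apply, LinearMap.comp_apply, adL_apply, hD]
      abel
    rw [h2] at h
    simp only [theta_ι_mul, del_ι_mul, map_sub, map_neg, map_add, hx, h]
    abel

variable (K L) in
/-- The cycles of degree `k`. -/
def cyc (k : ℕ) : Submodule K (ExteriorAlgebra K L) := ⋀[K]^k L ⊓ LinearMap.ker (del K L)

variable (K L) in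
/-- The boundaries of degree `k`. -/
def bd (k : ℕ) : Submodule K (ExteriorAlgebra K L) := (⋀[K]^(k + 1) L).map (del K L)

variable (K L) in
/-- Lie algebra homology with trivial coefficients. -/
abbrev H (k : ℕ) : Type _ := ↥(cyc K L k) ⧸ (bd K L k).submoduleOf (cyc K L k)

theorem theta_cyc' (D : L →ₗ[K] L) (hD : ∀ x y : L, D ⁅x, y⁆ = ⁅D x, y⁆ + ⁅x, D y⁆) (k : ℕ)
    {x : ExteriorAlgebra K L} (hx : x ∈ cyc K L k) : theta D x ∈ cyc K L k := by
  refine ⟨theta_mem _ _ hx.1, ?_⟩
  show del K L _ = 0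
  rw [← theta_del' D hD, show del K L x = 0 from hx.2, map_zero]

theorem theta_bd' (D : L →ₗ[K] L) (hD : ∀ x y : L, D ⁅x, y⁆ = ⁅D x, y⁆ + ⁅x, D y⁆) (k : ℕ)
    {x : ExteriorAlgebra K L} (hx : x ∈ bd K L k) : theta D x ∈ bd K L k := by
  obtain ⟨y, hy, rfl⟩ := hx
  exact ⟨theta D y, theta_mem _ _ hy, by rw [theta_del' D hD]⟩

/-- The action of a derivation of `L` on the homology of `L`. -/
def Hl (k : ℕ) (D : L →ₗ[K] L) (hD : ∀ x y : L, D ⁅x, y⁆ = ⁅D x, y⁆ + ⁅x, D y⁆) :
    H K L k →ₗ[K] H K L k :=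
  Submodule.mapQ _ _ ((theta D).restrict (fun _ hx => theta_cyc' D hD k hx))
    (fun _ hx => theta_bd' D hD k hx)

end
end Pool.Agent.N4.CE
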