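import Pool.Agent.N4.Abg.CE

/-! The Chevalley–Eilenberg complex: further lemmas. -/

namespace Pool.Agent.N4.CE

open ExteriorAlgebra

section
variable {K : Type*} [Field K] {L : Type*} [LieRing L] [LieAlgebra K L]

theorem lieDer_apply (D : LieDerivation K L L) (x y : L) :
    D.toLinearMap ⁅x, y⁆ = ⁅D.toLinearMap x, y⁆ + ⁅x, D.toLinearMap y⁆ := by
  show D ⁅x, y⁆ = ⁅D x, y⁆ + ⁅x, D y⁆
  rw [LieDerivation.apply_lie_eq_add, add_comm]

/-- Derivations of `L` act on the complex by chain maps. -/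
theorem theta_del (D : LieDerivation K L L) (x : ExteriorAlgebra K L) :
    theta D.toLinearMap (del K L x) = del K L (theta D.toLinearMap x) :=
  theta_del' D.toLinearMap (fun _ _ => lieDer_apply D _ _) x

theorem adL_der (m : L) (x : ExteriorAlgebra K L) :
    theta (adL m) (del K L x) = del K L (theta (adL m) x) :=
  theta_del ⟨adL m, by
    intro a b
    show ⁅m, ⁅a, b⁆⁆ = ⁅a, ⁅m, b⁆⁆ - ⁅b, ⁅m, a⁆⁆
    rw [leibniz_lie m a b, ← lie_skew b ⁅m, a⁆]; abel⟩ x

theorem del_del (x : ExteriorAlgebra K L) : del K L (del K L x) = 0 := by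
  induction x using ext_induction with
  | h0 r => simp [del_algebraMap]
  | ha x y hx hy => simp only [map_add, hx, hy, add_zero]
  | hm m x hx =>
    rw [del_ι_mul, map_sub, map_neg, del_ι_mul, hx, adL_der]; simp

/-- `∂` maps `⋀^(k+1)` to `⋀^k`. -/
theorem del_mem (k : ℕ) {x : ExteriorAlgebra K L} (hx : x ∈ ⋀[K]^(k + 1) L) :
    del K L x ∈ ⋀[K]^k L := by
  induction k generalizing x with
  | zero =>
    rw [zero_add, ext_pow_one] at hx
    obtain ⟨m, rfl⟩ := hx
    rw [← mul_one (ι K m), del_ι_mul, del_one, theta_one]; simp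
  | succ k ih =>
    rw [ext_succ] at hx
    induction hx using Submodule.mul_induction_on' with
    | mem_mul_mem a ha b hb =>
      obtain ⟨m, rfl⟩ := ha
      rw [del_ι_mul]
      refine sub_mem (neg_mem ?_) (theta_mem _ _ hb)
      rw [ext_succ]
      exact Submodule.mul_mem_mul ⟨_, rfl⟩ (ih hb)
    | add a ha b hb h1 h2 => rw [map_add]; exact add_mem h1 h2

theorem theta_cyc (D : LieDerivation K L L) (k : ℕ) {x : ExteriorAlgebra K L}
    (hx : x ∈ cyc K L k) : theta D.toLinearMap x ∈ cyc K L k :=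
  theta_cyc' _ (lieDer_apply D) k hx

theorem theta_bd (D : LieDerivation K L L) (k : ℕ) {x : ExteriorAlgebra K L}
    (hx : x ∈ bd K L k) : theta D.toLinearMap x ∈ bd K L k :=
  theta_bd' _ (lieDer_apply D) k hx

/-- The action of a derivation of `L` on the homology of `L`. -/
def Hact (k : ℕ) (D : LieDerivation K L L) : Module.End K (H K L k) :=
  Hl k D.toLinearMap (lieDer_apply D)

end
end Pool.Agent.N4.CE
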