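import Pool.Agent.N4.Abg.Rep4

/-! Standard elements of `𝔰𝔩₃` and representations. -/

set_option linter.unusedSimpArgs false

namespace Pool.Agent.N4.Rep

attribute [local instance 100] LieRing.ofAssociativeRing

variable (K : Type*) [Field K]

open LieAlgebra.SpecialLinear

abbrev sl : LieSubalgebra K (Matrix (Fin 3) (Fin 3) K) := LieAlgebra.SpecialLinear.sl (Fin 3) K

noncomputable def E1 : sl K := single 0 1 (by decide) 1
noncomputable def E2 : sl K := single 1 2 (by decide) 1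
noncomputable def E3 : sl K := single 0 2 (by decide) 1
noncomputable def F1 : sl K := single 1 0 (by decide) 1
noncomputable def F2 : sl K := single 2 1 (by decide) 1
noncomputable def F3 : sl K := single 2 0 (by decide) 1
noncomputable def H1 : sl K := singleSubSingle 0 1 1
noncomputable def H2 : sl K := singleSubSingle 1 2 1

theorem br_ext {X Y Z : sl K} (h : X.val * Y.val - Y.val * X.val = Z.val) : ⁅X, Y⁆ = Z := by
  ext1; rw [sl_bracket, h]

theorem br_h1h2 : ⁅H2 K, H1 K⁆ = 0 := by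
  apply br_ext
  ext i j
  fin_cases i <;> fin_cases j <;>
    simp [E1, E2, E3, F1, F2, F3, H1, H2, Matrix.mul_apply, Fin.sum_univ_three, Matrix.single]

theorem br_e1h1 : ⁅E1 K, H1 K⁆ = -((2:ℤ) • E1 K) := by
  apply br_ext
  ext i j
  fin_cases i <;> fin_cases j <;>
    simp [E1, E2, E3, F1, F2, F3, H1, H2, Matrix.mul_apply, Fin.sum_univ_three, Matrix.single]
  norm_num

theorem br_e1h2 : ⁅E1 K, H2 K⁆ = E1 K := by
  apply br_ext
  ext i j
  fin_cases i <;> fin_cases j <;>
    simp [E1, E2, E3, F1, F2, F3, H1, H2, Matrix.mul_apply, Fin.sum_univ_three, Matrix.single]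

theorem br_e2h1 : ⁅E2 K, H1 K⁆ = E2 K := by
  apply br_ext
  ext i j
  fin_cases i <;> fin_cases j <;>
    simp [E1, E2, E3, F1, F2, F3, H1, H2, Matrix.mul_apply, Fin.sum_univ_three, Matrix.single]

theorem br_e2h2 : ⁅E2 K, H2 K⁆ = -((2:ℤ) • E2 K) := by
  apply br_ext
  ext i j
  fin_cases i <;> fin_cases j <;>
    simp [E1, E2, E3, F1, F2, F3, H1, H2, Matrix.mul_apply, Fin.sum_univ_three, Matrix.single]
  norm_num

theorem br_e3h1 : ⁅E3 K, H1 K⁆ = -E3 K := by
  apply br_ext
  ext i j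
  fin_cases i <;> fin_cases j <;>
    simp [E1, E2, E3, F1, F2, F3, H1, H2, Matrix.mul_apply, Fin.sum_univ_three, Matrix.single]

theorem br_e3h2 : ⁅E3 K, H2 K⁆ = -E3 K := by
  apply br_ext
  ext i j
  fin_cases i <;> fin_cases j <;>
    simp [E1, E2, E3, F1, F2, F3, H1, H2, Matrix.mul_apply, Fin.sum_univ_three, Matrix.single]

theorem br_h1f1 : ⁅H1 K, F1 K⁆ = -((2:ℤ) • F1 K) := by
  apply br_ext
  ext i j
  fin_cases i <;> fin_cases j <;>
    simp [E1, E2, E3, F1, F2, F3, H1, H2, Matrix.mul_apply, Fin.sum_univ_three, Matrix.single]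
  norm_num

theorem br_h2f1 : ⁅H2 K, F1 K⁆ = F1 K := by
  apply br_ext
  ext i j
  fin_cases i <;> fin_cases j <;>
    simp [E1, E2, E3, F1, F2, F3, H1, H2, Matrix.mul_apply, Fin.sum_univ_three, Matrix.single]

theorem br_h1f2 : ⁅H1 K, F2 K⁆ = F2 K := by
  apply br_ext
  ext i j
  fin_cases i <;> fin_cases j <;>
    simp [E1, E2, E3, F1, F2, F3, H1, H2, Matrix.mul_apply, Fin.sum_univ_three, Matrix.single]

theorem br_h2f2 : ⁅H2 K, F2 K⁆ = -((2:ℤ) • F2 K) := by
  apply br_ext
  ext i j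
  fin_cases i <;> fin_cases j <;>
    simp [E1, E2, E3, F1, F2, F3, H1, H2, Matrix.mul_apply, Fin.sum_univ_three, Matrix.single]
  norm_num

theorem br_h1f3 : ⁅H1 K, F3 K⁆ = -F3 K := by
  apply br_ext
  ext i j
  fin_cases i <;> fin_cases j <;>
    simp [E1, E2, E3, F1, F2, F3, H1, H2, Matrix.mul_apply, Fin.sum_univ_three, Matrix.single]

theorem br_h2f3 : ⁅H2 K, F3 K⁆ = -F3 K := by
  apply br_ext
  ext i j
  fin_cases i <;> fin_cases j <;>
    simp [E1, E2, E3, F1, F2, F3, H1, H2, Matrix.mul_apply, Fin.sum_univ_three, Matrix.single]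

theorem br_e1f1 : ⁅E1 K, F1 K⁆ = H1 K := by
  apply br_ext
  ext i j
  fin_cases i <;> fin_cases j <;>
    simp [E1, E2, E3, F1, F2, F3, H1, H2, Matrix.mul_apply, Fin.sum_univ_three, Matrix.single]

theorem br_e2f2 : ⁅E2 K, F2 K⁆ = H2 K := by
  apply br_ext
  ext i j
  fin_cases i <;> fin_cases j <;>
    simp [E1, E2, E3, F1, F2, F3, H1, H2, Matrix.mul_apply, Fin.sum_univ_three, Matrix.single]

theorem br_e3f3 : ⁅E3 K, F3 K⁆ = H1 K + H2 K := by
  apply br_ext
  ext i j
  fin_cases i <;> fin_cases j <;>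
    simp [E1, E2, E3, F1, F2, F3, H1, H2, Matrix.mul_apply, Fin.sum_univ_three, Matrix.single]

theorem br_e1f2 : ⁅E1 K, F2 K⁆ = 0 := by
  apply br_ext
  ext i j
  fin_cases i <;> fin_cases j <;>
    simp [E1, E2, E3, F1, F2, F3, H1, H2, Matrix.mul_apply, Fin.sum_univ_three, Matrix.single]

theorem br_e2f1 : ⁅E2 K, F1 K⁆ = 0 := by
  apply br_ext
  ext i j
  fin_cases i <;> fin_cases j <;>
    simp [E1, E2, E3, F1, F2, F3, H1, H2, Matrix.mul_apply, Fin.sum_univ_three, Matrix.single]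

theorem br_e3f1 : ⁅E3 K, F1 K⁆ = -E2 K := by
  apply br_ext
  ext i j
  fin_cases i <;> fin_cases j <;>
    simp [E1, E2, E3, F1, F2, F3, H1, H2, Matrix.mul_apply, Fin.sum_univ_three, Matrix.single]

theorem br_e3f2 : ⁅E3 K, F2 K⁆ = E1 K := by
  apply br_ext
  ext i j
  fin_cases i <;> fin_cases j <;>
    simp [E1, E2, E3, F1, F2, F3, H1, H2, Matrix.mul_apply, Fin.sum_univ_three, Matrix.single]

theorem br_e1f3 : ⁅E1 K, F3 K⁆ = -F2 K := by
  apply br_ext
  ext i j
  fin_cases i <;> fin_cases j <;>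
    simp [E1, E2, E3, F1, F2, F3, H1, H2, Matrix.mul_apply, Fin.sum_univ_three, Matrix.single]

theorem br_e2f3 : ⁅E2 K, F3 K⁆ = F1 K := by
  apply br_ext
  ext i j
  fin_cases i <;> fin_cases j <;>
    simp [E1, E2, E3, F1, F2, F3, H1, H2, Matrix.mul_apply, Fin.sum_univ_three, Matrix.single]

theorem br_e2e1 : ⁅E2 K, E1 K⁆ = -E3 K := by
  apply br_ext
  ext i j
  fin_cases i <;> fin_cases j <;>
    simp [E1, E2, E3, F1, F2, F3, H1, H2, Matrix.mul_apply, Fin.sum_univ_three, Matrix.single]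

theorem br_e3e1 : ⁅E3 K, E1 K⁆ = 0 := by
  apply br_ext
  ext i j
  fin_cases i <;> fin_cases j <;>
    simp [E1, E2, E3, F1, F2, F3, H1, H2, Matrix.mul_apply, Fin.sum_univ_three, Matrix.single]

theorem br_e3e2 : ⁅E3 K, E2 K⁆ = 0 := by
  apply br_ext
  ext i j
  fin_cases i <;> fin_cases j <;>
    simp [E1, E2, E3, F1, F2, F3, H1, H2, Matrix.mul_apply, Fin.sum_univ_three, Matrix.single]

theorem br_f2f1 : ⁅F2 K, F1 K⁆ = F3 K := by
  apply br_ext
  ext i j
  fin_cases i <;> fin_cases j <;>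
    simp [E1, E2, E3, F1, F2, F3, H1, H2, Matrix.mul_apply, Fin.sum_univ_three, Matrix.single]

theorem br_f3f1 : ⁅F3 K, F1 K⁆ = 0 := by
  apply br_ext
  ext i j
  fin_cases i <;> fin_cases j <;>
    simp [E1, E2, E3, F1, F2, F3, H1, H2, Matrix.mul_apply, Fin.sum_univ_three, Matrix.single]

theorem br_f3f2 : ⁅F3 K, F2 K⁆ = 0 := by
  apply br_ext
  ext i j
  fin_cases i <;> fin_cases j <;>
    simp [E1, E2, E3, F1, F2, F3, H1, H2, Matrix.mul_apply, Fin.sum_univ_three, Matrix.single]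

variable {K}

/-- Any representation of `𝔰𝔩₃` gives operators with the standard relations. -/
theorem isSl3 {R : Type*} [Ring R] [Algebra K R] (ρ : sl K →ₗ[K] R)
    (hρ : ∀ X Y, ρ ⁅X, Y⁆ = ρ X * ρ Y - ρ Y * ρ X) :
    IsSl3 (ρ (E1 K)) (ρ (E2 K)) (ρ (E3 K)) (ρ (F1 K)) (ρ (F2 K)) (ρ (F3 K)) (ρ (H1 K))
      (ρ (H2 K)) := by
  have key : ∀ {X Y Z : sl K}, ⁅X, Y⁆ = Z → ρ X * ρ Y = ρ Y * ρ X + ρ Z := by
    intro X Y Z h
    rw [← h, hρ]; abel
  constructor
  · rw [key (br_h1h2 K)]; try simp only [map_neg, map_zsmul, map_zero, map_add, add_zero, sub_eq_add_neg]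
  · rw [key (br_e1h1 K)]; try simp only [map_neg, map_zsmul, map_zero, map_add, add_zero, sub_eq_add_neg]
  · rw [key (br_e1h2 K)]; try simp only [map_neg, map_zsmul, map_zero, map_add, add_zero, sub_eq_add_neg]
  · rw [key (br_e2h1 K)]; try simp only [map_neg, map_zsmul, map_zero, map_add, add_zero, sub_eq_add_neg]
  · rw [key (br_e2h2 K)]; try simp only [map_neg, map_zsmul, map_zero, map_add, add_zero, sub_eq_add_neg]
  · rw [key (br_e3h1 K)]; try simp only [map_neg, map_zsmul, map_zero, map_add, add_zero, sub_eq_add_neg]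
  · rw [key (br_e3h2 K)]; try simp only [map_neg, map_zsmul, map_zero, map_add, add_zero, sub_eq_add_neg]
  · rw [key (br_h1f1 K)]; try simp only [map_neg, map_zsmul, map_zero, map_add, add_zero, sub_eq_add_neg]
  · rw [key (br_h2f1 K)]; try simp only [map_neg, map_zsmul, map_zero, map_add, add_zero, sub_eq_add_neg]
  · rw [key (br_h1f2 K)]; try simp only [map_neg, map_zsmul, map_zero, map_add, add_zero, sub_eq_add_neg]
  · rw [key (br_h2f2 K)]; try simp only [map_neg, map_zsmul, map_zero, map_add, add_zero, sub_eq_add_neg]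
  · rw [key (br_h1f3 K)]; try simp only [map_neg, map_zsmul, map_zero, map_add, add_zero, sub_eq_add_neg]
  · rw [key (br_h2f3 K)]; try simp only [map_neg, map_zsmul, map_zero, map_add, add_zero, sub_eq_add_neg]
  · rw [key (br_e1f1 K)]; try simp only [map_neg, map_zsmul, map_zero, map_add, add_zero, sub_eq_add_neg]
  · rw [key (br_e2f2 K)]; try simp only [map_neg, map_zsmul, map_zero, map_add, add_zero, sub_eq_add_neg]
  · rw [key (br_e3f3 K)]; try simp only [map_neg, map_zsmul, map_zero, map_add, add_zero, sub_eq_add_neg]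
  · rw [key (br_e1f2 K)]; try simp only [map_neg, map_zsmul, map_zero, map_add, add_zero, sub_eq_add_neg]
  · rw [key (br_e2f1 K)]; try simp only [map_neg, map_zsmul, map_zero, map_add, add_zero, sub_eq_add_neg]
  · rw [key (br_e3f1 K)]; try simp only [map_neg, map_zsmul, map_zero, map_add, add_zero, sub_eq_add_neg]
  · rw [key (br_e3f2 K)]; try simp only [map_neg, map_zsmul, map_zero, map_add, add_zero, sub_eq_add_neg]
  · rw [key (br_e1f3 K)]; try simp only [map_neg, map_zsmul, map_zero, map_add, add_zero, sub_eq_add_neg]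
  · rw [key (br_e2f3 K)]; try simp only [map_neg, map_zsmul, map_zero, map_add, add_zero, sub_eq_add_neg]
  · rw [key (br_e2e1 K)]; try simp only [map_neg, map_zsmul, map_zero, map_add, add_zero, sub_eq_add_neg]
  · rw [key (br_e3e1 K)]; try simp only [map_neg, map_zsmul, map_zero, map_add, add_zero, sub_eq_add_neg]
  · rw [key (br_e3e2 K)]; try simp only [map_neg, map_zsmul, map_zero, map_add, add_zero, sub_eq_add_neg]
  · rw [key (br_f2f1 K)]; try simp only [map_neg, map_zsmul, map_zero, map_add, add_zero, sub_eq_add_neg]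
  · rw [key (br_f3f1 K)]; try simp only [map_neg, map_zsmul, map_zero, map_add, add_zero, sub_eq_add_neg]
  · rw [key (br_f3f2 K)]; try simp only [map_neg, map_zsmul, map_zero, map_add, add_zero, sub_eq_add_neg]

end Pool.Agent.N4.Rep
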