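import Pool.Agent.N4.Abg.Ext
import Pool.Agent.N4.Abg.Sl3

/-! Gradings of the Chevalley–Eilenberg complex: the Euler characteristic argument. -/

set_option linter.unusedSectionVars false

namespace Pool.Agent.N4.CE

open ExteriorAlgebra Module Pool.Agent.N4.Rep

attribute [local instance 100] LieRing.ofAssociativeRing

/-- A Lie algebra with an action of `𝔰𝔩₃` by derivations, a compatible grading and a basis of
weight vectors. -/
structure Gr (K L I : Type*) [Field K] [LieRing L] [LieAlgebra K L] [LinearOrder I] where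
  b : Basis I K L
  deg : I → ℕ
  wt : I → ℤ × ℤ
  E : LieDerivation K L L
  rho : sl K → LieDerivation K L L
  hE : ∀ i, E (b i) = (deg i : ℤ) • b i
  hadd : ∀ X Y x, rho (X + Y) x = rho X x + rho Y x
  hsmul : ∀ (c : K) X x, rho (c • X) x = c • rho X x
  hbr : ∀ X Y x, rho ⁅X, Y⁆ x = rho X (rho Y x) - rho Y (rho X x)
  hErho : ∀ X x, E (rho X x) = rho X (E x)
  hh1 : ∀ i, rho (H1 K) (b i) = (wt i).1 • b i
  hh2 : ∀ i, rho (H2 K) (b i) = (wt i).2 • b i
  hpos : ∀ i, 1 ≤ deg i
  hfin : ∀ d, {i | deg i = d}.Finite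

section
variable {K L I : Type*} [Field K] [CharZero K] [LieRing L] [LieAlgebra K L] [LinearOrder I]
  (g : Gr K L I)

/-- Operator of the action of `X ∈ 𝔰𝔩₃` on the exterior algebra. -/
noncomputable def Gr.th (X : sl K) : Module.End K (ExteriorAlgebra K L) :=
  theta (g.rho X).toLinearMap

/-- The degree operator. -/
noncomputable def Gr.dE : Module.End K (ExteriorAlgebra K L) := theta g.E.toLinearMap

theorem Gr.th_add (X Y : sl K) : g.th (X + Y) = g.th X + g.th Y := by
  rw [th, th, th, ← theta_add]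
  congr 1
  ext x; exact g.hadd X Y x

theorem Gr.th_smul (c : K) (X : sl K) : g.th (c • X) = c • g.th X := by
  rw [th, th, ← theta_smul]
  congr 1
  ext x; exact g.hsmul c X x

theorem Gr.th_br (X Y : sl K) : g.th ⁅X, Y⁆ = g.th X * g.th Y - g.th Y * g.th X := by
  refine LinearMap.ext fun x => ?_
  rw [LinearMap.sub_apply, Module.End.mul_apply, Module.End.mul_apply, th, th, th, ← theta_comm]
  congr 2
  ext y; exact g.hbr X Y y

theorem Gr.th_dE (X : sl K) (x : ExteriorAlgebra K L) : g.dE (g.th X x) = g.th X (g.dE x) := by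
  have h := theta_comm g.E.toLinearMap (g.rho X).toLinearMap x
  have h0 : g.E.toLinearMap ∘ₗ (g.rho X).toLinearMap - (g.rho X).toLinearMap ∘ₗ g.E.toLinearMap
      = 0 := by
    ext y; exact sub_eq_zero.2 (g.hErho X y)
  have h1 : theta (0 : L →ₗ[K] L) x = 0 := by
    have := theta_smul (0 : K) (0 : L →ₗ[K] L)
    rw [smul_zero, zero_smul] at this
    rw [this, LinearMap.zero_apply]
  rw [h0, h1] at h
  exact sub_eq_zero.1 h.symm

theorem Gr.del_dE (x : ExteriorAlgebra K L) : g.dE (del K L x) = del K L (g.dE x) :=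
  theta_del g.E x

theorem Gr.del_th (X : sl K) (x : ExteriorAlgebra K L) : g.th X (del K L x) = del K L (g.th X x) :=
  theta_del _ x

theorem num_theta (D : L →ₗ[K] L) (x : ExteriorAlgebra K L) :
    theta (LinearMap.id : L →ₗ[K] L) (theta D x) = theta D (theta (LinearMap.id : L →ₗ[K] L) x) := by
  have h := theta_comm (LinearMap.id : L →ₗ[K] L) D x
  have h1 : theta (0 : L →ₗ[K] L) x = 0 := by
    have := theta_smul (0 : K) (0 : L →ₗ[K] L)
    rw [smul_zero, zero_smul] at this
    rw [this, LinearMap.zero_apply]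
  rw [show (LinearMap.id : L →ₗ[K] L) ∘ₗ D - D ∘ₗ LinearMap.id = 0 from sub_self _, h1] at h
  exact sub_eq_zero.1 h.symm

/-- Degree of a basis element of the exterior algebra. -/
def Gr.dS (S : Finset I) : ℕ := ∑ i ∈ S, g.deg i

/-- Weight of a basis element of the exterior algebra. -/
def Gr.wS (S : Finset I) : ℤ × ℤ := ∑ i ∈ S, g.wt i

theorem Gr.dE_basis (S : Finset I) : g.dE (g.b.ExteriorAlgebra S) =
    (g.dS S : ℤ) • g.b.ExteriorAlgebra S := by
  rw [dE, theta_basis g.b _ (fun i => (g.deg i : ℤ)) g.hE, dS]; push_cast; rfl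

theorem Gr.H1_basis (S : Finset I) : g.th (H1 K) (g.b.ExteriorAlgebra S) =
    (g.wS S).1 • g.b.ExteriorAlgebra S := by
  rw [th, theta_basis g.b _ (fun i => (g.wt i).1) g.hh1, wS, Prod.fst_sum]

theorem Gr.H2_basis (S : Finset I) : g.th (H2 K) (g.b.ExteriorAlgebra S) =
    (g.wS S).2 • g.b.ExteriorAlgebra S := by
  rw [th, theta_basis g.b _ (fun i => (g.wt i).2) g.hh2, wS, Prod.snd_sum]

theorem num_basis (b : Basis I K L) (S : Finset I) :
    theta (LinearMap.id : L →ₗ[K] L) (b.ExteriorAlgebra S) = (S.card : ℤ) • b.ExteriorAlgebra S :=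
  num_mem (basis_mem b S)

/-- Index set of the basis of the degree `d` part. -/
def Gr.J (d : ℕ) : Type _ := {S : Finset I // g.dS S = d}

theorem Gr.J_finite (d : ℕ) : Finite (g.J d) := by
  have hT : {i | g.deg i ≤ d}.Finite := by
    have : {i | g.deg i ≤ d} = ⋃ k ∈ Finset.range (d + 1), {i | g.deg i = k} := by
      ext i; simp
    rw [this]
    exact Set.Finite.biUnion (Finset.finite_toSet _) (fun k _ => g.hfin k)
  have hsub : {S : Finset I | g.dS S = d} ⊆ (hT.toFinset.powerset : Set (Finset I)) := by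
    intro S hS
    simp only [Finset.coe_powerset, Set.mem_preimage, Set.mem_powerset_iff,
      Set.Finite.coe_toFinset]
    intro i hi
    simp only [Set.mem_ofPred_eq] at hS ⊢
    rw [← hS, dS]
    exact Finset.single_le_sum (f := g.deg) (fun _ _ => Nat.zero_le _) hi
  exact ((Finset.finite_toSet _).subset hsub)

/-- The degree `d` part of the exterior algebra. -/
noncomputable def Gr.C (d : ℕ) : Submodule K (ExteriorAlgebra K L) :=
  LinearMap.ker (g.dE - (d : ℤ) • (1 : Module.End K (ExteriorAlgebra K L)))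

theorem Gr.mem_C {d : ℕ} {x : ExteriorAlgebra K L} : x ∈ g.C d ↔ g.dE x = (d : ℤ) • x := by
  rw [C, LinearMap.mem_ker, LinearMap.sub_apply, sub_eq_zero, LinearMap.smul_apply,
    Module.End.one_apply]

theorem Gr.basis_mem_C (d : ℕ) (S : g.J d) : g.b.ExteriorAlgebra S.1 ∈ g.C d := by
  rw [mem_C, dE_basis, S.2]

theorem Gr.repr_C {d : ℕ} {x : ExteriorAlgebra K L} (hx : x ∈ g.C d) {S : Finset I}
    (hS : g.b.ExteriorAlgebra.repr x S ≠ 0) : g.dS S = d := by
  have h := repr_diag (b := g.b.ExteriorAlgebra) g.dE_basis x S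
  rw [g.mem_C.1 hx, map_zsmul, Finsupp.smul_apply, zsmul_eq_mul, zsmul_eq_mul] at h
  have := mul_right_cancel₀ hS h
  exact_mod_cast this.symm

theorem Gr.C_li (d : ℕ) : LinearIndependent K
    (fun S : g.J d => (⟨g.b.ExteriorAlgebra S.1, g.basis_mem_C d S⟩ : g.C d)) := by
  apply LinearIndependent.of_comp (g.C d).subtype
  exact g.b.ExteriorAlgebra.linearIndependent.comp (fun S : g.J d => S.1) Subtype.val_injective

theorem Gr.C_span (d : ℕ) : ⊤ ≤ Submodule.span K (Set.range
    (fun S : g.J d => (⟨g.b.ExteriorAlgebra S.1, g.basis_mem_C d S⟩ : g.C d))) := by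
  rintro ⟨x, hx⟩ -
  have h1 : x = ∑ S ∈ (g.b.ExteriorAlgebra.repr x).support.attach,
      g.b.ExteriorAlgebra.repr x S.1 • g.b.ExteriorAlgebra S.1 := by
    conv_lhs => rw [← g.b.ExteriorAlgebra.linearCombination_repr x]
    rw [Finsupp.linearCombination_apply, Finsupp.sum]
    exact (Finset.sum_attach _ (fun S => g.b.ExteriorAlgebra.repr x S • g.b.ExteriorAlgebra S)).symm
  have h2 : ∀ S : {S // S ∈ (g.b.ExteriorAlgebra.repr x).support}, g.dS S.1 = d := fun S =>
    g.repr_C hx (Finsupp.mem_support_iff.1 S.2)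
  have h3 : (⟨x, hx⟩ : g.C d) = ∑ S ∈ (g.b.ExteriorAlgebra.repr x).support.attach,
      g.b.ExteriorAlgebra.repr x S.1 • (⟨g.b.ExteriorAlgebra S.1,
        g.basis_mem_C d ⟨S.1, h2 S⟩⟩ : g.C d) := by
    apply Subtype.ext
    rw [AddSubmonoidClass.coe_finsetSum]
    exact h1
  rw [h3]
  refine Submodule.sum_mem _ fun S _ => Submodule.smul_mem _ _ (Submodule.subset_span ?_)
  exact ⟨⟨S.1, h2 S⟩, rfl⟩

/-- The basis of the degree `d` part. -/
noncomputable def Gr.bC (d : ℕ) : Basis (g.J d) K (g.C d) := Basis.mk (g.C_li d) (g.C_span d)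

theorem Gr.bC_apply (d : ℕ) (S : g.J d) : (g.bC d S : ExteriorAlgebra K L) =
    g.b.ExteriorAlgebra S.1 := by
  rw [bC, Basis.mk_apply]

/-- Restriction of an operator commuting with the degree operator. -/
noncomputable def Gr.res (d : ℕ) (T : Module.End K (ExteriorAlgebra K L))
    (hT : ∀ x, g.dE (T x) = T (g.dE x)) : Module.End K (g.C d) :=
  T.restrict (fun x hx => by rw [g.mem_C] at hx ⊢; rw [hT, hx, map_zsmul])

theorem Gr.res_coe (d : ℕ) (T : Module.End K (ExteriorAlgebra K L))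
    (hT : ∀ x, g.dE (T x) = T (g.dE x)) (x : g.C d) :
    ((g.res d T hT x : g.C d) : ExteriorAlgebra K L) = T x := rfl

/-- The action of `𝔰𝔩₃` on the degree `d` part. -/
noncomputable def Gr.rC (d : ℕ) : sl K →ₗ[K] Module.End K (g.C d) where
  toFun X := g.res d (g.th X) (g.th_dE X)
  map_add' X Y := by
    ext x
    rw [LinearMap.add_apply, Submodule.coe_add, res_coe, res_coe, res_coe, th_add,
      LinearMap.add_apply]
  map_smul' c X := by
    ext x
    rw [LinearMap.smul_apply, Submodule.coe_smul, res_coe, res_coe, th_smul,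
      LinearMap.smul_apply, RingHom.id_apply]

theorem Gr.rC_coe (d : ℕ) (X : sl K) (x : g.C d) :
    ((g.rC d X x : g.C d) : ExteriorAlgebra K L) = g.th X x := rfl

theorem Gr.rC_br (d : ℕ) (X Y : sl K) :
    g.rC d ⁅X, Y⁆ = g.rC d X * g.rC d Y - g.rC d Y * g.rC d X := by
  ext x
  rw [LinearMap.sub_apply, Submodule.coe_sub, Module.End.mul_apply, Module.End.mul_apply, rC_coe,
    rC_coe, rC_coe, rC_coe, rC_coe, th_br, LinearMap.sub_apply, Module.End.mul_apply,
    Module.End.mul_apply]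

/-- The signed number of basis vectors of degree `d` and weight `ν`. -/
noncomputable def Gr.N (d : ℕ) (ν : ℤ × ℤ) : ℤ :=
  haveI := g.J_finite d
  haveI := Fintype.ofFinite (g.J d)
  sc (fun S : g.J d => g.wS S.1) (fun S : g.J d => S.1.card) ν

/-- The alternating sum of `N` over the Weyl group. -/
noncomputable def Gr.Th (d : ℕ) (l : ℤ × ℤ) : ℤ :=
  g.N d l - g.N d (l + (2, -1)) - g.N d (l + (-1, 2)) + g.N d (l + (3, 0))
      + g.N d (l + (0, 3)) - g.N d (l + (2, 2))

/-- A highest weight vector of `H_k` in degree `d` with Casimir eigenvalue that of `l`. -/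
def Gr.HW (d k : ℕ) (l : ℤ × ℤ) : Prop :=
  ∃ z ∈ cyc K L k, z ∉ bd K L k ∧ g.dE z = (d : ℤ) • z ∧ ∃ ν : ℤ × ℤ, cc ν = cc l ∧
    g.th (H1 K) z = ν.1 • z ∧ g.th (H2 K) z = ν.2 • z ∧
    g.th (E1 K) z ∈ bd K L k ∧ g.th (E2 K) z ∈ bd K L k

end
end Pool.Agent.N4.CE
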