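import Pool.Agent.N4.Abg.Num2
import Pool.Agent.N4.Abg.Grad

/-! Counting basis elements of the complex with a generating polynomial. -/

set_option linter.unusedSectionVars false

namespace Pool.Agent.N4.CE

open Polynomial Pool.Agent.N4.Rep Pool.Agent.N4.Num

/-- Weight coordinates from root coordinates. -/
def rw' (x : ℤ × ℤ) : ℤ × ℤ := (2 * x.1 - x.2, 2 * x.2 - x.1)

theorem rw'_add (x y : ℤ × ℤ) : rw' (x + y) = rw' x + rw' y := by
  simp only [rw', Prod.fst_add, Prod.snd_add, Prod.mk_add_mk]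
  ext <;> ring

section
variable {K L I : Type*} [Field K] [CharZero K] [LieRing L] [LieAlgebra K L] [LinearOrder I]
  (g : Gr K L I) (rt : I → ℤ × ℤ)

theorem wS_rt (hrt : ∀ i, g.wt i = rw' (rt i)) (S : Finset I) : g.wS S = rw' (∑ i ∈ S, rt i) := by
  rw [Gr.wS]
  induction S using Finset.induction_on with
  | empty => rfl
  | insert i S hi ih => rw [Finset.sum_insert hi, Finset.sum_insert hi, rw'_add, ih, hrt]

/-- The exponent of a basis element. -/
def enc (i : I) : ℕ := en (g.deg i) (rt i).1 (rt i).2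

theorem enc_sum (hb : ∀ i, -1 ≤ (rt i).1 ∧ (rt i).1 ≤ 1 ∧ -1 ≤ (rt i).2 ∧ (rt i).2 ≤ 1)
    (S : Finset I) : ∃ x y : ℕ, ∑ i ∈ S, enc g rt i = 441 * g.dS S + x + 21 * y ∧
      (x : ℤ) = (∑ i ∈ S, rt i).1 + g.dS S ∧ (y : ℤ) = (∑ i ∈ S, rt i).2 + g.dS S ∧
      x ≤ 2 * g.dS S ∧ y ≤ 2 * g.dS S := by
  induction S using Finset.induction_on with
  | empty => exact ⟨0, 0, by simp [Gr.dS]⟩
  | insert i S hi ih =>
    obtain ⟨x, y, h1, h2, h3, h4, h5⟩ := ih
    have hd : g.dS (insert i S) = g.deg i + g.dS S := Finset.sum_insert hi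
    have hp := g.hpos i
    obtain ⟨b1, b2, b3, b4⟩ := hb i
    refine ⟨((rt i).1 + g.deg i).toNat + x, ((rt i).2 + g.deg i).toNat + y, ?_, ?_, ?_, ?_, ?_⟩
    · rw [Finset.sum_insert hi, h1, enc, en, hd]; ring
    · rw [Finset.sum_insert hi, hd, Prod.fst_add]
      push_cast
      rw [Int.toNat_of_nonneg (by omega), h2]; ring
    · rw [Finset.sum_insert hi, hd, Prod.snd_add]
      push_cast
      rw [Int.toNat_of_nonneg (by omega), h3]; ring
    · omega
    · omega

/-- Decoding of exponents. -/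
theorem dec (hb : ∀ i, -1 ≤ (rt i).1 ∧ (rt i).1 ≤ 1 ∧ -1 ≤ (rt i).2 ∧ (rt i).2 ≤ 1)
    (hrt : ∀ i, g.wt i = rw' (rt i))
    (S : Finset I) {d : ℕ} {x y : ℤ} (hd : d ≤ 10) (hx : 0 ≤ x + d) (hx' : x + d ≤ 20)
    (hy : 0 ≤ y + d) (hy' : y + d ≤ 20) : ∑ i ∈ S, enc g rt i = en d x y ↔
      (g.dS S = d ∧ g.wS S = rw' (x, y)) := by
  obtain ⟨X, Y, h1, h2, h3, h4, h5⟩ := enc_sum g rt hb S
  rw [h1, wS_rt g rt hrt]
  set r := ∑ i ∈ S, rt i
  set D := g.dS S
  simp only [rw', Prod.mk.injEq]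
  unfold en
  constructor
  · intro h
    have hD : D = d := by omega
    refine ⟨hD, ?_, ?_⟩ <;> omega
  · rintro ⟨hD, e1, e2⟩
    omega

/-- Expansion of the generating polynomial. -/
theorem prod_coeff (s : Finset I) (n : ℕ) :
    (∏ i ∈ s, (1 - X ^ enc g rt i : ℤ[X])).coeff n =
      ∑ S ∈ s.powerset, if ∑ i ∈ S, enc g rt i = n then (-1) ^ S.card else 0 := by
  have h : ∀ i, (1 - X ^ enc g rt i : ℤ[X]) = 1 + (-1) * X ^ enc g rt i := by intro i; ring
  simp only [h]
  rw [Finset.prod_one_add, finset_sum_coeff]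
  refine Finset.sum_congr rfl fun S _ => ?_
  rw [Finset.prod_mul_distrib, Finset.prod_const, Finset.prod_pow_eq_pow_sum]
  have h2 : ((-1 : ℤ[X]) ^ S.card) = C ((-1) ^ S.card) := by simp
  rw [h2, coeff_C_mul, coeff_X_pow]
  by_cases h3 : n = ∑ i ∈ S, enc g rt i
  · rw [if_pos h3, if_pos h3.symm, mul_one]
  · rw [if_neg h3, if_neg (fun h => h3 h.symm), mul_zero]

theorem rw'_inj {x y : ℤ × ℤ} (h : rw' x = rw' y) : x = y := by
  simp only [rw', Prod.mk.injEq] at h
  ext <;> omega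

/-- The recursion for the signed counts. -/
theorem N_eq (hb : ∀ i, -1 ≤ (rt i).1 ∧ (rt i).1 ≤ 1 ∧ -1 ≤ (rt i).2 ∧ (rt i).2 ≤ 1)
    (hrt : ∀ i, g.wt i = rw' (rt i)) {d : ℕ} (slt seq : Finset I)
    (h1 : ∀ i, i ∈ slt ↔ g.deg i < d) (h2 : ∀ i, i ∈ seq ↔ g.deg i = d)
    {x y : ℤ} (hd : d ≤ 10) (hx : 0 ≤ x + d) (hx' : x + d ≤ 20)
    (hy : 0 ≤ y + d) (hy' : y + d ≤ 20) :
    g.N d (rw' (x, y)) = (∏ i ∈ slt, (1 - X ^ enc g rt i : ℤ[X])).coeff (en d x y)
      - (seq.filter (fun i => rt i = (x, y))).card := by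
  classical
  have hJ := g.J_finite d
  letI := Fintype.ofFinite (g.J d)
  set ν := rw' (x, y) with hν
  let f : Finset I → ℤ := fun S => if g.wS S = ν then (-1) ^ S.card else 0
  let A : Finset (Finset I) := slt.powerset.filter (fun S => g.dS S = d)
  let B : Finset (Finset I) := seq.image (fun i => {i})
  have hN : g.N d ν = ∑ S : g.J d, f S.1 := rfl
  have hmem : ∀ S, S ∈ A ∪ B ↔ g.dS S = d := by
    intro S
    rw [Finset.mem_union, Finset.mem_filter, Finset.mem_powerset, Finset.mem_image]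
    constructor
    · rintro (⟨_, h⟩ | ⟨i, hi, rfl⟩)
      · exact h
      · rw [Gr.dS, Finset.sum_singleton]; exact (h2 i).1 hi
    · intro h
      by_cases hex : ∃ i ∈ S, g.deg i = d
      · right
        obtain ⟨i, hi, hid⟩ := hex
        refine ⟨i, (h2 i).2 hid, ?_⟩
        have h3 : g.dS S = g.deg i + ∑ j ∈ S.erase i, g.deg j :=
          (Finset.add_sum_erase S g.deg hi).symm
        have h4 : ∑ j ∈ S.erase i, g.deg j = 0 := by omega
        rw [Finset.sum_eq_zero_iff] at h4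
        ext j
        rw [Finset.mem_singleton]
        constructor
        · rintro rfl; exact hi
        · intro hj
          by_contra hne
          have := h4 j (Finset.mem_erase.2 ⟨hne, hj⟩)
          have := g.hpos j
          omega
      · left
        push Not at hex
        refine ⟨fun i hi => (h1 i).2 ?_, h⟩
        have h3 : g.deg i ≤ g.dS S :=
          Finset.single_le_sum (f := g.deg) (fun _ _ => Nat.zero_le _) hi
        have := hex i hi
        omega
  have hdisj : Disjoint A B := by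
    rw [Finset.disjoint_left]
    rintro S hS hS'
    obtain ⟨i, hi, rfl⟩ := Finset.mem_image.1 hS'
    have h3 := (Finset.mem_powerset.1 (Finset.mem_filter.1 hS).1) (Finset.mem_singleton_self i)
    have := (h1 i).1 h3
    have := (h2 i).1 hi
    omega
  have hsum : ∑ S : g.J d, f S.1 = ∑ S ∈ A ∪ B, f S := by
    exact (Finset.sum_subtype (A ∪ B) hmem f).symm
  rw [hN, hsum, Finset.sum_union hdisj, prod_coeff, Finset.sum_filter, sub_eq_add_neg]
  congr 1
  · refine Finset.sum_congr rfl fun S _ => ?_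
    have h3 := dec g rt hb hrt S hd hx hx' hy hy'
    by_cases h4 : g.dS S = d
    · by_cases h5 : g.wS S = ν
      · rw [if_pos h4, if_pos (h3.2 ⟨h4, h5⟩)]
        exact if_pos h5
      · rw [if_pos h4, if_neg (fun h => h5 (h3.1 h).2)]
        exact if_neg h5
    · rw [if_neg h4, if_neg (fun h => h4 (h3.1 h).1)]
  · rw [Finset.sum_image (fun a _ b _ h => Finset.singleton_injective h), Finset.card_filter]
    push_cast
    rw [← Finset.sum_neg_distrib]
    refine Finset.sum_congr rfl fun i _ => ?_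
    have h3 : g.wS {i} = rw' (rt i) := by rw [Gr.wS, Finset.sum_singleton, hrt]
    show (if g.wS {i} = ν then (-1) ^ ({i} : Finset I).card else 0) = _
    by_cases h4 : rt i = (x, y)
    · rw [if_pos h4, if_pos (by rw [h3, h4]), Finset.card_singleton, pow_one]
    · rw [if_neg h4, if_neg (fun h => h4 (rw'_inj (by rw [← h3, h]))), neg_zero]

/-- The resulting formula for the alternating sums. -/
theorem Th_eq (hb : ∀ i, -1 ≤ (rt i).1 ∧ (rt i).1 ≤ 1 ∧ -1 ≤ (rt i).2 ∧ (rt i).2 ≤ 1)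
    (hrt : ∀ i, g.wt i = rw' (rt i)) {d : ℕ} (slt seq : Finset I)
    (h1 : ∀ i, i ∈ slt ↔ g.deg i < d) (h2 : ∀ i, i ∈ seq ↔ g.deg i = d)
    {x y : ℤ} (hd : d ≤ 10) (hd1 : 1 ≤ d) (hx : 0 ≤ x) (hx' : x ≤ 1)
    (hy : 0 ≤ y) (hy' : y ≤ 1) :
    g.Th d (rw' (x, y)) = thF (∏ i ∈ slt, (1 - X ^ enc g rt i : ℤ[X])) d x y
      - (seq.filter (fun i => rt i = (x, y))).card
      + (seq.filter (fun i => rt i = (x + 1, y))).card
      + (seq.filter (fun i => rt i = (x, y + 1))).card
      - (seq.filter (fun i => rt i = (x + 2, y + 1))).card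
      - (seq.filter (fun i => rt i = (x + 1, y + 2))).card
      + (seq.filter (fun i => rt i = (x + 2, y + 2))).card := by
  have e1 : rw' (x, y) + (2, -1) = rw' (x + 1, y) := by
    simp only [rw', Prod.mk_add_mk]; ext <;> ring
  have e2 : rw' (x, y) + (-1, 2) = rw' (x, y + 1) := by
    simp only [rw', Prod.mk_add_mk]; ext <;> ring
  have e3 : rw' (x, y) + (3, 0) = rw' (x + 2, y + 1) := by
    simp only [rw', Prod.mk_add_mk]; ext <;> ring
  have e4 : rw' (x, y) + (0, 3) = rw' (x + 1, y + 2) := by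
    simp only [rw', Prod.mk_add_mk]; ext <;> ring
  have e5 : rw' (x, y) + (2, 2) = rw' (x + 2, y + 2) := by
    simp only [rw', Prod.mk_add_mk]; ext <;> ring
  have key := fun (u v : ℤ) (a : 0 ≤ u + d) (b : u + d ≤ 20) (c : 0 ≤ v + d) (e : v + d ≤ 20) =>
    N_eq g rt hb hrt slt seq h1 h2 (x := u) (y := v) hd a b c e
  rw [Gr.Th, e1, e2, e3, e4, e5, key x y (by omega) (by omega) (by omega) (by omega),
    key (x + 1) y (by omega) (by omega) (by omega) (by omega),
    key x (y + 1) (by omega) (by omega) (by omega) (by omega),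
    key (x + 2) (y + 1) (by omega) (by omega) (by omega) (by omega),
    key (x + 1) (y + 2) (by omega) (by omega) (by omega) (by omega),
    key (x + 2) (y + 2) (by omega) (by omega) (by omega) (by omega), thF]
  ring

end
end Pool.Agent.N4.CE
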