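import Pool.Agent.N4.Abg.Hw

/-! Highest weight vectors and trivial or adjoint submodules, continued. -/

set_option linter.unusedSimpArgs false

namespace Pool.Agent.N4.Rep

open Module LieAlgebra.SpecialLinear

attribute [local instance 100] LieRing.ofAssociativeRing

variable {K : Type*} [Field K] [CharZero K] {V : Type*} [AddCommGroup V] [Module K V]
  (ρ : sl K →ₗ[K] Module.End K V) (hρ : ∀ X Y, ρ ⁅X, Y⁆ = ρ X * ρ Y - ρ Y * ρ X)

include hρ

theorem adj_equiv {v : V} (e1 : ρ (E1 K) v = 0) (e2 : ρ (E2 K) v = 0)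
    (h1 : ρ (H1 K) v = v) (h2 : ρ (H2 K) v = v) (r1 : ρ (F1 K) (ρ (F1 K) v) = 0)
    (r2 : ρ (F2 K) (ρ (F2 K) v) = 0) (X Y : sl K) : adj ρ v ⁅X, Y⁆ = ρ X (adj ρ v Y) := by
  obtain ⟨a1, a2, b1, b2⟩ := adj_spec ρ hρ e1 e2 h1 h2 r1 r2
  have br : ∀ X X' : sl K, (∀ Y, adj ρ v ⁅X, Y⁆ = ρ X (adj ρ v Y)) →
      (∀ Y, adj ρ v ⁅X', Y⁆ = ρ X' (adj ρ v Y)) →
      ∀ Y, adj ρ v ⁅⁅X, X'⁆, Y⁆ = ρ ⁅X, X'⁆ (adj ρ v Y) := by
    intro X X' hX hX' Y
    rw [lie_lie, map_sub, hX, hX', hX', hX, hρ]; rfl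
  have e3 := br _ _ a1 a2
  have f3 := br _ _ b2 b1
  have k1 := br _ _ a1 b1
  have k2 := br _ _ a2 b2
  have he3 : ⁅E1 K, E2 K⁆ = E3 K := by
    have := br_e2e1 K; rw [← lie_skew, this, neg_neg]
  rw [he3] at e3
  rw [br_f2f1 K] at f3
  rw [br_e1f1 K] at k1
  rw [br_e2f2 K] at k2
  rw [sl_expand X]
  simp only [add_lie, smul_lie, map_add, map_smul, LinearMap.add_apply, LinearMap.smul_apply, a1,
    a2, b1, b2, e3, f3, k1, k2]

omit [CharZero K] hρ in
theorem br_entry (a b : Fin 3) (h : a ≠ b) (X : sl K) (i j : Fin 3) :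
    (⁅single a b h (1 : K), X⁆ : sl K).val i j = (if i = a then X.val b j else 0)
        - (if j = b then X.val i a else 0) := by
  rw [sl_bracket, val_single]
  fin_cases a <;> fin_cases b <;> fin_cases i <;> fin_cases j <;>
    simp [Matrix.mul_apply, Matrix.single, Fin.sum_univ_three]


theorem adj_inj {v : V} (e1 : ρ (E1 K) v = 0) (e2 : ρ (E2 K) v = 0)
    (h1 : ρ (H1 K) v = v) (h2 : ρ (H2 K) v = v) (r1 : ρ (F1 K) (ρ (F1 K) v) = 0)
    (r2 : ρ (F2 K) (ρ (F2 K) v) = 0) (hv : v ≠ 0) : Function.Injective (adj ρ v) := by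
  rw [injective_iff_map_eq_zero]
  intro X hX
  have ker : ∀ Y Z : sl K, adj ρ v Z = 0 → adj ρ v ⁅Y, Z⁆ = 0 := by
    intro Y Z hZ
    rw [adj_equiv ρ hρ e1 e2 h1 h2 r1 r2, hZ, map_zero]
  have top : ∀ Z : sl K, adj ρ v Z = 0 → Z.val 1 2 = 0 → Z.val 0 1 = 0 → Z.val 0 0 = 0 →
      Z.val 2 2 = 0 → Z.val 1 0 = 0 → Z.val 2 1 = 0 → Z.val 2 0 = 0 → Z.val 0 2 = 0 := by
    intro Z hZ z1 z2 z3 z4 z5 z6 z7
    rw [adj_apply, z1, z2, z3, z4, z5, z6, z7] at hZ
    simp only [zero_smul, add_zero, sub_zero] at hZ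
    exact (smul_eq_zero.1 hZ).resolve_right hv
  have ht : X.val 0 0 + X.val 1 1 + X.val 2 2 = 0 := by
    have h2 : Matrix.trace X.val = 0 := X.2
    rwa [Matrix.trace_fin_three] at h2
  have b1 : ∀ (Z : sl K) i j, (⁅E1 K, Z⁆ : sl K).val i j = (if i = 0 then Z.val 1 j else 0)
        - (if j = 1 then Z.val i 0 else 0) := fun Z => br_entry 0 1 (by decide) Z
  have b2 : ∀ (Z : sl K) i j, (⁅E2 K, Z⁆ : sl K).val i j = (if i = 1 then Z.val 2 j else 0)
        - (if j = 2 then Z.val i 1 else 0) := fun Z => br_entry 1 2 (by decide) Z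
  have b3 : ∀ (Z : sl K) i j, (⁅E3 K, Z⁆ : sl K).val i j = (if i = 0 then Z.val 2 j else 0)
        - (if j = 2 then Z.val i 0 else 0) := fun Z => br_entry 0 2 (by decide) Z
  have x20 : X.val 2 0 = 0 := by
    have := top ⁅E3 K, ⁅E3 K, X⁆⁆ (ker _ _ (ker _ _ hX)) (by simp [b3]) (by simp [b3])
      (by simp [b3]) (by simp [b3]) (by simp [b3]) (by simp [b3]) (by simp [b3])
    have q1 : ¬ (2 : Fin 3) = 0 := by decide
    have q2 : ¬ (0 : Fin 3) = 2 := by decide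
    simp only [b3, q1, q2, if_true, if_false] at this
    have h2 : (2 : K) * X.val 2 0 = 0 := by linear_combination -this
    exact (mul_eq_zero.1 h2).resolve_left two_ne_zero
  have x10 : X.val 1 0 = 0 := by
    have := top ⁅E1 K, ⁅E3 K, X⁆⁆ (ker _ _ (ker _ _ hX)) (by simp [b1, b3]) (by simp [b1, b3, x20])
      (by simp [b1, b3]) (by simp [b1, b3]) (by simp [b1, b3]) (by simp [b1, b3])
      (by simp [b1, b3])
    simpa [b1, b3] using this
  have x21 : X.val 2 1 = 0 := by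
    have := top ⁅E2 K, ⁅E3 K, X⁆⁆ (ker _ _ (ker _ _ hX)) (by simp [b2, b3, x20])
      (by simp [b2, b3])
      (by simp [b2, b3]) (by simp [b2, b3]) (by simp [b2, b3]) (by simp [b2, b3, x20])
      (by simp [b2, b3])
    simpa [b2, b3] using this
  have x22 : X.val 2 2 - X.val 0 0 = 0 := by
    have := top ⁅E3 K, X⁆ (ker _ _ hX) (by simp [b3, x10]) (by simp [b3, x21])
      (by simp [b3, x20]) (by simp [b3, x20]) (by simp [b3]) (by simp [b3])
      (by simp [b3])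
    simpa [b3] using this
  have x11 : X.val 1 1 - X.val 0 0 = 0 := by
    have := top ⁅E2 K, ⁅E1 K, X⁆⁆ (ker _ _ (ker _ _ hX)) (by simp [b1, b2, x10])
      (by simp [b1, b2])
      (by simp [b1, b2]) (by simp [b1, b2, x20]) (by simp [b1, b2]) (by simp [b1, b2, x20])
      (by simp [b1, b2])
    simp only [b1, b2] at this
    norm_num at this
    linear_combination -this
  have x00 : X.val 0 0 = 0 := by
    have h3 : (3 : K) * X.val 0 0 = 0 := by linear_combination ht - x22 - x11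
    exact (mul_eq_zero.1 h3).resolve_left three_ne_zero
  have x22' : X.val 2 2 = 0 := by linear_combination x22 + x00
  have x11' : X.val 1 1 = 0 := by linear_combination x11 + x00
  have x12 : X.val 1 2 = 0 := by
    have := top ⁅E1 K, X⁆ (ker _ _ hX) (by simp [b1]) (by simp [b1, x11', x00])
      (by simp [b1, x10]) (by simp [b1]) (by simp [b1]) (by simp [b1, x20])
      (by simp [b1])
    simpa [b1] using this
  have x01 : X.val 0 1 = 0 := by
    have := top ⁅E2 K, X⁆ (ker _ _ hX) (by simp [b2, x22', x11']) (by simp [b2])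
      (by simp [b2]) (by simp [b2, x21]) (by simp [b2, x20]) (by simp [b2])
      (by simp [b2])
    simpa [b2] using this
  have x02 : X.val 0 2 = 0 := top X hX x12 x01 x00 x22' x10 x21 x20
  ext i j
  fin_cases i <;> fin_cases j <;> simp [x00, x01, x02, x10, x11', x12, x20, x21, x22']

/-- A highest weight vector with Casimir eigenvalue `0` is invariant, and one with Casimir
eigenvalue `9` generates an adjoint submodule. -/
theorem hw_trivial {v : V} {ν : ℤ × ℤ} (hv : v ≠ 0) (e1 : ρ (E1 K) v = 0) (e2 : ρ (E2 K) v = 0)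
    (h1 : ρ (H1 K) v = ν.1 • v) (h2 : ρ (H2 K) v = ν.2 • v)
    (n1 : ∃ N : ℕ, (ρ (F1 K) ^ N) v = 0) (n2 : ∃ N : ℕ, (ρ (F2 K) ^ N) v = 0)
    (hc : cc ν = cc (0, 0)) : ∀ X, ρ X v = 0 := by
  have s := isSl3 ρ hρ
  obtain ⟨a, ha, hfa⟩ := sl2_dominant s.e1f1 s.h1f1 e1 h1 hv n1
  obtain ⟨b, hb, hfb⟩ := sl2_dominant s.e2f2 s.h2f2 e2 h2 hv n2
  have hab : a = 0 ∧ b = 0 := by
    simp only [cc, ha, hb] at hc
    constructor <;> nlinarith [mul_nonneg (Int.natCast_nonneg a) (Int.natCast_nonneg b)]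
  obtain ⟨rfl, rfl⟩ := hab
  refine invariant_of ρ hρ e1 e2 ?_ ?_ ?_ ?_
  · simpa using hfa
  · simpa using hfb
  · rw [h1, ha]; simp
  · rw [h2, hb]; simp

theorem hw_adjoint {v : V} {ν : ℤ × ℤ} (hv : v ≠ 0) (e1 : ρ (E1 K) v = 0) (e2 : ρ (E2 K) v = 0)
    (h1 : ρ (H1 K) v = ν.1 • v) (h2 : ρ (H2 K) v = ν.2 • v)
    (n1 : ∃ N : ℕ, (ρ (F1 K) ^ N) v = 0) (n2 : ∃ N : ℕ, (ρ (F2 K) ^ N) v = 0)
    (hc : cc ν = cc (1, 1)) : ∃ f : sl K →ₗ[K] V, Function.Injective f ∧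
      ∀ X Y, f ⁅X, Y⁆ = ρ X (f Y) := by
  have s := isSl3 ρ hρ
  obtain ⟨a, ha, hfa⟩ := sl2_dominant s.e1f1 s.h1f1 e1 h1 hv n1
  obtain ⟨b, hb, hfb⟩ := sl2_dominant s.e2f2 s.h2f2 e2 h2 hv n2
  have hab : a = 1 ∧ b = 1 := by
    simp only [cc, ha, hb] at hc
    have ha3 : a ≤ 2 := by
      by_contra hcon
      push Not at hcon
      have : (3 : ℤ) ≤ a := by exact_mod_cast hcon
      nlinarith [mul_nonneg (Int.natCast_nonneg a) (Int.natCast_nonneg b)]
    have hb3 : b ≤ 2 := by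
      by_contra hcon
      push Not at hcon
      have : (3 : ℤ) ≤ b := by exact_mod_cast hcon
      nlinarith [mul_nonneg (Int.natCast_nonneg a) (Int.natCast_nonneg b)]
    interval_cases a <;> interval_cases b <;> simp_all
  obtain ⟨rfl, rfl⟩ := hab
  have h1' : ρ (H1 K) v = v := by rw [h1, ha]; simp
  have h2' : ρ (H2 K) v = v := by rw [h2, hb]; simp
  have r1 : ρ (F1 K) (ρ (F1 K) v) = 0 := by
    rw [← Module.End.mul_apply, ← pow_two]; exact hfa
  have r2 : ρ (F2 K) (ρ (F2 K) v) = 0 := by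
    rw [← Module.End.mul_apply, ← pow_two]; exact hfb
  exact ⟨adj ρ v, adj_inj ρ hρ e1 e2 h1' h2' r1 r2 hv, adj_equiv ρ hρ e1 e2 h1' h2' r1 r2⟩

end Pool.Agent.N4.Rep
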