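import Pool.Agent.N4.Abg.Euler
import Pool.Agent.N4.Abg.Hw2

/-! Components of the homology. -/

set_option linter.unusedSectionVars false

namespace Pool.Agent.N4.CE

open ExteriorAlgebra Module Pool.Agent.N4.Rep

attribute [local instance 100] LieRing.ofAssociativeRing

section
variable {K L I : Type*} [Field K] [CharZero K] [LieRing L] [LieAlgebra K L] [LinearOrder I]
  (g : Gr K L I)

theorem Hact_mk (k : ℕ) (D : LieDerivation K L L) (z : ExteriorAlgebra K L) (hz : z ∈ cyc K L k) :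
    Hact k D (Submodule.Quotient.mk ⟨z, hz⟩) =
      Submodule.Quotient.mk ⟨theta D.toLinearMap z, theta_cyc D k hz⟩ := rfl

/-- The action of `𝔰𝔩₃` on homology. -/
noncomputable def Gr.rH (k : ℕ) : sl K →ₗ[K] Module.End K (H K L k) where
  toFun X := Hact k (g.rho X)
  map_add' X Y := by
    refine LinearMap.ext fun x => ?_
    obtain ⟨⟨z, hz⟩, rfl⟩ := Submodule.Quotient.mk_surjective _ x
    rw [LinearMap.add_apply, Hact_mk, Hact_mk, Hact_mk, ← Submodule.Quotient.mk_add]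
    congr 1
    apply Subtype.ext
    exact LinearMap.congr_fun (g.th_add X Y) z
  map_smul' c X := by
    refine LinearMap.ext fun x => ?_
    obtain ⟨⟨z, hz⟩, rfl⟩ := Submodule.Quotient.mk_surjective _ x
    rw [LinearMap.smul_apply, Hact_mk, Hact_mk, ← Submodule.Quotient.mk_smul]
    congr 1
    apply Subtype.ext
    exact LinearMap.congr_fun (g.th_smul c X) z

theorem Gr.rH_apply (k : ℕ) (X : sl K) : g.rH k X = Hact k (g.rho X) := rfl

theorem Gr.rH_br (k : ℕ) (X Y : sl K) :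
    g.rH k ⁅X, Y⁆ = g.rH k X * g.rH k Y - g.rH k Y * g.rH k X := by
  refine LinearMap.ext fun x => ?_
  obtain ⟨⟨z, hz⟩, rfl⟩ := Submodule.Quotient.mk_surjective _ x
  rw [LinearMap.sub_apply, Module.End.mul_apply, Module.End.mul_apply, rH_apply, rH_apply,
    rH_apply, Hact_mk, Hact_mk, Hact_mk, Hact_mk, Hact_mk, ← Submodule.Quotient.mk_sub]
  congr 1
  apply Subtype.ext
  exact LinearMap.congr_fun (g.th_br X Y) z

/-- Lowering operators are nilpotent on weight vectors. -/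
theorem Gr.nilp (d : ℕ) (F : sl K) (c : ℤ × ℤ) (hc : c ≠ 0)
    (c1 : ∀ x, g.th (H1 K) (g.th F x) = g.th F (g.th (H1 K) x) + c.1 • g.th F x)
    (c2 : ∀ x, g.th (H2 K) (g.th F x) = g.th F (g.th (H2 K) x) + c.2 • g.th F x)
    {z : ExteriorAlgebra K L} (hz : z ∈ g.C d) {ν : ℤ × ℤ} (h1 : g.th (H1 K) z = ν.1 • z)
    (h2 : g.th (H2 K) z = ν.2 • z) : ∃ N : ℕ, (g.th F ^ N) z = 0 := by
  classical
  have := g.J_finite d
  by_contra hcon
  push Not at hcon
  have hw1 : ∀ N : ℕ, g.th (H1 K) ((g.th F ^ N) z) = (ν + N • c).1 • (g.th F ^ N) z := by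
    intro N
    induction N with
    | zero => simp [h1]
    | succ N ih =>
      rw [pow_succ', Module.End.mul_apply, c1, ih, map_zsmul, ← add_smul]
      congr 1
      simp [add_mul, add_assoc]
  have hw2 : ∀ N : ℕ, g.th (H2 K) ((g.th F ^ N) z) = (ν + N • c).2 • (g.th F ^ N) z := by
    intro N
    induction N with
    | zero => simp [h2]
    | succ N ih =>
      rw [pow_succ', Module.End.mul_apply, c2, ih, map_zsmul, ← add_smul]
      congr 1
      simp [add_mul, add_assoc]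
  have hC : ∀ N : ℕ, (g.th F ^ N) z ∈ g.C d := by
    intro N
    induction N with
    | zero => simpa using hz
    | succ N ih =>
      rw [pow_succ', Module.End.mul_apply, g.mem_C, g.th_dE, g.mem_C.1 ih, map_zsmul]
  have hex : ∀ N : ℕ, ∃ S : g.J d, g.wS S.1 = ν + N • c := by
    intro N
    have hne : g.b.ExteriorAlgebra.repr ((g.th F ^ N) z) ≠ 0 := by
      intro h0
      exact hcon N (by simpa using h0)
    obtain ⟨S, hS⟩ := Finsupp.ne_iff.1 hne
    rw [Finsupp.zero_apply] at hS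
    exact ⟨⟨S, g.repr_C (hC N) hS⟩, repr_ne g.H1_basis g.H2_basis (hw1 N) (hw2 N) hS⟩
  choose S hS using hex
  obtain ⟨a, b, hab, h⟩ := Finite.exists_ne_map_eq_of_infinite S
  have h3 : ν + a • c = ν + b • c := by rw [← hS, ← hS, h]
  have h4 : (a : ℤ) • c = (b : ℤ) • c := by
    rw [natCast_zsmul, natCast_zsmul]; exact add_left_cancel h3
  rw [← sub_eq_zero, ← sub_smul] at h4
  rcases smul_eq_zero.1 h4 with h5 | h5
  · exact hab (by omega)
  · exact hc h5

theorem Gr.hw_data {d k : ℕ} {l : ℤ × ℤ} (h : g.HW d k l) : ∃ (v : H K L k) (ν : ℤ × ℤ), v ≠ 0 ∧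
    cc ν = cc l ∧ g.rH k (E1 K) v = 0 ∧ g.rH k (E2 K) v = 0 ∧ g.rH k (H1 K) v = ν.1 • v ∧
    g.rH k (H2 K) v = ν.2 • v ∧ (∃ N : ℕ, (g.rH k (F1 K) ^ N) v = 0) ∧
    (∃ N : ℕ, (g.rH k (F2 K) ^ N) v = 0) := by
  obtain ⟨z, hz, hzb, hzd, ν, hν, h1, h2, e1, e2⟩ := h
  have mk0 : ∀ (w : ExteriorAlgebra K L) (hw : w ∈ cyc K L k), w ∈ bd K L k →
      (Submodule.Quotient.mk ⟨w, hw⟩ : H K L k) = 0 := by
    intro w hw hb
    exact (Submodule.Quotient.mk_eq_zero _).2 hb
  have s := isSl3 (g.rH k) (g.rH_br k)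
  have hpow : ∀ (X : sl K) (N : ℕ), ∃ hw : (g.th X ^ N) z ∈ cyc K L k,
      (g.rH k X ^ N) (Submodule.Quotient.mk ⟨z, hz⟩ : H K L k) =
      Submodule.Quotient.mk ⟨(g.th X ^ N) z, hw⟩ := by
    intro X N
    induction N with
    | zero => exact ⟨by simpa using hz, by simp⟩
    | succ N ih =>
      obtain ⟨hw, e⟩ := ih
      refine ⟨?_, ?_⟩
      · rw [pow_succ', Module.End.mul_apply]; exact theta_cyc (g.rho X) k hw
      · rw [pow_succ', Module.End.mul_apply, e, g.rH_apply, Hact_mk]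
        congr 1
        apply Subtype.ext
        show g.th X ((g.th X ^ N) z) = (g.th X ^ (N + 1)) z
        rw [pow_succ']; rfl
  have tr := isSl3 (⟨⟨g.th, g.th_add⟩, g.th_smul⟩ : sl K →ₗ[K] Module.End K (ExteriorAlgebra K L))
    g.th_br
  have hzC : z ∈ g.C d := g.mem_C.2 hzd
  refine ⟨Submodule.Quotient.mk ⟨z, hz⟩, ν, ?_, hν, ?_, ?_, ?_, ?_, ?_, ?_⟩
  · intro h0
    have h1 := (Submodule.Quotient.mk_eq_zero _).1 h0
    exact hzb h1
  · rw [g.rH_apply, Hact_mk]; exact mk0 _ _ e1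
  · rw [g.rH_apply, Hact_mk]; exact mk0 _ _ e2
  · rw [g.rH_apply, Hact_mk, ← Submodule.Quotient.mk_smul]
    congr 1
    exact Subtype.ext h1
  · rw [g.rH_apply, Hact_mk, ← Submodule.Quotient.mk_smul]
    congr 1
    exact Subtype.ext h2
  · obtain ⟨N, hN⟩ := g.nilp d (F1 K) (-2, 1) (by decide)
      (fun x => by
        have := LinearMap.congr_fun tr.h1f1 x
        simp only [Module.End.mul_apply, LinearMap.sub_apply, LinearMap.smul_apply] at this
        rw [neg_smul, ← sub_eq_add_neg]; exact this)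
      (fun x => by
        have := LinearMap.congr_fun tr.h2f1 x
        simp only [Module.End.mul_apply, LinearMap.add_apply] at this
        rw [one_smul]; exact this) hzC h1 h2
    obtain ⟨hw, e⟩ := hpow (F1 K) N
    refine ⟨N, ?_⟩
    rw [e]
    apply mk0
    rw [hN]; exact zero_mem _
  · obtain ⟨N, hN⟩ := g.nilp d (F2 K) (1, -2) (by decide)
      (fun x => by
        have := LinearMap.congr_fun tr.h1f2 x
        simp only [Module.End.mul_apply, LinearMap.add_apply] at this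
        rw [one_smul]; exact this)
      (fun x => by
        have := LinearMap.congr_fun tr.h2f2 x
        simp only [Module.End.mul_apply, LinearMap.sub_apply, LinearMap.smul_apply] at this
        rw [neg_smul, ← sub_eq_add_neg]; exact this) hzC h1 h2
    obtain ⟨hw, e⟩ := hpow (F2 K) N
    refine ⟨N, ?_⟩
    rw [e]
    apply mk0
    rw [hN]; exact zero_mem _

/-- A trivial component. -/
theorem Gr.trivial_component {d k : ℕ} (h : g.HW d k (0, 0)) :
    ∃ x : H K L k, x ≠ 0 ∧ ∀ X : sl K, Hact k (g.rho X) x = 0 := by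
  obtain ⟨v, ν, hv, hc, e1, e2, h1, h2, n1, n2⟩ := g.hw_data h
  exact ⟨v, hv, hw_trivial (g.rH k) (g.rH_br k) hv e1 e2 h1 h2 n1 n2 hc⟩

/-- An adjoint component. -/
theorem Gr.adjoint_component {d k : ℕ} (h : g.HW d k (1, 1)) :
    ∃ f : sl K →ₗ[K] H K L k, Function.Injective f ∧
      ∀ X Y : sl K, f ⁅X, Y⁆ = Hact k (g.rho X) (f Y) := by
  obtain ⟨v, ν, hv, hc, e1, e2, h1, h2, n1, n2⟩ := g.hw_data h
  exact hw_adjoint (g.rH k) (g.rH_br k) hv e1 e2 h1 h2 n1 n2 hc

end
end Pool.Agent.N4.CE
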