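import Pool.Agent.N4.Abg.Split

/-! Trivial and adjoint submodules of finite-dimensional `𝔰𝔩₃`-modules are direct summands. -/

set_option linter.unusedSimpArgs false
set_option linter.unusedSectionVars false

namespace Pool.Agent.N4.Rep

open Module LieAlgebra.SpecialLinear

attribute [local instance 100] LieRing.ofAssociativeRing

section transp
variable (K : Type*) [Field K]

theorem cc_one (a b : ℕ) (hc : cc ((a : ℤ), (b : ℤ)) = cc (1, 1)) : a = 1 ∧ b = 1 := by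
  simp only [cc] at hc
  have ha3 : a ≤ 2 := by
    by_contra hcon
    push Not at hcon
    have : (3 : ℤ) ≤ a := by exact_mod_cast hcon
    nlinarith [mul_nonneg (Int.natCast_nonneg a) (Int.natCast_nonneg b)]
  have hb3 : b ≤ 2 := by
    by_contra hcon
    push Not at hcon
    have : (3 : ℤ) ≤ b := by exact_mod_cast hcon
    nlinarith [mul_nonneg (Int.natCast_nonneg a) (Int.natCast_nonneg b)]
  interval_cases a <;> interval_cases b <;> omega

theorem tr_mem (X : sl K) : X.val.transpose ∈ sl K := by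
  show Matrix.trace X.val.transpose = 0
  rw [Matrix.trace_transpose]
  exact X.2

/-- Transposition on `𝔰𝔩₃`. -/
def tr : sl K →ₗ[K] sl K where
  toFun X := ⟨X.val.transpose, tr_mem K X⟩
  map_add' _ _ := Subtype.ext (Matrix.transpose_add _ _)
  map_smul' _ _ := Subtype.ext (Matrix.transpose_smul _ _)

theorem tr_val (X : sl K) : (tr K X).val = X.val.transpose := rfl

theorem tr_tr (X : sl K) : tr K (tr K X) = X := Subtype.ext (Matrix.transpose_transpose _)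

theorem tr_br (X Y : sl K) : tr K ⁅X, Y⁆ = ⁅tr K Y, tr K X⁆ := by
  ext1
  rw [tr_val, sl_bracket, sl_bracket, Matrix.transpose_sub, Matrix.transpose_mul,
    Matrix.transpose_mul]; rfl

theorem tr_E1 : tr K (E1 K) = F1 K := by
  ext i j
  fin_cases i <;> fin_cases j <;> simp [tr_val, E1, F1, Matrix.single]

theorem tr_E2 : tr K (E2 K) = F2 K := by
  ext i j
  fin_cases i <;> fin_cases j <;> simp [tr_val, E2, F2, Matrix.single]

theorem tr_F1 : tr K (F1 K) = E1 K := by rw [← tr_E1, tr_tr]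

theorem tr_F2 : tr K (F2 K) = E2 K := by rw [← tr_E2, tr_tr]

theorem tr_H1 : tr K (H1 K) = H1 K := by
  ext i j
  fin_cases i <;> fin_cases j <;> simp [tr_val, H1, Matrix.single]

theorem tr_H2 : tr K (H2 K) = H2 K := by
  ext i j
  fin_cases i <;> fin_cases j <;> simp [tr_val, H2, Matrix.single]

end transp

section dual
variable {K : Type*} [Field K] {M : Type*} [AddCommGroup M] [Module K M]
  (ρ : sl K →ₗ[K] Module.End K M)

/-- The contravariant dual: `X · φ = φ ∘ ρ(Xᵀ)`. -/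
def dl : sl K →ₗ[K] Module.End K (M →ₗ[K] K) where
  toFun X := LinearMap.lcomp K K (ρ (tr K X))
  map_add' X Y := by ext φ x; simp
  map_smul' c X := by ext φ x; simp

theorem dl_apply (X : sl K) (φ : M →ₗ[K] K) (x : M) : dl ρ X φ x = φ (ρ (tr K X) x) := rfl

variable (hρ : ∀ X Y, ρ ⁅X, Y⁆ = ρ X * ρ Y - ρ Y * ρ X)

include hρ in
theorem dl_br (X Y : sl K) : dl ρ ⁅X, Y⁆ = dl ρ X * dl ρ Y - dl ρ Y * dl ρ X := by
  refine LinearMap.ext fun φ => LinearMap.ext fun x => ?_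
  rw [dl_apply, tr_br, hρ]
  simp only [LinearMap.sub_apply, Module.End.mul_apply, map_sub, dl_apply]

theorem dl_pow (X : sl K) (N : ℕ) (φ : M →ₗ[K] K) (x : M) :
    ((dl ρ X ^ N) φ) x = φ ((ρ (tr K X) ^ N) x) := by
  induction N generalizing x with
  | zero => simp
  | succ N ih =>
    rw [pow_succ', Module.End.mul_apply, dl_apply, ih, ← Module.End.mul_apply, ← pow_succ]

end dual

section inj
variable {K : Type*} [Field K] [CharZero K] {V : Type*} [AddCommGroup V] [Module K V]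

/-- An equivariant map from `𝔰𝔩₃` which does not kill `E₁₃` is injective. -/
theorem inj_of_ker (F : sl K →ₗ[K] V) (hF : ∀ X Y : sl K, F Y = 0 → F ⁅X, Y⁆ = 0) (h3 : F (E3 K) ≠ 0) :
    Function.Injective F := by
  rw [injective_iff_map_eq_zero]
  intro X hX
  have top : ∀ Z : sl K, F Z = 0 → Z.val 1 2 = 0 → Z.val 0 1 = 0 → Z.val 0 0 = 0 →
      Z.val 2 2 = 0 → Z.val 1 0 = 0 → Z.val 2 1 = 0 → Z.val 2 0 = 0 → Z.val 0 2 = 0 := by
    intro Z hZ z1 z2 z3 z4 z5 z6 z7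
    rw [sl_expand Z, z1, z2, z3, z4, z5, z6, z7] at hZ
    simp only [zero_smul, add_zero, zero_add, neg_zero, map_smul] at hZ
    exact (smul_eq_zero.1 hZ).resolve_right h3
  have ht : X.val 0 0 + X.val 1 1 + X.val 2 2 = 0 := by
    have h2 : Matrix.trace X.val = 0 := X.2
    rwa [Matrix.trace_fin_three] at h2
  have b1 : ∀ (Z : sl K) i j, (⁅E1 K, Z⁆ : sl K).val i j = (if i = 0 then Z.val 1 j else 0)
        - (if j = 1 then Z.val i 0 else 0) := fun Z => br_entry 0 1 (by decide) Z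
  have b2 : ∀ (Z : sl K) i j, (⁅E2 K, Z⁆ : sl K).val i j = (if i = 1 then Z.val 2 j else 0)
        - (if j = 2 then Z.val i 1 else 0) := fun Z => br_entry 1 2 (by decide) Z
  have b3 : ∀ (Z : sl K) i j, (⁅E3 K, Z⁆ : sl K).val i j = (if i = 0 then Z.val 2 j else 0)
        - (if j = 2 then Z.val i 0 else 0) := fun Z => br_entry 0 2 (by decide) Z
  have x20 : X.val 2 0 = 0 := by
    have := top ⁅E3 K, ⁅E3 K, X⁆⁆ (hF _ _ (hF _ _ hX)) (by simp [b3]) (by simp [b3])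
      (by simp [b3]) (by simp [b3]) (by simp [b3]) (by simp [b3]) (by simp [b3])
    have q1 : ¬ (2 : Fin 3) = 0 := by decide
    have q2 : ¬ (0 : Fin 3) = 2 := by decide
    simp only [b3, q1, q2, if_true, if_false] at this
    have h2 : (2 : K) * X.val 2 0 = 0 := by linear_combination -this
    exact (mul_eq_zero.1 h2).resolve_left two_ne_zero
  have x10 : X.val 1 0 = 0 := by
    have := top ⁅E1 K, ⁅E3 K, X⁆⁆ (hF _ _ (hF _ _ hX)) (by simp [b1, b3]) (by simp [b1, b3, x20])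
      (by simp [b1, b3]) (by simp [b1, b3]) (by simp [b1, b3]) (by simp [b1, b3])
      (by simp [b1, b3])
    simpa [b1, b3] using this
  have x21 : X.val 2 1 = 0 := by
    have := top ⁅E2 K, ⁅E3 K, X⁆⁆ (hF _ _ (hF _ _ hX)) (by simp [b2, b3, x20])
      (by simp [b2, b3])
      (by simp [b2, b3]) (by simp [b2, b3]) (by simp [b2, b3]) (by simp [b2, b3, x20])
      (by simp [b2, b3])
    simpa [b2, b3] using this
  have x22 : X.val 2 2 - X.val 0 0 = 0 := by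
    have := top ⁅E3 K, X⁆ (hF _ _ hX) (by simp [b3, x10]) (by simp [b3, x21])
      (by simp [b3, x20]) (by simp [b3, x20]) (by simp [b3]) (by simp [b3])
      (by simp [b3])
    simpa [b3] using this
  have x11 : X.val 1 1 - X.val 0 0 = 0 := by
    have := top ⁅E2 K, ⁅E1 K, X⁆⁆ (hF _ _ (hF _ _ hX)) (by simp [b1, b2, x10])
      (by simp [b1, b2])
      (by simp [b1, b2]) (by simp [b1, b2, x20]) (by simp [b1, b2]) (by simp [b1, b2, x20])
      (by simp [b1, b2])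
    simp only [b1, b2] at this
    norm_num at this
    linear_combination -this
  have x00 : X.val 0 0 = 0 := by
    have h3 : (3 : K) * X.val 0 0 = 0 := by linear_combination ht - x22 - x11
    exact (mul_eq_zero.1 h3).resolve_left three_ne_zero
  have x22' : X.val 2 2 = 0 := by linear_combination x22 + x00
  have x11' : X.val 1 1 = 0 := by linear_combination x11 + x00
  have x12 : X.val 1 2 = 0 := by
    have := top ⁅E1 K, X⁆ (hF _ _ hX) (by simp [b1]) (by simp [b1, x11', x00])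
      (by simp [b1, x10]) (by simp [b1]) (by simp [b1]) (by simp [b1, x20])
      (by simp [b1])
    simpa [b1] using this
  have x01 : X.val 0 1 = 0 := by
    have := top ⁅E2 K, X⁆ (hF _ _ hX) (by simp [b2, x22', x11']) (by simp [b2])
      (by simp [b2]) (by simp [b2, x21]) (by simp [b2, x20]) (by simp [b2])
      (by simp [b2])
    simpa [b2] using this
  have x02 : X.val 0 2 = 0 := top X hX x12 x01 x00 x22' x10 x21 x20
  ext i j
  fin_cases i <;> fin_cases j <;> simp [x00, x01, x02, x10, x11', x12, x20, x21, x22']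

end inj

section main
variable {K : Type*} [Field K] [CharZero K] {M : Type*} [AddCommGroup M] [Module K M]
  [FiniteDimensional K M] {J : Type*} [Fintype J] {b : Basis J K M} {wt : J → ℤ × ℤ}
  (ρ : sl K →ₗ[K] Module.End K M) (hρ : ∀ X Y, ρ ⁅X, Y⁆ = ρ X * ρ Y - ρ Y * ρ X)
  (hh1 : ∀ j, ρ (H1 K) (b j) = (wt j).1 • b j) (hh2 : ∀ j, ρ (H2 K) (b j) = (wt j).2 • b j)

include hρ hh1 hh2

theorem nilpE1 : ∃ N : ℕ, ρ (E1 K) ^ N = 0 := by
  have s := isSl3 ρ hρ
  exact nilp_all hh1 hh2 (T := ρ (E1 K)) (c := (2, -1)) (by decide)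
    (by rw [s.e1h1]; abel) (by rw [s.e1h2]; simp)

theorem nilpE2 : ∃ N : ℕ, ρ (E2 K) ^ N = 0 := by
  have s := isSl3 ρ hρ
  exact nilp_all hh1 hh2 (T := ρ (E2 K)) (c := (-1, 2)) (by decide)
    (by rw [s.e2h1]; simp) (by rw [s.e2h2]; abel)

theorem nilpF1 : ∃ N : ℕ, ρ (F1 K) ^ N = 0 := by
  have s := isSl3 ρ hρ
  exact nilp_all hh1 hh2 (T := ρ (F1 K)) (c := (-2, 1)) (by decide)
    (by rw [s.h1f1, neg_smul, sub_eq_add_neg]) (by rw [s.h2f1, one_smul])

theorem nilpF2 : ∃ N : ℕ, ρ (F2 K) ^ N = 0 := by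
  have s := isSl3 ρ hρ
  exact nilp_all hh1 hh2 (T := ρ (F2 K)) (c := (1, -2)) (by decide)
    (by rw [s.h1f2, one_smul]) (by rw [s.h2f2, neg_smul, sub_eq_add_neg])

/-- A highest weight vector with the Casimir eigenvalue `0` spans a trivial direct summand. -/
theorem split_trivial {v : M} {ν : ℤ × ℤ} (hv : v ≠ 0) (e1 : ρ (E1 K) v = 0) (e2 : ρ (E2 K) v = 0)
    (h1 : ρ (H1 K) v = ν.1 • v) (h2 : ρ (H2 K) v = ν.2 • v) (hc : cc ν = cc (0, 0)) :
    (∀ X, ρ X v = 0) ∧ ∃ φ : M →ₗ[K] K, φ v = 1 ∧ ∀ X x, φ (ρ X x) = 0 := by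
  obtain ⟨A1, hA1⟩ := nilpF1 ρ hρ hh1 hh2
  obtain ⟨A2, hA2⟩ := nilpF2 ρ hρ hh1 hh2
  obtain ⟨B1, hB1⟩ := nilpE1 ρ hρ hh1 hh2
  obtain ⟨B2, hB2⟩ := nilpE2 ρ hρ hh1 hh2
  have hinv := hw_trivial ρ hρ hv e1 e2 h1 h2 ⟨A1, by rw [hA1]; rfl⟩ ⟨A2, by rw [hA2]; rfl⟩ hc
  refine ⟨hinv, ?_⟩
  obtain ⟨φ, hφ, g1, g2, g3, g4⟩ := exists_functional (isSl3 ρ hρ) hh1 hh2 (0, 0) (by
    intro p q h
    simp only [cc] at h
    have : (p : ℤ) = 0 ∧ (q : ℤ) = 0 := by
      constructor <;> nlinarith [mul_nonneg (Int.natCast_nonneg p) (Int.natCast_nonneg q)]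
    rw [this.1, this.2]) hv e1 e2 (by rw [hinv]; simp) (by rw [hinv]; simp)
  refine ⟨φ, hφ, ?_⟩
  have hφ0 : φ ≠ 0 := by rintro rfl; simp at hφ
  have hd := hw_trivial (dl ρ) (dl_br ρ hρ) (v := φ) (ν := (0, 0)) hφ0
    (LinearMap.ext fun x => by rw [dl_apply, tr_E1, g1]; rfl)
    (LinearMap.ext fun x => by rw [dl_apply, tr_E2, g2]; rfl)
    (LinearMap.ext fun x => by rw [dl_apply, tr_H1, g3]; rfl)
    (LinearMap.ext fun x => by rw [dl_apply, tr_H2, g4]; rfl)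
    ⟨B1, LinearMap.ext fun x => by
      rw [dl_pow, tr_F1, hB1, LinearMap.zero_apply, map_zero, LinearMap.zero_apply]⟩
    ⟨B2, LinearMap.ext fun x => by
      rw [dl_pow, tr_F2, hB2, LinearMap.zero_apply, map_zero, LinearMap.zero_apply]⟩ rfl
  intro X x
  have := LinearMap.congr_fun (hd (tr K X)) x
  rw [dl_apply, tr_tr] at this
  exact this

omit [FiniteDimensional K M] hh1 hh2 in
/-- Embedding of the adjoint module with given image of `E₁₃`. -/
theorem adj_exists {v : M} {ν : ℤ × ℤ} (hv : v ≠ 0) (e1 : ρ (E1 K) v = 0) (e2 : ρ (E2 K) v = 0)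
    (h1 : ρ (H1 K) v = ν.1 • v) (h2 : ρ (H2 K) v = ν.2 • v)
    (n1 : ∃ N : ℕ, (ρ (F1 K) ^ N) v = 0) (n2 : ∃ N : ℕ, (ρ (F2 K) ^ N) v = 0)
    (hc : cc ν = cc (1, 1)) : ρ (H1 K) v = v ∧ ρ (H2 K) v = v ∧
      ∃ f : sl K →ₗ[K] M, f (E3 K) = v ∧ ∀ X Y, f ⁅X, Y⁆ = ρ X (f Y) := by
  have s := isSl3 ρ hρ
  obtain ⟨a, ha, hfa⟩ := sl2_dominant s.e1f1 s.h1f1 e1 h1 hv n1
  obtain ⟨b, hb, hfb⟩ := sl2_dominant s.e2f2 s.h2f2 e2 h2 hv n2
  have hab : a = 1 ∧ b = 1 := by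
    have hν : ν = ((a : ℤ), (b : ℤ)) := Prod.ext ha hb
    rw [hν] at hc
    exact cc_one a b hc
  obtain ⟨rfl, rfl⟩ := hab
  have h1' : ρ (H1 K) v = v := by rw [h1, ha]; simp
  have h2' : ρ (H2 K) v = v := by rw [h2, hb]; simp
  have r1 : ρ (F1 K) (ρ (F1 K) v) = 0 := by
    rw [← Module.End.mul_apply, ← pow_two]; exact hfa
  have r2 : ρ (F2 K) (ρ (F2 K) v) = 0 := by
    rw [← Module.End.mul_apply, ← pow_two]; exact hfb
  refine ⟨h1', h2', adj ρ v, ?_, adj_equiv ρ hρ e1 e2 h1' h2' r1 r2⟩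
  rw [adj_apply]
  simp [E3, Matrix.single]

/-- A highest weight vector with the Casimir eigenvalue of the adjoint module generates an
adjoint direct summand. -/
theorem split_adjoint {v : M} {ν : ℤ × ℤ} (hv : v ≠ 0) (e1 : ρ (E1 K) v = 0) (e2 : ρ (E2 K) v = 0)
    (h1 : ρ (H1 K) v = ν.1 • v) (h2 : ρ (H2 K) v = ν.2 • v) (hc : cc ν = cc (1, 1)) :
    ∃ (f : sl K →ₗ[K] M) (p : M →ₗ[K] sl K), (∀ X, p (f X) = X) ∧
      (∀ X Y, f ⁅X, Y⁆ = ρ X (f Y)) ∧ ∀ X x, p (ρ X x) = ⁅X, p x⁆ := by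
  obtain ⟨A1, hA1⟩ := nilpF1 ρ hρ hh1 hh2
  obtain ⟨A2, hA2⟩ := nilpF2 ρ hρ hh1 hh2
  obtain ⟨B1, hB1⟩ := nilpE1 ρ hρ hh1 hh2
  obtain ⟨B2, hB2⟩ := nilpE2 ρ hρ hh1 hh2
  obtain ⟨k1, k2, f, hf3, hf⟩ := adj_exists ρ hρ hv e1 e2 h1 h2 ⟨A1, by rw [hA1]; rfl⟩
    ⟨A2, by rw [hA2]; rfl⟩ hc
  obtain ⟨φ, hφ, g1, g2, g3, g4⟩ := exists_functional (isSl3 ρ hρ) hh1 hh2 (1, 1) (by
    intro a b hc
    obtain ⟨rfl, rfl⟩ := cc_one a b hc
    rfl) hv e1 e2 (by rw [k1]; simp)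
    (by rw [k2]; simp)
  have hφ0 : φ ≠ 0 := by rintro rfl; simp at hφ
  obtain ⟨-, -, g, hg3, hg⟩ := adj_exists (dl ρ) (dl_br ρ hρ) (v := φ) (ν := (1, 1)) hφ0
    (LinearMap.ext fun x => by rw [dl_apply, tr_E1, g1]; rfl)
    (LinearMap.ext fun x => by rw [dl_apply, tr_E2, g2]; rfl)
    (LinearMap.ext fun x => by rw [dl_apply, tr_H1, g3]; rfl)
    (LinearMap.ext fun x => by rw [dl_apply, tr_H2, g4]; rfl)
    ⟨B1, LinearMap.ext fun x => by
      rw [dl_pow, tr_F1, hB1, LinearMap.zero_apply, map_zero, LinearMap.zero_apply]⟩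
    ⟨B2, LinearMap.ext fun x => by
      rw [dl_pow, tr_F2, hB2, LinearMap.zero_apply, map_zero, LinearMap.zero_apply]⟩ rfl
  -- the pairing
  let π : M →ₗ[K] (sl K →ₗ[K] K) := g.flip
  have hπ : ∀ (x : M) (Y : sl K), π x Y = g Y x := fun _ _ => rfl
  have hπρ : ∀ (X : sl K) (x : M) (Y : sl K), π (ρ X x) Y = π x ⁅tr K X, Y⁆ := by
    intro X x Y
    rw [hπ, hπ, hg, dl_apply, tr_tr]
  have hker : ∀ (X : sl K) (x : M), π x = 0 → π (ρ X x) = 0 := by
    intro X x hx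
    refine LinearMap.ext fun Y => ?_
    rw [hπρ, hx]; rfl
  let F : sl K →ₗ[K] (sl K →ₗ[K] K) := π ∘ₗ f
  have hFinj : Function.Injective F := by
    apply inj_of_ker
    · intro X Y hY
      show π (f ⁅X, Y⁆) = 0
      rw [hf]
      exact hker X _ hY
    · intro h0
      have h3 := LinearMap.congr_fun h0 (E3 K)
      have h4 : F (E3 K) (E3 K) = 1 := by
        show π (f (E3 K)) (E3 K) = 1
        rw [hπ, hg3, hf3, hφ]
      rw [h4] at h3
      exact one_ne_zero h3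
  have hfr : Module.finrank K (sl K) = Module.finrank K (sl K →ₗ[K] K) :=
    (Subspace.dual_finrank_eq (K := K) (V := sl K)).symm
  let e := LinearEquiv.ofInjectiveOfFinrankEq F hFinj hfr
  have he : ∀ X, e X = F X := fun _ => rfl
  refine ⟨f, e.symm.toLinearMap ∘ₗ π, ?_, hf, ?_⟩
  · intro X
    show e.symm (F X) = X
    rw [← he, e.symm_apply_apply]
  · intro X x
    show e.symm (π (ρ X x)) = ⁅X, e.symm (π x)⁆
    rw [LinearEquiv.symm_apply_eq, he]
    show π (ρ X x) = π (f ⁅X, e.symm (π x)⁆)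
    rw [hf]
    have h5 : π (f (e.symm (π x))) = π x := by
      show F (e.symm (π x)) = π x
      rw [← he, e.apply_symm_apply]
    have h6 : π (f (e.symm (π x)) - x) = 0 := by rw [map_sub, h5, sub_self]
    have h7 := hker X _ h6
    rw [map_sub, map_sub, sub_eq_zero] at h7
    exact h7.symm

end main

end Pool.Agent.N4.Rep
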