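import Pool.Agent.N4.Abg.Comp
import Pool.Agent.N4.Abg.Split2

/-! Components of the homology as direct summands. -/

set_option linter.unusedSectionVars false

namespace Pool.Agent.N4.CE

open ExteriorAlgebra Module Pool.Agent.N4.Rep

attribute [local instance 100] LieRing.ofAssociativeRing

theorem exists_basis' {K V : Type*} {ι : Type*} [Field K] [AddCommGroup V] [Module K V]
    [FiniteDimensional K V] (w : ι → V) (hw : Submodule.span K (Set.range w) = ⊤) :
    ∃ (n : ℕ) (a : Fin n → ι) (b : Basis (Fin n) K V), ∀ k, b k = w (a k) := by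
  obtain ⟨κ, a, _, hs, hli⟩ := exists_linearIndependent' K w
  let b : Basis κ K V := Basis.mk hli (by rw [hs, hw])
  have : Finite κ := Module.Finite.finite_basis b
  refine ⟨Nat.card κ, a ∘ (Finite.equivFin κ).symm, b.reindex (Finite.equivFin κ), fun k => ?_⟩
  rw [Basis.reindex_apply, Basis.mk_apply]; rfl

section
variable {K L I : Type*} [Field K] [CharZero K] [LieRing L] [LieAlgebra K L] [LinearOrder I]
  (g : Gr K L I)

theorem P_ext (b : Basis I K L) (w : Finset I → ℤ × ℤ) (ν : ℤ × ℤ) {k : ℕ}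
    {x : ExteriorAlgebra K L} (hx : x ∈ ⋀[K]^k L) : P b.ExteriorAlgebra w ν x ∈ ⋀[K]^k L := by
  apply mem_of_num b
  apply b.ExteriorAlgebra.ext_elem
  intro S
  rw [repr_diag (num_basis b), map_zsmul, Finsupp.smul_apply, repr_P]
  split_ifs with h
  · have h1 := repr_diag (num_basis b) x S
    rw [num_mem hx, map_zsmul, Finsupp.smul_apply] at h1
    exact h1.symm
  · rw [smul_zero, smul_zero]

/-- The weight projection. -/
noncomputable def Gr.PW (ν : ℤ × ℤ) : Module.End K (ExteriorAlgebra K L) :=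
  P g.b.ExteriorAlgebra g.wS ν

theorem Gr.PW_del (ν : ℤ × ℤ) (x : ExteriorAlgebra K L) :
    del K L (g.PW ν x) = g.PW ν (del K L x) := by
  have := shift (b := g.b.ExteriorAlgebra) (wt := g.wS) g.H1_basis g.H2_basis (T := del K L)
    (c := (0, 0))
    (by
      refine LinearMap.ext fun y => ?_
      simp only [Module.End.mul_apply, zero_smul, add_zero]
      exact g.del_th _ y)
    (by
      refine LinearMap.ext fun y => ?_
      simp only [Module.End.mul_apply, zero_smul, add_zero]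
      exact g.del_th _ y) ν
  have h2 := LinearMap.congr_fun this x
  rw [Module.End.mul_apply, Module.End.mul_apply] at h2
  rw [PW, h2]
  congr 2
  ext <;> simp

theorem Gr.PW_C (ν : ℤ × ℤ) {d : ℕ} {x : ExteriorAlgebra K L} (hx : x ∈ g.C d) :
    g.PW ν x ∈ g.C d := by
  rw [g.mem_C] at hx ⊢
  apply g.b.ExteriorAlgebra.ext_elem
  intro S
  rw [repr_diag g.dE_basis, map_zsmul, Finsupp.smul_apply, PW, repr_P]
  split_ifs with h
  · have h1 := repr_diag g.dE_basis x S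
    rw [hx, map_zsmul, Finsupp.smul_apply] at h1
    exact h1.symm
  · rw [smul_zero, smul_zero]

theorem Gr.PE_th (d : ℕ) (X : sl K) (x : ExteriorAlgebra K L) :
    g.th X (g.PE d x) = g.PE d (g.th X x) := by
  have := shift (b := g.b.ExteriorAlgebra) (wt := fun S => ((g.dS S : ℤ), (0 : ℤ)))
    (h1 := g.dE) (h2 := 0) g.dE_basis (fun S => by simp) (T := g.th X) (c := (0, 0))
    (by
      refine LinearMap.ext fun y => ?_
      simp only [Module.End.mul_apply, zero_smul, add_zero]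
      exact g.th_dE X y)
    (by simp) ((d : ℤ), 0)
  have h2 := LinearMap.congr_fun this x
  rw [Module.End.mul_apply, Module.End.mul_apply] at h2
  rw [PE, h2]
  simp

theorem Gr.PE_cyc (d k : ℕ) {x : ExteriorAlgebra K L} (hx : x ∈ cyc K L k) :
    g.PE d x ∈ cyc K L k := by
  refine ⟨P_ext _ _ _ hx.1, ?_⟩
  show del K L _ = 0
  rw [g.PE_del, show del K L x = 0 from hx.2, map_zero]

theorem Gr.PE_bd (d k : ℕ) {x : ExteriorAlgebra K L} (hx : x ∈ bd K L k) :
    g.PE d x ∈ bd K L k := by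
  obtain ⟨y, hy, rfl⟩ := hx
  exact ⟨g.PE d y, P_ext _ _ _ hy, by rw [g.PE_del]⟩

theorem Gr.PW_cyc (ν : ℤ × ℤ) (k : ℕ) {x : ExteriorAlgebra K L} (hx : x ∈ cyc K L k) :
    g.PW ν x ∈ cyc K L k := by
  refine ⟨P_ext _ _ _ hx.1, ?_⟩
  show del K L _ = 0
  rw [g.PW_del, show del K L x = 0 from hx.2, map_zero]

/-- The degree `d` part of the homology. -/
noncomputable def Gr.MD (d k : ℕ) : Submodule K (H K L k) :=
  ((g.C d).submoduleOf (cyc K L k)).map ((bd K L k).submoduleOf (cyc K L k)).mkQ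

theorem Gr.mem_MD {d k : ℕ} {x : H K L k} : x ∈ g.MD d k ↔
    ∃ (z : ExteriorAlgebra K L) (hz : z ∈ cyc K L k), z ∈ g.C d ∧
      (Submodule.Quotient.mk ⟨z, hz⟩ : H K L k) = x := by
  constructor
  · rintro ⟨⟨z, hz⟩, hzC, rfl⟩
    exact ⟨z, hz, hzC, rfl⟩
  · rintro ⟨z, hz, hzC, rfl⟩
    exact ⟨⟨z, hz⟩, hzC, rfl⟩

/-- The projection of the homology to its degree `d` part. -/
noncomputable def Gr.qD (d k : ℕ) : H K L k →ₗ[K] g.MD d k :=
  (Submodule.mapQ _ _ ((g.PE d).restrict (fun _ hx => g.PE_cyc d k hx))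
    (fun _ hx => g.PE_bd d k hx) : H K L k →ₗ[K] H K L k).codRestrict (g.MD d k) (by
      intro x
      obtain ⟨⟨z, hz⟩, rfl⟩ := Submodule.Quotient.mk_surjective _ x
      exact g.mem_MD.2 ⟨g.PE d z, g.PE_cyc d k hz, g.PE_mem d z, rfl⟩)

theorem Gr.qD_mk (d k : ℕ) (z : ExteriorAlgebra K L) (hz : z ∈ cyc K L k) :
    ((g.qD d k (Submodule.Quotient.mk ⟨z, hz⟩) : g.MD d k) : H K L k) =
      Submodule.Quotient.mk ⟨g.PE d z, g.PE_cyc d k hz⟩ := rfl

theorem Gr.qD_of_mem (d k : ℕ) (x : g.MD d k) : g.qD d k x = x := by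
  obtain ⟨x, hx⟩ := x
  apply Subtype.ext
  obtain ⟨z, hz, hzC, rfl⟩ := g.mem_MD.1 hx
  show ((g.qD d k (Submodule.Quotient.mk ⟨z, hz⟩) : g.MD d k) : H K L k) = _
  rw [g.qD_mk]
  congr 1
  exact Subtype.ext (g.PE_of_mem hzC)

theorem Gr.rH_MD (d k : ℕ) (X : sl K) {x : H K L k} (hx : x ∈ g.MD d k) :
    g.rH k X x ∈ g.MD d k := by
  obtain ⟨z, hz, hzC, rfl⟩ := g.mem_MD.1 hx
  rw [g.rH_apply, Hact_mk]
  refine g.mem_MD.2 ⟨g.th X z, theta_cyc (g.rho X) k hz, ?_, rfl⟩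
  rw [g.mem_C] at hzC ⊢
  rw [g.th_dE, hzC, map_zsmul]

/-- The action of `𝔰𝔩₃` on the degree `d` part of the homology. -/
noncomputable def Gr.rM (d k : ℕ) : sl K →ₗ[K] Module.End K (g.MD d k) where
  toFun X := (g.rH k X).restrict (fun _ hx => g.rH_MD d k X hx)
  map_add' X Y := by
    refine LinearMap.ext fun x => Subtype.ext ?_
    show g.rH k (X + Y) x = g.rH k X x + g.rH k Y x
    rw [map_add, LinearMap.add_apply]
  map_smul' c X := by
    refine LinearMap.ext fun x => Subtype.ext ?_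
    show g.rH k (c • X) x = c • g.rH k X x
    rw [map_smul, LinearMap.smul_apply]

theorem Gr.rM_coe (d k : ℕ) (X : sl K) (x : g.MD d k) :
    ((g.rM d k X x : g.MD d k) : H K L k) = g.rH k X x := rfl

theorem Gr.rM_br (d k : ℕ) (X Y : sl K) :
    g.rM d k ⁅X, Y⁆ = g.rM d k X * g.rM d k Y - g.rM d k Y * g.rM d k X := by
  refine LinearMap.ext fun x => Subtype.ext ?_
  rw [g.rM_coe, g.rH_br, LinearMap.sub_apply, LinearMap.sub_apply, Submodule.coe_sub]
  rfl

theorem Gr.qD_rH (d k : ℕ) (X : sl K) (x : H K L k) :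
    g.qD d k (g.rH k X x) = g.rM d k X (g.qD d k x) := by
  obtain ⟨⟨z, hz⟩, rfl⟩ := Submodule.Quotient.mk_surjective _ x
  apply Subtype.ext
  rw [g.rM_coe, g.qD_mk, g.rH_apply, Hact_mk, Hact_mk, g.qD_mk]
  congr 1
  exact Subtype.ext (g.PE_th d X z).symm

theorem Gr.MD_finite (d k : ℕ) : FiniteDimensional K (g.MD d k) := by
  have := g.J_finite d
  letI := Fintype.ofFinite (g.J d)
  have : FiniteDimensional K (g.C d) := (g.bC d).finiteDimensional_of_finite
  have h1 : FiniteDimensional K ((g.C d).submoduleOf (cyc K L k)) := by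
    let f : ((g.C d).submoduleOf (cyc K L k)) →ₗ[K] g.C d :=
      { toFun := fun x => ⟨x.1.1, x.2⟩
        map_add' := fun _ _ => rfl
        map_smul' := fun _ _ => rfl }
    refine FiniteDimensional.of_injective f (fun x y hxy => ?_)
    have h3 : (f x).1 = (f y).1 := by rw [hxy]
    exact Subtype.ext (Subtype.ext h3)
  unfold Gr.MD
  infer_instance

/-- A weight basis of the degree `d` part of the homology. -/
theorem Gr.MD_basis (d k : ℕ) : ∃ (n : ℕ) (b : Basis (Fin n) K (g.MD d k)) (wt : Fin n → ℤ × ℤ),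
    (∀ j, g.rM d k (H1 K) (b j) = (wt j).1 • b j) ∧
    (∀ j, g.rM d k (H2 K) (b j) = (wt j).2 • b j) := by
  classical
  have := g.MD_finite d k
  let w : (ℤ × ℤ) × {z : ExteriorAlgebra K L // z ∈ cyc K L k ∧ z ∈ g.C d} → g.MD d k :=
    fun x => ⟨Submodule.Quotient.mk ⟨g.PW x.1 x.2.1, g.PW_cyc x.1 k x.2.2.1⟩,
      g.mem_MD.2 ⟨_, _, g.PW_C x.1 x.2.2.2, rfl⟩⟩
  have hw : Submodule.span K (Set.range w) = ⊤ := by
    rw [eq_top_iff]
    rintro ⟨x, hx⟩ -
    obtain ⟨z, hz, hzC, rfl⟩ := g.mem_MD.1 hx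
    let s : Finset (ℤ × ℤ) := (g.b.ExteriorAlgebra.repr z).support.image g.wS
    have hsum : z = ∑ ν ∈ s, g.PW ν z := by
      apply g.b.ExteriorAlgebra.ext_elem
      intro S
      rw [map_sum, Finset.sum_apply']
      simp only [PW, repr_P]
      rw [Finset.sum_ite_eq]
      by_cases hS : g.b.ExteriorAlgebra.repr z S = 0
      · rw [hS, ite_self]
      · rw [if_pos]
        exact Finset.mem_image_of_mem _ (Finsupp.mem_support_iff.2 hS)
    have h2 : (⟨Submodule.Quotient.mk ⟨z, hz⟩, hx⟩ : g.MD d k) =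
        ∑ ν ∈ s, w (ν, ⟨z, hz, hzC⟩) := by
      apply Subtype.ext
      rw [AddSubmonoidClass.coe_finsetSum]
      show (Submodule.Quotient.mk ⟨z, hz⟩ : H K L k) =
        ∑ ν ∈ s, ((bd K L k).submoduleOf (cyc K L k)).mkQ ⟨g.PW ν z, g.PW_cyc ν k hz⟩
      rw [← map_sum]
      show (Submodule.Quotient.mk ⟨z, hz⟩ : H K L k) = Submodule.Quotient.mk _
      congr 1
      apply Subtype.ext
      rw [AddSubmonoidClass.coe_finsetSum]
      exact hsum
    rw [h2]
    exact Submodule.sum_mem _ fun ν _ => Submodule.subset_span ⟨_, rfl⟩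
  obtain ⟨κ, a, b, hb⟩ := exists_basis' w hw
  refine ⟨κ, b, fun j => (a j).1, ?_, ?_⟩
  · intro j
    rw [hb]
    apply Subtype.ext
    rw [g.rM_coe, Submodule.coe_smul_of_tower]
    show g.rH k (H1 K) (Submodule.Quotient.mk _) = _ • (Submodule.Quotient.mk _ : H K L k)
    rw [g.rH_apply, Hact_mk, ← Submodule.Quotient.mk_smul]
    congr 1
    exact Subtype.ext (h1_P g.H1_basis _ _)
  · intro j
    rw [hb]
    apply Subtype.ext
    rw [g.rM_coe, Submodule.coe_smul_of_tower]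
    show g.rH k (H2 K) (Submodule.Quotient.mk _) = _ • (Submodule.Quotient.mk _ : H K L k)
    rw [g.rH_apply, Hact_mk, ← Submodule.Quotient.mk_smul]
    congr 1
    exact Subtype.ext (h2_P g.H2_basis _ _)

/-- The highest weight vector in the degree `d` part. -/
theorem Gr.hw_MD {d k : ℕ} {l : ℤ × ℤ} (h : g.HW d k l) : ∃ (v : g.MD d k) (ν : ℤ × ℤ), v ≠ 0 ∧
    cc ν = cc l ∧ g.rM d k (E1 K) v = 0 ∧ g.rM d k (E2 K) v = 0 ∧
    g.rM d k (H1 K) v = ν.1 • v ∧ g.rM d k (H2 K) v = ν.2 • v := by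
  obtain ⟨z, hz, hzb, hzd, ν, hν, h1, h2, e1, e2⟩ := h
  have mk0 : ∀ (w : ExteriorAlgebra K L) (hw : w ∈ cyc K L k), w ∈ bd K L k →
      (Submodule.Quotient.mk ⟨w, hw⟩ : H K L k) = 0 := by
    intro w hw hb
    exact (Submodule.Quotient.mk_eq_zero _).2 hb
  have hzC : z ∈ g.C d := g.mem_C.2 hzd
  refine ⟨⟨Submodule.Quotient.mk ⟨z, hz⟩, g.mem_MD.2 ⟨z, hz, hzC, rfl⟩⟩, ν, ?_, hν, ?_, ?_, ?_, ?_⟩
  · intro h0
    have h1 := (Submodule.Quotient.mk_eq_zero _).1 (congrArg Subtype.val h0)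
    exact hzb h1
  · apply Subtype.ext
    rw [g.rM_coe, g.rH_apply, Hact_mk]
    exact mk0 _ _ e1
  · apply Subtype.ext
    rw [g.rM_coe, g.rH_apply, Hact_mk]
    exact mk0 _ _ e2
  · apply Subtype.ext
    rw [g.rM_coe, g.rH_apply, Hact_mk, Submodule.coe_smul_of_tower, ← Submodule.Quotient.mk_smul]
    congr 1
    exact Subtype.ext h1
  · apply Subtype.ext
    rw [g.rM_coe, g.rH_apply, Hact_mk, Submodule.coe_smul_of_tower, ← Submodule.Quotient.mk_smul]
    congr 1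
    exact Subtype.ext h2

/-- A trivial direct summand. -/
theorem Gr.trivial_summand {d k : ℕ} (h : g.HW d k (0, 0)) :
    ∃ (x : H K L k) (p : H K L k →ₗ[K] K), p x = 1 ∧ (∀ X : sl K, Hact k (g.rho X) x = 0) ∧
      ∀ (X : sl K) (y : H K L k), p (Hact k (g.rho X) y) = 0 := by
  have := g.MD_finite d k
  obtain ⟨κ, b, wt, hh1, hh2⟩ := g.MD_basis d k
  obtain ⟨v, ν, hv, hc, e1, e2, h1, h2⟩ := g.hw_MD h
  obtain ⟨hinv, φ, hφ, hφX⟩ := split_trivial (g.rM d k) (g.rM_br d k) hh1 hh2 hv e1 e2 h1 h2 hc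
  refine ⟨v, φ ∘ₗ g.qD d k, ?_, ?_, ?_⟩
  · rw [LinearMap.comp_apply, g.qD_of_mem, hφ]
  · intro X
    have := congrArg Subtype.val (hinv X)
    exact this
  · intro X y
    rw [LinearMap.comp_apply, ← g.rH_apply, g.qD_rH, hφX]

/-- An adjoint direct summand. -/
theorem Gr.adjoint_summand {d k : ℕ} (h : g.HW d k (1, 1)) :
    ∃ (f : sl K →ₗ[K] H K L k) (p : H K L k →ₗ[K] sl K), (∀ X, p (f X) = X) ∧
      (∀ X Y : sl K, f ⁅X, Y⁆ = Hact k (g.rho X) (f Y)) ∧
      ∀ (X : sl K) (y : H K L k), p (Hact k (g.rho X) y) = ⁅X, p y⁆ := by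
  have := g.MD_finite d k
  obtain ⟨κ, b, wt, hh1, hh2⟩ := g.MD_basis d k
  obtain ⟨v, ν, hv, hc, e1, e2, h1, h2⟩ := g.hw_MD h
  obtain ⟨f, p, hpf, hf, hp⟩ := split_adjoint (g.rM d k) (g.rM_br d k) hh1 hh2 hv e1 e2 h1 h2 hc
  refine ⟨(g.MD d k).subtype ∘ₗ f, p ∘ₗ g.qD d k, ?_, ?_, ?_⟩
  · intro X
    rw [LinearMap.comp_apply, LinearMap.comp_apply]
    show p (g.qD d k (f X : H K L k)) = X
    rw [g.qD_of_mem, hpf]
  · intro X Y
    rw [LinearMap.comp_apply, hf]
    rfl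
  · intro X y
    rw [LinearMap.comp_apply, ← g.rH_apply, g.qD_rH, hp]
    rfl

/-- The homological degree is at most the internal degree. -/
theorem Gr.HW_le {d k : ℕ} {l : ℤ × ℤ} (h : g.HW d k l) : k ≤ d := by
  obtain ⟨z, hz, hzb, hzd, -⟩ := h
  have hz0 : z ≠ 0 := by
    rintro rfl
    exact hzb (zero_mem _)
  have hne : g.b.ExteriorAlgebra.repr z ≠ 0 := by
    intro h0
    exact hz0 (by simpa using h0)
  obtain ⟨S, hS⟩ := Finsupp.ne_iff.1 hne
  rw [Finsupp.zero_apply] at hS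
  have hd := g.repr_C (g.mem_C.2 hzd) hS
  have hk : k = S.card := by
    have h := repr_diag (b := g.b.ExteriorAlgebra) (num_basis g.b) z S
    rw [num_mem hz.1, map_zsmul, Finsupp.smul_apply, zsmul_eq_mul, zsmul_eq_mul] at h
    have h2 := mul_right_cancel₀ hS h
    exact_mod_cast h2
  have h1 : S.card ≤ g.dS S := by
    rw [Gr.dS, Finset.card_eq_sum_ones]
    exact Finset.sum_le_sum fun i _ => g.hpos i
  omega

end
end Pool.Agent.N4.CE
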