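import Pool.Agent.N4.Abg.Alt

/-! The Allison–Benkart–Gao Lie algebra of an alternative algebra: definitions. -/

open scoped TensorProduct

namespace Pool.Agent.N4.Abg

attribute [local instance 100] LieRing.ofAssociativeRing

section A
variable (K : Type*) [Field K] (A : Type*) [NonUnitalNonAssocRing A] [Module K A]
  [IsScalarTower K A A] [SMulCommClass K A A]

/-- Left multiplication `L_p`. -/
def Lm (p : A) : Module.End K A := LinearMap.mulLeft K p

/-- Right multiplication `R_p`. -/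
def Rm (p : A) : Module.End K A := LinearMap.mulRight K p

/-- `D_{p,q} = [L_p, L_q] + [R_p, R_q] + [L_p, R_q]`, as a bilinear map to `End(A)`. -/
def Dmap : A →ₗ[K] A →ₗ[K] Module.End K A :=
  LinearMap.mk₂ K (fun p q => ⁅Lm K A p, Lm K A q⁆ + ⁅Rm K A p, Rm K A q⁆ + ⁅Lm K A p, Rm K A q⁆)
    (by
      intro p p' q; ext r
      simp [Lm, Rm, Ring.lie_def, mul_add, add_mul]; abel)
    (by
      intro c p q; ext r
      simp [Lm, Rm, Ring.lie_def, mul_smul_comm, smul_mul_assoc, smul_add, smul_sub])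
    (by
      intro p q q'; ext r
      simp [Lm, Rm, Ring.lie_def, mul_add, add_mul]; abel)
    (by
      intro c p q; ext r
      simp [Lm, Rm, Ring.lie_def, mul_smul_comm, smul_mul_assoc, smul_add, smul_sub])

/-- `𝓑(A) = Λ²(A) / span {pq ∧ r + qr ∧ p + rp ∧ q}`. -/
abbrev BB : Type _ := (A ⊗[K] A) ⧸ relB K A

/-- The class of `p ∧ q` in `𝓑(A)`. -/
def wedge : A →ₗ[K] A →ₗ[K] BB K A := (TensorProduct.mk K A A).compr₂ (relB K A).mkQ

/-- The Jordan product `p · q = (pq + qp)/2`. -/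
def jord : A →ₗ[K] A →ₗ[K] A := (2 : K)⁻¹ • (LinearMap.mul K A + (LinearMap.mul K A).flip)

/-- The commutator `[p, q] = pq - qp`. -/
def comm : A →ₗ[K] A →ₗ[K] A := LinearMap.mul K A - (LinearMap.mul K A).flip

/-- `𝔰𝔩₃`. -/
abbrev sl3 : LieSubalgebra K (Matrix (Fin 3) (Fin 3) K) :=
  LieAlgebra.SpecialLinear.sl (Fin 3) K

end A

section sl
variable (K : Type*) [Field K] [CharZero K]

/-- `tr (XY)` as a bilinear form on `𝔰𝔩₃`. -/
def trB : sl3 K →ₗ[K] sl3 K →ₗ[K] K :=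
  LinearMap.mk₂ K (fun X Y => Matrix.trace (X.val * Y.val))
    (by intro X Y Z; simp [add_mul]) (by intro c X Y; simp)
    (by intro X Y Z; simp [mul_add]) (by intro c X Y; simp)

theorem anti_mem (X Y : sl3 K) :
    (2 : K)⁻¹ • (X.val * Y.val + Y.val * X.val)
      - (3 : K)⁻¹ • Matrix.trace (X.val * Y.val) • (1 : Matrix (Fin 3) (Fin 3) K) ∈ sl3 K := by
  show Matrix.traceLinearMap (Fin 3) K K _ = 0
  have h : Matrix.trace (Y.val * X.val) = Matrix.trace (X.val * Y.val) := Matrix.trace_mul_comm _ _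
  simp only [map_sub, map_smul, map_add, Matrix.traceLinearMap_apply, h, Matrix.trace_one,
    Fintype.card_fin, smul_eq_mul]
  field_simp
  push_cast
  ring

/-- `{X, Y} = (XY + YX)/2 - tr(XY) I/3`. -/
def anti : sl3 K →ₗ[K] sl3 K →ₗ[K] sl3 K :=
  LinearMap.mk₂ K (fun X Y => ⟨(2 : K)⁻¹ • (X.val * Y.val + Y.val * X.val)
      - (3 : K)⁻¹ • Matrix.trace (X.val * Y.val) • (1 : Matrix (Fin 3) (Fin 3) K), anti_mem K X Y⟩)
    (by intro X Y Z; ext1; simp [add_mul, mul_add, add_smul]; abel)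
    (by intro c X Y; ext1; simp [smul_sub, smul_smul, mul_left_comm, mul_comm])
    (by intro X Y Z; ext1; simp [add_mul, mul_add, add_smul]; abel)
    (by intro c X Y; ext1; simp [smul_sub, smul_smul, mul_left_comm, mul_comm])

/-- The Lie bracket of `𝔰𝔩₃` as a bilinear map. -/
def lieB : sl3 K →ₗ[K] sl3 K →ₗ[K] sl3 K :=
  LinearMap.mk₂ K (fun X Y => ⁅X, Y⁆) (by intro X Y Z; simp) (by intro c X Y; simp)
    (by intro X Y Z; simp) (by intro c X Y; simp)

end sl

section B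
variable (K : Type*) [Field K] (A : Type*) [NonUnitalNonAssocRing A] [Module K A]
  [IsScalarTower K A A] [SMulCommClass K A A]

theorem Dmap_apply (p q r : A) : Dmap K A p q r =
    (p * (q * r) - q * (p * r)) + ((r * q) * p - (r * p) * q) + (p * (r * q) - (p * r) * q) := by
  simp [Dmap, Lm, Rm, Ring.lie_def]

variable [AltRing A]

theorem Dmap_eq (p q r : A) : Dmap K A p q r = dd p q r := by
  rw [Dmap_apply, dd_eq]

theorem Dmap_rel : relB K A ≤ LinearMap.ker (TensorProduct.lift (Dmap K A)) := by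
  rw [relB, Submodule.span_le]
  rintro x (⟨p, rfl⟩ | ⟨p, q, r, rfl⟩)
  · simp only [SetLike.mem_coe, LinearMap.mem_ker, TensorProduct.lift.tmul]
    ext s; rw [Dmap_eq, dd_self, LinearMap.zero_apply]
  · simp only [SetLike.mem_coe, LinearMap.mem_ker, map_add, TensorProduct.lift.tmul]
    ext s; simp only [LinearMap.add_apply, LinearMap.zero_apply, Dmap_eq, dd_cyc]

/-- The map `𝓑(A) → Der(A) ⊆ End(A)`, `p ∧ q ↦ D_{p,q}`. -/
def Dbar : BB K A →ₗ[K] Module.End K A :=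
  (relB K A).liftQ (TensorProduct.lift (Dmap K A)) (Dmap_rel K A)

theorem Dbar_wedge (p q : A) : Dbar K A (wedge K A p q) = Dmap K A p q := by
  simp [Dbar, wedge]

omit [AltRing A] [IsScalarTower K A A] [SMulCommClass K A A] in
theorem wedge_self (p : A) : wedge K A p p = 0 := by
  simp only [wedge, LinearMap.compr₂_apply, TensorProduct.mk_apply, Submodule.mkQ_apply,
    Submodule.Quotient.mk_eq_zero]
  exact Submodule.subset_span (Or.inl ⟨p, rfl⟩)

omit [AltRing A] [IsScalarTower K A A] [SMulCommClass K A A] in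
theorem wedge_cyc (p q r : A) :
    wedge K A (p * q) r + wedge K A (q * r) p + wedge K A (r * p) q = 0 := by
  simp only [wedge, LinearMap.compr₂_apply, TensorProduct.mk_apply, Submodule.mkQ_apply,
    ← Submodule.Quotient.mk_add, Submodule.Quotient.mk_eq_zero]
  exact Submodule.subset_span (Or.inr ⟨p, q, r, rfl⟩)

omit [AltRing A] [IsScalarTower K A A] [SMulCommClass K A A] in
theorem wedge_swap (p q : A) : wedge K A q p = - wedge K A p q := by
  have h := wedge_self K A (p + q)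
  simp only [map_add, LinearMap.add_apply, wedge_self, zero_add, add_zero] at h
  exact eq_neg_of_add_eq_zero_left h

omit [AltRing A] [IsScalarTower K A A] [SMulCommClass K A A] in
/-- Induction principle for `𝓑(A)`. -/
theorem BB.induction {P : BB K A → Prop} (hw : ∀ p q, P (wedge K A p q)) (h0 : P 0)
    (ha : ∀ x y, P x → P y → P (x + y)) (x : BB K A) : P x := by
  obtain ⟨t, rfl⟩ := Submodule.mkQ_surjective _ x
  induction t using TensorProduct.induction_on with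
  | zero => simpa using h0
  | tmul p q => exact hw p q
  | add x y hx hy => rw [map_add]; exact ha _ _ hx hy

theorem Dbar_mul (β : BB K A) (r s : A) :
    Dbar K A β (r * s) = Dbar K A β r * s + r * Dbar K A β s := by
  induction β using BB.induction with
  | hw p q => simp only [Dbar_wedge, Dmap_eq, dd_mul]
  | h0 => simp
  | ha x y hx hy => simp only [map_add, LinearMap.add_apply, hx, hy, mul_add, add_mul]; abel

/-- For `β ∈ 𝓑(A)`, the map `r ⊗ s ↦ D_β(r) ∧ s + r ∧ D_β(s)`. -/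
def actB0 : BB K A →ₗ[K] (A ⊗[K] A) →ₗ[K] BB K A :=
  ((LinearMap.compRight K (relB K A).mkQ ∘ₗ (LinearMap.rTensorHom A + LinearMap.lTensorHom A)) ∘ₗ
    Dbar K A)

theorem actB0_tmul (β : BB K A) (r s : A) : actB0 K A β (r ⊗ₜ s) =
    wedge K A (Dbar K A β r) s + wedge K A r (Dbar K A β s) := by
  simp [actB0, wedge]

theorem actB0_rel : relB K A ≤ LinearMap.ker (actB0 K A).flip := by
  refine Submodule.span_le.2 ?_
  rintro x (⟨p, rfl⟩ | ⟨p, q, r, rfl⟩)
  · simp only [SetLike.mem_coe, LinearMap.mem_ker]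
    apply LinearMap.ext; intro β
    simp only [LinearMap.flip_apply, LinearMap.zero_apply, actB0_tmul]
    rw [wedge_swap K A p]; simp
  · simp only [SetLike.mem_coe, LinearMap.mem_ker]
    apply LinearMap.ext; intro β
    simp only [LinearMap.flip_apply, LinearMap.zero_apply, actB0_tmul, map_add, Dbar_mul,
      LinearMap.add_apply]
    have h1 := wedge_cyc K A (Dbar K A β p) q r
    have h2 := wedge_cyc K A p (Dbar K A β q) r
    have h3 := wedge_cyc K A p q (Dbar K A β r)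
    have : ∀ a b c : BB K A, a = 0 → b = 0 → c = 0 → a + b + c = 0 := by
      rintro _ _ _ rfl rfl rfl; simp
    rw [← this _ _ _ h1 h2 h3]; abel

/-- The action `β ↦ (r ∧ s ↦ D_β(r) ∧ s + r ∧ D_β(s))` of `𝓑(A)` on `𝓑(A)`. -/
def actB : BB K A →ₗ[K] BB K A →ₗ[K] BB K A :=
  ((relB K A).liftQ (actB0 K A).flip (actB0_rel K A)).flip

theorem actB_wedge (β : BB K A) (r s : A) : actB K A β (wedge K A r s) =
    wedge K A (Dbar K A β r) s + wedge K A r (Dbar K A β s) := by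
  rw [← actB0_tmul]; simp [actB, wedge]

end B

section ABG
variable (K : Type*) [Field K] [CharZero K] (A : Type*) [NonUnitalNonAssocRing A] [Module K A]
  [IsScalarTower K A A] [SMulCommClass K A A]

/-- The `𝔰𝔩₃ ⊗ A`-component of `[x, y]` for `x, y ∈ 𝔰𝔩₃ ⊗ A`:
`(X ⊗ p, Y ⊗ q) ↦ [X, Y] ⊗ (p · q) + {X, Y} ⊗ [p, q]`. -/
def ssS : (sl3 K ⊗[K] A) →ₗ[K] (sl3 K ⊗[K] A) →ₗ[K] (sl3 K ⊗[K] A) :=
  TensorProduct.map₂ (lieB K) (jord K A) + TensorProduct.map₂ (anti K) (comm K A)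

/-- The `𝓑(A)`-component of `[x, y]` for `x, y ∈ 𝔰𝔩₃ ⊗ A`:
`(X ⊗ p, Y ⊗ q) ↦ tr(XY) p ∧ q / 3`. -/
def ssB : (sl3 K ⊗[K] A) →ₗ[K] (sl3 K ⊗[K] A) →ₗ[K] BB K A :=
  (3 : K)⁻¹ • (TensorProduct.map₂ (trB K) (wedge K A)).compr₂
    (TensorProduct.lid K (BB K A)).toLinearMap

/-- The action of `𝓑(A)` on `𝔰𝔩₃ ⊗ A`: `(p ∧ q, X ⊗ r) ↦ X ⊗ D_{p,q}(r)`. -/
def actS [AltRing A] : BB K A →ₗ[K] (sl3 K ⊗[K] A) →ₗ[K] (sl3 K ⊗[K] A) :=
  (LinearMap.lTensorHom (sl3 K)) ∘ₗ Dbar K A

theorem ssS_tmul (X Y : sl3 K) (p q : A) : ssS K A (X ⊗ₜ p) (Y ⊗ₜ q) =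
    ⁅X, Y⁆ ⊗ₜ ((2 : K)⁻¹ • (p * q + q * p)) + anti K X Y ⊗ₜ (p * q - q * p) := by
  simp [ssS, lieB, jord, comm]

omit [CharZero K] [IsScalarTower K A A] [SMulCommClass K A A] in
theorem ssB_tmul (X Y : sl3 K) (p q : A) : ssB K A (X ⊗ₜ p) (Y ⊗ₜ q) =
    (3 : K)⁻¹ • Matrix.trace (X.val * Y.val) • wedge K A p q := by
  simp [ssB, trB]

variable [AltRing A]

omit [CharZero K] in
theorem actS_tmul (β : BB K A) (X : sl3 K) (r : A) :
    actS K A β (X ⊗ₜ r) = X ⊗ₜ Dbar K A β r := by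
  simp [actS]

/-- The underlying vector space of `ABG(A) = 𝔰𝔩₃ ⊗ A ⊕ 𝓑(A)`. -/
def ABG : Type _ := (sl3 K ⊗[K] A) × BB K A

noncomputable instance : AddCommGroup (ABG K A) :=
  inferInstanceAs (AddCommGroup ((sl3 K ⊗[K] A) × BB K A))

noncomputable instance : Module K (ABG K A) :=
  inferInstanceAs (Module K ((sl3 K ⊗[K] A) × BB K A))

/-- The bracket of `ABG(A)`. -/
noncomputable instance : Bracket (ABG K A) (ABG K A) :=
  ⟨fun u v => (ssS K A u.1 v.1 + actS K A u.2 v.1 - actS K A v.2 u.1,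
    ssB K A u.1 v.1 + actB K A u.2 v.2)⟩

end ABG

end Pool.Agent.N4.Abg
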