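import Pool.Agent.N4.Abg.Alt

/-! The free non-unital alternative algebra. -/

namespace Pool.Agent.N4.Abg

universe u v

variable (K : Type u) (X : Type v) [Field K]

/-- The relations defining the free alternative algebra as a quotient of the free non-unital
non-associative algebra. -/
inductive AltRel : FreeNonUnitalNonAssocAlgebra K X → FreeNonUnitalNonAssocAlgebra K X → Prop
  | left_alt (a b : FreeNonUnitalNonAssocAlgebra K X) : AltRel ((a * a) * b) (a * (a * b))
  | right_alt (a b : FreeNonUnitalNonAssocAlgebra K X) : AltRel ((b * a) * a) (b * (a * a))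
  | smul (t : K) {a b : FreeNonUnitalNonAssocAlgebra K X} : AltRel a b → AltRel (t • a) (t • b)
  | add_right {a b : FreeNonUnitalNonAssocAlgebra K X} (c : FreeNonUnitalNonAssocAlgebra K X) :
      AltRel a b → AltRel (a + c) (b + c)
  | mul_left (a : FreeNonUnitalNonAssocAlgebra K X) {b c : FreeNonUnitalNonAssocAlgebra K X} :
      AltRel b c → AltRel (a * b) (a * c)
  | mul_right {a b : FreeNonUnitalNonAssocAlgebra K X} (c : FreeNonUnitalNonAssocAlgebra K X) :
      AltRel a b → AltRel (a * c) (b * c)

variable {K X}

theorem AltRel.addLeft (a : FreeNonUnitalNonAssocAlgebra K X)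
    {b c : FreeNonUnitalNonAssocAlgebra K X} (h : AltRel K X b c) :
    AltRel K X (a + b) (a + c) := by
  rw [add_comm _ b, add_comm _ c]; exact h.add_right _

theorem AltRel.neg {a b : FreeNonUnitalNonAssocAlgebra K X} (h : AltRel K X a b) :
    AltRel K X (-a) (-b) := by
  simpa only [neg_one_smul] using h.smul (-1)

theorem AltRel.subLeft (a : FreeNonUnitalNonAssocAlgebra K X)
    {b c : FreeNonUnitalNonAssocAlgebra K X} (h : AltRel K X b c) :
    AltRel K X (a - b) (a - c) := by
  simpa only [sub_eq_add_neg] using h.neg.addLeft a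

theorem AltRel.subRight {a b : FreeNonUnitalNonAssocAlgebra K X}
    (c : FreeNonUnitalNonAssocAlgebra K X) (h : AltRel K X a b) :
    AltRel K X (a - c) (b - c) := by
  simpa only [sub_eq_add_neg] using h.add_right (-c)

theorem AltRel.smulOfTower {S : Type*} [Monoid S] [DistribMulAction S K] [IsScalarTower S K K]
    (t : S) (a b : FreeNonUnitalNonAssocAlgebra K X) (h : AltRel K X a b) :
    AltRel K X (t • a) (t • b) := by
  rw [← smul_one_smul K t a, ← smul_one_smul K t b]
  exact h.smul _

variable (K X)

/-- The free non-unital alternative `K`-algebra on `X`. -/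
def FreeAlt : Type (max u v) := Quot (AltRel K X)

namespace FreeAlt

noncomputable instance {S : Type*} [Monoid S] [DistribMulAction S K] [IsScalarTower S K K] :
    SMul S (FreeAlt K X) where
  smul t := Quot.map (t • ·) (AltRel.smulOfTower t)

noncomputable instance : Zero (FreeAlt K X) where zero := Quot.mk _ 0

noncomputable instance : Add (FreeAlt K X) where
  add := Quot.map₂ (· + ·) (fun _ _ _ => AltRel.addLeft _) fun _ _ _ => AltRel.add_right _

noncomputable instance : Neg (FreeAlt K X) where neg := Quot.map Neg.neg fun _ _ => AltRel.neg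

noncomputable instance : Sub (FreeAlt K X) where
  sub := Quot.map₂ Sub.sub (fun _ _ _ => AltRel.subLeft _) fun _ _ _ => AltRel.subRight _

noncomputable instance : Mul (FreeAlt K X) where
  mul := Quot.map₂ (· * ·) (fun _ _ _ => AltRel.mul_left _) fun _ _ _ => AltRel.mul_right _

noncomputable instance : AddGroup (FreeAlt K X) :=
  Function.Surjective.addGroup (Quot.mk _) Quot.mk_surjective rfl (fun _ _ => rfl)
    (fun _ => rfl) (fun _ _ => rfl) (fun _ _ => rfl) fun _ _ => rfl

noncomputable instance : AddCommSemigroup (FreeAlt K X) :=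
  Function.Surjective.addCommSemigroup (Quot.mk _) Quot.mk_surjective fun _ _ => rfl

noncomputable instance : AddCommGroup (FreeAlt K X) :=
  { (inferInstance : AddGroup (FreeAlt K X)),
    (inferInstance : AddCommSemigroup (FreeAlt K X)) with }

noncomputable instance : NonUnitalNonAssocRing (FreeAlt K X) :=
  { (inferInstance : AddCommGroup (FreeAlt K X)),
    (inferInstance : Mul (FreeAlt K X)) with
    left_distrib := by
      rintro ⟨a⟩ ⟨b⟩ ⟨c⟩
      exact congrArg (Quot.mk _) (mul_add a b c)
    right_distrib := by
      rintro ⟨a⟩ ⟨b⟩ ⟨c⟩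
      exact congrArg (Quot.mk _) (add_mul a b c)
    zero_mul := by
      rintro ⟨a⟩
      exact congrArg (Quot.mk _) (zero_mul a)
    mul_zero := by
      rintro ⟨a⟩
      exact congrArg (Quot.mk _) (mul_zero a) }

noncomputable instance : Module K (FreeAlt K X) :=
  Function.Surjective.module K ⟨⟨Quot.mk (AltRel K X), rfl⟩, fun _ _ => rfl⟩
    Quot.mk_surjective (fun _ _ => rfl)

instance : IsScalarTower K (FreeAlt K X) (FreeAlt K X) where
  smul_assoc := by
    rintro t ⟨a⟩ ⟨b⟩
    exact congrArg (Quot.mk _) (smul_mul_assoc t a b)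

instance : SMulCommClass K (FreeAlt K X) (FreeAlt K X) where
  smul_comm := by
    rintro t ⟨a⟩ ⟨b⟩
    exact congrArg (Quot.mk _) (mul_smul_comm t a b).symm

instance : AltRing (FreeAlt K X) where
  left_alt := by
    rintro ⟨a⟩ ⟨b⟩
    exact Quot.sound (AltRel.left_alt a b)
  right_alt := by
    rintro ⟨a⟩ ⟨b⟩
    exact Quot.sound (AltRel.right_alt a b)

/-- The generators. -/
noncomputable def of (x : X) : FreeAlt K X := Quot.mk _ (FreeNonUnitalNonAssocAlgebra.of K x)

/-- The quotient map. -/
noncomputable def mk : FreeNonUnitalNonAssocAlgebra K X →ₙₐ[K] FreeAlt K X where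
  toFun := Quot.mk (AltRel K X)
  map_smul' _ _ := rfl
  map_zero' := rfl
  map_add' _ _ := rfl
  map_mul' _ _ := rfl

theorem mk_surjective : Function.Surjective (mk K X) := Quot.mk_surjective

variable {K X}

section lift
variable {B : Type*} [NonUnitalNonAssocRing B] [Module K B] [IsScalarTower K B B]
  [SMulCommClass K B B]

theorem lift_spec [AltRing B] (f : X → B) (a b : FreeNonUnitalNonAssocAlgebra K X)
    (h : AltRel K X a b) :
    FreeNonUnitalNonAssocAlgebra.lift K f a = FreeNonUnitalNonAssocAlgebra.lift K f b := by
  induction h with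
  | left_alt a b => simp only [map_mul, AltRing.left_alt]
  | right_alt a b => simp only [map_mul, AltRing.right_alt]
  | smul t _ h => simp only [map_smul, h]
  | add_right c _ h => simp only [map_add, h]
  | mul_left a _ h => simp only [map_mul, h]
  | mul_right c _ h => simp only [map_mul, h]

/-- The universal property. -/
noncomputable def lift [AltRing B] (f : X → B) : FreeAlt K X →ₙₐ[K] B where
  toFun c := Quot.liftOn c (FreeNonUnitalNonAssocAlgebra.lift K f) (lift_spec f)
  map_smul' := by rintro t ⟨a⟩; exact map_smul (FreeNonUnitalNonAssocAlgebra.lift K f) t a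
  map_zero' := map_zero (FreeNonUnitalNonAssocAlgebra.lift K f)
  map_add' := by rintro ⟨a⟩ ⟨b⟩; exact map_add (FreeNonUnitalNonAssocAlgebra.lift K f) a b
  map_mul' := by rintro ⟨a⟩ ⟨b⟩; exact map_mul (FreeNonUnitalNonAssocAlgebra.lift K f) a b

theorem lift_mk [AltRing B] (f : X → B) (a : FreeNonUnitalNonAssocAlgebra K X) :
    lift f (mk K X a) = FreeNonUnitalNonAssocAlgebra.lift K f a := rfl

theorem lift_of [AltRing B] (f : X → B) (x : X) : lift f (of K X x) = f x :=
  FreeNonUnitalNonAssocAlgebra.lift_of_apply K f x

end lift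

variable (K)

/-- The element of the free alternative algebra given by a nonassociative word. -/
noncomputable def word (m : FreeMagma X) : FreeAlt K X := mk K X (MonoidAlgebra.single m 1)

theorem word_of (x : X) : word K (FreeMagma.of x) = of K X x := rfl

theorem word_mul (m n : FreeMagma X) : word K (m * n) = word K m * word K n := by
  rw [word, word, word, ← map_mul, MonoidAlgebra.single_mul_single, mul_one]

theorem span_word : Submodule.span K (Set.range (word K (X := X))) = ⊤ := by
  rw [eq_top_iff]
  rintro x -
  obtain ⟨a, rfl⟩ := mk_surjective K X x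
  induction (MonoidAlgebra.basis (FreeMagma X) K).mem_span a using Submodule.span_induction with
  | mem y hy =>
    obtain ⟨m, rfl⟩ := hy
    exact Submodule.subset_span ⟨m, by rw [MonoidAlgebra.basis_apply]; rfl⟩
  | zero => rw [map_zero]; exact zero_mem _
  | add x y _ _ hx hy => rw [map_add]; exact add_mem hx hy
  | smul c x _ hx => rw [map_smul]; exact Submodule.smul_mem _ _ hx

/-- The degree derivation on the free nonassociative algebra. -/
noncomputable def E0 : FreeNonUnitalNonAssocAlgebra K X →ₗ[K] FreeNonUnitalNonAssocAlgebra K X :=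
  (MonoidAlgebra.basis (FreeMagma X) K).constr K
    (fun m => (m.length : K) • MonoidAlgebra.single m 1)

theorem E0_single (m : FreeMagma X) : E0 K (MonoidAlgebra.single m (1 : K)) =
    (m.length : K) • MonoidAlgebra.single m 1 := by
  have h := (MonoidAlgebra.basis (FreeMagma X) K).constr_basis K
    (fun m => (m.length : K) • MonoidAlgebra.single m (1 : K)) m
  rw [MonoidAlgebra.basis_apply] at h
  exact h

theorem E0_mul (a b : FreeNonUnitalNonAssocAlgebra K X) :
    E0 K (a * b) = E0 K a * b + a * E0 K b := by
  induction (MonoidAlgebra.basis (FreeMagma X) K).mem_span a using Submodule.span_induction with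
  | zero => simp
  | add x y _ _ hx hy => simp only [map_add, add_mul, hx, hy]; abel
  | smul c x _ hx => simp only [map_smul, smul_mul_assoc, hx, smul_add]
  | mem y hy =>
    obtain ⟨m, rfl⟩ := hy
    induction (MonoidAlgebra.basis (FreeMagma X) K).mem_span b using
      Submodule.span_induction with
    | zero => simp
    | add x y _ _ hx hy => simp only [map_add, mul_add, hx, hy]; abel
    | smul c x _ hx => simp only [map_smul, mul_smul_comm, hx, smul_add]
    | mem z hz =>
      obtain ⟨n, rfl⟩ := hz
      simp only [MonoidAlgebra.basis_apply, MonoidAlgebra.single_mul_single, mul_one, E0_single,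
        smul_mul_assoc, mul_smul_comm, ← add_smul]
      congr 1
      show ((m.length + n.length : ℕ) : K) = _
      push_cast; rfl

/-- The degree derivation respects the relations. -/
theorem E0_rel (a b : FreeNonUnitalNonAssocAlgebra K X) (h : AltRel K X a b) :
    mk K X (E0 K a) = mk K X (E0 K b) := by
  induction h with
  | left_alt a b =>
    simp only [E0_mul, map_mul, map_add]
    have h1 := altL (mk K X (E0 K a)) (mk K X a) (mk K X b)
    have h2 := AltRing.left_alt (mk K X a) (mk K X (E0 K b))
    rw [← sub_eq_zero] at h2 ⊢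
    simp only [as] at h1
    simp only [mul_add, add_mul]
    linear_combination (norm := abel) h1 + h2
  | right_alt a b =>
    simp only [E0_mul, map_mul, map_add]
    have h1 := altR (mk K X b) (mk K X (E0 K a)) (mk K X a)
    have h2 := AltRing.right_alt (mk K X a) (mk K X (E0 K b))
    rw [← sub_eq_zero] at h2 ⊢
    simp only [as] at h1
    simp only [mul_add, add_mul]
    linear_combination (norm := abel) h1 + h2
  | smul t _ h => simp only [map_smul, h]
  | add_right c _ h => simp only [map_add, h]
  | mul_left a h' h =>
    simp only [E0_mul, map_mul, map_add, h]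
    rw [show mk K X _ = mk K X _ from Quot.sound h']
  | mul_right c h' h =>
    simp only [E0_mul, map_mul, map_add, h]
    rw [show mk K X _ = mk K X _ from Quot.sound h']

/-- The degree derivation: `E(w) = length(w) w` for every word `w`. -/
noncomputable def Edeg : FreeAlt K X →ₗ[K] FreeAlt K X where
  toFun c := Quot.liftOn c (fun a => mk K X (E0 K a)) (E0_rel K)
  map_add' := by
    rintro ⟨a⟩ ⟨b⟩
    show mk K X (E0 K (a + b)) = mk K X (E0 K a) + mk K X (E0 K b)
    rw [map_add, map_add]
  map_smul' := by
    rintro t ⟨a⟩
    show mk K X (E0 K (t • a)) = t • mk K X (E0 K a)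
    rw [map_smul, map_smul]

theorem Edeg_mk (a : FreeNonUnitalNonAssocAlgebra K X) : Edeg K (mk K X a) = mk K X (E0 K a) := rfl

theorem Edeg_word (m : FreeMagma X) : Edeg K (word K m) = (m.length : K) • word K m := by
  rw [word, Edeg_mk, E0_single, map_smul]

theorem Edeg_mul (a b : FreeAlt K X) : Edeg K (a * b) = Edeg K a * b + a * Edeg K b := by
  obtain ⟨a, rfl⟩ := mk_surjective K X a
  obtain ⟨b, rfl⟩ := mk_surjective K X b
  rw [← map_mul, Edeg_mk, Edeg_mk, Edeg_mk, E0_mul, map_add, map_mul, map_mul]

end FreeAlt

end Pool.Agent.N4.Abg
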