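import Pool.Agent.N4.Abg.Sl
import Pool.Agent.N4.Abg.Free

/-! Derivations of `ABG(A)` induced by derivations of `A`. -/

open scoped TensorProduct

namespace Pool.Agent.N4.Abg

attribute [local instance 100] LieRing.ofAssociativeRing

section
variable (K : Type*) [Field K] [CharZero K] (A : Type*) [NonUnitalNonAssocRing A] [Module K A]
  [IsScalarTower K A A] [SMulCommClass K A A] (δ : A →ₗ[K] A)

/-- The induced map on `𝔰𝔩₃ ⊗ A`. -/
noncomputable def derS : (sl3 K ⊗[K] A) →ₗ[K] (sl3 K ⊗[K] A) := LinearMap.lTensor (sl3 K) δ

omit [CharZero K] [IsScalarTower K A A] [SMulCommClass K A A] in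
theorem derS_tmul (X : sl3 K) (p : A) : derS K A δ (X ⊗ₜ p) = X ⊗ₜ δ p := by simp [derS]

variable (hδ : ∀ x y, δ (x * y) = δ x * y + x * δ y)

include hδ in
omit [CharZero K] [IsScalarTower K A A] [SMulCommClass K A A] in
theorem derB_rel : relB K A ≤ (relB K A).comap (LinearMap.rTensor A δ + LinearMap.lTensor A δ) := by
  refine Submodule.span_le.2 ?_
  have mem : ∀ t, (relB K A).mkQ t = 0 → t ∈ relB K A := by
    intro t ht
    rwa [Submodule.mkQ_apply, Submodule.Quotient.mk_eq_zero] at ht
  rintro x (⟨p, rfl⟩ | ⟨p, q, r, rfl⟩)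
  · show (LinearMap.rTensor A δ + LinearMap.lTensor A δ) (p ⊗ₜ p) ∈ relB K A
    apply mem
    rw [LinearMap.add_apply, LinearMap.rTensor_tmul, LinearMap.lTensor_tmul, map_add]
    show wedge K A (δ p) p + wedge K A p (δ p) = 0
    rw [wedge_swap K A p]; simp
  · show (LinearMap.rTensor A δ + LinearMap.lTensor A δ) _ ∈ relB K A
    apply mem
    simp only [LinearMap.add_apply, map_add, LinearMap.rTensor_tmul, LinearMap.lTensor_tmul, hδ,
      TensorProduct.add_tmul, TensorProduct.tmul_add]
    have h1 := wedge_cyc K A (δ p) q r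
    have h2 := wedge_cyc K A p (δ q) r
    have h3 := wedge_cyc K A p q (δ r)
    have e : ∀ a b : A, (relB K A).mkQ (a ⊗ₜ b) = wedge K A a b := fun _ _ => rfl
    simp only [e]
    linear_combination (norm := abel) h1 + h2 + h3

/-- The induced map on `𝓑(A)`. -/
noncomputable def derB : BB K A →ₗ[K] BB K A :=
  (relB K A).mapQ (relB K A) (LinearMap.rTensor A δ + LinearMap.lTensor A δ) (derB_rel K A δ hδ)

omit [CharZero K] [IsScalarTower K A A] [SMulCommClass K A A] in
theorem derB_wedge (p q : A) : derB K A δ hδ (wedge K A p q) =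
    wedge K A (δ p) q + wedge K A p (δ q) := by
  simp [derB, wedge]

include hδ in
theorem derS_ssS (x y : sl3 K ⊗[K] A) : derS K A δ (ssS K A x y) =
    ssS K A (derS K A δ x) y + ssS K A x (derS K A δ y) := by
  induction x using TensorProduct.induction_on with
  | zero => simp
  | add x x' hx hx' => simp only [map_add, LinearMap.add_apply, hx, hx']; abel
  | tmul X p =>
    induction y using TensorProduct.induction_on with
    | zero => simp
    | add y y' hx hx' => simp only [map_add, hx, hx']; abel
    | tmul Y q =>
      simp only [ssS_tmul, derS_tmul, map_add, map_sub, map_smul, hδ, TensorProduct.tmul_add,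
        TensorProduct.tmul_sub, TensorProduct.tmul_smul, smul_add]
      abel

omit [CharZero K] [IsScalarTower K A A] [SMulCommClass K A A] in
theorem derB_ssB (x y : sl3 K ⊗[K] A) : derB K A δ hδ (ssB K A x y) =
    ssB K A (derS K A δ x) y + ssB K A x (derS K A δ y) := by
  induction x using TensorProduct.induction_on with
  | zero => simp
  | add x x' hx hx' => simp only [map_add, LinearMap.add_apply, hx, hx']; abel
  | tmul X p =>
    induction y using TensorProduct.induction_on with
    | zero => simp
    | add y y' hx hx' => simp only [map_add, hx, hx']; abel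
    | tmul Y q =>
      simp only [ssB_tmul, derS_tmul, map_smul, derB_wedge, smul_add]

variable [AltRing A]

omit [CharZero K] in
theorem Dbar_derB (β : BB K A) (r : A) : Dbar K A (derB K A δ hδ β) r =
    δ (Dbar K A β r) - Dbar K A β (δ r) := by
  induction β using BB.induction with
  | h0 => simp
  | ha x y hx hy => simp only [map_add, LinearMap.add_apply, hx, hy]; abel
  | hw p q =>
    rw [derB_wedge, map_add, Dbar_wedge, Dbar_wedge, Dbar_wedge, LinearMap.add_apply]
    have h := deriv_dd δ.toAddMonoidHom hδ p q r
    simp only [LinearMap.toAddMonoidHom_coe] at h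
    simp only [Dmap_eq, h]; abel

omit [CharZero K] in
theorem derS_actS (β : BB K A) (x : sl3 K ⊗[K] A) : derS K A δ (actS K A β x) =
    actS K A (derB K A δ hδ β) x + actS K A β (derS K A δ x) := by
  induction x using TensorProduct.induction_on with
  | zero => simp
  | add x x' hx hx' => simp only [map_add, hx, hx']; abel
  | tmul X p =>
    simp only [actS_tmul, derS_tmul, Dbar_derB, TensorProduct.tmul_sub]; abel

omit [CharZero K] in
theorem derB_actB (β γ : BB K A) : derB K A δ hδ (actB K A β γ) =
    actB K A (derB K A δ hδ β) γ + actB K A β (derB K A δ hδ γ) := by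
  induction γ using BB.induction with
  | h0 => simp
  | ha x y hx hy => simp only [map_add, hx, hy]; abel
  | hw p q =>
    simp only [actB_wedge, derB_wedge, Dbar_derB, map_sub, map_add, LinearMap.sub_apply]; abel

/-- The induced linear map on `ABG(A)`. -/
noncomputable def derLin : ABG K A →ₗ[K] ABG K A where
  toFun u := (derS K A δ u.1, derB K A δ hδ u.2)
  map_add' u v := by
    apply ABG.ext
    · exact map_add (derS K A δ) u.1 v.1
    · exact map_add (derB K A δ hδ) u.2 v.2
  map_smul' c u := by
    apply ABG.ext
    · exact map_smul (derS K A δ) c u.1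
    · exact map_smul (derB K A δ hδ) c u.2

theorem derLin_fst (u : ABG K A) : (derLin K A δ hδ u).1 = derS K A δ u.1 := rfl

theorem derLin_snd (u : ABG K A) : (derLin K A δ hδ u).2 = derB K A δ hδ u.2 := rfl

/-- The derivation of `ABG(A)` induced by a derivation of `A`. -/
noncomputable def derL : LieDerivation K (ABG K A) (ABG K A) where
  toLinearMap := derLin K A δ hδ
  leibniz' u v := by
    apply ABG.ext
    · rw [derLin_fst, ABG.sub_fst, lie_fst, lie_fst, lie_fst, derLin_fst, derLin_fst, derLin_snd,
        derLin_snd]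
      simp only [map_add, map_sub, derS_ssS K A δ hδ, derS_actS K A δ hδ]
      rw [ssS_skew K A (derS K A δ u.1) v.1]
      abel
    · rw [derLin_snd, ABG.sub_snd, lie_snd, lie_snd, lie_snd, derLin_fst, derLin_fst, derLin_snd,
        derLin_snd]
      simp only [map_add, derB_ssB, derB_actB]
      rw [ssB_skew K A (derS K A δ u.1) v.1, actB_skew K A (derB K A δ hδ u.2) v.2]
      abel

theorem derL_fst (u : ABG K A) : (derL K A δ hδ u).1 = derS K A δ u.1 := rfl

theorem derL_snd (u : ABG K A) : (derL K A δ hδ u).2 = derB K A δ hδ u.2 := rfl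

end

end Pool.Agent.N4.Abg
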