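import Pool.Agent.N4.Abg.Grad

/-! The Euler characteristic identity in each degree. -/

set_option linter.unusedSectionVars false

namespace Pool.Agent.N4.CE

open ExteriorAlgebra Module Pool.Agent.N4.Rep

attribute [local instance 100] LieRing.ofAssociativeRing

section
variable {K L I : Type*} [Field K] [CharZero K] [LieRing L] [LieAlgebra K L] [LinearOrder I]
  (g : Gr K L I)

/-- An eigenvector of the number operator lies in `⋀^k`. -/
theorem mem_of_num (b : Basis I K L) {k : ℕ} {x : ExteriorAlgebra K L}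
    (hx : theta (LinearMap.id : L →ₗ[K] L) x = (k : ℤ) • x) : x ∈ ⋀[K]^k L := by
  rw [← b.ExteriorAlgebra.linearCombination_repr x, Finsupp.linearCombination_apply, Finsupp.sum]
  refine Submodule.sum_mem _ fun S hS => Submodule.smul_mem _ _ ?_
  have hS' := Finsupp.mem_support_iff.1 hS
  have h := repr_diag (b := b.ExteriorAlgebra) (num_basis b) x S
  rw [hx, map_zsmul, Finsupp.smul_apply, zsmul_eq_mul, zsmul_eq_mul] at h
  have h2 := mul_right_cancel₀ hS' h
  have h3 : k = S.card := by exact_mod_cast h2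
  rw [h3]
  exact basis_mem b S

/-- The projection to degree `d`. -/
noncomputable def Gr.PE (d : ℕ) : Module.End K (ExteriorAlgebra K L) :=
  P g.b.ExteriorAlgebra (fun S => ((g.dS S : ℤ), (0 : ℤ))) ((d : ℤ), 0)

theorem Gr.PE_mem (d : ℕ) (x : ExteriorAlgebra K L) : g.PE d x ∈ g.C d := by
  rw [g.mem_C]
  exact h1_P (wt := fun S => ((g.dS S : ℤ), (0 : ℤ))) (h1 := g.dE) g.dE_basis _ x

theorem Gr.PE_of_mem {d : ℕ} {x : ExteriorAlgebra K L} (hx : x ∈ g.C d) : g.PE d x = x := by
  have := P_of_weight (b := g.b.ExteriorAlgebra) (wt := fun S => ((g.dS S : ℤ), (0 : ℤ)))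
    (h1 := g.dE) (h2 := 0) g.dE_basis (fun S => by simp) (ν := ((d : ℤ), 0)) (x := x)
    (g.mem_C.1 hx) (by simp) ((d : ℤ), 0)
  rw [PE, this, if_pos rfl]

theorem Gr.PE_del (d : ℕ) (x : ExteriorAlgebra K L) : del K L (g.PE d x) = g.PE d (del K L x) := by
  have := shift (b := g.b.ExteriorAlgebra) (wt := fun S => ((g.dS S : ℤ), (0 : ℤ)))
    (h1 := g.dE) (h2 := 0) g.dE_basis (fun S => by simp) (T := del K L) (c := (0, 0))
    (by
      refine LinearMap.ext fun y => ?_
      simp only [Module.End.mul_apply, LinearMap.add_apply, zero_smul, LinearMap.zero_apply,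
        add_zero]
      exact g.del_dE y)
    (by simp) ((d : ℤ), 0)
  have h2 := LinearMap.congr_fun this x
  rw [Module.End.mul_apply, Module.End.mul_apply] at h2
  rw [PE, h2]
  simp

theorem Gr.Th_eq_zero (d : ℕ) (l : ℤ × ℤ) (h : ∀ k, ¬ g.HW d k l) : g.Th d l = 0 := by
  classical
  have := g.J_finite d
  letI := Fintype.ofFinite (g.J d)
  have : FiniteDimensional K (g.C d) := (g.bC d).finiteDimensional_of_finite
  let dl : Module.End K (g.C d) := g.res d (del K L) g.del_dE
  let σ : Module.End K (g.C d) := g.res d par (fun x => (par_theta _ x).symm)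
  let nC : Module.End K (g.C d) := g.res d (theta (LinearMap.id : L →ₗ[K] L))
    (fun x => (num_theta _ x).symm)
  have hdl : ∀ x : g.C d, ((dl x : g.C d) : ExteriorAlgebra K L) = del K L x := fun _ => rfl
  have hnC : ∀ x : g.C d, ((nC x : g.C d) : ExteriorAlgebra K L) =
    theta (LinearMap.id : L →ₗ[K] L) x := fun _ => rfl
  have hcomm : ∀ X : sl K, Commute dl (g.rC d X) := by
    intro X
    refine LinearMap.ext fun x => Subtype.ext ?_
    rw [Module.End.mul_apply, Module.End.mul_apply, hdl, g.rC_coe, g.rC_coe, hdl, g.del_th]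
  have hσcomm : ∀ X : sl K, Commute σ (g.rC d X) := by
    intro X
    refine LinearMap.ext fun x => Subtype.ext ?_
    rw [Module.End.mul_apply, Module.End.mul_apply]
    exact par_theta _ _
  have hwt1 : ∀ S : g.J d, g.rC d (H1 K) (g.bC d S) = (g.wS S.1).1 • g.bC d S := by
    intro S
    apply Subtype.ext
    rw [g.rC_coe, g.bC_apply, g.H1_basis]
    rw [← g.bC_apply]; rfl
  have hwt2 : ∀ S : g.J d, g.rC d (H2 K) (g.bC d S) = (g.wS S.1).2 • g.bC d S := by
    intro S
    apply Subtype.ext
    rw [g.rC_coe, g.bC_apply, g.H2_basis]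
    rw [← g.bC_apply]; rfl
  have hn1 : ∀ S : g.J d, nC (g.bC d S) =
      ((fun S : g.J d => ((S.1.card : ℤ), (0 : ℤ))) S).1 • g.bC d S := by
    intro S
    apply Subtype.ext
    rw [hnC, g.bC_apply, num_basis]
    rw [← g.bC_apply]; rfl
  have hn2 : ∀ S : g.J d, (0 : Module.End K (g.C d)) (g.bC d S) =
      ((fun S : g.J d => ((S.1.card : ℤ), (0 : ℤ))) S).2 • g.bC d S := by
    intro S; simp
  have hzero : ∀ T : Module.End K (g.C d), (0 : Module.End K (g.C d)) * T = T * 0 + (0 : ℤ) • T := by
    intro T; simp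
  -- the projection to homological degree k
  let Pk : ℤ → Module.End K (g.C d) := fun k =>
    P (g.bC d) (fun S : g.J d => ((S.1.card : ℤ), (0 : ℤ))) (k, 0)
  have Pk_dl : ∀ k x, dl (Pk k x) = Pk (k - 1) (dl x) := by
    intro k x
    have := shift (b := g.bC d) hn1 hn2 (T := dl) (c := (-1, 0))
      (by
        rw [show ((-1, 0) : ℤ × ℤ).1 = -1 from rfl, neg_smul, one_smul, ← sub_eq_add_neg]
        refine LinearMap.ext fun y => Subtype.ext ?_
        rw [LinearMap.sub_apply, Submodule.coe_sub, Module.End.mul_apply, Module.End.mul_apply,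
          hnC, hdl, hdl, hnC, num_del])
      (hzero dl) (k, 0)
    have h2 := LinearMap.congr_fun this x
    rw [Module.End.mul_apply, Module.End.mul_apply] at h2
    exact h2
  have Pk_r : ∀ X k x, g.rC d X (Pk k x) = Pk k (g.rC d X x) := by
    intro X k x
    have := shift (b := g.bC d) hn1 hn2 (T := g.rC d X) (c := (0, 0))
      (by
        refine LinearMap.ext fun y => Subtype.ext ?_
        simp only [Module.End.mul_apply, LinearMap.add_apply, zero_smul, LinearMap.zero_apply,
          add_zero, hnC, g.rC_coe]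
        exact num_theta _ _)
      (hzero _) (k, 0)
    have h2 := LinearMap.congr_fun this x
    rw [Module.End.mul_apply, Module.End.mul_apply] at h2
    simpa using h2
  have Pk_num : ∀ (k : ℕ) x, ((Pk k x : g.C d) : ExteriorAlgebra K L) ∈ ⋀[K]^k L := by
    intro k x
    apply mem_of_num g.b
    have := h1_P (b := g.bC d) (wt := fun S : g.J d => ((S.1.card : ℤ), (0 : ℤ))) (h1 := nC) hn1
      ((k : ℤ), 0) x
    have h3 := congrArg Subtype.val this
    rw [hnC] at h3
    exact h3
  have main := ala (isSl3 (g.rC d) (g.rC_br d)) hwt1 hwt2 dl (hcomm _) (hcomm _) (hcomm _) (hcomm _)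
    (by
      refine LinearMap.ext fun x => Subtype.ext ?_
      rw [Module.End.mul_apply, hdl, hdl, del_del]; rfl)
    (fun S : g.J d => S.1.card) σ
    (by
      intro S
      apply Subtype.ext
      show par ((g.bC d S : g.C d) : ExteriorAlgebra K L) = _
      rw [g.bC_apply, par_mem (basis_mem g.b S.1), ← g.bC_apply]; rfl)
    (hσcomm _) (hσcomm _) (hσcomm _) (hσcomm _)
    (by
      refine LinearMap.ext fun x => Subtype.ext ?_
      rw [Module.End.mul_apply, LinearMap.neg_apply, Module.End.mul_apply, Submodule.coe_neg]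
      exact par_del _)
    l
    (by
      intro z hz hzb ν hν1 hν2 he1 he2 hcc
      -- choose k
      have hk : ∃ k : ℕ, ∀ y, dl y ≠ Pk k z := by
        by_contra hcon
        push Not at hcon
        choose y hy using hcon
        have hs := sum_P (b := g.bC d) (wt := fun S : g.J d => ((S.1.card : ℤ), (0 : ℤ))) z
        apply hzb (∑ ν ∈ Finset.univ.image (fun S : g.J d => ((S.1.card : ℤ), (0 : ℤ))),
          y ν.1.toNat)
        rw [map_sum]
        conv_rhs => rw [← hs]
        apply Finset.sum_congr rfl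
        intro μ hμ
        obtain ⟨S, -, rfl⟩ := Finset.mem_image.1 hμ
        rw [hy]
        simp [Pk]
      obtain ⟨k, hk⟩ := hk
      apply h k
      refine ⟨(Pk k z : g.C d), ⟨Pk_num k z, ?_⟩, ?_, ?_, ν, hcc, ?_, ?_, ?_, ?_⟩
      · show del K L _ = 0
        rw [← hdl, Pk_dl, hz, map_zero]; rfl
      · rintro ⟨y, -, hy⟩
        apply hk ⟨g.PE d y, g.PE_mem d y⟩
        apply Subtype.ext
        rw [hdl]
        show del K L (g.PE d y) = _
        rw [g.PE_del, hy, g.PE_of_mem (Pk k z).2]
      · exact g.mem_C.1 (Pk k z).2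
      · rw [← g.rC_coe, Pk_r, hν1, map_zsmul]; rfl
      · rw [← g.rC_coe, Pk_r, hν2, map_zsmul]; rfl
      · obtain ⟨y, hy⟩ := he1
        refine ⟨(Pk ((k + 1 : ℕ) : ℤ) y : g.C d), Pk_num _ _, ?_⟩
        rw [← hdl, Pk_dl, hy, ← g.rC_coe, Pk_r]
        push_cast; rw [add_sub_cancel_right]
      · obtain ⟨y, hy⟩ := he2
        refine ⟨(Pk ((k + 1 : ℕ) : ℤ) y : g.C d), Pk_num _ _, ?_⟩
        rw [← hdl, Pk_dl, hy, ← g.rC_coe, Pk_r]
        push_cast; rw [add_sub_cancel_right])
  exact main

end
end Pool.Agent.N4.CE
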