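import Pool.Agent.N4.Abg.Rep3

/-! The main linear algebra statement: Euler characteristics of weight multiplicities. -/

namespace Pool.Agent.N4.Rep

open Module

section comm
variable {R : Type*} [Ring R] {e1 e2 e3 f1 f2 f3 h1 h2 : R}

theorem comm_zsmul {S a : R} (h : Commute S a) (n : ℤ) : Commute S (n • a) := by
  show S * (n • a) = (n • a) * S
  rw [mul_smul_comm, smul_mul_assoc, h.eq]

theorem comm_cas (s : IsSl3 e1 e2 e3 f1 f2 f3 h1 h2) {S : R} (c1 : Commute S e1)
    (c2 : Commute S e2) (d1 : Commute S f1) (d2 : Commute S f2) :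
    Commute S (cas e1 e2 e3 f1 f2 f3 h1 h2) := by
  have he3 : e3 = e1 * e2 - e2 * e1 := by rw [s.e2e1]; abel
  have hf3 : f3 = f2 * f1 - f1 * f2 := by rw [s.f2f1]; abel
  have hh1 : h1 = e1 * f1 - f1 * e1 := by rw [s.e1f1]; abel
  have hh2 : h2 = e2 * f2 - f2 * e2 := by rw [s.e2f2]; abel
  have c3 : Commute S e3 := by
    rw [he3]; exact (c1.mul_right c2).sub_right (c2.mul_right c1)
  have d3 : Commute S f3 := by
    rw [hf3]; exact (d2.mul_right d1).sub_right (d1.mul_right d2)
  have k1 : Commute S h1 := by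
    rw [hh1]; exact (c1.mul_right d1).sub_right (d1.mul_right c1)
  have k2 : Commute S h2 := by
    rw [hh2]; exact (c2.mul_right d2).sub_right (d2.mul_right c2)
  unfold cas
  exact ((((((k1.mul_right k1).add_right (k1.mul_right k2)).add_right (k2.mul_right k2)).add_right
    (comm_zsmul k1 3)).add_right (comm_zsmul k2 3)).add_right
    (comm_zsmul (((d1.mul_right c1).add_right (d2.mul_right c2)).add_right (d3.mul_right c3)) 3))

end comm

variable {K : Type*} [Field K] [CharZero K] {M : Type*} [AddCommGroup M] [Module K M]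
  [FiniteDimensional K M] {J : Type*} [Fintype J] {b : Basis J K M} {wt : J → ℤ × ℤ}
  {e1 e2 e3 f1 f2 f3 h1 h2 : Module.End K M}

omit [CharZero K] [FiniteDimensional K M] in
theorem sum_P (z : M) : ∑ ν ∈ Finset.univ.image wt, P b wt ν z = z := by
  classical
  apply b.ext_elem; intro j
  rw [map_sum, Finset.sum_apply']
  simp only [repr_P]
  rw [Finset.sum_ite_eq, if_pos]
  exact Finset.mem_image_of_mem _ (Finset.mem_univ j)

omit [CharZero K] [FiniteDimensional K M] [Fintype J] in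
theorem P_eq_zero {ν : ℤ × ℤ} (h : ∀ j, wt j ≠ ν) (z : M) : P b wt ν z = 0 := by
  apply b.ext_elem; intro j
  rw [repr_P, if_neg (h j), map_zero, Finsupp.zero_apply]

omit [FiniteDimensional K M] in
/-- If the `c`-part of the homology of the complex is nonzero, it contains a highest weight
vector. -/
theorem exists_hw (s : IsSl3 e1 e2 e3 f1 f2 f3 h1 h2)
    (hh1 : ∀ j, h1 (b j) = (wt j).1 • b j) (hh2 : ∀ j, h2 (b j) = (wt j).2 • b j)
    (del : Module.End K M) (c1 : Commute del e1)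
    (c2 : Commute del e2) (d1 : Commute del f1) (d2 : Commute del f2) (l : ℤ × ℤ)
    (hno : ∀ z : M, del z = 0 → (∀ y, del y ≠ z) → ∀ ν : ℤ × ℤ, h1 z = ν.1 • z → h2 z = ν.2 • z →
      (∃ y, del y = e1 z) → (∃ y, del y = e2 z) → cc ν ≠ cc l) (m : ℕ) (z : M)
    (hz : ((cas e1 e2 e3 f1 f2 f3 h1 h2 - cc l • 1) ^ m) z = 0) (hdz : del z = 0) :
    ∃ y, del y = z := by
  classical
  set Q := cas e1 e2 e3 f1 f2 f3 h1 h2 - cc l • 1 with hQ
  have hk1 : Commute del h1 := by
    have hh1 : h1 = e1 * f1 - f1 * e1 := by rw [s.e1f1]; abel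
    rw [hh1]; exact (c1.mul_right d1).sub_right (d1.mul_right c1)
  have hk2 : Commute del h2 := by
    have hh2 : h2 = e2 * f2 - f2 * e2 := by rw [s.e2f2]; abel
    rw [hh2]; exact (c2.mul_right d2).sub_right (d2.mul_right c2)
  have hdQ : Commute del Q :=
    (comm_cas s c1 c2 d1 d2).sub_right (comm_zsmul (Commute.one_right _) _)
  have cQ : ∀ x, Commute (cas e1 e2 e3 f1 f2 f3 h1 h2) x → Commute Q x := fun x hx =>
    hx.sub_left (comm_zsmul (Commute.one_right _) _).symm
  have hQh1 : Commute Q h1 := cQ _ (cas_h1 s)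
  have hQh2 : Commute Q h2 := cQ _ (cas_h2 s)
  have hQe1 : Commute Q e1 := cQ _ (cas_e1 s)
  have hQe2 : Commute Q e2 := cQ _ (cas_e2 s)
  have hPQ : ∀ ν, Q * P b wt ν = P b wt ν * Q := by
    intro ν
    have := shift (b := b) (wt := wt) hh1 hh2 (T := Q) (c := (0, 0))
      (by rw [hQh1.eq]; simp) (by rw [hQh2.eq]; simp) ν
    rw [this]; congr 2; ext <;> simp
  have hPd : ∀ ν, del * P b wt ν = P b wt ν * del := by
    intro ν
    have := shift (b := b) (wt := wt) hh1 hh2 (T := del) (c := (0, 0))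
      (by rw [hk1.eq]; simp) (by rw [hk2.eq]; simp) ν
    rw [this]; congr 2; ext <;> simp
  have hPe1 : ∀ ν, e1 * P b wt ν = P b wt (ν + (2, -1)) * e1 := by
    intro ν
    exact shift (b := b) (wt := wt) hh1 hh2 (T := e1) (c := (2, -1))
      (by rw [s.e1h1]; abel) (by rw [s.e1h2]; simp) ν
  have hPe2 : ∀ ν, e2 * P b wt ν = P b wt (ν + (-1, 2)) * e2 := by
    intro ν
    exact shift (b := b) (wt := wt) hh1 hh2 (T := e2) (c := (-1, 2))
      (by rw [s.e2h1]; simp) (by rw [s.e2h2]; abel) ν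
  by_contra hcon
  push Not at hcon
  -- a weight vector which is bad
  let Bad : ℤ × ℤ → Prop := fun ν => ∃ z, P b wt ν z = z ∧ (Q ^ m) z = 0 ∧ del z = 0 ∧
    ∀ y, del y ≠ z
  have hBad : ∃ ν ∈ Finset.univ.image wt, Bad ν := by
    by_contra hc
    push Not at hc
    have : ∀ ν ∈ Finset.univ.image wt, ∃ y, del y = P b wt ν z := by
      intro ν hν
      by_contra hy
      push Not at hy
      refine hc ν hν ⟨P b wt ν z, P_idem _ _ _ _, ?_, ?_, hy⟩
      · have : Q ^ m * P b wt ν = P b wt ν * Q ^ m := (Commute.pow_left (hPQ ν) m)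
        rw [← Module.End.mul_apply, this, Module.End.mul_apply, hz, map_zero]
      · rw [← Module.End.mul_apply, hPd, Module.End.mul_apply, hdz, map_zero]
    choose! y hy using this
    apply hcon (∑ ν ∈ Finset.univ.image wt, y ν)
    rw [map_sum, Finset.sum_congr rfl hy, sum_P]
  obtain ⟨ν, hν, hmax⟩ := Finset.exists_max_image ((Finset.univ.image wt).filter Bad)
    (fun ν => ν.1 + ν.2) (by
      obtain ⟨ν, h1, h2⟩ := hBad
      exact ⟨ν, Finset.mem_filter.2 ⟨h1, h2⟩⟩)
  obtain ⟨z, hz1, hz2, hz3, hz4⟩ := (Finset.mem_filter.1 hν).2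
  have step : ∀ (e : Module.End K M) (c : ℤ × ℤ), 0 < c.1 + c.2 →
      (e * P b wt ν = P b wt (ν + c) * e) → Commute Q e → Commute del e →
      ∃ y, del y = e z := by
    intro e c hc hPe hQe hde
    by_contra hy
    push Not at hy
    have hne : e z ≠ 0 := fun h0 => hy 0 (by rw [map_zero, h0])
    have hP : P b wt (ν + c) (e z) = e z := by
      rw [← Module.End.mul_apply, ← hPe, Module.End.mul_apply, hz1]
    have hmem : ν + c ∈ Finset.univ.image wt := by
      by_contra hnm
      apply hne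
      rw [← hP]
      apply P_eq_zero
      intro j hj
      exact hnm (Finset.mem_image.2 ⟨j, Finset.mem_univ j, hj⟩)
    have hb : Bad (ν + c) := by
      refine ⟨e z, hP, ?_, ?_, hy⟩
      · have : Q ^ m * e = e * Q ^ m := (Commute.pow_left hQe m)
        rw [← Module.End.mul_apply, this, Module.End.mul_apply, hz2, map_zero]
      · rw [← Module.End.mul_apply, hde.eq, Module.End.mul_apply, hz3, map_zero]
    have := hmax (ν + c) (Finset.mem_filter.2 ⟨hmem, hb⟩)
    simp only [Prod.fst_add, Prod.snd_add] at this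
    omega
  obtain ⟨y1, hy1⟩ := step e1 (2, -1) (by norm_num) (hPe1 ν) hQe1 c1
  obtain ⟨y2, hy2⟩ := step e2 (-1, 2) (by norm_num) (hPe2 ν) hQe2 c2
  have k1 : h1 z = ν.1 • z := by rw [← hz1]; exact h1_P hh1 _ _
  have k2 : h2 z = ν.2 • z := by rw [← hz1]; exact h2_P hh2 _ _
  have hne := hno z hz3 hz4 ν k1 k2 ⟨y1, hy1⟩ ⟨y2, hy2⟩
  -- action of Q
  have he3 : e3 = e1 * e2 - e2 * e1 := by rw [s.e2e1]; abel
  have dapp : ∀ (e : Module.End K M), Commute del e → ∀ x, e (del x) = del (e x) := by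
    intro e h x; rw [← Module.End.mul_apply, ← h.eq, Module.End.mul_apply]
  obtain ⟨y3, hy3⟩ : ∃ y, del y = e3 z := by
    refine ⟨e1 y2 - e2 y1, ?_⟩
    rw [he3, map_sub, LinearMap.sub_apply, Module.End.mul_apply, Module.End.mul_apply,
      ← dapp e1 c1, ← dapp e2 c2, hy1, hy2]
  have d3 : Commute del f3 := by
    have hf3 : f3 = f2 * f1 - f1 * f2 := by rw [s.f2f1]; abel
    rw [hf3]; exact (d2.mul_right d1).sub_right (d1.mul_right d2)
  have hQz : Q z = (cc ν - cc l) • z + del ((3 : ℤ) • (f1 y1 + f2 y2 + f3 y3)) := by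
    rw [map_zsmul, map_add, map_add, ← dapp f1 d1, ← dapp f2 d2, ← dapp f3 d3, hy1, hy2, hy3, hQ]
    unfold cas
    simp only [LinearMap.sub_apply, LinearMap.add_apply, Module.End.mul_apply,
      LinearMap.smul_apply, Module.End.one_apply, k1, k2, map_zsmul, cc]
    module
  have hpow : ∀ k : ℕ, ∃ y, (Q ^ k) z = ((cc ν - cc l) ^ k) • z + del y := by
    intro k
    induction k with
    | zero => exact ⟨0, by simp⟩
    | succ k ih =>
      obtain ⟨y, hy⟩ := ih
      refine ⟨((cc ν - cc l) ^ k) • ((3 : ℤ) • (f1 y1 + f2 y2 + f3 y3)) + Q y, ?_⟩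
      rw [pow_succ', Module.End.mul_apply, hy, map_add, map_zsmul, hQz, dapp Q hdQ, pow_succ]
      simp only [map_add, map_zsmul]
      module
  obtain ⟨y, hy⟩ := hpow m
  rw [hz2] at hy
  have hc : (((cc ν - cc l) ^ m : ℤ) : K) ≠ 0 := by
    exact_mod_cast pow_ne_zero m (sub_ne_zero.2 hne)
  apply hz4 (-(((cc ν - cc l) ^ m : ℤ) : K)⁻¹ • y)
  rw [map_smul]
  have h5 : del y = - ((((cc ν - cc l) ^ m : ℤ) : K) • z) := by
    rw [Int.cast_smul_eq_zsmul]
    exact eq_neg_of_add_eq_zero_right hy.symm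
  rw [h5, smul_neg, neg_smul, neg_neg, smul_smul, inv_mul_cancel₀ hc, one_smul]

/-- The signed count of basis vectors of weight `ν`. -/
def sc (wt : J → ℤ × ℤ) (par : J → ℕ) (ν : ℤ × ℤ) : ℤ :=
  ∑ j, if wt j = ν then (-1) ^ par j else 0

omit [CharZero K] [FiniteDimensional K M] in
theorem trace_sc (par : J → ℕ) (σ : Module.End K M) (hσ : ∀ j, σ (b j) = ((-1 : ℤ) ^ par j) • b j)
    (ν : ℤ × ℤ) : LinearMap.trace K M (P b wt ν * σ) = ((sc wt par ν : ℤ) : K) := by
  classical
  rw [LinearMap.trace_eq_matrix_trace K b, Matrix.trace, sc, Int.cast_sum]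
  apply Finset.sum_congr rfl
  intro j _
  rw [Matrix.diag_apply, LinearMap.toMatrix_apply, Module.End.mul_apply, hσ, map_zsmul, P_basis]
  split_ifs with h
  · rw [map_zsmul, Basis.repr_self, Finsupp.smul_apply, Finsupp.single_eq_same, zsmul_eq_mul,
      mul_one]
  · simp

theorem ala (s : IsSl3 e1 e2 e3 f1 f2 f3 h1 h2)
    (hh1 : ∀ j, h1 (b j) = (wt j).1 • b j) (hh2 : ∀ j, h2 (b j) = (wt j).2 • b j)
    (del : Module.End K M) (c1 : Commute del e1)
    (c2 : Commute del e2) (d1 : Commute del f1) (d2 : Commute del f2) (hdd : del * del = 0)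
    (par : J → ℕ) (σ : Module.End K M) (hσ : ∀ j, σ (b j) = ((-1 : ℤ) ^ par j) • b j)
    (s1 : Commute σ e1) (s2 : Commute σ e2) (t1 : Commute σ f1) (t2 : Commute σ f2)
    (hσd : σ * del = - (del * σ)) (l : ℤ × ℤ)
    (hno : ∀ z : M, del z = 0 → (∀ y, del y ≠ z) → ∀ ν : ℤ × ℤ, h1 z = ν.1 • z → h2 z = ν.2 • z →
      (∃ y, del y = e1 z) → (∃ y, del y = e2 z) → cc ν ≠ cc l) :
    sc wt par l - sc wt par (l + (2, -1)) - sc wt par (l + (-1, 2)) + sc wt par (l + (3, 0))
      + sc wt par (l + (0, 3)) - sc wt par (l + (2, 2)) = 0 := by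
  classical
  set Q := cas e1 e2 e3 f1 f2 f3 h1 h2 - cc l • 1 with hQ
  obtain ⟨p, m, hpm⟩ := fitting Q
  set T0 := Polynomial.aeval Q p * Q ^ m with hT0
  set R := 1 - Q * T0 with hR
  have cQ : ∀ S, Commute S e1 → Commute S e2 → Commute S f1 → Commute S f2 → Commute S Q :=
    fun S a1 a2 a3 a4 => (comm_cas s a1 a2 a3 a4).sub_right (comm_zsmul (Commute.one_right _) _)
  have cT0 : ∀ S, Commute S Q → Commute S T0 := fun S h =>
    Commute.mul_right (commute_aeval h p) (h.pow_right m)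
  have cR : ∀ S, Commute S Q → Commute S R := fun S h =>
    (Commute.one_right S).sub_right (h.mul_right (cT0 S h))
  have cas' : ∀ x, Commute (cas e1 e2 e3 f1 f2 f3 h1 h2) x → Commute x Q := fun x hx =>
    hx.symm.sub_right (comm_zsmul (Commute.one_right _) _)
  have hdQ : Commute del Q := cQ del c1 c2 d1 d2
  have hσQ : Commute σ Q := cQ σ s1 s2 t1 t2
  have hk1 : Commute del h1 := by
    have hh1 : h1 = e1 * f1 - f1 * e1 := by rw [s.e1f1]; abel
    rw [hh1]; exact (c1.mul_right d1).sub_right (d1.mul_right c1)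
  have hk2 : Commute del h2 := by
    have hh2 : h2 = e2 * f2 - f2 * e2 := by rw [s.e2f2]; abel
    rw [hh2]; exact (c2.mul_right d2).sub_right (d2.mul_right c2)
  have hPd : ∀ ν, del * P b wt ν = P b wt ν * del := by
    intro ν
    have := shift (b := b) (wt := wt) hh1 hh2 (T := del) (c := (0, 0))
      (by rw [hk1.eq]; simp) (by rw [hk2.eq]; simp) ν
    rw [this]; congr 2; ext <;> simp
  -- first part: trace of P σ Q T0
  have part1 := trace_lemma s hh1 hh2 (σ * T0)
    (Commute.mul_left s1 (cT0 e1 (cas' _ (cas_e1 s))).symm).eq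
    (Commute.mul_left s2 (cT0 e2 (cas' _ (cas_e2 s))).symm).eq
    (Commute.mul_left t1 (cT0 f1 (cas' _ (cas_f1 s))).symm).eq
    (Commute.mul_left t2 (cT0 f2 (cas' _ (cas_f2 s))).symm).eq l
  -- second part
  have hker : ∀ z : M, (Q ^ m) z = 0 → del z = 0 → ∃ y, del y = z :=
    fun z hz hdz => exists_hw s hh1 hh2 del c1 c2 d1 d2 l hno m z hz hdz
  have hRapp : ∀ z, (Q ^ m) z = 0 → R z = z := by
    intro z hz
    rw [hR, LinearMap.sub_apply, Module.End.mul_apply, hT0, Module.End.mul_apply, hz, map_zero,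
      map_zero, sub_zero, Module.End.one_apply]
  have hQR : ∀ z, (Q ^ m) (R z) = 0 := by
    intro z
    rw [← Module.End.mul_apply, hpm, LinearMap.zero_apply]
  have hdR : ∀ z, del (R z) = R (del z) := by
    intro z
    rw [← Module.End.mul_apply, (cR del hdQ).eq, Module.End.mul_apply]
  have hddz : ∀ z, del (del z) = 0 := by
    intro z
    rw [← Module.End.mul_apply, hdd, LinearMap.zero_apply]
  let N : Submodule K M := LinearMap.ker (Q ^ m)
  let Z : Submodule K M := LinearMap.ker del ⊓ LinearMap.ker (Q ^ m)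
  have hNZ : ∀ y : N, (del ∘ₗ N.subtype) y ∈ Z := by
    rintro ⟨y, hy⟩
    refine ⟨hddz y, ?_⟩
    show (Q ^ m) (del y) = 0
    rw [← Module.End.mul_apply, ← (hdQ.pow_right m).eq, Module.End.mul_apply,
      show (Q ^ m) y = 0 from hy, map_zero]
  let d0 : N →ₗ[K] Z := (del ∘ₗ N.subtype).codRestrict Z hNZ
  have d0_surj : Function.Surjective d0 := by
    rintro ⟨z, hz1, hz2⟩
    obtain ⟨y, hy⟩ := hker z hz2 hz1
    refine ⟨⟨R y, hQR y⟩, ?_⟩
    apply Subtype.ext
    show del (R y) = z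
    rw [hdR, hy, hRapp z hz2]
  obtain ⟨r, hr⟩ := d0.exists_rightInverse_of_surjective (LinearMap.range_eq_top.2 d0_surj)
  have hr' : ∀ z : Z, del (r z : M) = z := by
    intro z
    have := congrArg Subtype.val (LinearMap.congr_fun hr z)
    exact this
  have ha1 : ∀ v : M, (del ∘ₗ R) v ∈ Z := by
    intro v
    refine ⟨hddz _, ?_⟩
    show (Q ^ m) (del (R v)) = 0
    rw [hdR, hQR]
  let a1 : M →ₗ[K] Z := (del ∘ₗ R).codRestrict Z ha1
  have ha2 : ∀ v : M, (R - N.subtype ∘ₗ r ∘ₗ a1) v ∈ Z := by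
    intro v
    refine ⟨?_, ?_⟩
    · show del (R v - (r (a1 v) : M)) = 0
      rw [map_sub, hr']
      exact sub_self _
    · show (Q ^ m) (R v - (r (a1 v) : M)) = 0
      rw [map_sub, hQR, show (Q ^ m) (r (a1 v) : M) = 0 from (r (a1 v)).2, sub_zero]
  let a2 : M →ₗ[K] Z := (R - N.subtype ∘ₗ r ∘ₗ a1).codRestrict Z ha2
  let s' : Module.End K M := N.subtype ∘ₗ r ∘ₗ a2
  have hs' : R = del * s' + s' * del := by
    apply LinearMap.ext
    intro v
    rw [LinearMap.add_apply, Module.End.mul_apply, Module.End.mul_apply]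
    have e1 : del (s' v) = R v - (r (a1 v) : M) := hr' (a2 v)
    have e2 : a2 (del v) = a1 v := by
      apply Subtype.ext
      show R (del v) - (r (a1 (del v)) : M) = del (R v)
      have : a1 (del v) = 0 := by
        apply Subtype.ext
        show del (R (del v)) = 0
        rw [hdR, hddz, map_zero]
      rw [this, map_zero, hdR]; simp
    have e3 : s' (del v) = (r (a1 v) : M) := by
      show ((r (a2 (del v)) : N) : M) = _
      rw [e2]
    rw [e1, e3]; abel
  have part2 : ∀ ν, LinearMap.trace K M (P b wt ν * σ * R) = 0 := by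
    intro ν
    rw [hs', mul_add, map_add]
    have : P b wt ν * σ * (s' * del) = (P b wt ν * σ * s') * del := by simp only [mul_assoc]
    rw [this, LinearMap.trace_mul_comm K (P b wt ν * σ * s') del, ← map_add]
    have : P b wt ν * σ * (del * s') + del * (P b wt ν * σ * s') = 0 := by
      have e1 : P b wt ν * σ * (del * s') = P b wt ν * (σ * del) * s' := by simp only [mul_assoc]
      have e2 : del * (P b wt ν * σ * s') = (del * P b wt ν) * σ * s' := by simp only [mul_assoc]
      rw [e1, e2, hσd, hPd]; simp only [mul_neg, neg_mul, mul_assoc, neg_add_cancel]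
    rw [this, map_zero]
  have tot : ∀ ν, LinearMap.trace K M (P b wt ν * Q * (σ * T0)) = ((sc wt par ν : ℤ) : K) := by
    intro ν
    rw [← trace_sc par σ hσ ν, ← sub_eq_zero]
    have e0 : P b wt ν * σ = P b wt ν * Q * (σ * T0) + P b wt ν * σ * R := by
      have : P b wt ν * Q * (σ * T0) = P b wt ν * σ * (Q * T0) := by
        rw [mul_assoc, ← mul_assoc Q, ← hσQ.eq]; simp only [mul_assoc]
      rw [this, ← mul_add, hR, add_sub_cancel, mul_one]
    rw [e0, map_add, part2]; simp
  rw [tot, tot, tot, tot, tot, tot] at part1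
  exact_mod_cast part1

end Pool.Agent.N4.Rep
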