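import Pool.Agent.N4.Abg.CE2
import Pool.Agent.N4.Abg.Rep4

/-! Gradings of the Chevalley–Eilenberg complex. -/

namespace Pool.Agent.N4.CE

open ExteriorAlgebra Module

section
variable {K : Type*} [Field K] {L : Type*} [AddCommGroup L] [Module K L]

theorem theta_ιMulti (D : L →ₗ[K] L) (n : ℕ) (v : Fin n → L) (c : Fin n → ℤ)
    (h : ∀ i, D (v i) = c i • v i) :
    theta D (ιMulti K n v) = (∑ i, c i) • ιMulti K n v := by
  induction n with
  | zero => simp [theta_one]
  | succ n ih =>
    rw [ιMulti_succ_apply, theta_ι_mul, h, ih (Matrix.vecTail v) (Matrix.vecTail c)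
      (fun i => h i.succ), Fin.sum_univ_succ, add_smul, map_zsmul, smul_mul_assoc, mul_smul_comm]
    rfl

variable {I : Type*} [LinearOrder I]

theorem sum_orderEmb (S : Finset I) (χ : I → ℤ) :
    ∑ j, χ (S.orderEmbOfFin rfl j) = ∑ i ∈ S, χ i := by
  conv_rhs => rw [← Finset.map_orderEmbOfFin_univ S rfl]
  rw [Finset.sum_map]; rfl

theorem theta_basis (b : Basis I K L) (D : L →ₗ[K] L) (χ : I → ℤ) (h : ∀ i, D (b i) = χ i • b i)
    (S : Finset I) : theta D (b.ExteriorAlgebra S) = (∑ i ∈ S, χ i) • b.ExteriorAlgebra S := by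
  rw [ExteriorAlgebra.basis_apply, ← sum_orderEmb]
  exact theta_ιMulti D _ _ _ (fun i => h _)

theorem basis_mem (b : Basis I K L) (S : Finset I) : b.ExteriorAlgebra S ∈ ⋀[K]^S.card L := by
  rw [ExteriorAlgebra.basis_apply]
  exact ιMulti_range K S.card ⟨_, rfl⟩

/-- The parity operator. -/
noncomputable def par : Module.End K (ExteriorAlgebra K L) :=
  (CliffordAlgebra.involute (Q := (0 : QuadraticForm K L))).toLinearMap

theorem par_algebraMap (r : K) : par (algebraMap K (ExteriorAlgebra K L) r) = algebraMap K _ r :=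
  AlgHom.commutes _ r

theorem par_ι_mul (m : L) (x : ExteriorAlgebra K L) :
    par (ι K m * x) = - (ι K m * par x) := by
  show CliffordAlgebra.involute (ι K m * x) = - (ι K m * CliffordAlgebra.involute x)
  rw [map_mul, show CliffordAlgebra.involute (ι K m) = - ι K m from
    CliffordAlgebra.involute_ι (Q := (0 : QuadraticForm K L)) m, neg_mul]

theorem par_theta (D : L →ₗ[K] L) (x : ExteriorAlgebra K L) :
    par (theta D x) = theta D (par x) := by
  induction x using ext_induction with
  | h0 r => rw [theta_algebraMap, par_algebraMap, theta_algebraMap, map_zero]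
  | ha x y hx hy => simp only [map_add, hx, hy]
  | hm m x hx =>
    rw [theta_ι_mul, map_add, par_ι_mul, par_ι_mul, par_ι_mul, map_neg, theta_ι_mul, hx]; abel

theorem par_mem {k : ℕ} {x : ExteriorAlgebra K L} (hx : x ∈ ⋀[K]^k L) :
    par x = ((-1 : ℤ) ^ k) • x := by
  induction k generalizing x with
  | zero =>
    rw [ext_zero, Submodule.mem_one] at hx
    obtain ⟨r, rfl⟩ := hx
    rw [par_algebraMap, pow_zero, one_smul]
  | succ k ih =>
    rw [ext_succ] at hx
    induction hx using Submodule.mul_induction_on' with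
    | mem_mul_mem a ha b hb =>
      obtain ⟨m, rfl⟩ := ha
      rw [par_ι_mul, ih hb, mul_smul_comm, pow_succ, mul_neg, mul_one, neg_smul]
    | add a ha b hb h1 h2 => rw [map_add, h1, h2, smul_add]

/-- The number operator acts by `k` on `⋀^k`. -/
theorem num_mem {k : ℕ} {x : ExteriorAlgebra K L} (hx : x ∈ ⋀[K]^k L) :
    theta (LinearMap.id : L →ₗ[K] L) x = (k : ℤ) • x := by
  induction k generalizing x with
  | zero =>
    rw [ext_zero, Submodule.mem_one] at hx
    obtain ⟨r, rfl⟩ := hx
    rw [theta_algebraMap]; simp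
  | succ k ih =>
    rw [ext_succ] at hx
    induction hx using Submodule.mul_induction_on' with
    | mem_mul_mem a ha b hb =>
      obtain ⟨m, rfl⟩ := ha
      rw [theta_ι_mul, ih hb, LinearMap.id_apply, mul_smul_comm]
      push_cast
      rw [add_smul, one_smul, add_comm]
    | add a ha b hb h1 h2 => rw [map_add, h1, h2, smul_add]

end

section
variable {K : Type*} [Field K] {L : Type*} [LieRing L] [LieAlgebra K L]

theorem par_del (x : ExteriorAlgebra K L) : par (del K L x) = - del K L (par x) := by
  induction x using ext_induction with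
  | h0 r => rw [del_algebraMap, par_algebraMap, del_algebraMap, map_zero, neg_zero]
  | ha x y hx hy => simp only [map_add, hx, hy]; abel
  | hm m x hx =>
    rw [del_ι_mul, par_ι_mul, map_neg, neg_neg, del_ι_mul, map_sub, map_neg, par_ι_mul, hx,
      par_theta, mul_neg, neg_neg]

/-- `N ∂ = ∂ N - ∂`. -/
theorem num_del (x : ExteriorAlgebra K L) : theta (LinearMap.id : L →ₗ[K] L) (del K L x) =
    del K L (theta (LinearMap.id : L →ₗ[K] L) x) - del K L x := by
  induction x using ext_induction with
  | h0 r => rw [del_algebraMap, theta_algebraMap, map_zero, map_zero, sub_zero]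
  | ha x y hx hy => simp only [map_add, hx, hy]; abel
  | hm m x hx =>
    have h := theta_comm (LinearMap.id : L →ₗ[K] L) (adL m) x
    rw [show (LinearMap.id : L →ₗ[K] L) ∘ₗ adL m - adL m ∘ₗ LinearMap.id = 0 from sub_self _] at h
    have h0 : theta (0 : L →ₗ[K] L) x = 0 := by
      have := theta_smul (0 : K) (0 : L →ₗ[K] L)
      rw [smul_zero, zero_smul] at this
      rw [this, LinearMap.zero_apply]
    rw [h0] at h
    have h' := sub_eq_zero.1 h.symm
    simp only [del_ι_mul, theta_ι_mul, map_sub, map_neg, map_add, hx, LinearMap.id_apply, h',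
      mul_sub]
    abel

end
end Pool.Agent.N4.CE
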