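import Pool.Agent.N4.Abg.Num

/-! The numerical computation. -/

set_option maxRecDepth 100000

namespace Pool.Agent.N4.Num

theorem chk : (th (P1 4851) 2 0 0 = 3 ∧ th (P1 4851) 2 1 1 = 9) ∧
    (th (P2 4851) 3 0 0 = 16 ∧ th (P2 4851) 3 1 1 = 28) ∧
    (th (P3 4851) 4 0 0 = 60 ∧ th (P3 4851) 4 1 1 = 87) ∧
    (th (P4 4851) 5 0 0 = 210 ∧ th (P4 4851) 5 1 1 = 267) ∧
    (th (P5 4851) 6 0 0 = 670 ∧ th (P5 4851) 6 1 1 = 804) ∧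
    (th (P6 4851) 7 0 0 = 2094 ∧ th (P6 4851) 7 1 1 = 2373) ∧
    (th (P7 4851) 8 0 0 = 6276 ∧ th (P7 4851) 8 1 1 = 6891) ∧
    (th (P8 4851) 9 0 0 = 18474 ∧ th (P8 4851) 9 1 1 = 19818) ∧
    th (P9 4851) 10 1 1 = 56961 := by
  decide +kernel

end Pool.Agent.N4.Num
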