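import Pool.Agent.N4.Abg.Perf

/-! Lower bounds for the dimensions of the free alternative algebra. -/

set_option linter.unusedSimpArgs false
set_option linter.unusedSectionVars false

namespace Pool.Agent.N4.Abg

open Module Pool.Agent.N4.Rep Pool.Agent.N4.CE

/-- Associative rings are alternative. -/
instance altOfAssoc (B : Type*) [NonUnitalRing B] : AltRing B where
  left_alt _ _ := mul_assoc _ _ _
  right_alt _ _ := mul_assoc _ _ _

section
variable {K : Type*} [Field K] {X : Type}

/-- The associative word of a nonassociative word. -/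
def flat : FreeMagma X → FreeMonoid X
  | FreeMagma.of x => FreeMonoid.of x
  | FreeMagma.mul a b => flat a * flat b

theorem flat_mul (a b : FreeMagma X) : flat (a * b) = flat a * flat b := rfl

theorem flat_length (m : FreeMagma X) : (flat m).length = m.length := by
  induction m using FreeMagma.recOnMul with
  | ih1 x => rfl
  | ih2 a b ha hb =>
    show (flat a * flat b).length = a.length + b.length
    rw [FreeMonoid.length_mul, ha, hb]

theorem flat_surj (l : List X) (hl : l ≠ []) : ∃ m : FreeMagma X, flat m = FreeMonoid.ofList l := by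
  induction l with
  | nil => exact absurd rfl hl
  | cons x l ih =>
    by_cases h : l = []
    · subst h; exact ⟨FreeMagma.of x, rfl⟩
    · obtain ⟨m, hm⟩ := ih h
      refine ⟨FreeMagma.of x * m, ?_⟩
      rw [flat_mul, hm]; rfl

/-- The canonical map to the free associative algebra. -/
noncomputable def toAssoc : FreeAlt K X →ₙₐ[K] MonoidAlgebra K (FreeMonoid X) :=
  FreeAlt.lift (fun x => MonoidAlgebra.single (FreeMonoid.of x) 1)

theorem toAssoc_word (m : FreeMagma X) :
    toAssoc (FreeAlt.word K m) = MonoidAlgebra.single (flat m) 1 := by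
  induction m using FreeMagma.recOnMul with
  | ih1 x =>
    show toAssoc (FreeAlt.word K (FreeMagma.of x)) = _
    rw [FreeAlt.word_of, toAssoc, FreeAlt.lift_of]; rfl
  | ih2 a b ha hb =>
    show toAssoc (FreeAlt.word K (a * b)) = _
    rw [FreeAlt.word_mul, map_mul, ha, hb, MonoidAlgebra.single_mul_single, mul_one]; rfl

end

/-- Words in an alternative algebra: the data used in the count. -/
structure WD (K A : Type*) (X : Type) [Field K] [NonUnitalNonAssocRing A] [Module K A] where
  w : FreeMagma X → A
  hmul : ∀ m n, w (m * n) = w m * w n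
  hspan : Submodule.span K (Set.range w) = ⊤
  dl : A →ₗ[K] A
  hdl : ∀ x y, dl (x * y) = dl x * y + x * dl y
  hdlw : ∀ m, dl (w m) = (m.length : K) • w m
  ta : A →ₗ[K] MonoidAlgebra K (FreeMonoid X)
  hta : ∀ m, ta (w m) = (MonoidAlgebra.single (flat m) (1 : K) : MonoidAlgebra K (FreeMonoid X))

section
variable {K A : Type*} {X : Type} [Field K] [CharZero K] [NonUnitalNonAssocRing A] [Module K A]
  (W : WD K A X)
variable {κ : Type} (a : κ → FreeMagma X) (bA : Basis κ K A)
  (hb : ∀ k, bA k = W.w (a k))

include hb

theorem surj_words {w : FreeMonoid X} (hw : w.length ≠ 0) :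
    ∃ k, (a k).length = w.length ∧ flat (a k) = w := by
  obtain ⟨m, hm⟩ := flat_surj (FreeMonoid.toList w) (by
    intro h
    apply hw
    rw [← FreeMonoid.ofList_toList w, h]; rfl)
  rw [FreeMonoid.ofList_toList] at hm
  have hlen : m.length = w.length := by rw [← flat_length, hm]
  -- expand in the basis
  have hE : ∀ k, W.dl (bA k) = ((a k).length : ℤ) • bA k := by
    intro k; rw [hb, W.hdlw, natCast_zsmul, Nat.cast_smul_eq_nsmul]
  have hsupp : ∀ k, bA.repr (W.w m) k ≠ 0 → (a k).length = w.length := by
    intro k hk
    have h := repr_diag (b := bA) (h := W.dl) hE (W.w m) k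
    rw [W.hdlw, map_smul, Finsupp.smul_apply, smul_eq_mul, zsmul_eq_mul] at h
    have h2 := mul_right_cancel₀ hk h
    have h3 : m.length = (a k).length := by exact_mod_cast h2
    omega
  have hsum : (MonoidAlgebra.single w 1 : MonoidAlgebra K (FreeMonoid X)) =
      ∑ k ∈ (bA.repr (W.w m)).support,
        bA.repr (W.w m) k • MonoidAlgebra.single (flat (a k)) 1 := by
    have h1 := congrArg W.ta (bA.linearCombination_repr (W.w m))
    rw [W.hta, hm, Finsupp.linearCombination_apply, Finsupp.sum, map_sum] at h1
    rw [← h1]
    refine Finset.sum_congr rfl fun k _ => ?_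
    rw [map_smul, hb, W.hta]
  by_contra hcon
  push Not at hcon
  have h2 := congrArg (fun x => (MonoidAlgebra.basis (FreeMonoid X) K).repr x w) hsum
  simp only [map_sum, map_smul] at h2
  rw [Finset.sum_apply', ← MonoidAlgebra.basis_apply, Basis.repr_self, Finsupp.single_eq_same] at h2
  rw [Finset.sum_eq_zero] at h2
  · exact one_ne_zero h2
  · intro k hk
    have hk' := Finsupp.mem_support_iff.1 hk
    have hne := hcon k (hsupp k hk')
    rw [← MonoidAlgebra.basis_apply, Finsupp.smul_apply, Basis.repr_self,
      Finsupp.single_eq_of_ne' hne, smul_zero]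

/-- Lower bound for the dimension of the degree `n` part. -/
theorem card_ge [Fintype X] {n : ℕ} (hn : n ≠ 0) (s : Finset κ)
    (hs : ∀ k, k ∈ s ↔ (a k).length = n) : Fintype.card X ^ n ≤ s.card := by
  classical
  have h : ∀ f : Fin n → X, ∃ k : s, flat (a k) = FreeMonoid.ofList (List.ofFn f) := by
    intro f
    have hlen : (FreeMonoid.ofList (List.ofFn f)).length = n := by
      show (List.ofFn f).length = n
      simp
    obtain ⟨k, hk1, hk2⟩ := surj_words W a bA hb (w := FreeMonoid.ofList (List.ofFn f))
      (by rw [hlen]; exact hn)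
    exact ⟨⟨k, (hs k).2 (by rw [hk1, hlen])⟩, hk2⟩
  choose g hg using h
  have hinj : Function.Injective g := by
    intro f f' hff
    have h1 : FreeMonoid.ofList (List.ofFn f) = FreeMonoid.ofList (List.ofFn f') := by
      rw [← hg, ← hg, hff]
    exact List.ofFn_injective (FreeMonoid.ofList.injective h1)
  have := Fintype.card_le_of_injective g hinj
  rwa [Fintype.card_fun, Fintype.card_fin, Fintype.card_coe] at this

omit hb in
/-- Upper bound in degree `1`. -/
theorem card_one_le [Fintype X] (ha : Function.Injective a) (s : Finset κ)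
    (hs : ∀ k, k ∈ s ↔ (a k).length = 1) : s.card ≤ Fintype.card X := by
  classical
  have h : ∀ k : s, ∃ x : X, a k = FreeMagma.of x := by
    intro k
    have h1 := (hs k).1 k.2
    cases hm : a k with
    | of x => exact ⟨x, rfl⟩
    | mul p q =>
      rw [hm] at h1
      have h2 : p.length + q.length = 1 := h1
      have := p.length_pos
      have := q.length_pos
      omega
  choose x hx using h
  have hinj : Function.Injective x := by
    intro k k' hkk
    apply Subtype.ext
    apply ha
    rw [hx, hx, hkk]
  have := Fintype.card_le_of_injective x hinj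
  rwa [Fintype.card_coe] at this

end

end Pool.Agent.N4.Abg
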