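import Pool.Agent.N4.Abg.Cnt
import Pool.Agent.N4.Abg.Words
import Pool.Agent.N4.Abg.Num3

/-! The final count. -/

set_option linter.unusedSimpArgs false
set_option linter.unusedSectionVars false

open scoped TensorProduct

namespace Pool.Agent.N4.Abg

open Module Pool.Agent.N4.Rep Pool.Agent.N4.CE Pool.Agent.N4.Num LieAlgebra.SpecialLinear Polynomial

attribute [local instance 100] LieRing.ofAssociativeRing

section count
variable {K L : Type*} {κA κB : Type} [Field K] [CharZero K] [LieRing L] [LieAlgebra K L]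
  [LinearOrder ((Fin 8 × κA) ⊕ κB)] (g : Gr K L ((Fin 8 × κA) ⊕ κB))

theorem slt_exists (d : ℕ) : ∃ s : Finset ((Fin 8 × κA) ⊕ κB), ∀ i, i ∈ s ↔ g.deg i < d := by
  have h : {i | g.deg i < d}.Finite := by
    refine Set.Finite.subset (Set.Finite.biUnion (Finset.range d).finite_toSet
      (fun j _ => g.hfin j)) ?_
    intro i hi
    simp only [Set.mem_iUnion]
    exact ⟨g.deg i, by simpa using hi, rfl⟩
  exact ⟨h.toFinset, fun i => by simp⟩

variable (dA : κA → ℕ) (dB : κB → ℕ) (hdeg : ∀ i, g.deg i = Sum.elim (fun x => dA x.2) dB i)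

include hdeg

theorem mem_seq {d : ℕ} {sA : Finset κA} (hsA : ∀ k, k ∈ sA ↔ dA k = d) {sB : Finset κB}
    (hsB : ∀ k, k ∈ sB ↔ dB k = d) (i : (Fin 8 × κA) ⊕ κB) :
    i ∈ (((Finset.univ : Finset (Fin 8)) ×ˢ sA).disjSum sB) ↔ g.deg i = d := by
  rw [hdeg]
  rcases i with ⟨j, k⟩ | k
  · simp [hsA]
  · simp [hsB]

theorem step {d : ℕ} {slt slt' : Finset ((Fin 8 × κA) ⊕ κB)} (h : ∀ i, i ∈ slt ↔ g.deg i < d)
    (h' : ∀ i, i ∈ slt' ↔ g.deg i < d + 1) {sA : Finset κA} (hsA : ∀ k, k ∈ sA ↔ dA k = d)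
    {sB : Finset κB} (hsB : ∀ k, k ∈ sB ↔ dB k = d) :
    ∏ i ∈ slt', (1 - X ^ enc g (rtI κA κB) i : ℤ[X]) =
      G d sA.card sB.card * ∏ i ∈ slt, (1 - X ^ enc g (rtI κA κB) i : ℤ[X]) := by
  have hm := mem_seq g dA dB hdeg hsA hsB
  have e : slt' = (((Finset.univ : Finset (Fin 8)) ×ˢ sA).disjSum sB) ∪ slt := by
    ext i
    rw [Finset.mem_union, hm, h', h]
    omega
  have hdisj : Disjoint (((Finset.univ : Finset (Fin 8)) ×ˢ sA).disjSum sB) slt := by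
    rw [Finset.disjoint_left]
    intro i hi hi'
    rw [hm] at hi
    rw [h] at hi'
    omega
  rw [e, Finset.prod_union hdisj, Finset.prod_disjSum, Finset.prod_product]
  congr 1
  have h1 : ∀ j : Fin 8, ∏ k ∈ sA, (1 - X ^ enc g (rtI κA κB) (Sum.inl (j, k)) : ℤ[X]) =
      (1 - X ^ en d (slR j).1 (slR j).2) ^ sA.card := by
    intro j
    rw [← Finset.prod_const]
    refine Finset.prod_congr rfl fun k hk => ?_
    rw [enc, hdeg]
    show (1 - X ^ en (dA k) (slR j).1 (slR j).2 : ℤ[X]) = _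
    rw [(hsA k).1 hk]
  have h2 : ∏ k ∈ sB, (1 - X ^ enc g (rtI κA κB) (Sum.inr k) : ℤ[X]) =
      (1 - X ^ en d 0 0) ^ sB.card := by
    rw [← Finset.prod_const]
    refine Finset.prod_congr rfl fun k hk => ?_
    rw [enc, hdeg]
    show (1 - X ^ en (dB k) 0 0 : ℤ[X]) = _
    rw [(hsB k).1 hk]
  simp only [h1, h2, Fin.prod_univ_eight, G]
  show (1 - X ^ en d 1 0) ^ sA.card * (1 - X ^ en d 0 1) ^ sA.card *
    (1 - X ^ en d 1 1) ^ sA.card * (1 - X ^ en d (-1) 0) ^ sA.card *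
    (1 - X ^ en d 0 (-1)) ^ sA.card * (1 - X ^ en d (-1) (-1)) ^ sA.card *
    (1 - X ^ en d 0 0) ^ sA.card * (1 - X ^ en d 0 0) ^ sA.card *
    (1 - X ^ en d 0 0) ^ sB.card = _
  rw [pow_add, pow_mul']
  ring

omit hdeg in
theorem card_rt (sA : Finset κA) (sB : Finset κB) (v : ℤ × ℤ) :
    (((((Finset.univ : Finset (Fin 8)) ×ˢ sA).disjSum sB)).filter
      (fun i => rtI κA κB i = v)).card =
      sA.card * (if (1, 0) = v then 1 else 0) + sA.card * (if (0, 1) = v then 1 else 0) +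
      sA.card * (if (1, 1) = v then 1 else 0) + sA.card * (if (-1, 0) = v then 1 else 0) +
      sA.card * (if (0, -1) = v then 1 else 0) + sA.card * (if (-1, -1) = v then 1 else 0) +
      sA.card * (if (0, 0) = v then 1 else 0) + sA.card * (if (0, 0) = v then 1 else 0) +
      sB.card * (if (0, 0) = v then 1 else 0) := by
  rw [Finset.card_filter, Finset.sum_disjSum, Finset.sum_product, Fin.sum_univ_eight]
  have h : ∀ {γ : Type} (s : Finset γ) (u : ℤ × ℤ), s.card * (if u = v then 1 else 0) =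
      ∑ _y ∈ s, if u = v then 1 else 0 := by
    intro γ s u; rw [Finset.sum_const, smul_eq_mul]
  simp only [h]
  rfl

variable (hwt : ∀ i, g.wt i = r2w (rtI κA κB i))

omit hdeg in
theorem rt_bound (i : (Fin 8 × κA) ⊕ κB) : -1 ≤ (rtI κA κB i).1 ∧ (rtI κA κB i).1 ≤ 1 ∧
    -1 ≤ (rtI κA κB i).2 ∧ (rtI κA κB i).2 ≤ 1 := by
  rcases i with ⟨j, k⟩ | k
  · show -1 ≤ (slR j).1 ∧ (slR j).1 ≤ 1 ∧ -1 ≤ (slR j).2 ∧ (slR j).2 ≤ 1
    revert j
    decide
  · show -1 ≤ (0 : ℤ) ∧ (0 : ℤ) ≤ 1 ∧ -1 ≤ (0 : ℤ) ∧ (0 : ℤ) ≤ 1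
    decide

include hwt

theorem Th00 {d : ℕ} (hd : d ≤ 10) (hd1 : 1 ≤ d) {slt : Finset ((Fin 8 × κA) ⊕ κB)}
    (h : ∀ i, i ∈ slt ↔ g.deg i < d) {sA : Finset κA} (hsA : ∀ k, k ∈ sA ↔ dA k = d)
    {sB : Finset κB} (hsB : ∀ k, k ∈ sB ↔ dB k = d) :
    g.Th d (0, 0) = thF (∏ i ∈ slt, (1 - X ^ enc g (rtI κA κB) i : ℤ[X])) d 0 0 - sB.card := by
  have hm := mem_seq g dA dB hdeg hsA hsB
  have e := Th_eq g (rtI κA κB) rt_bound hwt slt _ h hm hd hd1 (x := 0) (y := 0) (by decide)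
    (by decide) (by decide) (by decide)
  have e0 : rw' (0, 0) = (0, 0) := rfl
  rw [e0] at e
  rw [e, card_rt, card_rt, card_rt, card_rt, card_rt, card_rt]
  simp
  ring

theorem Th11 {d : ℕ} (hd : d ≤ 10) (hd1 : 1 ≤ d) {slt : Finset ((Fin 8 × κA) ⊕ κB)}
    (h : ∀ i, i ∈ slt ↔ g.deg i < d) {sA : Finset κA} (hsA : ∀ k, k ∈ sA ↔ dA k = d)
    {sB : Finset κB} (hsB : ∀ k, k ∈ sB ↔ dB k = d) :
    g.Th d (1, 1) = thF (∏ i ∈ slt, (1 - X ^ enc g (rtI κA κB) i : ℤ[X])) d 1 1 - sA.card := by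
  have hm := mem_seq g dA dB hdeg hsA hsB
  have e := Th_eq g (rtI κA κB) rt_bound hwt slt _ h hm hd hd1 (x := 1) (y := 1) (by decide)
    (by decide) (by decide) (by decide)
  have e0 : rw' (1, 1) = (1, 1) := rfl
  rw [e0] at e
  rw [e, card_rt, card_rt, card_rt, card_rt, card_rt, card_rt]
  simp

end count

section num

theorem one_step {P : List (ℕ × ℤ)} {F : ℤ[X]} (c : Cg 4851 (ev P) F) {A B d x y : ℕ}
    (hd : d ≤ 10) (hb : (B : ℤ) = thF F d 0 0) (ha : (A : ℤ) = thF F d 1 1)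
    (e1 : th P d 0 0 = x) (e2 : th P d 1 1 = y) : A = y ∧ B = x := by
  rw [th_spec c hd (by norm_num) (by norm_num), e1] at hb
  rw [th_spec c hd (by norm_num) (by norm_num), e2] at ha
  exact ⟨by exact_mod_cast ha, by exact_mod_cast hb⟩

theorem next_step {P : List (ℕ × ℤ)} {F F' : ℤ[X]} (c : Cg 4851 (ev P) F) {A B d x y : ℕ}
    (hd : 1 ≤ d) (h : A = x ∧ B = y) (hF : F' = G d A B * F) :
    Cg 4851 (ev (stp 4851 d x y P)) F' := by
  rw [hF, h.1, h.2]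
  exact stp_spec hd c

theorem numeric (a b : ℕ → ℕ) (p : ℕ → ℤ[X]) (hp1 : p 1 = 1)
    (hp : ∀ d, 1 ≤ d → p (d + 1) = G d (a d) (b d) * p d) (a1 : a 1 = 3) (b1 : b 1 = 0)
    (h0 : ∀ d, 2 ≤ d → d ≤ 10 → (b d : ℤ) = thF (p d) d 0 0)
    (h1 : ∀ d, 2 ≤ d → d ≤ 10 → (a d : ℤ) = thF (p d) d 1 1) : a 10 = 56961 := by
  obtain ⟨⟨k1, k1'⟩, ⟨k2, k2'⟩, ⟨k3, k3'⟩, ⟨k4, k4'⟩, ⟨k5, k5'⟩, ⟨k6, k6'⟩, ⟨k7, k7'⟩,
    ⟨k8, k8'⟩, k9⟩ := chk
  have c1 : Cg 4851 (ev [(0, 1)]) (p 1) := by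
    rw [hp1, ev_cons, ev_nil, add_zero]
    have : (monomial 0 1 : ℤ[X]) = 1 := rfl
    rw [this]
    exact Cg.refl _ _
  have c2 := next_step c1 (d := 1) le_rfl ⟨a1, b1⟩ (hp 1 (by norm_num))
  have e2 := one_step c2 (d := 2) (by norm_num) (h0 2 (by norm_num) (by norm_num))
    (h1 2 (by norm_num) (by norm_num)) k1 k1'
  have c3 := next_step c2 (by norm_num) e2 (hp 2 (by norm_num))
  have e3 := one_step c3 (d := 3) (by norm_num) (h0 3 (by norm_num) (by norm_num))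
    (h1 3 (by norm_num) (by norm_num)) k2 k2'
  have c4 := next_step c3 (by norm_num) e3 (hp 3 (by norm_num))
  have e4 := one_step c4 (d := 4) (by norm_num) (h0 4 (by norm_num) (by norm_num))
    (h1 4 (by norm_num) (by norm_num)) k3 k3'
  have c5 := next_step c4 (by norm_num) e4 (hp 4 (by norm_num))
  have e5 := one_step c5 (d := 5) (by norm_num) (h0 5 (by norm_num) (by norm_num))
    (h1 5 (by norm_num) (by norm_num)) k4 k4'
  have c6 := next_step c5 (by norm_num) e5 (hp 5 (by norm_num))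
  have e6 := one_step c6 (d := 6) (by norm_num) (h0 6 (by norm_num) (by norm_num))
    (h1 6 (by norm_num) (by norm_num)) k5 k5'
  have c7 := next_step c6 (by norm_num) e6 (hp 6 (by norm_num))
  have e7 := one_step c7 (d := 7) (by norm_num) (h0 7 (by norm_num) (by norm_num))
    (h1 7 (by norm_num) (by norm_num)) k6 k6'
  have c8 := next_step c7 (by norm_num) e7 (hp 7 (by norm_num))
  have e8 := one_step c8 (d := 8) (by norm_num) (h0 8 (by norm_num) (by norm_num))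
    (h1 8 (by norm_num) (by norm_num)) k7 k7'
  have c9 := next_step c8 (by norm_num) e8 (hp 8 (by norm_num))
  have e9 := one_step c9 (d := 9) (by norm_num) (h0 9 (by norm_num) (by norm_num))
    (h1 9 (by norm_num) (by norm_num)) k8 k8'
  have c10 := next_step c9 (by norm_num) e9 (hp 9 (by norm_num))
  have h10 := h1 10 (by norm_num) (by norm_num)
  have h11 := th_spec c10 (d := 10) (x := 1) (y := 1) le_rfl le_rfl le_rfl
  have h12 := h10.trans (h11.trans k9)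
  exact_mod_cast h12

end num

end Pool.Agent.N4.Abg
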