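import Pool.Agent.N4.Abg.Bridge

/-! The action of `𝔰𝔩₃` on the homology of the Allison–Benkart–Gao Lie algebra. -/

namespace Pool.Agent.N4.Abg

open Pool.Agent.N4.CE

section
variable {K A L : Type*} [Field K] [CharZero K] [NonUnitalNonAssocRing A] [Module K A]
  [IsScalarTower K A A] [SMulCommClass K A A] [AltRing A] [LieRing L] [LieAlgebra K L]
  {e : MM K A →ₗ[K] L}

/-- `𝔰𝔩₃` acts on the Allison–Benkart–Gao Lie algebra by derivations. -/
theorem act_der (h : IsABG e) (X : S3 K) (x y : L) :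
    actL h X ⁅x, y⁆ = ⁅actL h X x, y⁆ + ⁅x, actL h X y⁆ := act_der' h X x y

/-- The action of `X ∈ 𝔰𝔩₃` on `H_k(L)`. -/
noncomputable def homAct (h : IsABG e) (k : ℕ) (X : S3 K) : H K L k →ₗ[K] H K L k :=
  Hl k (actL h X) (act_der h X)

/-- `H_k(L)` has a direct summand isomorphic to the trivial `𝔰𝔩₃`-module `K`. -/
def HasTrivial (h : IsABG e) (k : ℕ) : Prop :=
  IsSummand (fun _ : S3 K => (0 : K →ₗ[K] K)) (homAct h k)

/-- `H_k(L)` has a direct summand isomorphic to the adjoint `𝔰𝔩₃`-module `𝔰𝔩₃`. -/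
def HasAdjoint (h : IsABG e) (k : ℕ) : Prop := IsSummand adS3 (homAct h k)

end

universe u

/-- A vector space `V` of dimension `3`, a free (non-unital) alternative algebra `A = Alt(V)` on
`V`, and a Lie algebra `L = ABG(A)`. All of these are unique up to isomorphism. -/
structure FreeABG (K : Type u) [Field K] [CharZero K] where
  V : Type u
  A : Type u
  L : Type u
  [iV : AddCommGroup V]
  [mV : Module K V]
  [iA : NonUnitalNonAssocRing A]
  [mA : Module K A]
  [sA : IsScalarTower K A A]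
  [cA : SMulCommClass K A A]
  [aA : AltRing A]
  [iL : LieRing L]
  [mL : LieAlgebra K L]
  i : V →ₗ[K] A
  e : MM K A →ₗ[K] L
  dim : Module.finrank K V = 3
  free : IsFreeAlt K V A i
  abg : IsABG e

attribute [instance] FreeABG.iV FreeABG.mV FreeABG.iA FreeABG.mA FreeABG.sA FreeABG.cA FreeABG.aA
  FreeABG.iL FreeABG.mL

end Pool.Agent.N4.Abg
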