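import Pool.Agent.N4.Abg.Comp2
import Pool.Agent.N4.Abg.Stmt2

/-! Transport of a graded structure along an isomorphism of Lie algebras. -/

set_option linter.unusedSectionVars false

namespace Pool.Agent.N4.CE

open ExteriorAlgebra Module Pool.Agent.N4.Rep

attribute [local instance 100] LieRing.ofAssociativeRing

section
variable {K L L' I : Type*} [Field K] [CharZero K] [LieRing L] [LieAlgebra K L] [LieRing L']
  [LieAlgebra K L'] [LinearOrder I]
  (Φ : L ≃ₗ[K] L') (hΦ : ∀ x y, Φ ⁅x, y⁆ = ⁅Φ x, Φ y⁆)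

include hΦ in
theorem symm_lie (x y : L') : Φ.symm ⁅x, y⁆ = ⁅Φ.symm x, Φ.symm y⁆ := by
  apply Φ.injective
  rw [hΦ]; simp

/-- Transport of a derivation. -/
noncomputable def trD (D : LieDerivation K L' L') : LieDerivation K L L where
  toLinearMap := Φ.symm.toLinearMap ∘ₗ D.toLinearMap ∘ₗ Φ.toLinearMap
  leibniz' x y := by
    show Φ.symm (D (Φ ⁅x, y⁆)) = ⁅x, Φ.symm (D (Φ y))⁆ - ⁅y, Φ.symm (D (Φ x))⁆
    rw [hΦ, LieDerivation.apply_lie_eq_sub, map_sub, symm_lie Φ hΦ, symm_lie Φ hΦ]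
    simp

theorem trD_apply (D : LieDerivation K L' L') (x : L) : trD Φ hΦ D x = Φ.symm (D (Φ x)) := rfl

/-- Transport of a graded structure. -/
noncomputable def Gr.trans (g : Gr K L' I) : Gr K L I where
  b := g.b.map Φ.symm
  deg := g.deg
  wt := g.wt
  E := trD Φ hΦ g.E
  rho X := trD Φ hΦ (g.rho X)
  hE i := by
    rw [Basis.map_apply, trD_apply, LinearEquiv.apply_symm_apply, g.hE, map_zsmul]
  hadd X Y x := by
    rw [trD_apply, trD_apply, trD_apply, g.hadd, map_add]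
  hsmul c X x := by
    rw [trD_apply, trD_apply, g.hsmul, map_smul]
  hbr X Y x := by
    simp only [trD_apply, g.hbr, map_sub, LinearEquiv.apply_symm_apply]
  hErho X x := by
    simp only [trD_apply, g.hErho, LinearEquiv.apply_symm_apply]
  hh1 i := by
    rw [Basis.map_apply, trD_apply, LinearEquiv.apply_symm_apply, g.hh1, map_zsmul]
  hh2 i := by
    rw [Basis.map_apply, trD_apply, LinearEquiv.apply_symm_apply, g.hh2, map_zsmul]
  hpos := g.hpos
  hfin := g.hfin

theorem Gr.trans_b (g : Gr K L' I) (i : I) : (g.trans Φ hΦ).b i = Φ.symm (g.b i) := by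
  show (g.b.map Φ.symm) i = _
  rw [Basis.map_apply]

theorem Gr.trans_perf (g : Gr K L' I) {i : I}
    (h : g.b i ∈ Submodule.span K {x : L' | ∃ u v : L', x = ⁅u, v⁆}) :
    (g.trans Φ hΦ).b i ∈ Submodule.span K {x : L | ∃ u v : L, x = ⁅u, v⁆} := by
  rw [Gr.trans_b]
  have hle : Submodule.span K {x : L' | ∃ u v : L', x = ⁅u, v⁆} ≤
      (Submodule.span K {x : L | ∃ u v : L, x = ⁅u, v⁆}).comap Φ.symm.toLinearMap := by
    refine Submodule.span_le.2 ?_
    rintro _ ⟨u, v, rfl⟩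
    exact Submodule.subset_span ⟨Φ.symm u, Φ.symm v, symm_lie Φ hΦ u v⟩
  exact hle h

end

theorem Hl_congr {K L : Type*} [Field K] [LieRing L] [LieAlgebra K L] (k : ℕ) {D D' : L →ₗ[K] L}
    (hD : ∀ x y : L, D ⁅x, y⁆ = ⁅D x, y⁆ + ⁅x, D y⁆)
    (hD' : ∀ x y : L, D' ⁅x, y⁆ = ⁅D' x, y⁆ + ⁅x, D' y⁆) (h : D = D') :
    Hl k D hD = Hl k D' hD' := by
  subst h; rfl

end Pool.Agent.N4.CE

namespace Pool.Agent.N4.Abg

open Pool.Agent.N4.CE Pool.Agent.N4.Rep

attribute [local instance 100] LieRing.ofAssociativeRing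

section
variable {K A L I : Type*} [Field K] [CharZero K] [NonUnitalNonAssocRing A] [Module K A]
  [IsScalarTower K A A] [SMulCommClass K A A] [AltRing A] [LieRing L] [LieAlgebra K L]
  {e : MM K A →ₗ[K] L} (h : IsABG e) [LinearOrder I]

theorem trans_act (g : Gr K (ABG K A) I) (hg : g.rho = slDer K A) (k : ℕ) (X : S3 K) :
    homAct h k X = Hact k ((g.trans (phi h) (phi_lie h)).rho (kap K X)) := by
  refine Hl_congr k _ _ ?_
  ext x
  apply (phi h).injective
  rw [act_eq]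
  show _ = phi h ((phi h).symm (g.rho (kap K X) (phi h x)))
  rw [LinearEquiv.apply_symm_apply, hg]

end

end Pool.Agent.N4.Abg
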