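import Pool.Agent.N4.Abg.Fin
import Pool.Agent.N4.Abg.Trans

/-! Assembly. -/

set_option linter.unusedSimpArgs false
set_option linter.unusedSectionVars false

open scoped TensorProduct

namespace Pool.Agent.N4.Abg

open Module Pool.Agent.N4.Rep Pool.Agent.N4.CE Pool.Agent.N4.Num LieAlgebra.SpecialLinear Polynomial

attribute [local instance 100] LieRing.ofAssociativeRing

section span
variable (K : Type*) [Field K] (A : Type*) [NonUnitalNonAssocRing A] [Module K A]

theorem span_wedge {ι : Type*} (w : ι → A) (hw : Submodule.span K (Set.range w) = ⊤) :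
    Submodule.span K (Set.range (fun x : ι × ι => wedge K A (w x.1) (w x.2))) = ⊤ := by
  rw [eq_top_iff]
  rintro x -
  induction x using BB.induction with
  | h0 => exact zero_mem _
  | ha x y hx hy => exact add_mem hx hy
  | hw p q =>
    have hp : p ∈ Submodule.span K (Set.range w) := by rw [hw]; trivial
    have hq : q ∈ Submodule.span K (Set.range w) := by rw [hw]; trivial
    have h := Submodule.apply_mem_map₂ (wedge K A) hp hq
    rw [Submodule.map₂_span_span] at h
    refine Submodule.span_mono ?_ h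
    rintro _ ⟨_, ⟨i, rfl⟩, _, ⟨j, rfl⟩, rfl⟩
    exact ⟨(i, j), rfl⟩

end span

section main
variable {K A L : Type*} [Field K] [CharZero K] [NonUnitalNonAssocRing A] [Module K A]
  [IsScalarTower K A A] [SMulCommClass K A A] [AltRing A] [LieRing L] [LieAlgebra K L]
  {e : MM K A →ₗ[K] L} (hL : IsABG e) (W : WD K A (Fin 3))

include W

/-- The main theorem. -/
theorem main : ∃ k : ℕ, 2 ≤ k ∧ k ≤ 10 ∧
    (IsSummand (fun _ : S3 K => (0 : K →ₗ[K] K)) (homAct hL k) ∨
      IsSummand adS3 (homAct hL k)) := by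
  classical
  by_contra hcon
  have hcon1 : ∀ k : ℕ, 2 ≤ k → k ≤ 10 →
      ¬ IsSummand (fun _ : S3 K => (0 : K →ₗ[K] K)) (homAct hL k) :=
    fun k hk hk' h => hcon ⟨k, hk, hk', Or.inl h⟩
  have hcon2 : ∀ k : ℕ, 2 ≤ k → k ≤ 10 →
      ¬ IsSummand adS3 (homAct hL k) :=
    fun k hk hk' h => hcon ⟨k, hk, hk', Or.inr h⟩
  -- bases
  obtain ⟨κA, a, bA, ha, hbA⟩ := exists_basis W.w W.hspan
  obtain ⟨κB, c, bB, hc, hbB⟩ := exists_basis
    (fun x : FreeMagma (Fin 3) × FreeMagma (Fin 3) => wedge K A (W.w x.1) (W.w x.2))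
    (span_wedge K A _ W.hspan)
  -- degrees
  let dA : κA → ℕ := fun k => (a k).length
  let dB : κB → ℕ := fun k => (c k).1.length + (c k).2.length
  have hA : ∀ k, W.dl (bA k) = (dA k : ℤ) • bA k := by
    intro k; rw [hbA, W.hdlw, natCast_zsmul, Nat.cast_smul_eq_nsmul]
  have hB : ∀ k, derB K A W.dl W.hdl (bB k) = (dB k : ℤ) • bB k := by
    intro k
    rw [hbB, derB_wedge, W.hdlw, W.hdlw, map_smul, map_smul,
      LinearMap.smul_apply, natCast_zsmul, ← Nat.cast_smul_eq_nsmul K, ← add_smul]
    congr 1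
    show _ = (((c k).1.length + (c k).2.length : ℕ) : K)
    push_cast; rfl
  have pA : ∀ k, 1 ≤ dA k := fun k => (a k).length_pos
  have pB2 : ∀ k, 2 ≤ dB k := fun k => by
    have h1 := (c k).1.length_pos
    have h2 := (c k).2.length_pos
    show 2 ≤ (c k).1.length + (c k).2.length
    omega
  have pB : ∀ k, 1 ≤ dB k := fun k => le_trans (by norm_num) (pB2 k)
  have fA : ∀ d, {k | dA k = d}.Finite := fun d =>
    Set.Finite.preimage (ha.injOn) (words_finite (Fin 3) d)
  have fB : ∀ d, {k | dB k = d}.Finite := by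
    intro d
    have h1 : ({x : FreeMagma (Fin 3) × FreeMagma (Fin 3) |
        x.1.length + x.2.length = d}).Finite := by
      refine Set.Finite.subset (((Finset.range (d + 1)).finite_toSet.biUnion fun i _ =>
        words_finite (Fin 3) i).prod ((Finset.range (d + 1)).finite_toSet.biUnion fun i _ =>
        words_finite (Fin 3) i)) ?_
      rintro ⟨x, y⟩ h
      have h' : x.length + y.length = d := h
      refine ⟨?_, ?_⟩
      · simp only [Set.mem_iUnion]
        exact ⟨x.length, by simp; omega, rfl⟩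
      · simp only [Set.mem_iUnion]
        exact ⟨y.length, by simp; omega, rfl⟩
    exact Set.Finite.preimage (hc.injOn) h1
  let _ : LinearOrder ((Fin 8 × κA) ⊕ κB) := linearOrderOfSTO WellOrderingRel
  let g₀ := gr K bA bB W.dl W.hdl dA dB hA hB pA pB fA fB
  let g : Gr K L ((Fin 8 × κA) ⊕ κB) := g₀.trans (phi hL) (phi_lie hL)
  have hdeg : ∀ i, g.deg i = Sum.elim (fun x => dA x.2) dB i := fun _ => rfl
  have hwt : ∀ i, g.wt i = r2w (rtI κA κB i) := fun _ => rfl
  have hgb : ∀ i, g₀.b i = bL K bA bB i := fun _ => rfl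
  have hact : ∀ (k : ℕ) (X : S3 K), homAct hL k X = Hact k (g.rho (kap K X)) :=
    fun k X => trans_act hL g₀ rfl k X
  -- perfectness
  have hperf₀ : ∀ i, 2 ≤ g₀.deg i → g₀.b i ∈ Submodule.span K
      {x : ABG K A | ∃ u v : ABG K A, x = ⁅u, v⁆} := by
    rintro (⟨j, k⟩ | k) hk
    · have h1 : bL K bA bB (Sum.inl (j, k)) = sEl K A (slV K j) (bA k) := by
        apply ABG.ext
        · exact bL_inl_fst K bA bB j k
        · exact bL_inl_snd K bA bB j k
      have h2 : 2 ≤ (a k).length := hk
      rw [hgb, h1, hbA]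
      cases hm : a k with
      | of x => rw [hm] at h2; exact absurd h2 (by simp)
      | mul p q =>
        show sEl K A (slV K j) (W.w (p * q)) ∈ _
        rw [W.hmul]
        exact sl_mem K _ _ _ _
    · have h1 : bL K bA bB (Sum.inr k) = bEl K A (bB k) := by
        apply ABG.ext
        · exact bL_inr_fst K bA bB k
        · exact bL_inr_snd K bA bB k
      rw [hgb, h1, hbB]
      exact wedge_mem K _ _ _
  have hperf : ∀ i, 2 ≤ g.deg i → g.b i ∈ Submodule.span K
      {x : L | ∃ u v : L, x = ⁅u, v⁆} := fun i hi => g₀.trans_perf _ _ (hperf₀ i hi)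
  -- no highest weight classes
  have hHW0 : ∀ d, 2 ≤ d → d ≤ 10 → ∀ k, ¬ g.HW d k (0, 0) := by
    intro d hd hd' k
    rcases Nat.lt_or_ge k 2 with hk | hk
    · interval_cases k
      · exact g.HW_zero (by omega) _
      · exact g.HW_one hd _ hperf
    · intro h
      obtain ⟨x, p, h1, h2, h3⟩ := g.trivial_summand h
      refine hcon1 k hk (le_trans (g.HW_le h) hd')
        (isSummand_of_retract (LinearMap.toSpanSingleton K _ x) p ?_ ?_ ?_)
      · intro c
        rw [LinearMap.toSpanSingleton_apply, map_smul, h1, smul_eq_mul, mul_one]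
      · intro X c
        rw [hact, LinearMap.toSpanSingleton_apply, map_smul, h2, smul_zero]
        exact (map_zero _).symm
      · intro X w
        rw [hact]
        exact h3 _ w
  have hHW1 : ∀ d, 2 ≤ d → d ≤ 10 → ∀ k, ¬ g.HW d k (1, 1) := by
    intro d hd hd' k
    rcases Nat.lt_or_ge k 2 with hk | hk
    · interval_cases k
      · exact g.HW_zero (by omega) _
      · exact g.HW_one hd _ hperf
    · intro h
      obtain ⟨f, p, h1, h2, h3⟩ := g.adjoint_summand h
      refine hcon2 k hk (le_trans (g.HW_le h) hd')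
        (isSummand_of_retract (f ∘ₗ (kap K).toLinearMap) ((kap K).symm.toLinearMap ∘ₗ p) ?_ ?_ ?_)
      · intro X
        show (kap K).symm (p (f (kap K X))) = X
        rw [h1, LinearEquiv.symm_apply_apply]
      · intro X Y
        rw [hact]
        show Hact k (g.rho (kap K X)) (f (kap K Y)) = f (kap K (brS3 X Y))
        rw [kap_br, h2]
      · intro X w
        rw [hact]
        show (kap K).symm (p (Hact k (g.rho (kap K X)) w)) = brS3 X ((kap K).symm (p w))
        apply (kap K).injective
        rw [LinearEquiv.apply_symm_apply, h3, kap_br, LinearEquiv.apply_symm_apply]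
  have hT0 : ∀ d, 2 ≤ d → d ≤ 10 → g.Th d (0, 0) = 0 := fun d hd hd' =>
    g.Th_eq_zero d _ (hHW0 d hd hd')
  have hT1 : ∀ d, 2 ≤ d → d ≤ 10 → g.Th d (1, 1) = 0 := fun d hd hd' =>
    g.Th_eq_zero d _ (hHW1 d hd hd')
  -- counting
  let sA : ℕ → Finset κA := fun d => (fA d).toFinset
  let sB : ℕ → Finset κB := fun d => (fB d).toFinset
  have hsA : ∀ d k, k ∈ sA d ↔ dA k = d := fun d k => by simp [sA]
  have hsB : ∀ d k, k ∈ sB d ↔ dB k = d := fun d k => by simp [sB]
  choose slt hslt using fun d => slt_exists g d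
  have hfin := numeric (fun d => (sA d).card) (fun d => (sB d).card)
    (fun d => ∏ i ∈ slt d, (1 - X ^ enc g (rtI κA κB) i : ℤ[X]))
    (by
      have h0 : slt 1 = ∅ := by
        ext i
        rw [hslt]
        have := g.hpos i
        simp; omega
      show ∏ i ∈ slt 1, _ = _
      rw [h0, Finset.prod_empty])
    (fun d _ => step g dA dB hdeg (hslt d) (hslt (d + 1)) (hsA d) (hsB d))
    (by
      have h1 := card_ge W a bA hbA (n := 1) one_ne_zero (sA 1) (hsA 1)
      have h2 := card_one_le a ha (sA 1) (hsA 1)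
      rw [Fintype.card_fin] at h1 h2
      show (sA 1).card = 3
      omega)
    (by
      show (sB 1).card = 0
      rw [Finset.card_eq_zero]
      ext k
      rw [hsB]
      have := pB2 k
      simp; omega)
    (fun d h2 h10 => by
      have h := Th00 g dA dB hdeg hwt h10 (by omega) (hslt d) (hsA d) (hsB d)
      rw [hT0 d h2 h10] at h
      linarith)
    (fun d h2 h10 => by
      have h := Th11 g dA dB hdeg hwt h10 (by omega) (hslt d) (hsA d) (hsB d)
      rw [hT1 d h2 h10] at h
      linarith)
  have h3 := card_ge W a bA hbA (n := 10) (by norm_num) (sA 10) (hsA 10)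
  rw [Fintype.card_fin] at h3
  have h4 : (sA 10).card = 56961 := hfin
  rw [h4] at h3
  norm_num at h3

end main

end Pool.Agent.N4.Abg
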