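import Pool.Agent.N4.Abg.Lie

open scoped TensorProduct

namespace Pool.Agent.N4.Abg

attribute [local instance 100] LieRing.ofAssociativeRing

section
variable (K : Type*) [Field K] [CharZero K] (A : Type*) [NonUnitalNonAssocRing A] [Module K A]
  [IsScalarTower K A A] [SMulCommClass K A A]

theorem anti_inv (Z X Y : sl3 K) : ⁅Z, anti K X Y⁆ = anti K ⁅Z, X⁆ Y + anti K X ⁅Z, Y⁆ := by
  ext1
  have t1 : (X.val * Z.val * Y.val).trace = (Y.val * X.val * Z.val).trace := by
    rw [Matrix.trace_mul_comm, ← Matrix.mul_assoc]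
  have t2 : (X.val * Y.val * Z.val).trace = (Z.val * X.val * Y.val).trace := by
    rw [Matrix.trace_mul_comm, ← Matrix.mul_assoc]
  simp only [LieAlgebra.SpecialLinear.sl_bracket, anti_val, AddMemClass.coe_add]
  simp only [mul_add, add_mul, mul_sub, sub_mul, smul_mul_assoc, mul_smul_comm, Matrix.mul_one,
    Matrix.one_mul, Matrix.trace_sub, ← Matrix.mul_assoc, t1, t2]
  module

omit [CharZero K] in
theorem tr_inv (Z X Y : sl3 K) : Matrix.trace (⁅Z, X⁆.val * Y.val)
    + Matrix.trace (X.val * ⁅Z, Y⁆.val) = 0 := by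
  have t2 : (X.val * Y.val * Z.val).trace = (Z.val * X.val * Y.val).trace := by
    rw [Matrix.trace_mul_comm, ← Matrix.mul_assoc]
  simp only [LieAlgebra.SpecialLinear.sl_bracket, sub_mul, mul_sub, Matrix.trace_sub,
    ← Matrix.mul_assoc, t2]
  ring

/-- The action of `Z ∈ 𝔰𝔩₃` on `𝔰𝔩₃ ⊗ A`. -/
noncomputable def aS (Z : sl3 K) : (sl3 K ⊗[K] A) →ₗ[K] (sl3 K ⊗[K] A) :=
  LinearMap.rTensor A (lieB K Z)

omit [CharZero K] [IsScalarTower K A A] [SMulCommClass K A A] in
theorem aS_tmul (Z X : sl3 K) (p : A) : aS K A Z (X ⊗ₜ p) = ⁅Z, X⁆ ⊗ₜ p := by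
  simp [aS, lieB]

theorem aS_ssS (Z : sl3 K) (x y : sl3 K ⊗[K] A) :
    aS K A Z (ssS K A x y) = ssS K A (aS K A Z x) y + ssS K A x (aS K A Z y) := by
  induction x using TensorProduct.induction_on with
  | zero => simp
  | add x x' hx hx' => simp only [map_add, LinearMap.add_apply, hx, hx']; abel
  | tmul X p =>
    induction y using TensorProduct.induction_on with
    | zero => simp
    | add y y' hx hx' => simp only [map_add, hx, hx']; abel
    | tmul Y q =>
      simp only [ssS_tmul, aS_tmul, map_add, anti_inv, TensorProduct.add_tmul]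
      rw [leibniz_lie Z X Y, TensorProduct.add_tmul]
      abel

omit [CharZero K] [IsScalarTower K A A] [SMulCommClass K A A] in
theorem aS_ssB (Z : sl3 K) (x y : sl3 K ⊗[K] A) :
    ssB K A (aS K A Z x) y + ssB K A x (aS K A Z y) = 0 := by
  induction x using TensorProduct.induction_on with
  | zero => simp
  | add x x' hx hx' =>
    simp only [map_add, LinearMap.add_apply]
    linear_combination (norm := abel) hx + hx'
  | tmul X p =>
    induction y using TensorProduct.induction_on with
    | zero => simp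
    | add y y' hx hx' =>
      simp only [map_add]
      linear_combination (norm := abel) hx + hx'
    | tmul Y q =>
      simp only [ssB_tmul, aS_tmul]
      rw [← smul_add, ← add_smul, tr_inv, zero_smul, smul_zero]

variable [AltRing A]

omit [CharZero K] in
theorem aS_actS (Z : sl3 K) (β : BB K A) (x : sl3 K ⊗[K] A) :
    aS K A Z (actS K A β x) = actS K A β (aS K A Z x) := by
  induction x using TensorProduct.induction_on with
  | zero => simp
  | add x x' hx hx' => simp only [map_add, hx, hx']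
  | tmul X p => simp only [actS_tmul, aS_tmul]

/-- The linear map of `ABG(A)` defined by `Z ∈ 𝔰𝔩₃`: `(x, β) ↦ (Z · x, 0)`. -/
noncomputable def slLin (Z : sl3 K) : ABG K A →ₗ[K] ABG K A where
  toFun u := (aS K A Z u.1, 0)
  map_add' u v := by
    apply ABG.ext
    · exact map_add (aS K A Z) u.1 v.1
    · exact (add_zero 0).symm
  map_smul' c u := by
    apply ABG.ext
    · exact map_smul (aS K A Z) c u.1
    · exact (smul_zero c).symm

theorem slLin_fst (Z : sl3 K) (u : ABG K A) : (slLin K A Z u).1 = aS K A Z u.1 := rfl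

theorem slLin_snd (Z : sl3 K) (u : ABG K A) : (slLin K A Z u).2 = 0 := rfl

theorem ABG.sub_fst (u v : ABG K A) : (u - v).1 = u.1 - v.1 := rfl
theorem ABG.sub_snd (u v : ABG K A) : (u - v).2 = u.2 - v.2 := rfl

/-- The derivation of `ABG(A)` defined by `Z ∈ 𝔰𝔩₃`:
`Z · (X ⊗ p) = [Z, X] ⊗ p` and `Z · β = 0` for `β ∈ 𝓑(A)`. -/
noncomputable def slDer (Z : sl3 K) : LieDerivation K (ABG K A) (ABG K A) where
  toLinearMap := slLin K A Z
  leibniz' u v := by
    apply ABG.ext
    · rw [slLin_fst, ABG.sub_fst, lie_fst, lie_fst, lie_fst, slLin_fst, slLin_fst, slLin_snd,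
        slLin_snd]
      simp only [map_add, map_sub, aS_actS, aS_ssS, map_zero, LinearMap.zero_apply]
      rw [ssS_skew K A (aS K A Z u.1) v.1]
      abel
    · rw [slLin_snd, ABG.sub_snd, lie_snd, lie_snd, slLin_fst, slLin_fst, slLin_snd, slLin_snd]
      have h3 := aS_ssB K A Z u.1 v.1
      rw [ssB_skew K A (aS K A Z u.1) v.1]
      simp only [map_zero, add_zero, sub_neg_eq_add]
      rw [add_comm, h3]

theorem slDer_fst (Z : sl3 K) (u : ABG K A) : (slDer K A Z u).1 = aS K A Z u.1 := rfl

theorem slDer_snd (Z : sl3 K) (u : ABG K A) : (slDer K A Z u).2 = 0 := rfl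

end

end Pool.Agent.N4.Abg
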