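import Pool.Agent.N4.Abg.CE2
import Pool.Agent.N4.Abg.Sl

/-! The representation of `𝔰𝔩₃` on the homology of `ABG(A)`, and direct summands. -/

set_option linter.unusedSectionVars false

open scoped TensorProduct

namespace Pool.Agent.N4.Abg

open Pool.Agent.N4.CE

attribute [local instance 100] LieRing.ofAssociativeRing

section
variable (K : Type*) [Field K] [CharZero K] (A : Type*) [NonUnitalNonAssocRing A] [Module K A]
  [IsScalarTower K A A] [SMulCommClass K A A] [AltRing A]

/-- The element `X ⊗ p`. -/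
def sEl (X : sl3 K) (p : A) : ABG K A := (X ⊗ₜ p, 0)

/-- The element `β`. -/
def bEl (β : BB K A) : ABG K A := (0, β)

theorem sEl_fst (X : sl3 K) (p : A) : (sEl K A X p).1 = X ⊗ₜ p := rfl
theorem sEl_snd (X : sl3 K) (p : A) : (sEl K A X p).2 = 0 := rfl
theorem bEl_fst (β : BB K A) : (bEl K A β).1 = 0 := rfl
theorem bEl_snd (β : BB K A) : (bEl K A β).2 = β := rfl

theorem aS_add (X Y : sl3 K) : aS K A (X + Y) = aS K A X + aS K A Y := by
  rw [aS, map_add, LinearMap.rTensor_add]; rfl

theorem aS_smul (c : K) (X : sl3 K) : aS K A (c • X) = c • aS K A X := by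
  rw [aS, map_smul, LinearMap.rTensor_smul]; rfl

theorem aS_br (X Y : sl3 K) (x : sl3 K ⊗[K] A) :
    aS K A ⁅X, Y⁆ x = aS K A X (aS K A Y x) - aS K A Y (aS K A X x) := by
  induction x using TensorProduct.induction_on with
  | zero => simp
  | add x x' hx hx' => simp only [map_add, hx, hx']; abel
  | tmul Z p => simp only [aS_tmul, lie_lie, TensorProduct.sub_tmul]

end

section
variable {K S U W : Type*} [Field K] [AddCommGroup U] [Module K U] [AddCommGroup W] [Module K W]

theorem isSummand_of_retract {σ : S → U →ₗ[K] U} {ρ : S → W →ₗ[K] W}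
    (f : U →ₗ[K] W) (p : W →ₗ[K] U) (hpf : ∀ u, p (f u) = u)
    (hf : ∀ X u, ρ X (f u) = f (σ X u)) (hp : ∀ X w, p (ρ X w) = σ X (p w)) :
    IsSummand σ ρ := by
  have hinj : Function.Injective f := fun x y h => by rw [← hpf x, ← hpf y, h]
  refine ⟨LinearMap.range f, LinearMap.ker p, ⟨?_, ?_⟩, ?_, ?_,
    LinearEquiv.ofInjective f hinj, ?_⟩
  · rw [Submodule.disjoint_def]
    rintro _ ⟨u, rfl⟩ hu
    have h : p (f u) = 0 := hu
    rw [hpf] at h
    rw [h, map_zero]
  · rw [codisjoint_iff, eq_top_iff]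
    rintro w -
    have h : w = f (p w) + (w - f (p w)) := by abel
    rw [h]
    refine Submodule.add_mem_sup ⟨_, rfl⟩ ?_
    show p (w - f (p w)) = 0
    rw [map_sub, hpf, sub_self]
  · rintro X _ ⟨u, rfl⟩
    exact ⟨σ X u, (hf X u).symm⟩
  · intro X w hw
    have h : p w = 0 := hw
    show p (ρ X w) = 0
    rw [hp, h, map_zero]
  · intro X u
    exact hf X u

end

end Pool.Agent.N4.Abg
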