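import Pool.Agent.N4.Abg.Sl3

/-! Highest weight vectors and trivial or adjoint submodules. -/

set_option linter.unusedSimpArgs false

namespace Pool.Agent.N4.Rep

open Module LieAlgebra.SpecialLinear

attribute [local instance 100] LieRing.ofAssociativeRing

section sl2
variable {K : Type*} [Field K] [CharZero K] {V : Type*} [AddCommGroup V] [Module K V]

omit [CharZero K] in
/-- The basic computation with `𝔰𝔩₂`. -/
theorem sl2_e_pow {e f h : Module.End K V} (hef : e * f = f * e + h)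
    (hhf : h * f = f * h - (2 : ℤ) • f) {v : V} {μ : ℤ} (he : e v = 0) (hh : h v = μ • v) (n : ℕ) :
    e ((f ^ (n + 1)) v) = (((n : ℤ) + 1) * (μ - n)) • (f ^ n) v := by
  have hw : ∀ n : ℕ, h ((f ^ n) v) = (μ - 2 * n) • (f ^ n) v := by
    intro n
    induction n with
    | zero => simp [hh]
    | succ n ih =>
      have h1 := LinearMap.congr_fun hhf ((f ^ n) v)
      simp only [Module.End.mul_apply, LinearMap.sub_apply, LinearMap.smul_apply] at h1
      rw [pow_succ', Module.End.mul_apply, h1, ih, map_zsmul]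
      push_cast
      module
  induction n with
  | zero =>
    have h1 := LinearMap.congr_fun hef v
    simp only [Module.End.mul_apply, LinearMap.add_apply] at h1
    rw [zero_add, pow_one, h1, he, hh, map_zero]; simp
  | succ n ih =>
    have h1 := LinearMap.congr_fun hef ((f ^ (n + 1)) v)
    simp only [Module.End.mul_apply, LinearMap.add_apply] at h1
    rw [pow_succ' f (n + 1), Module.End.mul_apply, h1, ih, map_zsmul, hw (n + 1), pow_succ' f n,
      Module.End.mul_apply]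
    push_cast
    module

theorem sl2_dominant {e f h : Module.End K V} (hef : e * f = f * e + h)
    (hhf : h * f = f * h - (2 : ℤ) • f) {v : V} {μ : ℤ} (he : e v = 0) (hh : h v = μ • v)
    (hv : v ≠ 0) (hN : ∃ N : ℕ, (f ^ N) v = 0) : ∃ n : ℕ, μ = n ∧ (f ^ (n + 1)) v = 0 := by
  classical
  have hmin := Nat.find_spec hN
  have hlt : ∀ m, m < Nat.find hN → (f ^ m) v ≠ 0 := fun m hm => Nat.find_min hN hm
  obtain ⟨n, hn⟩ : ∃ n, Nat.find hN = n + 1 := by
    cases h0 : Nat.find hN with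
    | zero => rw [h0] at hmin; exact absurd (by simpa using hmin) hv
    | succ n => exact ⟨n, rfl⟩
  rw [hn] at hmin
  have h1 := sl2_e_pow hef hhf he hh n
  rw [hmin, map_zero] at h1
  have h2 : (f ^ n) v ≠ 0 := hlt n (by rw [hn]; exact Nat.lt_succ_self n)
  refine ⟨n, ?_, hmin⟩
  have h3 : (((((n : ℤ) + 1) * (μ - n) : ℤ)) : K) • (f ^ n) v = 0 := by
    rw [Int.cast_smul_eq_zsmul]; exact h1.symm
  have h4 := (smul_eq_zero.1 h3).resolve_right h2
  have h5 : ((n : ℤ) + 1) * (μ - n) = 0 := by exact_mod_cast h4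
  rcases mul_eq_zero.1 h5 with h6 | h6 <;> omega
end sl2

variable {K : Type*} [Field K] {V : Type*} [AddCommGroup V] [Module K V]
  (ρ : sl K →ₗ[K] Module.End K V) (hρ : ∀ X Y, ρ ⁅X, Y⁆ = ρ X * ρ Y - ρ Y * ρ X)

theorem sl_expand (X : sl K) : X = X.val 0 1 • E1 K + X.val 1 2 • E2 K + X.val 0 2 • E3 K
    + X.val 1 0 • F1 K + X.val 2 1 • F2 K + X.val 2 0 • F3 K + X.val 0 0 • H1 K
    + (- X.val 2 2) • H2 K := by
  have ht : X.val 0 0 + X.val 1 1 + X.val 2 2 = 0 := by
    have := X.2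
    have h2 : Matrix.trace X.val = 0 := this
    rwa [Matrix.trace_fin_three] at h2
  ext i j
  fin_cases i <;> fin_cases j <;>
    simp [E1, E2, E3, F1, F2, F3, H1, H2, Matrix.single]
  linear_combination ht

include hρ

/-- A vector killed by the generators is invariant. -/
theorem invariant_of {v : V} (e1 : ρ (E1 K) v = 0) (e2 : ρ (E2 K) v = 0) (f1 : ρ (F1 K) v = 0)
    (f2 : ρ (F2 K) v = 0) (h1 : ρ (H1 K) v = 0) (h2 : ρ (H2 K) v = 0) (X : sl K) :
    ρ X v = 0 := by
  have s := isSl3 ρ hρ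
  have e3 : ρ (E3 K) v = 0 := by
    have := LinearMap.congr_fun s.e2e1 v
    simp only [Module.End.mul_apply, LinearMap.sub_apply, e1, e2, map_zero, zero_sub] at this
    exact (neg_eq_zero.1 this.symm)
  have f3 : ρ (F3 K) v = 0 := by
    have := LinearMap.congr_fun s.f2f1 v
    simp only [Module.End.mul_apply, LinearMap.add_apply, f1, f2, map_zero, zero_add] at this
    exact this.symm
  rw [sl_expand X]
  simp only [map_add, map_smul, LinearMap.add_apply, LinearMap.smul_apply, e1, e2, e3, f1, f2, f3,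
    h1, h2, smul_zero, add_zero]


omit hρ in
/-- The candidate embedding of the adjoint module. -/
noncomputable def adj (v : V) : sl K →ₗ[K] V where
  toFun X := X.val 0 2 • v + X.val 1 2 • ρ (F1 K) v - X.val 0 1 • ρ (F2 K) v
    + X.val 0 0 • ρ (F1 K) (ρ (F2 K) v) + X.val 2 2 • (ρ (F1 K) (ρ (F2 K) v) + ρ (F3 K) v)
    - X.val 1 0 • ρ (F1 K) (ρ (F3 K) v) - X.val 2 1 • ρ (F2 K) (ρ (F3 K) v)
    + X.val 2 0 • ρ (F1 K) (ρ (F2 K) (ρ (F3 K) v))
  map_add' X Y := by
    have h : ∀ i j, (X + Y).val i j = X.val i j + Y.val i j := fun _ _ => rfl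
    simp only [h]
    module
  map_smul' c X := by
    have h : ∀ i j, (c • X).val i j = c * X.val i j := fun _ _ => rfl
    simp only [h, RingHom.id_apply]
    module

omit hρ in
theorem adj_apply (v : V) (X : sl K) : adj ρ v X =
    X.val 0 2 • v + X.val 1 2 • ρ (F1 K) v - X.val 0 1 • ρ (F2 K) v
    + X.val 0 0 • ρ (F1 K) (ρ (F2 K) v) + X.val 2 2 • (ρ (F1 K) (ρ (F2 K) v) + ρ (F3 K) v)
    - X.val 1 0 • ρ (F1 K) (ρ (F3 K) v) - X.val 2 1 • ρ (F2 K) (ρ (F3 K) v)
    + X.val 2 0 • ρ (F1 K) (ρ (F2 K) (ρ (F3 K) v)) := rfl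

set_option maxRecDepth 10000 in
theorem adj_spec [CharZero K] {v : V} (e1 : ρ (E1 K) v = 0) (e2 : ρ (E2 K) v = 0)
    (h1 : ρ (H1 K) v = v) (h2 : ρ (H2 K) v = v) (r1 : ρ (F1 K) (ρ (F1 K) v) = 0)
    (r2 : ρ (F2 K) (ρ (F2 K) v) = 0) :
    (∀ X, adj ρ v ⁅E1 K, X⁆ = ρ (E1 K) (adj ρ v X)) ∧
    (∀ X, adj ρ v ⁅E2 K, X⁆ = ρ (E2 K) (adj ρ v X)) ∧
    (∀ X, adj ρ v ⁅F1 K, X⁆ = ρ (F1 K) (adj ρ v X)) ∧
    (∀ X, adj ρ v ⁅F2 K, X⁆ = ρ (F2 K) (adj ρ v X)) := by
  have s := isSl3 ρ hρ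
  have e1f1 := LinearMap.congr_fun s.e1f1
  have e2f2 := LinearMap.congr_fun s.e2f2
  have e1f2 := LinearMap.congr_fun s.e1f2
  have e2f1 := LinearMap.congr_fun s.e2f1
  have e1f3 := LinearMap.congr_fun s.e1f3
  have e2f3 := LinearMap.congr_fun s.e2f3
  have h1f1 := LinearMap.congr_fun s.h1f1
  have h1f2 := LinearMap.congr_fun s.h1f2
  have h1f3 := LinearMap.congr_fun s.h1f3
  have h2f1 := LinearMap.congr_fun s.h2f1
  have h2f2 := LinearMap.congr_fun s.h2f2
  have h2f3 := LinearMap.congr_fun s.h2f3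
  have f2f1 := LinearMap.congr_fun s.f2f1
  have f3f1 := LinearMap.congr_fun s.f3f1
  have f3f2 := LinearMap.congr_fun s.f3f2
  simp only [Module.End.mul_apply, LinearMap.sub_apply, LinearMap.add_apply,
    LinearMap.smul_apply] at e1f1 e2f2 e1f2 e2f1 e1f3 e2f3
  simp only [Module.End.mul_apply, LinearMap.sub_apply, LinearMap.add_apply,
    LinearMap.smul_apply] at h1f1 h1f2 h1f3 h2f1 h2f2 h2f3 f2f1 f3f1 f3f2
  have d1 : ρ (F1 K) (ρ (F1 K) (ρ (F2 K) v)) = - ((2 : ℤ) • ρ (F1 K) (ρ (F3 K) v)) := by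
    have := congrArg (ρ (F2 K)) r1
    simp only [f2f1, f3f1, f3f2, map_add, map_zero] at this
    linear_combination (norm := module) this
  have d2 : ρ (F1 K) (ρ (F1 K) (ρ (F3 K) v)) = 0 := by
    have := congrArg (ρ (F3 K)) r1
    simpa only [f2f1, f3f1, f3f2, map_add, map_zero] using this
  have d2' : ρ (F2 K) (ρ (F2 K) (ρ (F3 K) v)) = 0 := by
    have := congrArg (ρ (F3 K)) r2
    simpa only [f2f1, f3f1, f3f2, map_add, map_zero] using this
  have d3 : ρ (F3 K) (ρ (F3 K) v) = - ((2 : ℤ) • ρ (F1 K) (ρ (F2 K) (ρ (F3 K) v))) := by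
    have := congrArg (ρ (F2 K)) d1
    simp only [f2f1, f3f1, f3f2, map_add, map_neg, map_zsmul, map_zero, r2] at this
    have h2 : (2 : K) • (ρ (F3 K) (ρ (F3 K) v)) =
      (2 : K) • (- ((2 : ℤ) • ρ (F1 K) (ρ (F2 K) (ρ (F3 K) v)))) := by
      linear_combination (norm := module) this
    exact smul_right_injective _ (two_ne_zero) h2
  have d4 : ρ (F1 K) (ρ (F1 K) (ρ (F2 K) (ρ (F3 K) v))) = 0 := by
    have h3 := congrArg (ρ (F3 K)) d1
    simp only [f2f1, f3f1, f3f2, map_add, map_neg, map_zsmul, map_zero, d3] at h3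
    have h4 : (3 : K) • ρ (F1 K) (ρ (F1 K) (ρ (F2 K) (ρ (F3 K) v))) = (3 : K) • 0 := by
      linear_combination (norm := module) (-1 : ℤ) • h3
    exact smul_right_injective _ (three_ne_zero) h4
  have r12 : ρ (F1 K) (ρ (F2 K) (ρ (F2 K) v)) = 0 := by rw [r2, map_zero]
  have d5 : ρ (F2 K) (ρ (F3 K) (ρ (F3 K) v)) = 0 := by
    have h3 := congrArg (ρ (F2 K)) d3
    simp only [f2f1, f3f1, f3f2, map_add, map_neg, map_zsmul, map_zero, d2', zero_add] at h3
    have h4 : (3 : K) • ρ (F2 K) (ρ (F3 K) (ρ (F3 K) v)) = (3 : K) • 0 := by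
      linear_combination (norm := module) h3
    exact smul_right_injective _ (three_ne_zero) h4
  have d3' : ρ (F1 K) (ρ (F2 K) (ρ (F3 K) v)) = (-(2 : K)⁻¹) • ρ (F3 K) (ρ (F3 K) v) := by
    rw [d3]
    have h2 : (2 : K) ≠ 0 := two_ne_zero
    have h3 : (-(2 : K)⁻¹) * (-2) = 1 := by field_simp
    rw [← neg_smul, ← Int.cast_smul_eq_zsmul K, smul_smul]
    push_cast
    rw [h3, one_smul]
  have d6 : ρ (F1 K) (ρ (F3 K) (ρ (F3 K) v)) = 0 := by
    rw [d3, map_neg, map_zsmul, d4, smul_zero, neg_zero]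
  clear d3 d4
  have ht : ∀ X : sl K, X.val 1 1 = - X.val 0 0 - X.val 2 2 := by
    intro X
    have h2 : Matrix.trace X.val = 0 := X.2
    rw [Matrix.trace_fin_three] at h2
    linear_combination h2
  refine ⟨?_, ?_, ?_, ?_⟩
  · intro X
    have hE : ∀ i j, (⁅E1 K, X⁆ : sl K).val i j = (if i = 0 then X.val 1 j else 0)
        - (if j = 1 then X.val i 0 else 0) := by
      intro i j
      rw [sl_bracket]
      fin_cases i <;> fin_cases j <;>
        simp [E1, Matrix.mul_apply, Matrix.single, Fin.sum_univ_three]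
    rw [adj_apply, adj_apply]
    simp only [hE, ht X, map_add, map_sub, map_smul, map_zero, map_neg, map_zsmul, e1f1, e2f2, e1f2,
      e2f1, e1f3, e2f3, h1f1, h1f2, h1f3, h2f1, h2f2, h2f3, f2f1, f3f1, f3f2, e1, e2, h1, h2, r1,
      r2, d1, d2, d2', d3', d5, d6, r12]
    simp
    module
  · intro X
    have hE : ∀ i j, (⁅E2 K, X⁆ : sl K).val i j = (if i = 1 then X.val 2 j else 0)
        - (if j = 2 then X.val i 1 else 0) := by
      intro i j
      rw [sl_bracket]
      fin_cases i <;> fin_cases j <;>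
        simp [E2, Matrix.mul_apply, Matrix.single, Fin.sum_univ_three]
    rw [adj_apply, adj_apply]
    simp only [hE, ht X, map_add, map_sub, map_smul, map_zero, map_neg, map_zsmul, e1f1, e2f2, e1f2,
      e2f1, e1f3, e2f3, h1f1, h1f2, h1f3, h2f1, h2f2, h2f3, f2f1, f3f1, f3f2, e1, e2, h1, h2, r1,
      r2, d1, d2, d2', d3', d5, d6, r12]
    simp
    module
  · intro X
    have hE : ∀ i j, (⁅F1 K, X⁆ : sl K).val i j = (if i = 1 then X.val 0 j else 0)
        - (if j = 0 then X.val i 1 else 0) := by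
      intro i j
      rw [sl_bracket]
      fin_cases i <;> fin_cases j <;>
        simp [F1, Matrix.mul_apply, Matrix.single, Fin.sum_univ_three]
    rw [adj_apply, adj_apply]
    simp only [hE, ht X, map_add, map_sub, map_smul, map_zero, map_neg, map_zsmul, e1f1, e2f2, e1f2,
      e2f1, e1f3, e2f3, h1f1, h1f2, h1f3, h2f1, h2f2, h2f3, f2f1, f3f1, f3f2, e1, e2, h1, h2, r1,
      r2, d1, d2, d2', d3', d5, d6, r12]
    simp
    module
  · intro X
    have hE : ∀ i j, (⁅F2 K, X⁆ : sl K).val i j = (if i = 2 then X.val 1 j else 0)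
        - (if j = 1 then X.val i 2 else 0) := by
      intro i j
      rw [sl_bracket]
      fin_cases i <;> fin_cases j <;>
        simp [F2, Matrix.mul_apply, Matrix.single, Fin.sum_univ_three]
    rw [adj_apply, adj_apply]
    simp only [hE, ht X, map_add, map_sub, map_smul, map_zero, map_neg, map_zsmul, e1f1, e2f2, e1f2,
      e2f1, e1f3, e2f3, h1f1, h1f2, h1f3, h2f1, h2f2, h2f3, f2f1, f3f1, f3f2, e1, e2, h1, h2, r1,
      r2, d1, d2, d2', d3', d5, d6, r12]
    simp
    module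

end Pool.Agent.N4.Rep
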