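import Pool.Agent.N4.Abg.Der
import Pool.Agent.N4.Abg.Comp

/-! Weight bases. -/

set_option linter.unusedSimpArgs false

open scoped TensorProduct

namespace Pool.Agent.N4.Abg

open Module Pool.Agent.N4.Rep LieAlgebra.SpecialLinear

attribute [local instance 100] LieRing.ofAssociativeRing

/-- There are finitely many nonassociative words of a given length. -/
theorem words_finite (X : Type*) [Finite X] (d : ℕ) : {m : FreeMagma X | m.length = d}.Finite := by
  induction d using Nat.strong_induction_on with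
  | _ d ih =>
    have hsub : {m : FreeMagma X | m.length = d} ⊆ Set.range FreeMagma.of ∪
        ⋃ i ∈ Finset.range d, ⋃ j ∈ Finset.range d,
          Set.image2 (· * ·) {m : FreeMagma X | m.length = i} {m : FreeMagma X | m.length = j} := by
      intro m hm
      cases m with
      | of x => exact Or.inl ⟨x, rfl⟩
      | mul a b =>
        right
        have h1 : a.length + b.length = d := hm
        have ha := a.length_pos
        have hb := b.length_pos
        simp only [Set.mem_iUnion]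
        exact ⟨a.length, Finset.mem_range.2 (by omega), b.length, Finset.mem_range.2 (by omega),
          ⟨a, rfl, b, rfl, rfl⟩⟩
    refine Set.Finite.subset ?_ hsub
    refine (Set.finite_range _).union ?_
    refine Set.Finite.biUnion (Finset.finite_toSet _) fun i hi => ?_
    refine Set.Finite.biUnion (Finset.finite_toSet _) fun j hj => ?_
    exact (ih i (by simpa using hi)).image2 _ (ih j (by simpa using hj))

/-- A spanning family contains a basis. -/
theorem exists_basis {K V : Type*} {ι : Type} [Field K] [AddCommGroup V] [Module K V] (w : ι → V)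
    (hw : Submodule.span K (Set.range w) = ⊤) :
    ∃ (κ : Type) (a : κ → ι) (b : Basis κ K V), Function.Injective a ∧ ∀ k, b k = w (a k) := by
  obtain ⟨κ, a, ha, hs, hli⟩ := exists_linearIndependent' K w
  refine ⟨κ, a, Basis.mk hli (by rw [hs, hw]), ha, fun k => ?_⟩
  rw [Basis.mk_apply]; rfl

section sl
variable (K : Type*) [Field K]

/-- The standard basis of `𝔰𝔩₃`. -/
noncomputable def slV : Fin 8 → sl K :=
  ![E1 K, E2 K, E3 K, F1 K, F2 K, F3 K, H1 K, H2 K]

theorem slV_li : LinearIndependent K (slV K) := by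
  rw [Fintype.linearIndependent_iff]
  intro c hc
  have h : ∀ i j : Fin 3, (∑ k, c k • slV K k).val i j = 0 := by
    intro i j; rw [hc]; rfl
  have e : (∑ k, c k • slV K k) = c 0 • E1 K + c 1 • E2 K + c 2 • E3 K + c 3 • F1 K + c 4 • F2 K
      + c 5 • F3 K + c 6 • H1 K + c 7 • H2 K := by
    rw [Fin.sum_univ_eight]; rfl
  rw [e] at h
  have h01 := h 0 1
  have h12 := h 1 2
  have h02 := h 0 2
  have h10 := h 1 0
  have h21 := h 2 1
  have h20 := h 2 0
  have h00 := h 0 0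
  have h22 := h 2 2
  simp [E1, E2, E3, F1, F2, F3, H1, H2, Matrix.single] at h01 h12 h02 h10 h21 h20 h00 h22
  intro i
  fin_cases i <;> assumption

theorem slV_span : ⊤ ≤ Submodule.span K (Set.range (slV K)) := by
  intro X _
  rw [sl_expand X]
  have h : ∀ (c : K) (i : Fin 8), c • slV K i ∈ Submodule.span K (Set.range (slV K)) := fun c i =>
    Submodule.smul_mem _ _ (Submodule.subset_span ⟨i, rfl⟩)
  exact add_mem (add_mem (add_mem (add_mem (add_mem (add_mem (add_mem (h _ 0) (h _ 1)) (h _ 2))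
    (h _ 3)) (h _ 4)) (h _ 5)) (h _ 6)) (h _ 7)

/-- The standard basis of `𝔰𝔩₃`. -/
noncomputable def slB : Basis (Fin 8) K (sl K) := Basis.mk (slV_li K) (slV_span K)

theorem slB_apply (i : Fin 8) : slB K i = slV K i := by rw [slB, Basis.mk_apply]

/-- Root coordinates of the basis of `𝔰𝔩₃`. -/
def slR : Fin 8 → ℤ × ℤ := ![(1, 0), (0, 1), (1, 1), (-1, 0), (0, -1), (-1, -1), (0, 0), (0, 0)]

/-- Weight coordinates from root coordinates. -/
def r2w (x : ℤ × ℤ) : ℤ × ℤ := (2 * x.1 - x.2, 2 * x.2 - x.1)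

theorem br_H1 (i : Fin 8) : ⁅H1 K, slV K i⁆ = (r2w (slR i)).1 • slV K i := by
  fin_cases i
  · show ⁅H1 K, E1 K⁆ = (2 : ℤ) • E1 K
    rw [← lie_skew, br_e1h1, neg_neg]
  · show ⁅H1 K, E2 K⁆ = (-1 : ℤ) • E2 K
    rw [← lie_skew, br_e2h1, neg_one_smul]
  · show ⁅H1 K, E3 K⁆ = (1 : ℤ) • E3 K
    rw [← lie_skew, br_e3h1, neg_neg, one_smul]
  · show ⁅H1 K, F1 K⁆ = (-2 : ℤ) • F1 K
    rw [br_h1f1, neg_smul]
  · show ⁅H1 K, F2 K⁆ = (1 : ℤ) • F2 K
    rw [br_h1f2, one_smul]
  · show ⁅H1 K, F3 K⁆ = (-1 : ℤ) • F3 K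
    rw [br_h1f3, neg_one_smul]
  · show ⁅H1 K, H1 K⁆ = (0 : ℤ) • H1 K
    rw [lie_self, zero_smul]
  · show ⁅H1 K, H2 K⁆ = (0 : ℤ) • H2 K
    rw [← lie_skew, br_h1h2, neg_zero, zero_smul]

theorem br_H2 (i : Fin 8) : ⁅H2 K, slV K i⁆ = (r2w (slR i)).2 • slV K i := by
  fin_cases i
  · show ⁅H2 K, E1 K⁆ = (-1 : ℤ) • E1 K
    rw [← lie_skew, br_e1h2, neg_one_smul]
  · show ⁅H2 K, E2 K⁆ = (2 : ℤ) • E2 K
    rw [← lie_skew, br_e2h2, neg_neg]
  · show ⁅H2 K, E3 K⁆ = (1 : ℤ) • E3 K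
    rw [← lie_skew, br_e3h2, neg_neg, one_smul]
  · show ⁅H2 K, F1 K⁆ = (1 : ℤ) • F1 K
    rw [br_h2f1, one_smul]
  · show ⁅H2 K, F2 K⁆ = (-2 : ℤ) • F2 K
    rw [br_h2f2, neg_smul]
  · show ⁅H2 K, F3 K⁆ = (-1 : ℤ) • F3 K
    rw [br_h2f3, neg_one_smul]
  · show ⁅H2 K, H1 K⁆ = (0 : ℤ) • H1 K
    rw [br_h1h2, zero_smul]
  · show ⁅H2 K, H2 K⁆ = (0 : ℤ) • H2 K
    rw [lie_self, zero_smul]

end sl

end Pool.Agent.N4.Abg
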