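import Pool.Agent.N4.Abg.Inst
import Pool.Agent.N4.Abg.Hom

/-! The graded structure on `ABG(A)` for `A` a free alternative algebra. -/

set_option linter.unusedSimpArgs false
set_option linter.unusedSectionVars false

open scoped TensorProduct

namespace Pool.Agent.N4.Abg

open Module Pool.Agent.N4.Rep Pool.Agent.N4.CE LieAlgebra.SpecialLinear

attribute [local instance 100] LieRing.ofAssociativeRing

section gen
variable (K : Type*) [Field K] [CharZero K] (A : Type*) [NonUnitalNonAssocRing A] [Module K A]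
  [IsScalarTower K A A] [SMulCommClass K A A]

theorem derS_aS (δ : A →ₗ[K] A) (X : sl3 K) (x : sl3 K ⊗[K] A) :
    derS K A δ (aS K A X x) = aS K A X (derS K A δ x) := by
  induction x using TensorProduct.induction_on with
  | zero => simp
  | add x x' hx hx' => simp only [map_add, hx, hx']
  | tmul Z p => simp only [aS_tmul, derS_tmul]

/-- The identification of `ABG(A)` with the product. -/
def prodE : ((sl3 K ⊗[K] A) × BB K A) ≃ₗ[K] ABG K A where
  toFun x := x
  invFun x := x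
  map_add' _ _ := rfl
  map_smul' _ _ := rfl
  left_inv _ := rfl
  right_inv _ := rfl

variable {A} {κA κB : Type} (bA : Basis κA K A) (bB : Basis κB K (BB K A))

/-- The basis of `ABG(A)`. -/
noncomputable def bL : Basis ((Fin 8 × κA) ⊕ κB) K (ABG K A) :=
  ((((slB K).tensorProduct bA).prod bB)).map (prodE K A)

theorem bL_inl_fst (i : Fin 8) (k : κA) : (bL K bA bB (Sum.inl (i, k))).1 = slV K i ⊗ₜ bA k := by
  rw [bL, Basis.map_apply]
  show ((((slB K).tensorProduct bA).prod bB) (Sum.inl (i, k))).1 = _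
  rw [Basis.prod_apply_inl_fst, Basis.tensorProduct_apply, slB_apply]

theorem bL_inl_snd (i : Fin 8) (k : κA) : (bL K bA bB (Sum.inl (i, k))).2 = 0 := by
  rw [bL, Basis.map_apply]
  show ((((slB K).tensorProduct bA).prod bB) (Sum.inl (i, k))).2 = _
  rw [Basis.prod_apply_inl_snd]

theorem bL_inr_fst (k : κB) : (bL K bA bB (Sum.inr k)).1 = 0 := by
  rw [bL, Basis.map_apply]
  show ((((slB K).tensorProduct bA).prod bB) (Sum.inr k)).1 = _
  rw [Basis.prod_apply_inr_fst]

theorem bL_inr_snd (k : κB) : (bL K bA bB (Sum.inr k)).2 = bB k := by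
  rw [bL, Basis.map_apply]
  show ((((slB K).tensorProduct bA).prod bB) (Sum.inr k)).2 = _
  rw [Basis.prod_apply_inr_snd]

variable [AltRing A] (δ : A →ₗ[K] A) (hδ : ∀ x y, δ (x * y) = δ x * y + x * δ y)
  (dA : κA → ℕ) (dB : κB → ℕ) (hA : ∀ k, δ (bA k) = (dA k : ℤ) • bA k)
  (hB : ∀ k, derB K A δ hδ (bB k) = (dB k : ℤ) • bB k)
  (pA : ∀ k, 1 ≤ dA k) (pB : ∀ k, 1 ≤ dB k)
  (fA : ∀ d, {k | dA k = d}.Finite) (fB : ∀ d, {k | dB k = d}.Finite)

/-- Root coordinates of the basis. -/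
def rtI (κA κB : Type) : (Fin 8 × κA) ⊕ κB → ℤ × ℤ := Sum.elim (fun x => slR x.1) (fun _ => 0)

/-- The graded structure. -/
noncomputable def gr [LinearOrder ((Fin 8 × κA) ⊕ κB)] :
    Gr K (ABG K A) ((Fin 8 × κA) ⊕ κB) where
  b := bL K bA bB
  deg := Sum.elim (fun x => dA x.2) dB
  wt := fun i => r2w (rtI κA κB i)
  E := derL K A δ hδ
  rho := slDer K A
  hE := by
    rintro (⟨i, k⟩ | k)
    · apply ABG.ext
      · rw [derL_fst, bL_inl_fst, derS_tmul, hA, ← Int.cast_smul_eq_zsmul K,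
          TensorProduct.tmul_smul, ← Int.cast_smul_eq_zsmul K, ABG.smul_fst, bL_inl_fst]
        rfl
      · rw [derL_snd, bL_inl_snd, map_zero, ← Int.cast_smul_eq_zsmul K, ABG.smul_snd, bL_inl_snd,
          smul_zero]
    · apply ABG.ext
      · rw [derL_fst, bL_inr_fst, map_zero, ← Int.cast_smul_eq_zsmul K, ABG.smul_fst, bL_inr_fst,
          smul_zero]
      · rw [derL_snd, bL_inr_snd, hB, ← Int.cast_smul_eq_zsmul K, ← Int.cast_smul_eq_zsmul K,
          ABG.smul_snd, bL_inr_snd]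
        rfl
  hadd X Y x := by
    apply ABG.ext
    · rw [slDer_fst, ABG.add_fst, slDer_fst, slDer_fst, aS_add]; rfl
    · rw [slDer_snd, ABG.add_snd, slDer_snd, slDer_snd, add_zero]
  hsmul c X x := by
    apply ABG.ext
    · rw [slDer_fst, ABG.smul_fst, slDer_fst, aS_smul]; rfl
    · rw [slDer_snd, ABG.smul_snd, slDer_snd, smul_zero]
  hbr X Y x := by
    apply ABG.ext
    · rw [slDer_fst, ABG.sub_fst, slDer_fst, slDer_fst, slDer_fst, slDer_fst, aS_br]
    · rw [slDer_snd, ABG.sub_snd, slDer_snd, slDer_snd, sub_zero]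
  hErho X x := by
    apply ABG.ext
    · rw [derL_fst, slDer_fst, slDer_fst, derL_fst, derS_aS]
    · rw [derL_snd, slDer_snd, slDer_snd, map_zero]
  hh1 := by
    rintro (⟨i, k⟩ | k)
    · apply ABG.ext
      · rw [slDer_fst, bL_inl_fst, aS_tmul, br_H1, ← Int.cast_smul_eq_zsmul K,
          ← TensorProduct.smul_tmul', ← Int.cast_smul_eq_zsmul K, ABG.smul_fst, bL_inl_fst]
        rfl
      · rw [slDer_snd, ← Int.cast_smul_eq_zsmul K, ABG.smul_snd, bL_inl_snd, smul_zero]
    · apply ABG.ext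
      · rw [slDer_fst, bL_inr_fst, map_zero, ← Int.cast_smul_eq_zsmul K, ABG.smul_fst, bL_inr_fst,
          smul_zero]
      · rw [slDer_snd]
        show (0 : BB K A) = (((0 : ℤ)) • bL K bA bB (Sum.inr k)).2
        rw [zero_smul]; rfl
  hh2 := by
    rintro (⟨i, k⟩ | k)
    · apply ABG.ext
      · rw [slDer_fst, bL_inl_fst, aS_tmul, br_H2, ← Int.cast_smul_eq_zsmul K,
          ← TensorProduct.smul_tmul', ← Int.cast_smul_eq_zsmul K, ABG.smul_fst, bL_inl_fst]
        rfl
      · rw [slDer_snd, ← Int.cast_smul_eq_zsmul K, ABG.smul_snd, bL_inl_snd, smul_zero]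
    · apply ABG.ext
      · rw [slDer_fst, bL_inr_fst, map_zero, ← Int.cast_smul_eq_zsmul K, ABG.smul_fst, bL_inr_fst,
          smul_zero]
      · rw [slDer_snd]
        show (0 : BB K A) = (((0 : ℤ)) • bL K bA bB (Sum.inr k)).2
        rw [zero_smul]; rfl
  hpos := by
    rintro (⟨i, k⟩ | k)
    · exact pA k
    · exact pB k
  hfin d := by
    have h : {i : (Fin 8 × κA) ⊕ κB | Sum.elim (fun x => dA x.2) dB i = d} ⊆
        Sum.inl '' ((Set.univ : Set (Fin 8)) ×ˢ {k | dA k = d}) ∪ Sum.inr '' {k | dB k = d} := by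
      rintro (⟨i, k⟩ | k) hk
      · exact Or.inl ⟨(i, k), ⟨trivial, hk⟩, rfl⟩
      · exact Or.inr ⟨k, hk, rfl⟩
    exact Set.Finite.subset (((Set.finite_univ.prod (fA d)).image _).union ((fB d).image _)) h

end gen

end Pool.Agent.N4.Abg
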