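import Pool.Agent.N4.Abg.Defs

open scoped TensorProduct

namespace Pool.Agent.N4.Abg

attribute [local instance 100] LieRing.ofAssociativeRing

section
variable (K : Type*) [Field K] [CharZero K] (A : Type*) [NonUnitalNonAssocRing A] [Module K A]
  [IsScalarTower K A A] [SMulCommClass K A A]

omit [CharZero K] in
theorem trace_comm (X Y : sl3 K) : Matrix.trace (Y.val * X.val) = Matrix.trace (X.val * Y.val) :=
  Matrix.trace_mul_comm _ _

theorem anti_val (X Y : sl3 K) : (anti K X Y).val = (2 : K)⁻¹ • (X.val * Y.val + Y.val * X.val)
      - (3 : K)⁻¹ • Matrix.trace (X.val * Y.val) • (1 : Matrix (Fin 3) (Fin 3) K) := rfl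

theorem anti_symm (X Y : sl3 K) : anti K Y X = anti K X Y := by
  ext1
  rw [anti_val, anti_val, trace_comm, add_comm]

theorem ssS_skew (x y : sl3 K ⊗[K] A) : ssS K A y x = - ssS K A x y := by
  induction x using TensorProduct.induction_on with
  | zero => simp
  | add x x' hx hx' => simp only [map_add, LinearMap.add_apply, hx, hx']; abel
  | tmul X p =>
    induction y using TensorProduct.induction_on with
    | zero => simp
    | add y y' hx hx' => simp only [map_add, LinearMap.add_apply, hx, hx']; abel
    | tmul Y q =>
      rw [ssS_tmul, ssS_tmul, anti_symm, ← lie_skew X Y, TensorProduct.neg_tmul, neg_add, neg_neg,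
        ← TensorProduct.tmul_neg, neg_sub, add_comm (p * q)]

omit [CharZero K] [IsScalarTower K A A] [SMulCommClass K A A] in
theorem ssB_skew (x y : sl3 K ⊗[K] A) : ssB K A y x = - ssB K A x y := by
  induction x using TensorProduct.induction_on with
  | zero => simp
  | add x x' hx hx' => simp only [map_add, LinearMap.add_apply, hx, hx']; abel
  | tmul X p =>
    induction y using TensorProduct.induction_on with
    | zero => simp
    | add y y' hx hx' => simp only [map_add, LinearMap.add_apply, hx, hx']; abel
    | tmul Y q =>
      rw [ssB_tmul, ssB_tmul, trace_comm, wedge_swap K A p q]; simp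

variable [AltRing A]

theorem actS_ssS (β : BB K A) (x y : sl3 K ⊗[K] A) :
    actS K A β (ssS K A x y) = ssS K A (actS K A β x) y + ssS K A x (actS K A β y) := by
  induction x using TensorProduct.induction_on with
  | zero => simp
  | add x x' hx hx' => simp only [map_add, LinearMap.add_apply, hx, hx']; abel
  | tmul X p =>
    induction y using TensorProduct.induction_on with
    | zero => simp
    | add y y' hx hx' => simp only [map_add, hx, hx']; abel
    | tmul Y q =>
      simp only [ssS_tmul, actS_tmul, map_smul, map_add, map_sub, Dbar_mul,
        TensorProduct.tmul_add, TensorProduct.tmul_sub, TensorProduct.tmul_smul, smul_add]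
      abel

omit [CharZero K] in
theorem actB_ssB (β : BB K A) (x y : sl3 K ⊗[K] A) :
    actB K A β (ssB K A x y) = ssB K A (actS K A β x) y + ssB K A x (actS K A β y) := by
  induction x using TensorProduct.induction_on with
  | zero => simp
  | add x x' hx hx' => simp only [map_add, LinearMap.add_apply, hx, hx']; abel
  | tmul X p =>
    induction y using TensorProduct.induction_on with
    | zero => simp
    | add y y' hx hx' => simp only [map_add, hx, hx']; abel
    | tmul Y q =>
      simp only [ssB_tmul, actS_tmul, map_smul, actB_wedge, smul_add]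

omit [CharZero K] in
/-- `D_{β·γ} = [D_β, D_γ]`. -/
theorem Dbar_actB (β γ : BB K A) (r : A) : Dbar K A (actB K A β γ) r =
    Dbar K A β (Dbar K A γ r) - Dbar K A γ (Dbar K A β r) := by
  induction γ using BB.induction with
  | h0 => simp
  | ha x y hx hy => simp only [map_add, LinearMap.add_apply, hx, hy]; abel
  | hw p q =>
    rw [actB_wedge, map_add, Dbar_wedge, Dbar_wedge, Dbar_wedge, LinearMap.add_apply]
    have h := deriv_dd (Dbar K A β).toAddMonoidHom (Dbar_mul K A β) p q r
    simp only [LinearMap.toAddMonoidHom_coe] at h
    simp only [Dmap_eq, h]; abel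

omit [CharZero K] in
theorem actS_actB (β γ : BB K A) (x : sl3 K ⊗[K] A) : actS K A (actB K A β γ) x =
    actS K A β (actS K A γ x) - actS K A γ (actS K A β x) := by
  induction x using TensorProduct.induction_on with
  | zero => simp
  | add x x' hx hx' => simp only [map_add, hx, hx']; abel
  | tmul X p => simp only [actS_tmul, Dbar_actB, TensorProduct.tmul_sub]

omit [CharZero K] in
theorem actB_actB (β γ δ : BB K A) : actB K A (actB K A β γ) δ =
    actB K A β (actB K A γ δ) - actB K A γ (actB K A β δ) := by
  induction δ using BB.induction with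
  | h0 => simp
  | ha x y hx hy => simp only [map_add, hx, hy]; abel
  | hw p q => simp only [actB_wedge, Dbar_actB, map_sub, map_add, LinearMap.sub_apply]; abel

omit [CharZero K] in
omit [IsScalarTower K A A] [SMulCommClass K A A] [AltRing A] in
theorem wedge_cm (u v w : A) : wedge K A (cm u v) w + wedge K A (cm v w) u + wedge K A (cm w u) v
    = 0 := by
  have h1 := wedge_cyc K A u v w
  have h2 := wedge_cyc K A v u w
  simp only [cm, map_sub, LinearMap.sub_apply]
  have : ∀ a b : BB K A, a = 0 → b = 0 → a - b = 0 := by rintro _ _ rfl rfl; simp
  rw [← this _ _ h1 h2]; abel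

omit [CharZero K] in
omit [IsScalarTower K A A] [SMulCommClass K A A] in
theorem wedge_as (p q r s : A) : wedge K A (as p q r) s - wedge K A (as p q s) r
    + wedge K A (as r s p) q - wedge K A (as r s q) p = 0 := by
  have c1 := wedge_cyc K A (r * s) p q
  have c2 := wedge_cyc K A (p * q) r s
  have c3 := wedge_cyc K A (s * p) q r
  have c4 := wedge_cyc K A (q * r) s p
  have a1 := congrArg (fun t => wedge K A t r) (altL p s q)
  have a2 := congrArg (fun t => wedge K A t r) (altR p q s)
  have a3 := congrArg (fun t => wedge K A t p) (altR r q s)
  have a4 := congrArg (fun t => wedge K A t p) (altL q r s)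
  simp only [map_zero, LinearMap.zero_apply] at a1 a2 a3 a4
  have key : wedge K A (as p q r) s - wedge K A (as p q s) r
      + wedge K A (as r s p) q - wedge K A (as r s q) p =
      (wedge K A (r * s * p) q + wedge K A (p * q) (r * s) + wedge K A (q * (r * s)) p)
      + (wedge K A (p * q * r) s + wedge K A (r * s) (p * q) + wedge K A (s * (p * q)) r)
      - (wedge K A (s * p * q) r + wedge K A (q * r) (s * p) + wedge K A (r * (s * p)) q)
      - (wedge K A (q * r * s) p + wedge K A (s * p) (q * r) + wedge K A (p * (q * r)) s)
      + wedge K A (as p s q + as s p q) r - wedge K A (as p q s + as p s q) r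
      - wedge K A (as r q s + as r s q) p + wedge K A (as q r s + as r q s) p := by
    rw [wedge_swap K A (p * q) (r * s), wedge_swap K A (q * r) (s * p)]
    simp only [as, map_sub, LinearMap.sub_apply, map_add, LinearMap.add_apply]
    abel
  rw [key, c1, c2, c3, c4, a1, a2, a3, a4]
  simp

omit [CharZero K] in
theorem actB_skew (β γ : BB K A) : actB K A γ β = - actB K A β γ := by
  induction β using BB.induction with
  | h0 => simp
  | ha x y hx hy => simp only [map_add, LinearMap.add_apply, hx, hy]; abel
  | hw p q =>
    induction γ using BB.induction with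
    | h0 => simp
    | ha x y hx hy => simp only [map_add, LinearMap.add_apply, hx, hy]; abel
    | hw r s =>
      rw [actB_wedge, actB_wedge, Dbar_wedge, Dbar_wedge]
      simp only [Dmap_eq, dd]
      have h1 := wedge_cm K A (cm p q) r s
      have h2 := wedge_cm K A (cm r s) p q
      have h3 := wedge_as K A p q r s
      have h4 := wedge_swap K A (cm p q) (cm r s)
      rw [← sub_eq_zero]
      have key : wedge K A (cm (cm r s) p - (3:ℤ) • as r s p) q
          + wedge K A p (cm (cm r s) q - (3:ℤ) • as r s q)
          - -(wedge K A (cm (cm p q) r - (3:ℤ) • as p q r) s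
            + wedge K A r (cm (cm p q) s - (3:ℤ) • as p q s)) =
          (wedge K A (cm (cm p q) r) s + wedge K A (cm r s) (cm p q)
            + wedge K A (cm s (cm p q)) r)
          + (wedge K A (cm (cm r s) p) q + wedge K A (cm p q) (cm r s)
            + wedge K A (cm q (cm r s)) p)
          - (3:ℤ) • (wedge K A (as p q r) s - wedge K A (as p q s) r
              + wedge K A (as r s p) q - wedge K A (as r s q) p) := by
        rw [h4, wedge_swap K A (cm (cm r s) q - (3:ℤ) • as r s q) p,
          wedge_swap K A (cm (cm p q) s - (3:ℤ) • as p q s) r]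
        simp only [cm, map_sub, LinearMap.sub_apply, map_zsmul, LinearMap.smul_apply, smul_sub,
          smul_add]
        abel
      rw [key, h1, h2, h3]; simp

end

end Pool.Agent.N4.Abg
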