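import Pool.Agent.N4.Abg.Jac

open scoped TensorProduct

namespace Pool.Agent.N4.Abg

attribute [local instance 100] LieRing.ofAssociativeRing

abbrev M3 (K : Type*) := Matrix (Fin 3) (Fin 3) K

/-- Polarised Cayley-Hamilton for traceless 3 by 3 matrices. -/
theorem cayley {K : Type*} [Field K] (X Y Z : M3 K) (hX : X.trace = 0) (hY : Y.trace = 0)
    (hZ : Z.trace = 0) :
    X * Y * Z + Y * Z * X + Z * X * Y + X * Z * Y + Z * Y * X + Y * X * Z =
    (X * Y).trace • Z + (Y * Z).trace • X + (X * Z).trace • Y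
      + ((X * Y * Z).trace + (X * Z * Y).trace) • (1 : M3 K) := by
  rw [Matrix.trace_fin_three] at hX hY hZ
  have eX : X 2 2 = - X 0 0 - X 1 1 := by linear_combination hX
  have eY : Y 2 2 = - Y 0 0 - Y 1 1 := by linear_combination hY
  have eZ : Z 2 2 = - Z 0 0 - Z 1 1 := by linear_combination hZ
  ext i j
  fin_cases i <;> fin_cases j <;>
  · simp only [Matrix.add_apply, Matrix.mul_apply, Matrix.smul_apply, Matrix.trace_fin_three,
      Fin.sum_univ_three, smul_eq_mul, Matrix.one_apply, Fin.zero_eta, Fin.mk_one, Fin.reduceFinMk,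
      Fin.isValue, eX, eY, eZ]
    simp
    ring


section
variable (K : Type*) [Field K] [CharZero K] (A : Type*) [NonUnitalNonAssocRing A] [Module K A]
  [IsScalarTower K A A] [SMulCommClass K A A]

/-- The inclusion `𝔰𝔩₃ ⊗ A → M₃ ⊗ A`. -/
noncomputable def jM : (sl3 K ⊗[K] A) →ₗ[K] (M3 K ⊗[K] A) :=
  LinearMap.rTensor A (sl3 K).toSubmodule.subtype

omit [CharZero K] [IsScalarTower K A A] [SMulCommClass K A A] in
theorem jM_inj : Function.Injective (jM K A) :=
  Module.Flat.rTensor_preserves_injective_linearMap _ (Submodule.subtype_injective _)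

omit [CharZero K] [IsScalarTower K A A] [SMulCommClass K A A] in
theorem jM_tmul (X : sl3 K) (p : A) : jM K A (X ⊗ₜ p) = X.val ⊗ₜ p := rfl

variable [AltRing A]

theorem jac_S (X Y Z : sl3 K) (p q r : A) :
    ssS K A (X ⊗ₜ p) (ssS K A (Y ⊗ₜ q) (Z ⊗ₜ r)) - actS K A (ssB K A (Y ⊗ₜ q) (Z ⊗ₜ r)) (X ⊗ₜ p) =
    ssS K A (ssS K A (X ⊗ₜ p) (Y ⊗ₜ q)) (Z ⊗ₜ r) + actS K A (ssB K A (X ⊗ₜ p) (Y ⊗ₜ q)) (Z ⊗ₜ r)
    + (ssS K A (Y ⊗ₜ q) (ssS K A (X ⊗ₜ p) (Z ⊗ₜ r))
      - actS K A (ssB K A (X ⊗ₜ p) (Z ⊗ₜ r)) (Y ⊗ₜ q)) := by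
  apply jM_inj
  have hX : X.val.trace = 0 := X.2
  have hY : Y.val.trace = 0 := Y.2
  have hZ : Z.val.trace = 0 := Z.2
  have ch := congrArg (fun m => m ⊗ₜ[K] as p q r) (cayley X.val Y.val Z.val hX hY hZ)
  have t1 : (Y.val * Z.val * X.val).trace = (X.val * Y.val * Z.val).trace := by
    rw [Matrix.trace_mul_comm, Matrix.mul_assoc]
  have t2 : (Z.val * X.val * Y.val).trace = (X.val * Y.val * Z.val).trace := by
    rw [Matrix.mul_assoc, Matrix.trace_mul_comm]
  have t3 : (Z.val * Y.val * X.val).trace = (X.val * Z.val * Y.val).trace := by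
    rw [Matrix.trace_mul_comm, Matrix.mul_assoc]
  have t4 : (Y.val * X.val * Z.val).trace = (X.val * Z.val * Y.val).trace := by
    rw [Matrix.mul_assoc, Matrix.trace_mul_comm]
  have u1 : (Y.val * X.val).trace = (X.val * Y.val).trace := Matrix.trace_mul_comm _ _
  have u2 : (Z.val * X.val).trace = (X.val * Z.val).trace := Matrix.trace_mul_comm _ _
  have u3 : (Z.val * Y.val).trace = (Y.val * Z.val).trace := Matrix.trace_mul_comm _ _
  have n1 : p * (q * r) = p * q * r - as p q r := by simp [as]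
  have n2 : q * (r * p) = q * r * p - as p q r := by rw [← as_cyc p q r]; simp [as]
  have n3 : r * (p * q) = r * p * q - as p q r := by
    rw [← as_cyc p q r, ← as_cyc q r p]; simp [as]
  have n4 : q * (p * r) = q * p * r + as p q r := by
    rw [← neg_neg (as p q r), ← as_swap12 p q r]; simp [as]
  have n5 : p * (r * q) = p * r * q + as p q r := by
    rw [← neg_neg (as p q r), ← as_swap23 p q r]; simp [as]
  have n6 : r * (q * p) = r * q * p + as p q r := by
    rw [← as_cyc p q r, ← neg_neg (as q r p), ← as_swap12 q r p]; simp [as]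
  simp only [ssS_tmul, ssB_tmul, map_add, map_sub, map_smul, LinearMap.add_apply,
    LinearMap.sub_apply, LinearMap.smul_apply, actS_tmul, Dbar_wedge, Dmap_eq, jM_tmul, anti_val,
    LieAlgebra.SpecialLinear.sl_bracket, dd, cm]
  simp only [mul_add, add_mul, mul_sub, sub_mul, smul_mul_assoc, mul_smul_comm, Matrix.mul_one,
    Matrix.one_mul, Matrix.trace_add, Matrix.trace_sub, Matrix.trace_smul, hX, hY, hZ,
    ← Matrix.mul_assoc]
  have m1 : as q r p = as p q r := as_cyc p q r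
  have m2 : as p r q = - as p q r := as_swap23 p q r
  simp only [n1, n2, n3, n4, n5, n6, t1, t4, m1, m2, smul_neg, TensorProduct.tmul_neg,
    TensorProduct.add_tmul,
    TensorProduct.tmul_add, TensorProduct.sub_tmul, TensorProduct.tmul_sub,
    TensorProduct.tmul_smul, ← TensorProduct.smul_tmul', smul_add, smul_sub] at ch ⊢
  rw [← sub_eq_zero] at ch ⊢
  linear_combination (norm := module) (-1 : K) • ch

omit [AltRing A] in
theorem jac_B (X Y Z : sl3 K) (p q r : A) :
    ssB K A (X ⊗ₜ p) (ssS K A (Y ⊗ₜ q) (Z ⊗ₜ r)) =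
    ssB K A (ssS K A (X ⊗ₜ p) (Y ⊗ₜ q)) (Z ⊗ₜ r)
    + ssB K A (Y ⊗ₜ q) (ssS K A (X ⊗ₜ p) (Z ⊗ₜ r)) := by
  have hX : X.val.trace = 0 := X.2
  have hY : Y.val.trace = 0 := Y.2
  have hZ : Z.val.trace = 0 := Z.2
  have t1 : (Y.val * Z.val * X.val).trace = (X.val * Y.val * Z.val).trace := by
    rw [Matrix.trace_mul_comm, Matrix.mul_assoc]
  have t2 : (Z.val * X.val * Y.val).trace = (X.val * Y.val * Z.val).trace := by
    rw [Matrix.mul_assoc, Matrix.trace_mul_comm]
  have t3 : (Z.val * Y.val * X.val).trace = (X.val * Z.val * Y.val).trace := by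
    rw [Matrix.trace_mul_comm, Matrix.mul_assoc]
  have t4 : (Y.val * X.val * Z.val).trace = (X.val * Z.val * Y.val).trace := by
    rw [Matrix.mul_assoc, Matrix.trace_mul_comm]
  have c1 := wedge_cyc K A p q r
  have c2 := wedge_cyc K A q p r
  have w1 := wedge_swap K A (q * r) p
  have w2 := wedge_swap K A (r * q) p
  have w3 := wedge_swap K A (p * r) q
  have w4 := wedge_swap K A (r * p) q
  simp only [ssS_tmul, ssB_tmul, map_add, map_sub, map_smul, LinearMap.add_apply,
    LinearMap.sub_apply, LinearMap.smul_apply, anti_val,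
    LieAlgebra.SpecialLinear.sl_bracket]
  simp only [mul_add, add_mul, mul_sub, sub_mul, smul_mul_assoc, mul_smul_comm, Matrix.mul_one,
    Matrix.one_mul, Matrix.trace_add, Matrix.trace_sub, Matrix.trace_smul, hX, hY, hZ,
    ← Matrix.mul_assoc, t1, t2, t3, t4, w1, w2, w3, w4]
  linear_combination (norm := module)
    (-(3 : K)⁻¹ * (X.val * Y.val * Z.val).trace) • c1
    + ((3 : K)⁻¹ * (X.val * Z.val * Y.val).trace) • c2
end

end Pool.Agent.N4.Abg
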