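import Pool.Agent.N4.Abg.Jac2

open scoped TensorProduct

namespace Pool.Agent.N4.Abg

attribute [local instance 100] LieRing.ofAssociativeRing

section
variable (K : Type*) [Field K] [CharZero K] (A : Type*) [NonUnitalNonAssocRing A] [Module K A]
  [IsScalarTower K A A] [SMulCommClass K A A] [AltRing A]

theorem jac_S' (x y z : sl3 K ⊗[K] A) :
    ssS K A x (ssS K A y z) - actS K A (ssB K A y z) x =
    ssS K A (ssS K A x y) z + actS K A (ssB K A x y) z
    + (ssS K A y (ssS K A x z) - actS K A (ssB K A x z) y) := by
  induction x using TensorProduct.induction_on with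
  | zero => simp
  | add x x' hx hx' =>
    simp only [map_add, LinearMap.add_apply]
    linear_combination (norm := abel) hx + hx'
  | tmul X p =>
    induction y using TensorProduct.induction_on with
    | zero => simp
    | add x x' hx hx' =>
      simp only [map_add, LinearMap.add_apply]
      linear_combination (norm := abel) hx + hx'
    | tmul Y q =>
      induction z using TensorProduct.induction_on with
      | zero => simp
      | add x x' hx hx' =>
        simp only [map_add, LinearMap.add_apply]
        linear_combination (norm := abel) hx + hx'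
      | tmul Z r => exact jac_S K A X Y Z p q r

omit [AltRing A] in
theorem jac_B' (x y z : sl3 K ⊗[K] A) :
    ssB K A x (ssS K A y z) = ssB K A (ssS K A x y) z + ssB K A y (ssS K A x z) := by
  induction x using TensorProduct.induction_on with
  | zero => simp
  | add x x' hx hx' => simp only [map_add, LinearMap.add_apply, hx, hx']; abel
  | tmul X p =>
    induction y using TensorProduct.induction_on with
    | zero => simp
    | add x x' hx hx' => simp only [map_add, LinearMap.add_apply, hx, hx']; abel
    | tmul Y q =>
      induction z using TensorProduct.induction_on with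
      | zero => simp
      | add x x' hx hx' => simp only [map_add, hx, hx']; abel
      | tmul Z r => exact jac_B K A X Y Z p q r

theorem eq_zero_of_eq_neg {K M : Type*} [Field K] [CharZero K] [AddCommGroup M] [Module K M]
    {t : M} (h : t = - t) : t = 0 := by
  have h2 : (2 : K) • t = 0 := by
    rw [two_smul]; nth_rewrite 1 [h]; simp
  exact (smul_eq_zero.mp h2).resolve_left two_ne_zero

theorem ssS_self (x : sl3 K ⊗[K] A) : ssS K A x x = 0 := by
  have h := ssS_skew K A x x
  exact eq_zero_of_eq_neg (K := K) h

theorem ssB_self (x : sl3 K ⊗[K] A) : ssB K A x x = 0 := by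
  have h := ssB_skew K A x x
  exact eq_zero_of_eq_neg (K := K) h

theorem actB_self (x : BB K A) : actB K A x x = 0 := by
  have h := actB_skew K A x x
  exact eq_zero_of_eq_neg (K := K) h

variable {K A}

theorem lie_fst (u v : ABG K A) :
    (⁅u, v⁆ : ABG K A).1 = ssS K A u.1 v.1 + actS K A u.2 v.1 - actS K A v.2 u.1 := rfl

theorem lie_snd (u v : ABG K A) :
    (⁅u, v⁆ : ABG K A).2 = ssB K A u.1 v.1 + actB K A u.2 v.2 := rfl

theorem ABG.add_fst (u v : ABG K A) : (u + v).1 = u.1 + v.1 := rfl
theorem ABG.add_snd (u v : ABG K A) : (u + v).2 = u.2 + v.2 := rfl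
theorem ABG.smul_fst (c : K) (v : ABG K A) : (c • v).1 = c • v.1 := rfl
theorem ABG.smul_snd (c : K) (v : ABG K A) : (c • v).2 = c • v.2 := rfl
theorem ABG.zero_fst : (0 : ABG K A).1 = 0 := rfl
theorem ABG.zero_snd : (0 : ABG K A).2 = 0 := rfl

theorem ABG.ext {u v : ABG K A} (h1 : u.1 = v.1) (h2 : u.2 = v.2) : u = v := Prod.ext h1 h2

noncomputable instance : LieRing (ABG K A) where
  add_lie x y z := by
    apply ABG.ext
    · simp only [lie_fst, ABG.add_fst, ABG.add_snd, map_add, LinearMap.add_apply]; abel
    · simp only [lie_snd, ABG.add_fst, ABG.add_snd, map_add, LinearMap.add_apply]; abel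
  lie_add x y z := by
    apply ABG.ext
    · simp only [lie_fst, ABG.add_fst, ABG.add_snd, map_add, LinearMap.add_apply]; abel
    · simp only [lie_snd, ABG.add_fst, ABG.add_snd, map_add]; abel
  lie_self x := by
    apply ABG.ext
    · simp only [lie_fst, ssS_self, ABG.zero_fst]; abel
    · simp only [lie_snd, ssB_self, actB_self, ABG.zero_snd]; abel
  leibniz_lie x y z := by
    apply ABG.ext
    · simp only [lie_fst, lie_snd, ABG.add_fst, ABG.add_snd, map_add, map_sub,
        LinearMap.add_apply, LinearMap.sub_apply, actS_ssS, actS_actB]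
      have h := jac_S' K A x.1 y.1 z.1
      have h2 := ssS_skew K A (actS K A z.2 x.1) y.1
      linear_combination (norm := abel) h + h2
    · simp only [lie_fst, lie_snd, ABG.add_fst, ABG.add_snd, map_add, map_sub,
        LinearMap.add_apply, LinearMap.sub_apply, actB_ssB, actB_actB]
      have h := jac_B' K A x.1 y.1 z.1
      have h3 := actB_skew K A z.2 (ssB K A x.1 y.1)
      have h4 := actB_ssB K A z.2 x.1 y.1
      have h5 := ssB_skew K A (actS K A z.2 x.1) y.1
      linear_combination (norm := abel) h - h3 + h4 + h5

noncomputable instance : LieAlgebra K (ABG K A) where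
  lie_smul c x y := by
    apply ABG.ext
    · simp only [lie_fst, ABG.smul_fst, ABG.smul_snd, map_smul, LinearMap.smul_apply, smul_add,
        smul_sub]
    · simp only [lie_snd, ABG.smul_fst, ABG.smul_snd, map_smul, smul_add]

end

end Pool.Agent.N4.Abg
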