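import Pool.Agent.N4.Abg.Univ
import Pool.Agent.N4.Abg.Fin2

/-! Existence of models, and the theorem for all models. -/

set_option linter.unusedSectionVars false

open scoped TensorProduct

namespace Pool.Agent.N4.Abg

open Module

attribute [local instance 100] LieRing.ofAssociativeRing

section
variable (K : Type*) [Field K] [CharZero K] (A : Type*) [NonUnitalNonAssocRing A] [Module K A]
  [IsScalarTower K A A] [SMulCommClass K A A] [AltRing A]

theorem abg_isABG : IsABG (K := K) (A := A) (L := ABG K A) (mE K A).toLinearMap where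
  bij := (mE K A).bijective
  sl_sl X Y p q := by
    simp only [LinearEquiv.coe_coe]
    rw [map_add, map_add, map_smul, mE_tS, mE_tS, mE_tS, mE_tS, mE_wS]
    apply ABG.ext
    · rw [lie_fst, ABG.add_fst, ABG.add_fst, ABG.smul_fst]
      simp only [sEl_fst, sEl_snd, bEl_fst, ssS_tmul, map_zero, LinearMap.zero_apply, add_zero,
        sub_zero, smul_zero, kap_br, kap_an, one_div]
    · rw [lie_snd, ABG.add_snd, ABG.add_snd, ABG.smul_snd]
      simp only [sEl_fst, sEl_snd, bEl_snd, ssB_tmul, map_zero, add_zero, zero_add, kap_val,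
        one_div, smul_smul]
  b_sl p q r X := by
    simp only [LinearEquiv.coe_coe]
    rw [mE_tS, mE_tS, mE_wS]
    apply ABG.ext
    · rw [lie_fst, sEl_fst, sEl_fst, sEl_snd, bEl_fst, bEl_snd]
      simp only [map_zero, LinearMap.zero_apply, zero_add, sub_zero, DD_eq, actS_tmul]
    · rw [lie_snd, sEl_fst, sEl_snd, sEl_snd, bEl_fst, bEl_snd]
      simp only [map_zero, LinearMap.zero_apply, add_zero]
  b_b p q r s := by
    simp only [LinearEquiv.coe_coe]
    rw [map_add, mE_wS, mE_wS, mE_wS, mE_wS]
    apply ABG.ext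
    · rw [lie_fst, ABG.add_fst]
      simp only [bEl_fst, bEl_snd, map_zero, add_zero, sub_zero]
    · rw [lie_snd, ABG.add_snd]
      simp only [bEl_fst, bEl_snd, map_zero, zero_add, DD_eq, actB_wedge]

end

universe u

theorem exists_model (K : Type u) [Field K] [CharZero K] : Nonempty (FreeABG K) :=
  ⟨{ V := Fin 3 →₀ K
     A := FreeAlt K (Fin 3)
     L := ABG K (FreeAlt K (Fin 3))
     i := Finsupp.linearCombination K (FreeAlt.of K (Fin 3))
     e := (mE K _).toLinearMap
     dim := by rw [finrank_finsupp_self, Fintype.card_fin]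
     free := freeAlt_isFree K (Fin 3)
     abg := abg_isABG K _ }⟩

theorem main_model {K V A L : Type u} [Field K] [CharZero K] [AddCommGroup V] [Module K V]
    [NonUnitalNonAssocRing A] [Module K A] [IsScalarTower K A A] [SMulCommClass K A A] [AltRing A]
    [LieRing L] [LieAlgebra K L] (hV : finrank K V = 3) (i : V →ₗ[K] A) (hA : IsFreeAlt K V A i)
    (e : MM K A →ₗ[K] L) (hL : IsABG e) :
    ∃ k : ℕ, 2 ≤ k ∧ k ≤ 10 ∧ (HasTrivial hL k ∨ HasAdjoint hL k) := by
  have hfin : FiniteDimensional K V := Module.finite_of_finrank_pos (by omega)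
  obtain ⟨W⟩ := wd_of_free i hA (finBasisOfFinrankEq K V hV)
  exact main hL W

end Pool.Agent.N4.Abg
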