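import Mathlib

/-! Sparse integer polynomials as lists, for kernel computation. -/

namespace Pool.Agent.N4.Num

/-- Merge of two sparse polynomials (lists of (exponent, coefficient)). -/
def mrg : ℕ → List (ℕ × ℤ) → List (ℕ × ℤ) → List (ℕ × ℤ)
  | 0, l, l' => l ++ l'
  | _ + 1, [], l' => l'
  | _ + 1, l, [] => l
  | n + 1, (e, c) :: l, (e', c') :: l' =>
    if e < e' then (e, c) :: mrg n l ((e', c') :: l')
    else if e' < e then (e', c') :: mrg n ((e, c) :: l) l'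
    else (e, c + c') :: mrg n l l'

/-- Multiply by `c X^s` and drop the terms with exponent at least `b`. -/
def shf (b s : ℕ) (c : ℤ) : List (ℕ × ℤ) → List (ℕ × ℤ)
  | [] => []
  | (e, x) :: l => if e + s < b then (e + s, c * x) :: shf b s c l else shf b s c l

/-- `∑_i c_i X^(e i) · P`, truncated, for the list of coefficients `c`. -/
def hor (b e : ℕ) (P : List (ℕ × ℤ)) : ℕ → List ℤ → List (ℕ × ℤ)
  | _, [] => []
  | s, c :: cs => mrg 4000 (shf b s c P) (hor b e P (s + e) cs)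

/-- `(-1)^m binom(a, m)` for `m = k, k+1, …` (`n` terms). -/
def bin (a : ℕ) : ℕ → ℕ → ℤ → List ℤ
  | 0, _, _ => []
  | n + 1, k, c => c :: bin a n (k + 1) (-(c * ((a : ℤ) - k)) / ((k : ℤ) + 1))

def T : ℕ := 441

/-- exponent of `t^j z^(x,y)`. -/
def en (j : ℕ) (x y : ℤ) : ℕ := 441 * j + (x + j).toNat + 21 * (y + j).toNat

def mulP (b j : ℕ) (e a : ℕ) (P : List (ℕ × ℤ)) : List (ℕ × ℤ) :=
  hor b e P 0 (bin a (b / (441 * j) + 1) 0 1)

def stp (b j a c : ℕ) (P : List (ℕ × ℤ)) : List (ℕ × ℤ) :=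
  mulP b j (en j 0 0) (2 * a + c) (mulP b j (en j 1 0) a (mulP b j (en j (-1) 0) a
    (mulP b j (en j 0 1) a (mulP b j (en j 0 (-1)) a (mulP b j (en j 1 1) a
      (mulP b j (en j (-1) (-1)) a P))))))

def lk (n : ℕ) : List (ℕ × ℤ) → ℤ
  | [] => 0
  | (e, c) :: l => if e = n then c + lk n l else lk n l

def th (P : List (ℕ × ℤ)) (d : ℕ) (x y : ℤ) : ℤ :=
  lk (en d x y) P - lk (en d (x + 1) y) P - lk (en d x (y + 1)) P + lk (en d (x + 2) (y + 1)) P
    + lk (en d (x + 1) (y + 2)) P - lk (en d (x + 2) (y + 2)) P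

def P1 (b : ℕ) := stp b 1 3 0 [(0, 1)]
def P2 (b : ℕ) := stp b 2 9 3 (P1 b)
def P3 (b : ℕ) := stp b 3 28 16 (P2 b)
def P4 (b : ℕ) := stp b 4 87 60 (P3 b)
def P5 (b : ℕ) := stp b 5 267 210 (P4 b)
def P6 (b : ℕ) := stp b 6 804 670 (P5 b)
def P7 (b : ℕ) := stp b 7 2373 2094 (P6 b)
def P8 (b : ℕ) := stp b 8 6891 6276 (P7 b)
def P9 (b : ℕ) := stp b 9 19818 18474 (P8 b)

end Pool.Agent.N4.Num
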