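import Pool.Agent.N4.Abg.Num

/-! Correctness of the computations with sparse polynomials. -/

namespace Pool.Agent.N4.Num

open Polynomial

/-- The polynomial of a list of (exponent, coefficient). -/
noncomputable def ev : List (ℕ × ℤ) → ℤ[X]
  | [] => 0
  | (e, c) :: l => monomial e c + ev l

theorem ev_nil : ev [] = 0 := rfl

theorem ev_cons (e : ℕ) (c : ℤ) (l : List (ℕ × ℤ)) : ev ((e, c) :: l) = monomial e c + ev l := rfl

theorem ev_append (l l' : List (ℕ × ℤ)) : ev (l ++ l') = ev l + ev l' := by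
  induction l with
  | nil => rw [List.nil_append, ev_nil, zero_add]
  | cons x l ih =>
    obtain ⟨e, c⟩ := x
    rw [List.cons_append, ev_cons, ev_cons, ih, add_assoc]

theorem ev_mrg (n : ℕ) (l l' : List (ℕ × ℤ)) : ev (mrg n l l') = ev l + ev l' := by
  induction n generalizing l l' with
  | zero => rw [mrg, ev_append]
  | succ n ih =>
    cases l with
    | nil => rw [mrg, ev_nil, zero_add]
    | cons x l =>
      obtain ⟨e, c⟩ := x
      cases l' with
      | nil => rw [mrg, ev_nil, add_zero]; simp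
      | cons y l' =>
        obtain ⟨e', c'⟩ := y
        rw [mrg]
        split_ifs with h1 h2
        · rw [ev_cons, ih, ev_cons, ev_cons]; ring
        · rw [ev_cons, ih, ev_cons, ev_cons]; ring
        · have : e = e' := by omega
          subst this
          rw [ev_cons, ih, ev_cons, ev_cons, map_add]; ring

/-- Congruence modulo `X^b`. -/
def Cg (b : ℕ) (F G : ℤ[X]) : Prop := (X ^ b : ℤ[X]) ∣ F - G

theorem Cg.refl (b : ℕ) (F : ℤ[X]) : Cg b F F := by rw [Cg, sub_self]; exact dvd_zero _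

theorem Cg.trans {b : ℕ} {F G H : ℤ[X]} (h : Cg b F G) (h' : Cg b G H) : Cg b F H := by
  have := dvd_add h h'
  rwa [sub_add_sub_cancel] at this

theorem Cg.add {b : ℕ} {F G F' G' : ℤ[X]} (h : Cg b F G) (h' : Cg b F' G') :
    Cg b (F + F') (G + G') := by
  have := dvd_add h h'
  rw [Cg]
  convert this using 1; ring

theorem Cg.mul_left {b : ℕ} {F G : ℤ[X]} (H : ℤ[X]) (h : Cg b F G) : Cg b (H * F) (H * G) := by
  rw [Cg, ← mul_sub]; exact Dvd.dvd.mul_left h H

theorem Cg.mul_right {b : ℕ} {F G : ℤ[X]} (H : ℤ[X]) (h : Cg b F G) : Cg b (F * H) (G * H) := by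
  rw [Cg, ← sub_mul]; exact Dvd.dvd.mul_right h H

theorem Cg.coeff {b : ℕ} {F G : ℤ[X]} (h : Cg b F G) {n : ℕ} (hn : n < b) :
    F.coeff n = G.coeff n := by
  have := X_pow_dvd_iff.1 h n hn
  rwa [coeff_sub, sub_eq_zero] at this

theorem Cg_of_dvd {b : ℕ} {F : ℤ[X]} (h : (X ^ b : ℤ[X]) ∣ F) : Cg b F 0 := by
  rwa [Cg, sub_zero]

theorem shf_spec (b s : ℕ) (c : ℤ) (P : List (ℕ × ℤ)) :
    Cg b (ev (shf b s c P)) (C c * X ^ s * ev P) := by
  induction P with
  | nil => rw [shf, ev_nil, mul_zero]; exact Cg.refl _ _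
  | cons x l ih =>
    obtain ⟨e, x⟩ := x
    rw [shf, ev_cons, mul_add]
    have h1 : C c * X ^ s * monomial e x = monomial (e + s) (c * x) := by
      rw [← C_mul_X_pow_eq_monomial, ← C_mul_X_pow_eq_monomial, map_mul, pow_add]; ring
    split_ifs with h
    · rw [ev_cons, h1]
      exact (Cg.refl _ _).add ih
    · rw [h1]
      have h2 : Cg b 0 (monomial (e + s) (c * x)) := by
        rw [Cg, zero_sub, dvd_neg, ← C_mul_X_pow_eq_monomial]
        exact Dvd.dvd.mul_left (pow_dvd_pow _ (by omega)) _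
      have := h2.add ih
      rwa [zero_add] at this

/-- The polynomial `∑ c_i X^(e i)`. -/
noncomputable def pol (e : ℕ) : List ℤ → ℤ[X]
  | [] => 0
  | c :: cs => C c + X ^ e * pol e cs

theorem hor_spec (b e : ℕ) (P : List (ℕ × ℤ)) (s : ℕ) (cs : List ℤ) :
    Cg b (ev (hor b e P s cs)) (X ^ s * pol e cs * ev P) := by
  induction cs generalizing s with
  | nil => rw [hor, pol, ev_nil, mul_zero, zero_mul]; exact Cg.refl _ _
  | cons c cs ih =>
    rw [hor, pol, ev_mrg]
    have h := (shf_spec b s c P).add (ih (s + e))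
    have e1 : C c * X ^ s * ev P + X ^ (s + e) * pol e cs * ev P =
        X ^ s * (C c + X ^ e * pol e cs) * ev P := by rw [pow_add]; ring
    rwa [e1] at h

theorem bin_spec (a e : ℕ) (n k : ℕ) : pol e (bin a n k ((-1) ^ k * (a.choose k : ℤ))) =
    ∑ i ∈ Finset.range n, C ((-1) ^ (k + i) * (a.choose (k + i) : ℤ)) * X ^ (e * i) := by
  induction n generalizing k with
  | zero => rw [bin, pol, Finset.sum_range_zero]
  | succ n ih =>
    rw [bin, pol]
    have h1 : (-((-1) ^ k * (a.choose k : ℤ) * ((a : ℤ) - k))) / ((k : ℤ) + 1) =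
        (-1) ^ (k + 1) * (a.choose (k + 1) : ℤ) := by
      apply Int.ediv_eq_of_eq_mul_left (by positivity)
      have h2 : (a.choose (k + 1) : ℤ) * ((k : ℤ) + 1) = a.choose k * ((a : ℤ) - k) := by
        rcases le_or_gt k a with h | h
        · have h3 := Nat.choose_succ_right_eq a k
          have h4 : ((a - k : ℕ) : ℤ) = (a : ℤ) - k := Nat.cast_sub h
          rw [← h4]; exact_mod_cast h3
        · rw [Nat.choose_eq_zero_of_lt h, Nat.choose_eq_zero_of_lt (by omega)]; simp
      rw [pow_succ]; linear_combination ((-1 : ℤ) ^ k) * h2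
    rw [h1, ih (k + 1), Finset.sum_range_succ', Finset.mul_sum, add_comm]
    congr 1
    · refine Finset.sum_congr rfl fun i _ => ?_
      rw [show k + 1 + i = k + (i + 1) by ring, show e * (i + 1) = e + e * i by ring, pow_add X]
      ring
    · simp

theorem one_sub_pow (e a : ℕ) : (1 - X ^ e : ℤ[X]) ^ a =
    ∑ i ∈ Finset.range (a + 1), C ((-1) ^ i * (a.choose i : ℤ)) * X ^ (e * i) := by
  rw [sub_eq_neg_add, add_pow]
  refine Finset.sum_congr rfl fun i _ => ?_
  rw [one_pow, mul_one, neg_pow, ← pow_mul, map_mul, map_pow, map_neg, map_one, map_natCast]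
  ring

theorem bin_cg (a e b N : ℕ) (hN : b ≤ e * N) :
    Cg b (pol e (bin a N 0 1)) ((1 - X ^ e) ^ a) := by
  have h0 := bin_spec a e N 0
  simp only [pow_zero, Nat.choose_zero_right, Nat.cast_one, mul_one, zero_add] at h0
  rw [h0, one_sub_pow]
  -- compare with a long sum
  have key : ∀ M, Cg b (∑ i ∈ Finset.range (N + M), C ((-1) ^ i * (a.choose i : ℤ)) * X ^ (e * i))
      (∑ i ∈ Finset.range N, C ((-1) ^ i * (a.choose i : ℤ)) * X ^ (e * i)) := by
    intro M
    induction M with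
    | zero => exact Cg.refl _ _
    | succ M ih =>
      rw [← add_assoc, Finset.sum_range_succ]
      have h2 : Cg b (C ((-1) ^ (N + M) * (a.choose (N + M) : ℤ)) * X ^ (e * (N + M))) 0 := by
        apply Cg_of_dvd
        refine Dvd.dvd.mul_left (pow_dvd_pow _ ?_) _
        rw [mul_add]; omega
      have := ih.add h2
      rwa [add_zero] at this
  have key2 : ∀ M, ∑ i ∈ Finset.range (a + 1 + M), C ((-1) ^ i * (a.choose i : ℤ)) * X ^ (e * i) =
      ∑ i ∈ Finset.range (a + 1), C ((-1) ^ i * (a.choose i : ℤ)) * X ^ (e * i) := by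
    intro M
    induction M with
    | zero => rfl
    | succ M ih =>
      rw [← add_assoc, Finset.sum_range_succ, ih, Nat.choose_eq_zero_of_lt (by omega)]
      simp
  rw [← key2 N]
  have h3 := key (a + 1)
  rw [add_comm N] at h3
  rw [Cg] at h3 ⊢
  rw [← dvd_neg, neg_sub]; exact h3

theorem mulP_spec {b j e a : ℕ} {P : List (ℕ × ℤ)} {F : ℤ[X]} (hj : 1 ≤ j) (he : 441 * j ≤ e)
    (h : Cg b (ev P) F) : Cg b (ev (mulP b j e a P)) ((1 - X ^ e) ^ a * F) := by
  have h1 := hor_spec b e P 0 (bin a (b / (441 * j) + 1) 0 1)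
  rw [pow_zero, one_mul] at h1
  have hN : b ≤ e * (b / (441 * j) + 1) := by
    have h2 : b < 441 * j * (b / (441 * j) + 1) := Nat.lt_mul_div_succ b (by omega)
    have h3 : 441 * j * (b / (441 * j) + 1) ≤ e * (b / (441 * j) + 1) := Nat.mul_le_mul_right _ he
    omega
  exact h1.trans (((bin_cg a e b _ hN).mul_right _).trans (h.mul_left _))

/-- The factor of the generating function in degree `j`. -/
noncomputable def G (j a c : ℕ) : ℤ[X] :=
  (1 - X ^ en j 0 0) ^ (2 * a + c) * ((1 - X ^ en j 1 0) ^ a * ((1 - X ^ en j (-1) 0) ^ a *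
    ((1 - X ^ en j 0 1) ^ a * ((1 - X ^ en j 0 (-1)) ^ a * ((1 - X ^ en j 1 1) ^ a *
      (1 - X ^ en j (-1) (-1)) ^ a)))))

theorem en_ge (j : ℕ) (x y : ℤ) : 441 * j ≤ en j x y := by
  unfold en; omega

theorem stp_spec {b j a c : ℕ} {P : List (ℕ × ℤ)} {F : ℤ[X]} (hj : 1 ≤ j)
    (h : Cg b (ev P) F) : Cg b (ev (stp b j a c P)) (G j a c * F) := by
  have h1 := mulP_spec (a := a) hj (en_ge j (-1) (-1)) h
  have h2 := mulP_spec (a := a) hj (en_ge j 1 1) h1
  have h3 := mulP_spec (a := a) hj (en_ge j 0 (-1)) h2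
  have h4 := mulP_spec (a := a) hj (en_ge j 0 1) h3
  have h5 := mulP_spec (a := a) hj (en_ge j (-1) 0) h4
  have h6 := mulP_spec (a := a) hj (en_ge j 1 0) h5
  have h7 := mulP_spec (a := 2 * a + c) hj (en_ge j 0 0) h6
  rw [G]
  simp only [mul_assoc]
  exact h7

theorem lk_spec (n : ℕ) (P : List (ℕ × ℤ)) : lk n P = (ev P).coeff n := by
  induction P with
  | nil => rw [lk, ev_nil, coeff_zero]
  | cons x l ih =>
    obtain ⟨e, c⟩ := x
    rw [lk, ev_cons, coeff_add, coeff_monomial, ih]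
    split_ifs <;> simp

/-- The alternating sum of coefficients. -/
noncomputable def thF (F : ℤ[X]) (d : ℕ) (x y : ℤ) : ℤ :=
  F.coeff (en d x y) - F.coeff (en d (x + 1) y) - F.coeff (en d x (y + 1))
    + F.coeff (en d (x + 2) (y + 1)) + F.coeff (en d (x + 1) (y + 2))
    - F.coeff (en d (x + 2) (y + 2))

theorem th_spec {P : List (ℕ × ℤ)} {F : ℤ[X]} (h : Cg 4851 (ev P) F) {d : ℕ} {x y : ℤ}
    (hd : d ≤ 10) (hx : x ≤ 1) (hy : y ≤ 1) : thF F d x y = th P d x y := by
  have key : ∀ x' y' : ℤ, x' ≤ 3 → y' ≤ 3 → F.coeff (en d x' y') = lk (en d x' y') P := by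
    intro x' y' hx' hy'
    rw [lk_spec]
    refine (h.coeff ?_).symm
    unfold en; omega
  unfold thF th
  rw [key, key, key, key, key, key] <;> omega

end Pool.Agent.N4.Num
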