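import Pool.Agent.N4.Abg.Inst2

/-! Homology in degrees `0` and `1`. -/

set_option linter.unusedSimpArgs false
set_option linter.unusedSectionVars false

open scoped TensorProduct

namespace Pool.Agent.N4.CE

open ExteriorAlgebra Module Pool.Agent.N4.Rep

attribute [local instance 100] LieRing.ofAssociativeRing

section
variable {K L I : Type*} [Field K] [CharZero K] [LieRing L] [LieAlgebra K L] [LinearOrder I]
  (g : Gr K L I)

theorem bracket_mem_bd (u v : L) : ι K ⁅u, v⁆ ∈ bd K L 1 := by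
  refine ⟨-(ι K u * ι K v), ?_, ?_⟩
  · refine neg_mem ?_
    show ι K u * ι K v ∈ ⋀[K]^2 L
    rw [ext_succ]
    refine Submodule.mul_mem_mul ⟨u, rfl⟩ ?_
    rw [ext_pow_one]
    exact ⟨v, rfl⟩
  · rw [map_neg, del_ι_mul]
    have h1 : del K L (ι K v) = 0 := by
      rw [← mul_one (ι K v), del_ι_mul, del_one, theta_one]; simp
    have h2 : theta (adL (K := K) u) (ι K v) = ι K ⁅u, v⁆ := by
      rw [← mul_one (ι K v), theta_ι_mul, theta_one, adL_apply]; simp
    rw [h1, h2]; simp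

theorem Gr.HW_zero {d : ℕ} (hd : 1 ≤ d) (l : ℤ × ℤ) : ¬ g.HW d 0 l := by
  rintro ⟨z, hz, hzb, hzd, -⟩
  have h0 : z ∈ ⋀[K]^0 L := hz.1
  rw [ext_zero, Submodule.mem_one] at h0
  obtain ⟨r, rfl⟩ := h0
  rw [dE, theta_algebraMap] at hzd
  have hd' : (d : K) ≠ 0 := by exact_mod_cast (by omega : d ≠ 0)
  apply hzb
  have : algebraMap K (ExteriorAlgebra K L) r = 0 := by
    have h := hzd.symm
    rw [natCast_zsmul, ← Nat.cast_smul_eq_nsmul K] at h
    exact (smul_eq_zero.1 h).resolve_left hd'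
  rw [this]; exact zero_mem _

theorem Gr.HW_one {d : ℕ} (hd : 2 ≤ d) (l : ℤ × ℤ)
    (hperf : ∀ i, 2 ≤ g.deg i → g.b i ∈ Submodule.span K {x : L | ∃ u v : L, x = ⁅u, v⁆}) :
    ¬ g.HW d 1 l := by
  rintro ⟨z, hz, hzb, hzd, -⟩
  have h0 : z ∈ ⋀[K]^1 L := hz.1
  rw [ext_pow_one] at h0
  obtain ⟨x, rfl⟩ := h0
  have h1 : g.dE (ι K x) = ι K (g.E x) := by
    rw [dE, ← mul_one (ι K x), theta_ι_mul, theta_one]; simp
  rw [h1, ← map_zsmul] at hzd
  have hx : g.E x = (d : ℤ) • x := (ι_inj K _ _).1 hzd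
  apply hzb
  have hmem : x ∈ Submodule.span K {x : L | ∃ u v : L, x = ⁅u, v⁆} := by
    rw [← g.b.linearCombination_repr x, Finsupp.linearCombination_apply, Finsupp.sum]
    refine Submodule.sum_mem _ fun i hi => Submodule.smul_mem _ _ (hperf i ?_)
    have hi' := Finsupp.mem_support_iff.1 hi
    have h := repr_diag (b := g.b) (h := (g.E : L →ₗ[K] L)) g.hE x i
    have hx' : (g.E : L →ₗ[K] L) x = (d : ℤ) • x := hx
    rw [hx', map_zsmul, Finsupp.smul_apply, zsmul_eq_mul, zsmul_eq_mul] at h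
    have h2 := mul_right_cancel₀ hi' h
    have h3 : d = g.deg i := by exact_mod_cast h2
    omega
  have hle : Submodule.span K {x : L | ∃ u v : L, x = ⁅u, v⁆} ≤ (bd K L 1).comap (ι K) := by
    refine Submodule.span_le.2 ?_
    rintro x ⟨u, v, rfl⟩
    exact bracket_mem_bd u v
  exact hle hmem

end

end Pool.Agent.N4.CE

namespace Pool.Agent.N4.Abg

open Module Pool.Agent.N4.Rep Pool.Agent.N4.CE LieAlgebra.SpecialLinear

attribute [local instance 100] LieRing.ofAssociativeRing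

section
variable (K : Type*) [Field K] [CharZero K] (A : Type*) [NonUnitalNonAssocRing A] [Module K A]
  [IsScalarTower K A A] [SMulCommClass K A A] [AltRing A]

/-- The span of all brackets. -/
noncomputable def brS : Submodule K (ABG K A) := Submodule.span K {x | ∃ u v : ABG K A, x = ⁅u, v⁆}

theorem der_brS (D : LieDerivation K (ABG K A) (ABG K A)) {x : ABG K A} (hx : x ∈ brS K A) :
    D x ∈ brS K A := by
  have h : brS K A ≤ (brS K A).comap D.toLinearMap := by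
    refine Submodule.span_le.2 ?_
    rintro x ⟨u, v, rfl⟩
    show D ⁅u, v⁆ ∈ brS K A
    rw [LieDerivation.apply_lie_eq_add]
    exact add_mem (Submodule.subset_span ⟨_, _, rfl⟩) (Submodule.subset_span ⟨_, _, rfl⟩)
  exact h hx

theorem sEl_br (X Y : sl3 K) (p q : A) : ⁅sEl K A X p, sEl K A Y q⁆ =
    sEl K A ⁅X, Y⁆ ((2 : K)⁻¹ • (p * q + q * p)) + sEl K A (anti K X Y) (p * q - q * p)
    + bEl K A ((3 : K)⁻¹ • Matrix.trace (X.val * Y.val) • wedge K A p q) := by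
  apply ABG.ext
  · rw [lie_fst, ABG.add_fst, ABG.add_fst]
    show ssS K A (X ⊗ₜ p) (Y ⊗ₜ q) + actS K A 0 (Y ⊗ₜ q) - actS K A 0 (X ⊗ₜ p) = _
    rw [ssS_tmul, map_zero]
    show _ = ⁅X, Y⁆ ⊗ₜ[K] ((2 : K)⁻¹ • (p * q + q * p)) + anti K X Y ⊗ₜ[K] (p * q - q * p) + 0
    simp
  · rw [lie_snd, ABG.add_snd, ABG.add_snd]
    show ssB K A (X ⊗ₜ p) (Y ⊗ₜ q) + actB K A 0 0 = 0 + 0 + _
    rw [ssB_tmul, map_zero]
    show _ = 0 + 0 + ((3 : K)⁻¹ • Matrix.trace (X.val * Y.val) • wedge K A p q)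
    simp

theorem sEl_add (X : sl3 K) (p q : A) : sEl K A X (p + q) = sEl K A X p + sEl K A X q := by
  apply ABG.ext
  · exact TensorProduct.tmul_add _ _ _
  · exact (add_zero 0).symm

theorem sEl_smul' (c : K) (X : sl3 K) (p : A) : sEl K A (c • X) p = c • sEl K A X p := by
  apply ABG.ext
  · exact (TensorProduct.smul_tmul' _ _ _).symm
  · exact (smul_zero c).symm

theorem slDer_sEl (Z X : sl3 K) (p : A) : slDer K A Z (sEl K A X p) = sEl K A ⁅Z, X⁆ p := by
  apply ABG.ext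
  · rw [slDer_fst]; exact aS_tmul K A Z X p
  · rfl

theorem E3_mem (p q : A) : sEl K A (E3 K) (p * q) ∈ brS K A := by
  have h := sEl_br K A (E1 K) (E2 K) p q
  have h1 : ⁅E1 K, E2 K⁆ = E3 K := by
    rw [← lie_skew, br_e2e1, neg_neg]
  have h2 : anti K (E1 K) (E2 K) = (2 : K)⁻¹ • E3 K := by
    ext i j
    rw [anti_val]
    fin_cases i <;> fin_cases j <;>
      simp [E1, E2, E3, Matrix.mul_apply, Fin.sum_univ_three, Matrix.single, Matrix.trace_fin_three]
  have h3 : Matrix.trace ((E1 K).val * (E2 K).val) = 0 := by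
    simp [E1, E2, Matrix.mul_apply, Fin.sum_univ_three, Matrix.single, Matrix.trace_fin_three]
  have h4 : sEl K A (E3 K) (p * q) = ⁅sEl K A (E1 K) p, sEl K A (E2 K) q⁆ := by
    rw [h, h1, h2, h3, zero_smul, smul_zero]
    apply ABG.ext
    · show E3 K ⊗ₜ[K] (p * q) = E3 K ⊗ₜ[K] ((2 : K)⁻¹ • (p * q + q * p))
        + ((2 : K)⁻¹ • E3 K) ⊗ₜ[K] (p * q - q * p) + 0
      rw [TensorProduct.smul_tmul, add_zero, ← TensorProduct.tmul_add]
      congr 1
      module
    · show (0 : BB K A) = 0 + 0 + 0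
      simp
  rw [h4]
  exact Submodule.subset_span ⟨_, _, rfl⟩

theorem sl_mem (X : sl3 K) (p q : A) : sEl K A X (p * q) ∈ brS K A := by
  have step : ∀ (Z Y W : sl3 K), sEl K A Y (p * q) ∈ brS K A → ∀ c : K, c ≠ 0 → ⁅Z, Y⁆ = c • W →
      sEl K A W (p * q) ∈ brS K A := by
    intro Z Y W hY c hc h
    have h1 := der_brS K A (slDer K A Z) hY
    rw [slDer_sEl, h, sEl_smul'] at h1
    have h2 := (brS K A).smul_mem c⁻¹ h1
    rwa [smul_smul, inv_mul_cancel₀ hc, one_smul] at h2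
  have m3 := E3_mem K A p q
  have n2 : (2 : K) ≠ 0 := two_ne_zero
  have n1 : (-1 : K) ≠ 0 := neg_ne_zero.2 one_ne_zero
  have k1 : sEl K A (E1 K) (p * q) ∈ brS K A := by
    refine step (F2 K) (E3 K) _ m3 (-1) n1 ?_
    rw [← lie_skew, br_e3f2, neg_one_smul]
  have k2 : sEl K A (E2 K) (p * q) ∈ brS K A := by
    refine step (F1 K) (E3 K) _ m3 1 one_ne_zero ?_
    rw [← lie_skew, br_e3f1, neg_neg, one_smul]
  have k3 : sEl K A (H1 K) (p * q) ∈ brS K A := by
    refine step (F1 K) (E1 K) _ k1 (-1) n1 ?_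
    rw [← lie_skew, br_e1f1, neg_one_smul]
  have k4 : sEl K A (H2 K) (p * q) ∈ brS K A := by
    refine step (F2 K) (E2 K) _ k2 (-1) n1 ?_
    rw [← lie_skew, br_e2f2, neg_one_smul]
  have k5 : sEl K A (F1 K) (p * q) ∈ brS K A := by
    refine step (F1 K) (H1 K) _ k3 2 n2 ?_
    rw [← lie_skew, br_h1f1, neg_neg, ← Int.cast_smul_eq_zsmul K]; norm_num
  have k6 : sEl K A (F2 K) (p * q) ∈ brS K A := by
    refine step (F2 K) (H2 K) _ k4 2 n2 ?_
    rw [← lie_skew, br_h2f2, neg_neg, ← Int.cast_smul_eq_zsmul K]; norm_num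
  have k7 : sEl K A (F3 K) (p * q) ∈ brS K A := by
    refine step (F2 K) (F1 K) _ k5 1 one_ne_zero ?_
    rw [br_f2f1, one_smul]
  have hl : ∀ (X Y : sl3 K), sEl K A (X + Y) (p * q) = sEl K A X (p * q) + sEl K A Y (p * q) := by
    intro X Y
    apply ABG.ext
    · exact TensorProduct.add_tmul _ _ _
    · exact (add_zero 0).symm
  rw [sl_expand X]
  simp only [hl, sEl_smul']
  exact add_mem (add_mem (add_mem (add_mem (add_mem (add_mem (add_mem
    (Submodule.smul_mem _ _ k1) (Submodule.smul_mem _ _ k2)) (Submodule.smul_mem _ _ m3))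
    (Submodule.smul_mem _ _ k5)) (Submodule.smul_mem _ _ k6)) (Submodule.smul_mem _ _ k7))
    (Submodule.smul_mem _ _ k3)) (Submodule.smul_mem _ _ k4)

theorem wedge_mem (p q : A) : bEl K A (wedge K A p q) ∈ brS K A := by
  have h := sEl_br K A (E1 K) (F1 K) p q
  have h3 : Matrix.trace ((E1 K).val * (F1 K).val) = 1 := by
    simp [E1, F1, Matrix.mul_apply, Fin.sum_univ_three, Matrix.single, Matrix.trace_fin_three]
  rw [h3, one_smul] at h
  have hsub : sEl K A (anti K (E1 K) (F1 K)) (p * q - q * p) =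
      sEl K A (anti K (E1 K) (F1 K)) (p * q) - sEl K A (anti K (E1 K) (F1 K)) (q * p) := by
    apply ABG.ext
    · exact TensorProduct.tmul_sub _ _ _
    · exact (sub_zero 0).symm
  have hadd : sEl K A ⁅E1 K, F1 K⁆ ((2 : K)⁻¹ • (p * q + q * p)) =
      (2 : K)⁻¹ • (sEl K A ⁅E1 K, F1 K⁆ (p * q) + sEl K A ⁅E1 K, F1 K⁆ (q * p)) := by
    apply ABG.ext
    · show ⁅E1 K, F1 K⁆ ⊗ₜ[K] ((2 : K)⁻¹ • (p * q + q * p)) = _
      rw [TensorProduct.tmul_smul, TensorProduct.tmul_add]; rfl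
    · show (0 : BB K A) = (2 : K)⁻¹ • (0 + 0)
      simp
  have hb : bEl K A ((3 : K)⁻¹ • wedge K A p q) = (3 : K)⁻¹ • bEl K A (wedge K A p q) := by
    apply ABG.ext
    · exact (smul_zero _).symm
    · rfl
  have h5 : bEl K A ((3 : K)⁻¹ • wedge K A p q) ∈ brS K A := by
    have h6 : bEl K A ((3 : K)⁻¹ • wedge K A p q) = ⁅sEl K A (E1 K) p, sEl K A (F1 K) q⁆
        - sEl K A ⁅E1 K, F1 K⁆ ((2 : K)⁻¹ • (p * q + q * p))
        - sEl K A (anti K (E1 K) (F1 K)) (p * q - q * p) := by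
      rw [h]; abel
    rw [h6, hsub, hadd]
    exact sub_mem (sub_mem (Submodule.subset_span ⟨_, _, rfl⟩) (Submodule.smul_mem _ _
      (add_mem (sl_mem K A _ _ _) (sl_mem K A _ _ _))))
      (sub_mem (sl_mem K A _ _ _) (sl_mem K A _ _ _))
  rw [hb] at h5
  have h6 := (brS K A).smul_mem (3 : K) h5
  rwa [smul_smul, mul_inv_cancel₀ three_ne_zero, one_smul] at h6

end

end Pool.Agent.N4.Abg
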