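import Mathlib

/-! The trace lemma for `𝔰𝔩₃` acting on a finite-dimensional complex. -/

set_option linter.unusedSimpArgs false

namespace Pool.Agent.N4.Rep

/-- The relations of the basis `e₁ = E₁₂, e₂ = E₂₃, e₃ = E₁₃, f₁ = E₂₁, f₂ = E₃₂, f₃ = E₃₁,
h₁, h₂` of `𝔰𝔩₃` in an associative ring. -/
structure IsSl3 {R : Type*} [Ring R] (e1 e2 e3 f1 f2 f3 h1 h2 : R) : Prop where
  h1h2 : h2 * h1 = h1 * h2
  e1h1 : e1 * h1 = h1 * e1 - (2 : ℤ) • e1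
  e1h2 : e1 * h2 = h2 * e1 + e1
  e2h1 : e2 * h1 = h1 * e2 + e2
  e2h2 : e2 * h2 = h2 * e2 - (2 : ℤ) • e2
  e3h1 : e3 * h1 = h1 * e3 - e3
  e3h2 : e3 * h2 = h2 * e3 - e3
  h1f1 : h1 * f1 = f1 * h1 - (2 : ℤ) • f1
  h2f1 : h2 * f1 = f1 * h2 + f1
  h1f2 : h1 * f2 = f2 * h1 + f2
  h2f2 : h2 * f2 = f2 * h2 - (2 : ℤ) • f2
  h1f3 : h1 * f3 = f3 * h1 - f3
  h2f3 : h2 * f3 = f3 * h2 - f3
  e1f1 : e1 * f1 = f1 * e1 + h1
  e2f2 : e2 * f2 = f2 * e2 + h2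
  e3f3 : e3 * f3 = f3 * e3 + (h1 + h2)
  e1f2 : e1 * f2 = f2 * e1
  e2f1 : e2 * f1 = f1 * e2
  e3f1 : e3 * f1 = f1 * e3 - e2
  e3f2 : e3 * f2 = f2 * e3 + e1
  e1f3 : e1 * f3 = f3 * e1 - f2
  e2f3 : e2 * f3 = f3 * e2 + f1
  e2e1 : e2 * e1 = e1 * e2 - e3
  e3e1 : e3 * e1 = e1 * e3
  e3e2 : e3 * e2 = e2 * e3
  f2f1 : f2 * f1 = f1 * f2 + f3
  f3f1 : f3 * f1 = f1 * f3
  f3f2 : f3 * f2 = f2 * f3

/-- The Casimir element (suitably normalised). -/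
def cas {R : Type*} [Ring R] (e1 e2 e3 f1 f2 f3 h1 h2 : R) : R :=
  h1 * h1 + h1 * h2 + h2 * h2 + (3 : ℤ) • h1 + (3 : ℤ) • h2
    + (3 : ℤ) • (f1 * e1 + f2 * e2 + f3 * e3)

section ring
variable {R : Type*} [Ring R] {e1 e2 e3 f1 f2 f3 h1 h2 : R}

theorem assoc_rule {a b c : R} (h : a * b = c) (x : R) : a * (b * x) = c * x := by
  rw [← mul_assoc, h]

theorem cas_e1 (s : IsSl3 e1 e2 e3 f1 f2 f3 h1 h2) :
    cas e1 e2 e3 f1 f2 f3 h1 h2 * e1 = e1 * cas e1 e2 e3 f1 f2 f3 h1 h2 := by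
  unfold cas
  simp only [mul_add, add_mul, mul_assoc, sub_mul, mul_sub, smul_mul_assoc, mul_smul_comm,
    smul_add, smul_sub,
    s.h1h2, s.e1h1, s.e1h2, s.e2h1, s.e2h2, s.e3h1, s.e3h2, s.h1f1, s.h2f1, s.h1f2, s.h2f2,
    s.h1f3, s.h2f3, s.e1f1, s.e2f2, s.e3f3, s.e1f2, s.e2f1, s.e3f1, s.e3f2, s.e1f3, s.e2f3,
    s.e2e1, s.e3e1, s.e3e2, s.f2f1, s.f3f1, s.f3f2, assoc_rule s.h1h2, assoc_rule s.e1h1,
    assoc_rule s.e1h2, assoc_rule s.e2h1, assoc_rule s.e2h2, assoc_rule s.e3h1, assoc_rule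
    s.e3h2, assoc_rule s.h1f1, assoc_rule s.h2f1, assoc_rule s.h1f2, assoc_rule s.h2f2,
    assoc_rule s.h1f3, assoc_rule s.h2f3, assoc_rule s.e1f1, assoc_rule s.e2f2, assoc_rule
    s.e3f3, assoc_rule s.e1f2, assoc_rule s.e2f1, assoc_rule s.e3f1, assoc_rule s.e3f2,
    assoc_rule s.e1f3, assoc_rule s.e2f3, assoc_rule s.e2e1, assoc_rule s.e3e1, assoc_rule
    s.e3e2, assoc_rule s.f2f1, assoc_rule s.f3f1, assoc_rule s.f3f2]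
  try abel

theorem cas_e2 (s : IsSl3 e1 e2 e3 f1 f2 f3 h1 h2) :
    cas e1 e2 e3 f1 f2 f3 h1 h2 * e2 = e2 * cas e1 e2 e3 f1 f2 f3 h1 h2 := by
  unfold cas
  simp only [mul_add, add_mul, mul_assoc, sub_mul, mul_sub, smul_mul_assoc, mul_smul_comm,
    smul_add, smul_sub,
    s.h1h2, s.e1h1, s.e1h2, s.e2h1, s.e2h2, s.e3h1, s.e3h2, s.h1f1, s.h2f1, s.h1f2, s.h2f2,
    s.h1f3, s.h2f3, s.e1f1, s.e2f2, s.e3f3, s.e1f2, s.e2f1, s.e3f1, s.e3f2, s.e1f3, s.e2f3,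
    s.e2e1, s.e3e1, s.e3e2, s.f2f1, s.f3f1, s.f3f2, assoc_rule s.h1h2, assoc_rule s.e1h1,
    assoc_rule s.e1h2, assoc_rule s.e2h1, assoc_rule s.e2h2, assoc_rule s.e3h1, assoc_rule
    s.e3h2, assoc_rule s.h1f1, assoc_rule s.h2f1, assoc_rule s.h1f2, assoc_rule s.h2f2,
    assoc_rule s.h1f3, assoc_rule s.h2f3, assoc_rule s.e1f1, assoc_rule s.e2f2, assoc_rule
    s.e3f3, assoc_rule s.e1f2, assoc_rule s.e2f1, assoc_rule s.e3f1, assoc_rule s.e3f2,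
    assoc_rule s.e1f3, assoc_rule s.e2f3, assoc_rule s.e2e1, assoc_rule s.e3e1, assoc_rule
    s.e3e2, assoc_rule s.f2f1, assoc_rule s.f3f1, assoc_rule s.f3f2]
  try abel

theorem cas_f1 (s : IsSl3 e1 e2 e3 f1 f2 f3 h1 h2) :
    cas e1 e2 e3 f1 f2 f3 h1 h2 * f1 = f1 * cas e1 e2 e3 f1 f2 f3 h1 h2 := by
  unfold cas
  simp only [mul_add, add_mul, mul_assoc, sub_mul, mul_sub, smul_mul_assoc, mul_smul_comm,
    smul_add, smul_sub,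
    s.h1h2, s.e1h1, s.e1h2, s.e2h1, s.e2h2, s.e3h1, s.e3h2, s.h1f1, s.h2f1, s.h1f2, s.h2f2,
    s.h1f3, s.h2f3, s.e1f1, s.e2f2, s.e3f3, s.e1f2, s.e2f1, s.e3f1, s.e3f2, s.e1f3, s.e2f3,
    s.e2e1, s.e3e1, s.e3e2, s.f2f1, s.f3f1, s.f3f2, assoc_rule s.h1h2, assoc_rule s.e1h1,
    assoc_rule s.e1h2, assoc_rule s.e2h1, assoc_rule s.e2h2, assoc_rule s.e3h1, assoc_rule
    s.e3h2, assoc_rule s.h1f1, assoc_rule s.h2f1, assoc_rule s.h1f2, assoc_rule s.h2f2,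
    assoc_rule s.h1f3, assoc_rule s.h2f3, assoc_rule s.e1f1, assoc_rule s.e2f2, assoc_rule
    s.e3f3, assoc_rule s.e1f2, assoc_rule s.e2f1, assoc_rule s.e3f1, assoc_rule s.e3f2,
    assoc_rule s.e1f3, assoc_rule s.e2f3, assoc_rule s.e2e1, assoc_rule s.e3e1, assoc_rule
    s.e3e2, assoc_rule s.f2f1, assoc_rule s.f3f1, assoc_rule s.f3f2]
  try abel

theorem cas_f2 (s : IsSl3 e1 e2 e3 f1 f2 f3 h1 h2) :
    cas e1 e2 e3 f1 f2 f3 h1 h2 * f2 = f2 * cas e1 e2 e3 f1 f2 f3 h1 h2 := by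
  unfold cas
  simp only [mul_add, add_mul, mul_assoc, sub_mul, mul_sub, smul_mul_assoc, mul_smul_comm,
    smul_add, smul_sub,
    s.h1h2, s.e1h1, s.e1h2, s.e2h1, s.e2h2, s.e3h1, s.e3h2, s.h1f1, s.h2f1, s.h1f2, s.h2f2,
    s.h1f3, s.h2f3, s.e1f1, s.e2f2, s.e3f3, s.e1f2, s.e2f1, s.e3f1, s.e3f2, s.e1f3, s.e2f3,
    s.e2e1, s.e3e1, s.e3e2, s.f2f1, s.f3f1, s.f3f2, assoc_rule s.h1h2, assoc_rule s.e1h1,
    assoc_rule s.e1h2, assoc_rule s.e2h1, assoc_rule s.e2h2, assoc_rule s.e3h1, assoc_rule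
    s.e3h2, assoc_rule s.h1f1, assoc_rule s.h2f1, assoc_rule s.h1f2, assoc_rule s.h2f2,
    assoc_rule s.h1f3, assoc_rule s.h2f3, assoc_rule s.e1f1, assoc_rule s.e2f2, assoc_rule
    s.e3f3, assoc_rule s.e1f2, assoc_rule s.e2f1, assoc_rule s.e3f1, assoc_rule s.e3f2,
    assoc_rule s.e1f3, assoc_rule s.e2f3, assoc_rule s.e2e1, assoc_rule s.e3e1, assoc_rule
    s.e3e2, assoc_rule s.f2f1, assoc_rule s.f3f1, assoc_rule s.f3f2]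
  try abel

theorem cas_h1 (s : IsSl3 e1 e2 e3 f1 f2 f3 h1 h2) :
    cas e1 e2 e3 f1 f2 f3 h1 h2 * h1 = h1 * cas e1 e2 e3 f1 f2 f3 h1 h2 := by
  unfold cas
  simp only [mul_add, add_mul, mul_assoc, sub_mul, mul_sub, smul_mul_assoc, mul_smul_comm,
    smul_add, smul_sub,
    s.h1h2, s.e1h1, s.e1h2, s.e2h1, s.e2h2, s.e3h1, s.e3h2, s.h1f1, s.h2f1, s.h1f2, s.h2f2,
    s.h1f3, s.h2f3, s.e1f1, s.e2f2, s.e3f3, s.e1f2, s.e2f1, s.e3f1, s.e3f2, s.e1f3, s.e2f3,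
    s.e2e1, s.e3e1, s.e3e2, s.f2f1, s.f3f1, s.f3f2, assoc_rule s.h1h2, assoc_rule s.e1h1,
    assoc_rule s.e1h2, assoc_rule s.e2h1, assoc_rule s.e2h2, assoc_rule s.e3h1, assoc_rule
    s.e3h2, assoc_rule s.h1f1, assoc_rule s.h2f1, assoc_rule s.h1f2, assoc_rule s.h2f2,
    assoc_rule s.h1f3, assoc_rule s.h2f3, assoc_rule s.e1f1, assoc_rule s.e2f2, assoc_rule
    s.e3f3, assoc_rule s.e1f2, assoc_rule s.e2f1, assoc_rule s.e3f1, assoc_rule s.e3f2,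
    assoc_rule s.e1f3, assoc_rule s.e2f3, assoc_rule s.e2e1, assoc_rule s.e3e1, assoc_rule
    s.e3e2, assoc_rule s.f2f1, assoc_rule s.f3f1, assoc_rule s.f3f2]
  try abel

theorem cas_h2 (s : IsSl3 e1 e2 e3 f1 f2 f3 h1 h2) :
    cas e1 e2 e3 f1 f2 f3 h1 h2 * h2 = h2 * cas e1 e2 e3 f1 f2 f3 h1 h2 := by
  unfold cas
  simp only [mul_add, add_mul, mul_assoc, sub_mul, mul_sub, smul_mul_assoc, mul_smul_comm,
    smul_add, smul_sub,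
    s.h1h2, s.e1h1, s.e1h2, s.e2h1, s.e2h2, s.e3h1, s.e3h2, s.h1f1, s.h2f1, s.h1f2, s.h2f2,
    s.h1f3, s.h2f3, s.e1f1, s.e2f2, s.e3f3, s.e1f2, s.e2f1, s.e3f1, s.e3f2, s.e1f3, s.e2f3,
    s.e2e1, s.e3e1, s.e3e2, s.f2f1, s.f3f1, s.f3f2, assoc_rule s.h1h2, assoc_rule s.e1h1,
    assoc_rule s.e1h2, assoc_rule s.e2h1, assoc_rule s.e2h2, assoc_rule s.e3h1, assoc_rule
    s.e3h2, assoc_rule s.h1f1, assoc_rule s.h2f1, assoc_rule s.h1f2, assoc_rule s.h2f2,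
    assoc_rule s.h1f3, assoc_rule s.h2f3, assoc_rule s.e1f1, assoc_rule s.e2f2, assoc_rule
    s.e3f3, assoc_rule s.e1f2, assoc_rule s.e2f1, assoc_rule s.e3f1, assoc_rule s.e3f2,
    assoc_rule s.e1f3, assoc_rule s.e2f3, assoc_rule s.e2e1, assoc_rule s.e3e1, assoc_rule
    s.e3e2, assoc_rule s.f2f1, assoc_rule s.f3f1, assoc_rule s.f3f2]
  try abel

theorem cas_e3 (s : IsSl3 e1 e2 e3 f1 f2 f3 h1 h2) :
    cas e1 e2 e3 f1 f2 f3 h1 h2 * e3 = e3 * cas e1 e2 e3 f1 f2 f3 h1 h2 := by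
  unfold cas
  simp only [mul_add, add_mul, mul_assoc, sub_mul, mul_sub, smul_mul_assoc, mul_smul_comm,
    smul_add, smul_sub,
    s.h1h2, s.e1h1, s.e1h2, s.e2h1, s.e2h2, s.e3h1, s.e3h2, s.h1f1, s.h2f1, s.h1f2, s.h2f2,
    s.h1f3, s.h2f3, s.e1f1, s.e2f2, s.e3f3, s.e1f2, s.e2f1, s.e3f1, s.e3f2, s.e1f3, s.e2f3,
    s.e2e1, s.e3e1, s.e3e2, s.f2f1, s.f3f1, s.f3f2, assoc_rule s.h1h2, assoc_rule s.e1h1,
    assoc_rule s.e1h2, assoc_rule s.e2h1, assoc_rule s.e2h2, assoc_rule s.e3h1, assoc_rule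
    s.e3h2, assoc_rule s.h1f1, assoc_rule s.h2f1, assoc_rule s.h1f2, assoc_rule s.h2f2,
    assoc_rule s.h1f3, assoc_rule s.h2f3, assoc_rule s.e1f1, assoc_rule s.e2f2, assoc_rule
    s.e3f3, assoc_rule s.e1f2, assoc_rule s.e2f1, assoc_rule s.e3f1, assoc_rule s.e3f2,
    assoc_rule s.e1f3, assoc_rule s.e2f3, assoc_rule s.e2e1, assoc_rule s.e3e1, assoc_rule
    s.e3e2, assoc_rule s.f2f1, assoc_rule s.f3f1, assoc_rule s.f3f2]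
  try abel

theorem cas_f3 (s : IsSl3 e1 e2 e3 f1 f2 f3 h1 h2) :
    cas e1 e2 e3 f1 f2 f3 h1 h2 * f3 = f3 * cas e1 e2 e3 f1 f2 f3 h1 h2 := by
  unfold cas
  simp only [mul_add, add_mul, mul_assoc, sub_mul, mul_sub, smul_mul_assoc, mul_smul_comm,
    smul_add, smul_sub,
    s.h1h2, s.e1h1, s.e1h2, s.e2h1, s.e2h2, s.e3h1, s.e3h2, s.h1f1, s.h2f1, s.h1f2, s.h2f2,
    s.h1f3, s.h2f3, s.e1f1, s.e2f2, s.e3f3, s.e1f2, s.e2f1, s.e3f1, s.e3f2, s.e1f3, s.e2f3,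
    s.e2e1, s.e3e1, s.e3e2, s.f2f1, s.f3f1, s.f3f2, assoc_rule s.h1h2, assoc_rule s.e1h1,
    assoc_rule s.e1h2, assoc_rule s.e2h1, assoc_rule s.e2h2, assoc_rule s.e3h1, assoc_rule
    s.e3h2, assoc_rule s.h1f1, assoc_rule s.h2f1, assoc_rule s.h1f2, assoc_rule s.h2f2,
    assoc_rule s.h1f3, assoc_rule s.h2f3, assoc_rule s.e1f1, assoc_rule s.e2f2, assoc_rule
    s.e3f3, assoc_rule s.e1f2, assoc_rule s.e2f1, assoc_rule s.e3f1, assoc_rule s.e3f2,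
    assoc_rule s.e1f3, assoc_rule s.e2f3, assoc_rule s.e2e1, assoc_rule s.e3e1, assoc_rule
    s.e3e2, assoc_rule s.f2f1, assoc_rule s.f3f1, assoc_rule s.f3f2]
  try abel

end ring

end Pool.Agent.N4.Rep
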