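import Pool.Agent.N4.Abg.Rep

/-! The trace lemma for `𝔰𝔩₃` acting on a finite-dimensional complex. -/

namespace Pool.Agent.N4.Rep

open Module

section fitting
variable {K : Type*} [Field K] {M : Type*} [AddCommGroup M] [Module K M] [FiniteDimensional K M]

/-- Fitting's lemma in polynomial form. -/
theorem fitting (Q : Module.End K M) : ∃ (p : Polynomial K) (m : ℕ),
    Q ^ m * (1 - Q * (Polynomial.aeval Q p * Q ^ m)) = 0 := by
  obtain ⟨g, hg, hg0⟩ : ∃ g : Polynomial K, minpoly K Q = Polynomial.X ^
      (Polynomial.rootMultiplicity 0 (minpoly K Q)) * g ∧ ¬ (Polynomial.X ∣ g) := by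
    have h0 : minpoly K Q ≠ 0 := minpoly.ne_zero (Algebra.IsIntegral.isIntegral Q)
    obtain ⟨g, hg, h⟩ := Polynomial.exists_eq_pow_rootMultiplicity_mul_and_not_dvd
      (minpoly K Q) h0 0
    refine ⟨g, ?_, ?_⟩
    · simpa using hg
    · simpa using h
  set m := Polynomial.rootMultiplicity 0 (minpoly K Q)
  have hcop : IsCoprime (Polynomial.X ^ (m + 1) : Polynomial K) g := by
    apply IsCoprime.pow_left
    exact (Polynomial.irreducible_X.coprime_iff_not_dvd).2 hg0
  obtain ⟨a, b, hab⟩ := hcop
  refine ⟨a, m, ?_⟩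
  have h1 : Polynomial.aeval Q (minpoly K Q) = 0 := minpoly.aeval K Q
  have h2 : (1 : Module.End K M) - Q * (Polynomial.aeval Q a * Q ^ m) =
      Polynomial.aeval Q (b * g) := by
    have h3 := congrArg (Polynomial.aeval Q) hab
    rw [map_add, map_mul, map_pow, Polynomial.aeval_X, map_one] at h3
    rw [← h3]
    have h4 : Q * (Polynomial.aeval Q a * Q ^ m) = Polynomial.aeval Q a * Q ^ (m + 1) := by
      have : Q = Polynomial.aeval Q (Polynomial.X : Polynomial K) := by simp
      have h5 : Q * Polynomial.aeval Q a = Polynomial.aeval Q a * Q := by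
        nth_rewrite 1 [this]; nth_rewrite 4 [this]
        rw [← map_mul, ← map_mul, mul_comm]
      rw [← mul_assoc, h5, mul_assoc, ← pow_succ']
    rw [h4]; abel
  rw [h2]
  have h6 : Q ^ m = Polynomial.aeval Q (Polynomial.X ^ m : Polynomial K) := by simp
  rw [h6, ← map_mul, show (Polynomial.X ^ m * (b * g) : Polynomial K) =
    b * (Polynomial.X ^ m * g) by ring, ← hg, map_mul, h1, mul_zero]

theorem commute_aeval {R : Type*} [Ring R] [Algebra K R] {Q S : R} (h : S * Q = Q * S)
    (p : Polynomial K) : S * Polynomial.aeval Q p = Polynomial.aeval Q p * S := by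
  induction p using Polynomial.induction_on with
  | C a => rw [Polynomial.aeval_C, Algebra.commutes]
  | add p q hp hq => rw [map_add, mul_add, add_mul, hp, hq]
  | monomial n a ih =>
    rw [pow_succ, ← mul_assoc, map_mul, Polynomial.aeval_X, ← mul_assoc, ih, mul_assoc, h,
      mul_assoc]

end fitting

section weights
variable {K : Type*} [Field K] {M : Type*} [AddCommGroup M] [Module K M]
  {J : Type*} (b : Basis J K M) (wt : J → ℤ × ℤ)

/-- The projection to the weight space of weight `ν`. -/
noncomputable def P (ν : ℤ × ℤ) : Module.End K M :=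
  b.constr K (fun j => if wt j = ν then b j else 0)

theorem P_basis (ν : ℤ × ℤ) (j : J) : P b wt ν (b j) = if wt j = ν then b j else 0 := by
  rw [P, Basis.constr_basis]

theorem repr_P (ν : ℤ × ℤ) (x : M) (j : J) :
    b.repr (P b wt ν x) j = if wt j = ν then b.repr x j else 0 := by
  induction b.mem_span x using Submodule.span_induction with
  | mem y hy =>
    obtain ⟨i, rfl⟩ := hy
    rw [P_basis]
    by_cases h : wt i = ν
    · rw [if_pos h, Basis.repr_self]
      by_cases hij : i = j
      · subst hij; rw [if_pos h]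
      · rw [Finsupp.single_eq_of_ne' hij, ite_self]
    · rw [if_neg h, map_zero, Finsupp.zero_apply, Basis.repr_self]
      by_cases hij : i = j
      · subst hij; rw [if_neg h]
      · rw [Finsupp.single_eq_of_ne' hij, ite_self]
  | zero => simp
  | add x y _ _ hx hy => rw [map_add, map_add, Finsupp.add_apply, hx, hy]; split_ifs <;> simp
  | smul c x _ hx => rw [map_smul, map_smul, Finsupp.smul_apply, hx]; split_ifs <;> simp

theorem P_idem (ν : ℤ × ℤ) (x : M) : P b wt ν (P b wt ν x) = P b wt ν x := by
  apply b.ext_elem; intro j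
  rw [repr_P, repr_P]; split_ifs <;> rfl

variable {b wt}

theorem repr_diag {h : Module.End K M} {c : J → ℤ} (hh : ∀ j, h (b j) = c j • b j) (x : M)
    (j : J) : b.repr (h x) j = c j • b.repr x j := by
  induction b.mem_span x using Submodule.span_induction with
  | mem y hy =>
    obtain ⟨i, rfl⟩ := hy
    rw [hh, map_zsmul, Finsupp.smul_apply]
    by_cases hij : i = j
    · subst hij; rfl
    · rw [Basis.repr_self, Finsupp.single_eq_of_ne' hij, smul_zero, smul_zero]
  | zero => simp
  | add x y _ _ hx hy => rw [map_add, map_add, Finsupp.add_apply, hx, hy]; simp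
  | smul c x _ hx => rw [map_smul, map_smul, Finsupp.smul_apply, hx]; simp [mul_left_comm]

variable [CharZero K] {h1 h2 : Module.End K M}
  (hh1 : ∀ j, h1 (b j) = (wt j).1 • b j) (hh2 : ∀ j, h2 (b j) = (wt j).2 • b j)

include hh1 hh2

theorem repr_ne {ν : ℤ × ℤ} {x : M} (x1 : h1 x = ν.1 • x) (x2 : h2 x = ν.2 • x) {j : J}
    (hj : b.repr x j ≠ 0) : wt j = ν := by
  have e1 := repr_diag hh1 x j
  have e2 := repr_diag hh2 x j
  rw [x1, map_zsmul, Finsupp.smul_apply] at e1
  rw [x2, map_zsmul, Finsupp.smul_apply] at e2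
  have aux : ∀ a c : ℤ, a • b.repr x j = c • b.repr x j → a = c := by
    intro a c h
    rw [zsmul_eq_mul, zsmul_eq_mul] at h
    exact_mod_cast mul_right_cancel₀ hj h
  exact Prod.ext (aux _ _ e1).symm (aux _ _ e2).symm

theorem P_of_weight {ν : ℤ × ℤ} {x : M} (x1 : h1 x = ν.1 • x) (x2 : h2 x = ν.2 • x)
    (μ : ℤ × ℤ) : P b wt μ x = if ν = μ then x else 0 := by
  apply b.ext_elem; intro j
  rw [repr_P]
  by_cases hj : b.repr x j = 0
  · rw [hj, ite_self]; split_ifs
    · exact hj.symm
    · rw [map_zero, Finsupp.zero_apply]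
  · rw [repr_ne hh1 hh2 x1 x2 hj]
    split_ifs
    · rfl
    · rw [map_zero, Finsupp.zero_apply]

omit hh2 [CharZero K] in
theorem h1_P (ν : ℤ × ℤ) (x : M) : h1 (P b wt ν x) = ν.1 • P b wt ν x := by
  apply b.ext_elem; intro j
  rw [repr_diag hh1, map_zsmul, Finsupp.smul_apply, repr_P]
  split_ifs with h
  · rw [h]
  · simp

omit hh1 [CharZero K] in
theorem h2_P (ν : ℤ × ℤ) (x : M) : h2 (P b wt ν x) = ν.2 • P b wt ν x := by
  apply b.ext_elem; intro j
  rw [repr_diag hh2, map_zsmul, Finsupp.smul_apply, repr_P]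
  split_ifs with h
  · rw [h]
  · simp

/-- An operator of weight `c` intertwines the weight projections. -/
theorem shift {T : Module.End K M} {c : ℤ × ℤ} (t1 : h1 * T = T * h1 + c.1 • T)
    (t2 : h2 * T = T * h2 + c.2 • T) (ν : ℤ × ℤ) : T * P b wt ν = P b wt (ν + c) * T := by
  apply b.ext; intro j
  rw [Module.End.mul_apply, Module.End.mul_apply, P_basis]
  have w1 : h1 (T (b j)) = ((wt j) + c).1 • T (b j) := by
    have := LinearMap.congr_fun t1 (b j)
    rw [Module.End.mul_apply, LinearMap.add_apply, Module.End.mul_apply, hh1, map_zsmul,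
      LinearMap.smul_apply, ← add_smul] at this
    exact this
  have w2 : h2 (T (b j)) = ((wt j) + c).2 • T (b j) := by
    have := LinearMap.congr_fun t2 (b j)
    rw [Module.End.mul_apply, LinearMap.add_apply, Module.End.mul_apply, hh2, map_zsmul,
      LinearMap.smul_apply, ← add_smul] at this
    exact this
  rw [P_of_weight hh1 hh2 w1 w2]
  by_cases h : wt j = ν
  · rw [if_pos h, if_pos (by rw [h])]
  · rw [if_neg h, if_neg (fun h' => h (add_right_cancel h')), map_zero]

end weights

end Pool.Agent.N4.Rep
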