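import Pool.Agent.N4.Abg.Rep2

/-! The trace lemma for `𝔰𝔩₃` acting on a finite-dimensional complex. -/

namespace Pool.Agent.N4.Rep

open Module

variable {K : Type*} [Field K] [CharZero K] {M : Type*} [AddCommGroup M] [Module K M]
  [FiniteDimensional K M] {J : Type*} {b : Basis J K M} {wt : J → ℤ × ℤ}
  {e1 e2 e3 f1 f2 f3 h1 h2 : Module.End K M}

/-- The eigenvalue of `cas` on a highest weight vector. -/
def cc (ν : ℤ × ℤ) : ℤ := ν.1 ^ 2 + ν.1 * ν.2 + ν.2 ^ 2 + 3 * ν.1 + 3 * ν.2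

/-- The basic recursion for traces. -/
theorem trace_rec (e f h T : Module.End K M) (c : ℤ × ℤ) (ν : ℤ × ℤ) (n : ℤ)
    (hef : e * f = f * e + h) (hf : f * P b wt (ν + c) = P b wt ν * f)
    (hTf : T * f = f * T) (_hTe : T * e = e * T)
    (hh : P b wt (ν + c) * h = n • P b wt (ν + c)) :
    LinearMap.trace K M (P b wt ν * (f * e) * T) =
    LinearMap.trace K M (P b wt (ν + c) * (f * e) * T)
      + n • LinearMap.trace K M (P b wt (ν + c) * T) := by
  have s1 : P b wt ν * (f * e) * T = f * (P b wt (ν + c) * (e * T)) := by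
    rw [← mul_assoc, ← mul_assoc f, hf]; simp only [mul_assoc]
  rw [s1, LinearMap.trace_mul_comm, ← map_zsmul, ← map_add]
  congr 1
  calc P b wt (ν + c) * (e * T) * f = P b wt (ν + c) * ((e * f) * T) := by
        rw [mul_assoc, mul_assoc e, hTf, ← mul_assoc e]
    _ = P b wt (ν + c) * (f * e) * T + (P b wt (ν + c) * h) * T := by
        rw [hef, add_mul, mul_add]; simp only [mul_assoc]
    _ = _ := by rw [hh, smul_mul_assoc]

section
variable (s : IsSl3 e1 e2 e3 f1 f2 f3 h1 h2)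
  (hh1 : ∀ j, h1 (b j) = (wt j).1 • b j) (hh2 : ∀ j, h2 (b j) = (wt j).2 • b j)

include hh1 hh2

omit hh2 [CharZero K] [FiniteDimensional K M] in
theorem P_h1 (ν : ℤ × ℤ) : P b wt ν * h1 = ν.1 • P b wt ν := by
  apply b.ext; intro j
  rw [Module.End.mul_apply, LinearMap.smul_apply, hh1, map_zsmul, P_basis]
  split_ifs with h
  · rw [h]
  · simp

omit hh1 [CharZero K] [FiniteDimensional K M] in
theorem P_h2 (ν : ℤ × ℤ) : P b wt ν * h2 = ν.2 • P b wt ν := by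
  apply b.ext; intro j
  rw [Module.End.mul_apply, LinearMap.smul_apply, hh2, map_zsmul, P_basis]
  split_ifs with h
  · rw [h]
  · simp

include s

/-- The trace lemma. -/
theorem trace_lemma (T : Module.End K M) (te1 : T * e1 = e1 * T) (te2 : T * e2 = e2 * T)
    (tf1 : T * f1 = f1 * T) (tf2 : T * f2 = f2 * T) (l : ℤ × ℤ) :
    LinearMap.trace K M (P b wt l * (cas e1 e2 e3 f1 f2 f3 h1 h2 - cc l • 1) * T)
    - LinearMap.trace K M (P b wt (l + (2, -1)) * (cas e1 e2 e3 f1 f2 f3 h1 h2 - cc l • 1) * T)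
    - LinearMap.trace K M (P b wt (l + (-1, 2)) * (cas e1 e2 e3 f1 f2 f3 h1 h2 - cc l • 1) * T)
    + LinearMap.trace K M (P b wt (l + (3, 0)) * (cas e1 e2 e3 f1 f2 f3 h1 h2 - cc l • 1) * T)
    + LinearMap.trace K M (P b wt (l + (0, 3)) * (cas e1 e2 e3 f1 f2 f3 h1 h2 - cc l • 1) * T)
    - LinearMap.trace K M (P b wt (l + (2, 2)) * (cas e1 e2 e3 f1 f2 f3 h1 h2 - cc l • 1) * T)
    = 0 := by
  -- commutation with e3, f3
  have he3 : e3 = e1 * e2 - e2 * e1 := by rw [s.e2e1]; abel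
  have hf3 : f3 = f2 * f1 - f1 * f2 := by rw [s.f2f1]; abel
  have te3 : T * e3 = e3 * T := by
    rw [he3, mul_sub, sub_mul, ← mul_assoc, te1, mul_assoc, te2, ← mul_assoc, ← mul_assoc T, te2,
      mul_assoc e2, te1, ← mul_assoc]
  have tf3 : T * f3 = f3 * T := by
    rw [hf3, mul_sub, sub_mul, ← mul_assoc, tf2, mul_assoc, tf1, ← mul_assoc, ← mul_assoc T, tf1,
      mul_assoc f1, tf2, ← mul_assoc]
  -- shifts
  have sf1 : ∀ ν, f1 * P b wt (ν + (2, -1)) = P b wt ν * f1 := by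
    intro ν
    have := shift (b := b) (wt := wt) hh1 hh2 (T := f1) (c := (-2, 1)) (by rw [s.h1f1]; simp [sub_eq_add_neg])
      (by rw [s.h2f1]; simp) (ν + (2, -1))
    rw [this]; congr 2; ext <;> simp
  have sf2 : ∀ ν, f2 * P b wt (ν + (-1, 2)) = P b wt ν * f2 := by
    intro ν
    have := shift (b := b) (wt := wt) hh1 hh2 (T := f2) (c := (1, -2)) (by rw [s.h1f2]; simp)
      (by rw [s.h2f2]; simp [sub_eq_add_neg]) (ν + (-1, 2))
    rw [this]; congr 2; ext <;> simp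
  have sf3 : ∀ ν, f3 * P b wt (ν + (1, 1)) = P b wt ν * f3 := by
    intro ν
    have := shift (b := b) (wt := wt) hh1 hh2 (T := f3) (c := (-1, -1))
      (by rw [s.h1f3]; simp [sub_eq_add_neg])
      (by rw [s.h2f3]; simp [sub_eq_add_neg]) (ν + (1, 1))
    rw [this]; congr 2; ext <;> simp
  have ph1 := P_h1 (b := b) (wt := wt) hh1
  have ph2 := P_h2 (b := b) (wt := wt) hh2
  have ph3 : ∀ ν : ℤ × ℤ, P b wt ν * (h1 + h2) = (ν.1 + ν.2) • P b wt ν := by
    intro ν; rw [mul_add, ph1, ph2, add_smul]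
  have r1 := fun ν => trace_rec e1 f1 h1 T (2, -1) ν _ s.e1f1 (sf1 ν) tf1 te1 (ph1 _)
  have r2 := fun ν => trace_rec e2 f2 h2 T (-1, 2) ν _ s.e2f2 (sf2 ν) tf2 te2 (ph2 _)
  have r3 := fun ν => trace_rec e3 f3 (h1 + h2) T (1, 1) ν _ s.e3f3 (sf3 ν) tf3 te3 (ph3 _)
  have key : ∀ ν : ℤ × ℤ,
      LinearMap.trace K M (P b wt ν * (cas e1 e2 e3 f1 f2 f3 h1 h2 - cc l • 1) * T) =
      ((cc ν - cc l : ℤ) : K) * LinearMap.trace K M (P b wt ν * T)
      + 3 * (LinearMap.trace K M (P b wt ν * (f1 * e1) * T)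
      + LinearMap.trace K M (P b wt ν * (f2 * e2) * T)
      + LinearMap.trace K M (P b wt ν * (f3 * e3) * T)) := by
    intro ν
    have h : P b wt ν * (cas e1 e2 e3 f1 f2 f3 h1 h2 - cc l • 1) * T =
        (cc ν - cc l) • (P b wt ν * T) + (3 : ℤ) • (P b wt ν * (f1 * e1) * T
        + P b wt ν * (f2 * e2) * T + P b wt ν * (f3 * e3) * T) := by
      unfold cas
      have a1 : P b wt ν * (h1 * h1) = (ν.1 * ν.1) • P b wt ν := by
        rw [← mul_assoc, ph1, smul_mul_assoc, ph1, smul_smul]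
      have a2 : P b wt ν * (h1 * h2) = (ν.1 * ν.2) • P b wt ν := by
        rw [← mul_assoc, ph1, smul_mul_assoc, ph2, smul_smul]
      have a3 : P b wt ν * (h2 * h2) = (ν.2 * ν.2) • P b wt ν := by
        rw [← mul_assoc, ph2, smul_mul_assoc, ph2, smul_smul]
      simp only [mul_add, mul_sub, a1, a2, a3, mul_smul_comm, ph1, ph2, add_mul, sub_mul,
        smul_mul_assoc, mul_one, cc]
      module
    rw [h, map_add, map_zsmul, map_zsmul, map_add, map_add, zsmul_eq_mul, zsmul_eq_mul]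
    norm_num
  rw [key, key, key, key, key, key]
  have q11 := r1 l
  have q12 := r1 (l + (-1, 2))
  have q13 := r1 (l + (1, 1))
  have q14 := r1 (l + (0, 3))
  have q21 := r2 l
  have q22 := r2 (l + (2, -1))
  have q23 := r2 (l + (1, 1))
  have q24 := r2 (l + (3, 0))
  have q31 := r3 l
  have q32 := r3 (l + (1, 1))
  have q33 := r3 (l + (2, -1))
  have q34 := r3 (l + (-1, 2))
  have v1 : ((-1, 2) : ℤ × ℤ) + (2, -1) = (1, 1) := rfl
  have v2 : ((1, 1) : ℤ × ℤ) + (2, -1) = (3, 0) := rfl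
  have v3 : ((0, 3) : ℤ × ℤ) + (2, -1) = (2, 2) := rfl
  have v4 : ((2, -1) : ℤ × ℤ) + (-1, 2) = (1, 1) := rfl
  have v5 : ((1, 1) : ℤ × ℤ) + (-1, 2) = (0, 3) := rfl
  have v6 : ((3, 0) : ℤ × ℤ) + (-1, 2) = (2, 2) := rfl
  have v7 : ((1, 1) : ℤ × ℤ) + (1, 1) = (2, 2) := rfl
  have v8 : ((2, -1) : ℤ × ℤ) + (1, 1) = (3, 0) := rfl
  have v9 : ((-1, 2) : ℤ × ℤ) + (1, 1) = (0, 3) := rfl
  simp only [add_assoc, v1, v2, v3, v4, v5, v6, v7, v8, v9, zsmul_eq_mul, Prod.fst_add,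
    Prod.snd_add, cc] at q11 q12 q13 q14 q21 q22 q23 q24 q31 q32 q33 q34 ⊢
  push_cast at q11 q12 q13 q14 q21 q22 q23 q24 q31 q32 q33 q34 ⊢
  linear_combination 3 * q11 - 3 * q12 - 3 * q13 + 3 * q14 + 3 * q21 - 3 * q22 - 3 * q23 + 3 * q24
    + 3 * q31 + 3 * q32 - 3 * q33 - 3 * q34
end

end Pool.Agent.N4.Rep
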