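import Pool.Agent.N4.Abg.Hw2

/-! Trivial and adjoint submodules of finite-dimensional `𝔰𝔩₃`-modules are direct summands. -/

set_option linter.unusedSimpArgs false
set_option linter.unusedSectionVars false

namespace Pool.Agent.N4.Rep

open Module LieAlgebra.SpecialLinear

attribute [local instance 100] LieRing.ofAssociativeRing

section wts
variable {K : Type*} [Field K] [CharZero K] {M : Type*} [AddCommGroup M] [Module K M]
  {J : Type*} [Fintype J] {b : Basis J K M} {wt : J → ℤ × ℤ} {h1 h2 : Module.End K M}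
  (hh1 : ∀ j, h1 (b j) = (wt j).1 • b j) (hh2 : ∀ j, h2 (b j) = (wt j).2 • b j)

include hh1 hh2

theorem nilp_vec {T : Module.End K M} {c : ℤ × ℤ} (hc : c ≠ 0) (t1 : h1 * T = T * h1 + c.1 • T)
    (t2 : h2 * T = T * h2 + c.2 • T) {ν : ℤ × ℤ} {z : M} (z1 : h1 z = ν.1 • z)
    (z2 : h2 z = ν.2 • z) : ∃ N : ℕ, (T ^ N) z = 0 := by
  by_contra hcon
  push Not at hcon
  have hw1 : ∀ N : ℕ, h1 ((T ^ N) z) = (ν + N • c).1 • (T ^ N) z := by
    intro N
    induction N with
    | zero => simp [z1]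
    | succ N ih =>
      have := LinearMap.congr_fun t1 ((T ^ N) z)
      rw [Module.End.mul_apply, LinearMap.add_apply, Module.End.mul_apply, ih, map_zsmul,
        LinearMap.smul_apply, ← add_smul] at this
      rw [pow_succ', Module.End.mul_apply, this]
      congr 1
      simp [add_mul, add_assoc]
  have hw2 : ∀ N : ℕ, h2 ((T ^ N) z) = (ν + N • c).2 • (T ^ N) z := by
    intro N
    induction N with
    | zero => simp [z2]
    | succ N ih =>
      have := LinearMap.congr_fun t2 ((T ^ N) z)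
      rw [Module.End.mul_apply, LinearMap.add_apply, Module.End.mul_apply, ih, map_zsmul,
        LinearMap.smul_apply, ← add_smul] at this
      rw [pow_succ', Module.End.mul_apply, this]
      congr 1
      simp [add_mul, add_assoc]
  have hex : ∀ N : ℕ, ∃ j : J, wt j = ν + N • c := by
    intro N
    have hne : b.repr ((T ^ N) z) ≠ 0 := by
      intro h0
      exact hcon N (by simpa using h0)
    obtain ⟨j, hj⟩ := Finsupp.ne_iff.1 hne
    rw [Finsupp.zero_apply] at hj
    exact ⟨j, repr_ne hh1 hh2 (hw1 N) (hw2 N) hj⟩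
  choose S hS using hex
  obtain ⟨p, q, hab, h⟩ := Finite.exists_ne_map_eq_of_infinite S
  have h3 : ν + p • c = ν + q • c := by rw [← hS, ← hS, h]
  have h4 : (p : ℤ) • c = (q : ℤ) • c := by
    rw [natCast_zsmul, natCast_zsmul]; exact add_left_cancel h3
  rw [← sub_eq_zero, ← sub_smul] at h4
  rcases smul_eq_zero.1 h4 with h5 | h5
  · exact hab (by omega)
  · exact hc h5

theorem nilp_all {T : Module.End K M} {c : ℤ × ℤ} (hc : c ≠ 0) (t1 : h1 * T = T * h1 + c.1 • T)
    (t2 : h2 * T = T * h2 + c.2 • T) : ∃ N : ℕ, T ^ N = 0 := by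
  have h := fun j => nilp_vec hh1 hh2 hc t1 t2 (hh1 j) (hh2 j)
  choose N hN using h
  refine ⟨Finset.univ.sup N, b.ext fun j => ?_⟩
  have hle : N j ≤ Finset.univ.sup N := Finset.le_sup (Finset.mem_univ j)
  obtain ⟨r, hr⟩ := Nat.exists_eq_add_of_le' hle
  rw [hr, pow_add, Module.End.mul_apply, hN, map_zero, LinearMap.zero_apply]

end wts

section hw
variable {K : Type*} [Field K] [CharZero K] {M : Type*} [AddCommGroup M] [Module K M]
  {J : Type*} [Fintype J] {b : Basis J K M} {wt : J → ℤ × ℤ}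
  {e1 e2 e3 f1 f2 f3 h1 h2 : Module.End K M}
  (s : IsSl3 e1 e2 e3 f1 f2 f3 h1 h2)
  (hh1 : ∀ j, h1 (b j) = (wt j).1 • b j) (hh2 : ∀ j, h2 (b j) = (wt j).2 • b j)

include s hh1 hh2

/-- Weights of the generalised eigenspace of the Casimir operator. -/
theorem weight_le (l : ℤ × ℤ) (hl : ∀ p q : ℕ, cc (p, q) = cc l → ((p, q) : ℤ × ℤ) = l) (m : ℕ)
    {μ : ℤ × ℤ} {z : M} (hz : z ≠ 0) (hzm : P b wt μ z = z)
    (hQ : ((cas e1 e2 e3 f1 f2 f3 h1 h2 - cc l • 1) ^ m) z = 0) :
    ∃ p q : ℕ, l = μ + p • (2, -1) + q • (-1, 2) := by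
  classical
  set Q := cas e1 e2 e3 f1 f2 f3 h1 h2 - cc l • 1 with hQdef
  have cQ : ∀ x, Commute (cas e1 e2 e3 f1 f2 f3 h1 h2) x → Commute Q x := fun x hx =>
    hx.sub_left (comm_zsmul (Commute.one_right _) _).symm
  have hQe1 : Commute Q e1 := cQ _ (cas_e1 s)
  have hQe2 : Commute Q e2 := cQ _ (cas_e2 s)
  have hPe1 : ∀ ν, e1 * P b wt ν = P b wt (ν + (2, -1)) * e1 := by
    intro ν
    exact shift (b := b) (wt := wt) hh1 hh2 (T := e1) (c := (2, -1))
      (by rw [s.e1h1]; abel) (by rw [s.e1h2]; simp) ν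
  have hPe2 : ∀ ν, e2 * P b wt ν = P b wt (ν + (-1, 2)) * e2 := by
    intro ν
    exact shift (b := b) (wt := wt) hh1 hh2 (T := e2) (c := (-1, 2))
      (by rw [s.e2h1]; simp) (by rw [s.e2h2]; abel) ν
  have hmemI : ∀ (ν : ℤ × ℤ) (w : M), w ≠ 0 → P b wt ν w = w → ν ∈ Finset.univ.image wt := by
    intro ν w hw hP
    by_contra hnm
    apply hw
    rw [← hP]
    apply P_eq_zero
    intro j hj
    exact hnm (Finset.mem_image.2 ⟨j, Finset.mem_univ j, hj⟩)
  let Bad : ℤ × ℤ → Prop := fun ν => (∃ p q : ℕ, ν = μ + p • (2, -1) + q • (-1, 2)) ∧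
    ∃ w, w ≠ 0 ∧ P b wt ν w = w ∧ (Q ^ m) w = 0
  have hBad : Bad μ := ⟨⟨0, 0, by simp⟩, z, hz, hzm, hQ⟩
  obtain ⟨ν, hν, hmax⟩ := Finset.exists_max_image ((Finset.univ.image wt).filter Bad)
    (fun ν => ν.1 + ν.2) ⟨μ, Finset.mem_filter.2 ⟨hmemI μ z hz hzm, hBad⟩⟩
  obtain ⟨⟨p, q, hpq⟩, w, hw, hw1, hw2⟩ := (Finset.mem_filter.1 hν).2
  have step : ∀ (e : Module.End K M) (c : ℤ × ℤ), 0 < c.1 + c.2 →
      (∃ p q : ℕ, ν + c = μ + p • (2, -1) + q • (-1, 2)) →
      (e * P b wt ν = P b wt (ν + c) * e) → Commute Q e → e w = 0 := by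
    intro e c hc hpq' hPe hQe
    by_contra hne
    have hP : P b wt (ν + c) (e w) = e w := by
      rw [← Module.End.mul_apply, ← hPe, Module.End.mul_apply, hw1]
    have hb : Bad (ν + c) := by
      refine ⟨hpq', e w, hne, hP, ?_⟩
      have : Q ^ m * e = e * Q ^ m := (Commute.pow_left hQe m)
      rw [← Module.End.mul_apply, this, Module.End.mul_apply, hw2, map_zero]
    have := hmax (ν + c) (Finset.mem_filter.2 ⟨hmemI _ _ hne hP, hb⟩)
    simp only [Prod.fst_add, Prod.snd_add] at this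
    omega
  have w1 : e1 w = 0 := step e1 (2, -1) (by norm_num)
    ⟨p + 1, q, by rw [hpq, add_smul, one_smul]; abel⟩ (hPe1 ν) hQe1
  have w2 : e2 w = 0 := step e2 (-1, 2) (by norm_num)
    ⟨p, q + 1, by rw [hpq, add_smul, one_smul]; abel⟩ (hPe2 ν) hQe2
  have w3 : e3 w = 0 := by
    have he3 : e3 = e1 * e2 - e2 * e1 := by rw [s.e2e1]; abel
    rw [he3, LinearMap.sub_apply, Module.End.mul_apply, Module.End.mul_apply, w1, w2, map_zero,
      map_zero, sub_zero]
  have k1 : h1 w = ν.1 • w := by rw [← hw1]; exact h1_P hh1 _ _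
  have k2 : h2 w = ν.2 • w := by rw [← hw1]; exact h2_P hh2 _ _
  have hQw : Q w = (cc ν - cc l) • w := by
    rw [hQdef]
    unfold cas
    simp only [LinearMap.sub_apply, LinearMap.add_apply, Module.End.mul_apply,
      LinearMap.smul_apply, Module.End.one_apply, k1, k2, w1, w2, w3, map_zsmul, map_zero, cc]
    module
  have hpow : ∀ k : ℕ, (Q ^ k) w = ((cc ν - cc l) ^ k) • w := by
    intro k
    induction k with
    | zero => simp
    | succ k ih =>
      rw [pow_succ', Module.End.mul_apply, ih, map_zsmul, hQw, pow_succ, mul_smul]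
  have hcc : cc ν = cc l := by
    have h3 := hpow m
    rw [hw2] at h3
    by_contra hne
    have hc : (((cc ν - cc l) ^ m : ℤ) : K) ≠ 0 := by
      exact_mod_cast pow_ne_zero m (sub_ne_zero.2 hne)
    have h4 : (((cc ν - cc l) ^ m : ℤ) : K) • w = 0 := by
      rw [Int.cast_smul_eq_zsmul]; exact h3.symm
    exact hw ((smul_eq_zero.1 h4).resolve_left hc)
  obtain ⟨x, hx, -⟩ := sl2_dominant s.e1f1 s.h1f1 w1 k1 hw
    (nilp_vec hh1 hh2 (T := f1) (c := (-2, 1)) (by decide)
      (by rw [s.h1f1, neg_smul, sub_eq_add_neg]) (by rw [s.h2f1, one_smul]) k1 k2)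
  obtain ⟨y, hy, -⟩ := sl2_dominant s.e2f2 s.h2f2 w2 k2 hw
    (nilp_vec hh1 hh2 (T := f2) (c := (1, -2)) (by decide)
      (by rw [s.h1f2, one_smul]) (by rw [s.h2f2, neg_smul, sub_eq_add_neg]) k1 k2)
  have hνxy : ν = ((x : ℤ), (y : ℤ)) := Prod.ext hx hy
  have hνl : ν = l := by
    rw [hνxy]
    apply hl
    rw [← hνxy, hcc]
  exact ⟨p, q, by rw [← hνl, hpq]⟩

end hw

section func
variable {K : Type*} [Field K] [CharZero K] {M : Type*} [AddCommGroup M] [Module K M]
  [FiniteDimensional K M] {J : Type*} [Fintype J] {b : Basis J K M} {wt : J → ℤ × ℤ}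
  {e1 e2 e3 f1 f2 f3 h1 h2 : Module.End K M}
  (s : IsSl3 e1 e2 e3 f1 f2 f3 h1 h2)
  (hh1 : ∀ j, h1 (b j) = (wt j).1 • b j) (hh2 : ∀ j, h2 (b j) = (wt j).2 • b j)

include s hh1 hh2

/-- A functional which is a highest weight vector of the contravariant dual. -/
theorem exists_functional (l : ℤ × ℤ) (hl : ∀ p q : ℕ, cc (p, q) = cc l → ((p, q) : ℤ × ℤ) = l)
    {v : M} (hv : v ≠ 0) (v1 : e1 v = 0) (v2 : e2 v = 0) (k1 : h1 v = l.1 • v)
    (k2 : h2 v = l.2 • v) : ∃ φ : M →ₗ[K] K, φ v = 1 ∧ (∀ x, φ (f1 x) = 0) ∧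
    (∀ x, φ (f2 x) = 0) ∧ (∀ x, φ (h1 x) = l.1 • φ x) ∧ ∀ x, φ (h2 x) = l.2 • φ x := by
  classical
  set Q := cas e1 e2 e3 f1 f2 f3 h1 h2 - cc l • 1 with hQ
  obtain ⟨p, m, hpm⟩ := fitting Q
  set T0 := Polynomial.aeval Q p * Q ^ m with hT0
  set R := 1 - Q * T0 with hR
  have cT0 : ∀ S, Commute S Q → Commute S T0 := fun S h =>
    Commute.mul_right (commute_aeval h p) (h.pow_right m)
  have cR : ∀ S, Commute S Q → Commute S R := fun S h =>
    (Commute.one_right S).sub_right (h.mul_right (cT0 S h))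
  have cas' : ∀ x, Commute (cas e1 e2 e3 f1 f2 f3 h1 h2) x → Commute x Q := fun x hx =>
    hx.symm.sub_right (comm_zsmul (Commute.one_right _) _)
  have v3 : e3 v = 0 := by
    have he3 : e3 = e1 * e2 - e2 * e1 := by rw [s.e2e1]; abel
    rw [he3, LinearMap.sub_apply, Module.End.mul_apply, Module.End.mul_apply, v1, v2, map_zero,
      map_zero, sub_zero]
  have hQv : Q v = 0 := by
    rw [hQ]
    unfold cas
    simp only [LinearMap.sub_apply, LinearMap.add_apply, Module.End.mul_apply,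
      LinearMap.smul_apply, Module.End.one_apply, k1, k2, v1, v2, v3, map_zsmul, map_zero, cc]
    module
  have hRv : R v = v := by
    have h3 : Q * T0 = T0 * Q := (cT0 Q (Commute.refl Q)).eq
    rw [hR, h3, LinearMap.sub_apply, Module.End.mul_apply, hQv, map_zero, sub_zero,
      Module.End.one_apply]
  have hQR : ∀ z, (Q ^ m) (R z) = 0 := by
    intro z
    rw [← Module.End.mul_apply, hpm, LinearMap.zero_apply]
  obtain ⟨φ0, hφ0⟩ : ∃ φ0 : M →ₗ[K] K, φ0 v = 1 := by
    have h3 : ¬ ∀ φ : Module.Dual K M, φ v = 0 := fun h =>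
      hv ((Module.forall_dual_apply_eq_zero_iff K v).1 h)
    push Not at h3
    obtain ⟨φ, hφ⟩ := h3
    exact ⟨(φ v)⁻¹ • φ, by simp [hφ]⟩
  have hPe : ∀ (f : Module.End K M) (c : ℤ × ℤ), Commute f Q →
      (∀ ν, f * P b wt ν = P b wt (ν + c) * f) →
      (∀ p q : ℕ, l ≠ l - c + p • (2, -1) + q • (-1, 2)) →
      ∀ x, (P b wt l) (R (f x)) = 0 := by
    intro f c hfQ hf hne x
    have e1 : R (f x) = f (R x) := by
      rw [← Module.End.mul_apply, ← (cR f hfQ).eq, Module.End.mul_apply]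
    have e2 : P b wt l (f (R x)) = f (P b wt (l - c) (R x)) := by
      have := LinearMap.congr_fun (hf (l - c)) (R x)
      rw [sub_add_cancel, Module.End.mul_apply, Module.End.mul_apply] at this
      exact this.symm
    have e3 : P b wt (l - c) (R x) = 0 := by
      by_contra hz
      have hPQ : ∀ ν, Q * P b wt ν = P b wt ν * Q := by
        intro ν
        have hQh1 : Commute h1 Q := cas' _ (cas_h1 s)
        have hQh2 : Commute h2 Q := cas' _ (cas_h2 s)
        have := shift (b := b) (wt := wt) hh1 hh2 (T := Q) (c := (0, 0))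
          (by rw [hQh1.eq]; simp) (by rw [hQh2.eq]; simp) ν
        rw [this]; congr 2; ext <;> simp
      obtain ⟨p, q, hpq⟩ := weight_le s hh1 hh2 l hl m hz (P_idem _ _ _ _) (by
        rw [← hQ]
        have : Q ^ m * P b wt (l - c) = P b wt (l - c) * Q ^ m :=
          (Commute.pow_left (hPQ (l - c)) m)
        rw [← Module.End.mul_apply, this, Module.End.mul_apply, hQR, map_zero])
      exact hne p q hpq
    rw [e1, e2, e3, map_zero]
  have hPh : ∀ (h : Module.End K M) (c : ℤ), Commute h Q →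
      (∀ x, P b wt l (h x) = c • P b wt l x) →
      ∀ x, (P b wt l) (R (h x)) = c • P b wt l (R x) := by
    intro h c hhQ hP x
    have e1 : R (h x) = h (R x) := by
      rw [← Module.End.mul_apply, ← (cR h hhQ).eq, Module.End.mul_apply]
    rw [e1, hP]
  refine ⟨φ0 ∘ₗ P b wt l ∘ₗ R, ?_, ?_, ?_, ?_, ?_⟩
  · rw [LinearMap.comp_apply, LinearMap.comp_apply, hRv, P_of_weight hh1 hh2 k1 k2, if_pos rfl,
      hφ0]
  · intro x
    rw [LinearMap.comp_apply, LinearMap.comp_apply, hPe f1 (-2, 1) (cas' _ (cas_f1 s)) (fun ν =>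
      shift (b := b) (wt := wt) hh1 hh2 (T := f1) (c := (-2, 1))
        (by rw [s.h1f1, neg_smul, sub_eq_add_neg]) (by rw [s.h2f1, one_smul]) ν) (by
      intro p q h
      have h3 := congrArg (fun x : ℤ × ℤ => x.1 + x.2) h
      simp at h3
      omega), map_zero]
  · intro x
    rw [LinearMap.comp_apply, LinearMap.comp_apply, hPe f2 (1, -2) (cas' _ (cas_f2 s)) (fun ν =>
      shift (b := b) (wt := wt) hh1 hh2 (T := f2) (c := (1, -2))
        (by rw [s.h1f2, one_smul]) (by rw [s.h2f2, neg_smul, sub_eq_add_neg]) ν) (by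
      intro p q h
      have h3 := congrArg (fun x : ℤ × ℤ => x.1 + x.2) h
      simp at h3
      omega), map_zero]
  · intro x
    rw [LinearMap.comp_apply, LinearMap.comp_apply, hPh h1 l.1 (cas' _ (cas_h1 s)) (fun y => by
      rw [← Module.End.mul_apply, P_h1 hh1, LinearMap.smul_apply]), map_zsmul]
    rfl
  · intro x
    rw [LinearMap.comp_apply, LinearMap.comp_apply, hPh h2 l.2 (cas' _ (cas_h2 s)) (fun y => by
      rw [← Module.End.mul_apply, P_h2 hh2, LinearMap.smul_apply]), map_zsmul]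
    rfl

end func

end Pool.Agent.N4.Rep
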