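import Mathlib

/-! Alternative algebras, free alternative algebras, and the Allison–Benkart–Gao Lie algebra. -/

open scoped TensorProduct

namespace Pool.Agent.N4.Abg

universe u

/-- An alternative (not necessarily unital) ring: `(pp)q = p(pq)` and `(qp)p = q(pp)`. -/
class AltRing (A : Type*) [NonUnitalNonAssocRing A] : Prop where
  left_alt : ∀ p q : A, (p * p) * q = p * (p * q)
  right_alt : ∀ p q : A, (q * p) * p = q * (p * p)

/-- `A`, with the linear map `i : V → A`, is the free non-unital alternative algebra on the vector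
space `V`: every linear map from `V` to an alternative algebra `B` extends uniquely to an algebra
homomorphism `A → B`. -/
def IsFreeAlt (K V A : Type u) [Field K] [AddCommGroup V] [Module K V] [NonUnitalNonAssocRing A]
    [Module K A] (i : V →ₗ[K] A) : Prop :=
  ∀ (B : Type u) [NonUnitalNonAssocRing B] [Module K B] [IsScalarTower K B B]
    [SMulCommClass K B B] [AltRing B] (f : V →ₗ[K] B), ∃! φ : A →ₙₐ[K] B, ∀ v, φ (i v) = f v

section sl3
variable (K : Type*) [Field K]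

/-- `𝔰𝔩₃`: the `3 × 3` matrices of trace zero. -/
def S3 : Type _ := LinearMap.ker (Matrix.traceLinearMap (Fin 3) K K)

noncomputable instance : AddCommGroup (S3 K) :=
  Submodule.addCommGroup (LinearMap.ker (Matrix.traceLinearMap (Fin 3) K K))

noncomputable instance : Module K (S3 K) :=
  Submodule.module (LinearMap.ker (Matrix.traceLinearMap (Fin 3) K K))

variable {K}

theorem trace_br (X Y : S3 K) : Matrix.trace (X.1 * Y.1 - Y.1 * X.1) = 0 := by
  rw [Matrix.trace_sub, Matrix.trace_mul_comm, sub_self]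

/-- `[X, Y] = XY - YX` on `𝔰𝔩₃`. -/
def brS3 (X Y : S3 K) : S3 K := ⟨X.1 * Y.1 - Y.1 * X.1, trace_br X Y⟩

theorem trace_an [CharZero K] (X Y : S3 K) : Matrix.trace ((1 / 2 : K) • (X.1 * Y.1 + Y.1 * X.1)
    - (1 / 3 * Matrix.trace (X.1 * Y.1)) • (1 : Matrix (Fin 3) (Fin 3) K)) = 0 := by
  rw [Matrix.trace_sub, Matrix.trace_smul, Matrix.trace_smul, Matrix.trace_add, Matrix.trace_one,
    Matrix.trace_mul_comm Y.1, Fintype.card_fin]
  simp only [smul_eq_mul]
  push_cast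
  ring

/-- `{X, Y} = (XY + YX)/2 - tr(XY) I/3` on `𝔰𝔩₃`. -/
def anS3 [CharZero K] (X Y : S3 K) : S3 K :=
  ⟨(1 / 2 : K) • (X.1 * Y.1 + Y.1 * X.1)
    - (1 / 3 * Matrix.trace (X.1 * Y.1)) • (1 : Matrix (Fin 3) (Fin 3) K), trace_an X Y⟩

theorem brS3_add (X Y Z : S3 K) : brS3 X (Y + Z) = brS3 X Y + brS3 X Z := by
  apply Subtype.ext
  show X.1 * (Y.1 + Z.1) - (Y.1 + Z.1) * X.1 = (X.1 * Y.1 - Y.1 * X.1) + (X.1 * Z.1 - Z.1 * X.1)
  rw [mul_add, add_mul]; abel

theorem brS3_smul (c : K) (X Y : S3 K) : brS3 X (c • Y) = c • brS3 X Y := by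
  apply Subtype.ext
  show X.1 * (c • Y.1) - (c • Y.1) * X.1 = c • (X.1 * Y.1 - Y.1 * X.1)
  rw [mul_smul_comm, smul_mul_assoc, smul_sub]

/-- The adjoint representation of `𝔰𝔩₃`. -/
def adS3 (X : S3 K) : S3 K →ₗ[K] S3 K where
  toFun := brS3 X
  map_add' := brS3_add X
  map_smul' c := brS3_smul c X

end sl3

section
variable (K : Type*) [Field K] (A : Type*) [NonUnitalNonAssocRing A] [Module K A]

/-- The relations defining `𝓑(A)` as a quotient of `A ⊗ A`: `p ⊗ p` (so that the quotient by these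
is `Λ²(A)`) and `pq ⊗ r + qr ⊗ p + rp ⊗ q`. -/
def relB : Submodule K (A ⊗[K] A) :=
  Submodule.span K ({x | ∃ p : A, x = p ⊗ₜ p} ∪
    {x | ∃ p q r : A, x = (p * q) ⊗ₜ r + (q * r) ⊗ₜ p + (r * p) ⊗ₜ q})

/-- `𝓑(A) = Λ²(A) / span {pq ∧ r + qr ∧ p + rp ∧ q}`. -/
def BA : Type _ := (A ⊗[K] A) ⧸ relB K A

noncomputable instance : AddCommGroup (BA K A) := Submodule.Quotient.addCommGroup (relB K A)

noncomputable instance : Module K (BA K A) := Submodule.Quotient.module (relB K A)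

/-- The vector space `𝔰𝔩₃ ⊗ A ⊕ 𝓑(A)`. -/
def MM : Type _ := (S3 K ⊗[K] A) × BA K A

noncomputable instance : AddCommGroup (MM K A) :=
  Prod.instAddCommGroup (G := S3 K ⊗[K] A) (H := BA K A)

noncomputable instance : Module K (MM K A) :=
  Prod.instModule (R := K) (M := S3 K ⊗[K] A) (N := BA K A)

variable {K A}

/-- The element `X ⊗ p` of `𝔰𝔩₃ ⊗ A ⊕ 𝓑(A)`. -/
noncomputable def tS (X : S3 K) (p : A) : MM K A := (X ⊗ₜ[K] p, 0)

variable (K) in
/-- The element `p ∧ q` of `𝔰𝔩₃ ⊗ A ⊕ 𝓑(A)`. -/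
noncomputable def wS (p q : A) : MM K A := (0, (Submodule.Quotient.mk (p ⊗ₜ[K] q) : (A ⊗[K] A) ⧸ relB K A))

/-- The action of `X ∈ 𝔰𝔩₃` on `𝔰𝔩₃ ⊗ A ⊕ 𝓑(A)`: `Y ⊗ p ↦ [X, Y] ⊗ p`, and `0` on `𝓑(A)`. -/
noncomputable def actM (X : S3 K) : MM K A →ₗ[K] MM K A :=
  LinearMap.prodMap (LinearMap.rTensor A (adS3 X)) (0 : BA K A →ₗ[K] BA K A)

variable [IsScalarTower K A A] [SMulCommClass K A A]

variable (K) in
/-- `D_{p,q} = [L_p, L_q] + [R_p, R_q] + [L_p, R_q]`. -/
def DD (p q : A) : Module.End K A :=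
  (LinearMap.mulLeft K p * LinearMap.mulLeft K q - LinearMap.mulLeft K q * LinearMap.mulLeft K p)
  + (LinearMap.mulRight K p * LinearMap.mulRight K q
      - LinearMap.mulRight K q * LinearMap.mulRight K p)
  + (LinearMap.mulLeft K p * LinearMap.mulRight K q - LinearMap.mulRight K q * LinearMap.mulLeft K p)

end

section
variable {K A L : Type*} [Field K] [CharZero K] [NonUnitalNonAssocRing A] [Module K A]
  [IsScalarTower K A A] [SMulCommClass K A A] [LieRing L] [LieAlgebra K L]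

/-- The Lie algebra `L`, identified by `e` with `𝔰𝔩₃ ⊗ A ⊕ 𝓑(A)`, is the Allison–Benkart–Gao Lie
algebra of `A`. -/
structure IsABG (e : MM K A →ₗ[K] L) : Prop where
  bij : Function.Bijective e
  sl_sl : ∀ (X Y : S3 K) (p q : A), ⁅e (tS X p), e (tS Y q)⁆ =
    e (tS (brS3 X Y) ((1 / 2 : K) • (p * q + q * p)) + tS (anS3 X Y) (p * q - q * p)
      + (1 / 3 * Matrix.trace (X.1 * Y.1)) • wS K p q)
  b_sl : ∀ (p q r : A) (X : S3 K), ⁅e (wS K p q), e (tS X r)⁆ = e (tS X (DD K p q r))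
  b_b : ∀ p q r s : A, ⁅e (wS K p q), e (wS K r s)⁆ =
    e (wS K (DD K p q r) s + wS K r (DD K p q s))

/-- The action of `X ∈ 𝔰𝔩₃` on the Allison–Benkart–Gao Lie algebra. -/
noncomputable def actL {e : MM K A →ₗ[K] L} (h : IsABG e) (X : S3 K) : L →ₗ[K] L :=
  e ∘ₗ actM X ∘ₗ (LinearEquiv.ofBijective e h.bij).symm.toLinearMap

end

section
variable {K S U W : Type*} [Field K] [AddCommGroup U] [Module K U] [AddCommGroup W] [Module K W]

/-- The operators `σ X` on `U` (`X ∈ S`) are isomorphic to a direct summand of the operators `ρ X`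
on `W`: there are complementary invariant subspaces `N`, `N'` of `W` and an equivariant
isomorphism `U ≃ N`. -/
def IsSummand (σ : S → U →ₗ[K] U) (ρ : S → W →ₗ[K] W) : Prop :=
  ∃ N N' : Submodule K W, IsCompl N N' ∧ (∀ X, ∀ w ∈ N, ρ X w ∈ N) ∧
    (∀ X, ∀ w ∈ N', ρ X w ∈ N') ∧ ∃ f : U ≃ₗ[K] N, ∀ X u, ρ X (f u) = f (σ X u)

end

end Pool.Agent.N4.Abg
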