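import Pool.Agent.N4.Abg.Words

/-! Free alternative algebras: universal property. -/

set_option linter.unusedSectionVars false

namespace Pool.Agent.N4.Abg

open Module

universe u v w

theorem FreeAlt.hom_ext {K : Type u} {X : Type v} [Field K] {B : Type w} [NonUnitalNonAssocRing B]
    [Module K B] [IsScalarTower K B B] [SMulCommClass K B B] {φ ψ : FreeAlt K X →ₙₐ[K] B}
    (h : ∀ x, φ (FreeAlt.of K X x) = ψ (FreeAlt.of K X x)) : φ = ψ := by
  have h1 : φ.comp (FreeAlt.mk K X) = ψ.comp (FreeAlt.mk K X) := by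
    apply FreeNonUnitalNonAssocAlgebra.hom_ext
    intro x
    exact h x
  ext x
  obtain ⟨a, rfl⟩ := FreeAlt.mk_surjective K X x
  exact congrArg (fun f => f a) h1

/-- Words in the free alternative algebra. -/
noncomputable def wdFree (K : Type u) [Field K] (X : Type) : WD K (FreeAlt K X) X where
  w := FreeAlt.word K
  hmul := FreeAlt.word_mul K
  hspan := FreeAlt.span_word K
  dl := FreeAlt.Edeg K
  hdl := FreeAlt.Edeg_mul K
  hdlw := FreeAlt.Edeg_word K
  ta := (toAssoc (K := K) (X := X) : FreeAlt K X →ₗ[K] MonoidAlgebra K (FreeMonoid X))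
  hta := toAssoc_word

/-- Transport of words. -/
noncomputable def WD.trans {K A B : Type*} {X : Type} [Field K] [NonUnitalNonAssocRing A]
    [Module K A] [NonUnitalNonAssocRing B] [Module K B] (W : WD K B X) (ψ : A →ₙₐ[K] B)
    (χ : B →ₙₐ[K] A) (h1 : ∀ b, ψ (χ b) = b) (h2 : ∀ a, χ (ψ a) = a) : WD K A X where
  w m := χ (W.w m)
  hmul m n := by rw [W.hmul, map_mul]
  hspan := by
    have h : Submodule.span K (Set.range fun m => χ (W.w m)) =
        (Submodule.span K (Set.range W.w)).map (χ : B →ₗ[K] A) := by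
      rw [Submodule.map_span, ← Set.range_comp]
      rfl
    rw [h, W.hspan, Submodule.map_top, LinearMap.range_eq_top]
    exact fun a => ⟨ψ a, h2 a⟩
  dl := (χ : B →ₗ[K] A) ∘ₗ W.dl ∘ₗ (ψ : A →ₗ[K] B)
  hdl x y := by
    show χ (W.dl (ψ (x * y))) = χ (W.dl (ψ x)) * y + x * χ (W.dl (ψ y))
    rw [map_mul, W.hdl, map_add, map_mul, map_mul, h2, h2]
  hdlw m := by
    show χ (W.dl (ψ (χ (W.w m)))) = _
    rw [h1, W.hdlw, map_smul]
  ta := W.ta ∘ₗ (ψ : A →ₗ[K] B)
  hta m := by
    show W.ta (ψ (χ (W.w m))) = _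
    rw [h1, W.hta]

/-- Words in a free alternative algebra with a chosen basis of `V`. -/
theorem wd_of_free {K V A : Type u} {X : Type} [Field K] [AddCommGroup V] [Module K V]
    [NonUnitalNonAssocRing A] [Module K A] [IsScalarTower K A A] [SMulCommClass K A A] [AltRing A]
    (i : V →ₗ[K] A) (hA : IsFreeAlt K V A i) (b : Basis X K V) : Nonempty (WD K A X) := by
  obtain ⟨ψ, hψ, -⟩ := hA (FreeAlt K X) (b.constr K (FreeAlt.of K X))
  let χ : FreeAlt K X →ₙₐ[K] A := FreeAlt.lift (fun x => i (b x))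
  have e1 : ψ.comp χ = NonUnitalAlgHom.id K (FreeAlt K X) := by
    apply FreeAlt.hom_ext
    intro x
    show ψ (FreeAlt.lift (fun x => i (b x)) (FreeAlt.of K X x)) = FreeAlt.of K X x
    rw [FreeAlt.lift_of, hψ, Basis.constr_basis]
  obtain ⟨φ, hφ, huniq⟩ := hA A i
  have h3 : ∀ v, χ (ψ (i v)) = i v := by
    intro v
    have h4 : ((χ : FreeAlt K X →ₗ[K] A) ∘ₗ (ψ : A →ₗ[K] FreeAlt K X)) ∘ₗ i = i := by
      apply b.ext
      intro x
      show χ (ψ (i (b x))) = i (b x)
      rw [hψ, Basis.constr_basis]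
      exact FreeAlt.lift_of _ x
    exact congrArg (fun f => f v) h4
  have e2 : χ.comp ψ = NonUnitalAlgHom.id K A := by
    rw [huniq (χ.comp ψ) h3, huniq (NonUnitalAlgHom.id K A) (fun _ => rfl)]
  exact ⟨(wdFree K X).trans ψ χ (fun b => congrArg (fun f => f b) e1)
    (fun a => congrArg (fun f => f a) e2)⟩

/-- The free alternative algebra on a set satisfies the universal property. -/
theorem freeAlt_isFree (K : Type u) [Field K] (X : Type) :
    IsFreeAlt K (X →₀ K) (FreeAlt K X) (Finsupp.linearCombination K (FreeAlt.of K X)) := by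
  intro B _ _ _ _ _ f
  refine ⟨FreeAlt.lift (fun x => f (Finsupp.single x 1)), ?_, ?_⟩
  · intro v
    have h : ((FreeAlt.lift (fun x => f (Finsupp.single x 1)) : FreeAlt K X →ₙₐ[K] B) :
        FreeAlt K X →ₗ[K] B) ∘ₗ (Finsupp.linearCombination K (FreeAlt.of K X)) = f := by
      apply (Finsupp.basisSingleOne (R := K) (ι := X)).ext
      intro x
      rw [Finsupp.coe_basisSingleOne, LinearMap.comp_apply, Finsupp.linearCombination_single,
        one_smul]
      exact FreeAlt.lift_of _ x
    exact congrArg (fun f => f v) h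
  · intro φ hφ
    apply FreeAlt.hom_ext
    intro x
    rw [FreeAlt.lift_of]
    have h := hφ (Finsupp.single x 1)
    rw [Finsupp.linearCombination_single, one_smul] at h
    exact h

end Pool.Agent.N4.Abg
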